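import Pool.Agent.H99.PI.DDefs

/-!
# Forests are regular

Forests. Suppose that the matrix `1 - N` has a kernel vector `v ≠ 0`:
`v j = ∑ j', (if e j j' then D (z j') j else 0) * v j'`. Let `S` be the set of the `i` with `v j ≠ 0` for some
`j` with `z j = i` and `e j₀ j` for some `j₀` (so `D (z j) j ≥ 2`).
Claim: there is an `i ∈ S` such that for all `j` with `z j = i`, `D i j ≠ 0`, `v j ≠ 0` and all
`i' ∈ S`, `i' ≠ i`, we have `D i' j = 0`. Otherwise every `i ∈ S` has a pair `(j, i')` with `z j = i`, `i' ∈ S`,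
`i' ≠ i`, `D i j ≠ 0`, `D i' j ≠ 0`. If there is an `i ∈ S` with such a pair with `b j > a i`, take one with
maximal `a i`: then `a i' > b j` (`i` is the only lower neighbour of `j`), and for the pair `(j₁, i'')` of
`i'` we have `j₁ ≠ j` (`z j₁ = i' ≠ i = z j`), so `b j₁ > a i'` (`j` is the only lower neighbour of `i'`), a
contradiction. So `b j < a i` for all pairs; take `i` with minimal `a i`: `a i' > b j` by minimality (`a i' ≠ b j`),
so `j` is the only lower neighbour of `i'`, and the pair `(j₁, i'')` of `i'` has `j₁ = j`, but `z j₁ = i' ≠ i`.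
For such an `i` start with a `j` with `z j = i`, `v j ≠ 0`, which is a target (`e j₀ j`). In
`v j = ∑ …` only the terms with `z j' = i` remain (`v j' ≠ 0` and `e j j'` imply `z j' ∈ S`), and this is at most one
term: `v j = D i j * v j'`, `D i j ≥ 2`, so `0 < |v j'| < |v j|` and `j'` is again such an element: take
`j` with minimal `|v j|` at the beginning.
-/

set_option linter.unusedSectionVars false

open MeasureTheory Matrix
open scoped ENNReal

namespace Pool.Agent.H99.PI

/-- The bipartite graph of the rows `i` and the columns `j` with `D i j ≠ 0` is a forest: there are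
heights of the rows and of the columns such that adjacent ones have different heights, and every row
and every column has at most one neighbour of a smaller height. -/
def IsForest {σ κ : Type} (D : σ → κ → ℕ) : Prop :=
  ∃ (a : σ → ℕ) (b : κ → ℕ), (∀ i j, D i j ≠ 0 → a i ≠ b j) ∧
    (∀ i j j', D i j ≠ 0 → D i j' ≠ 0 → b j < a i → b j' < a i → j = j') ∧
    ∀ j i i', D i j ≠ 0 → D i' j ≠ 0 → a i < b j → a i' < b j → i = i'

/-- The combinatorial claim. -/
private theorem exists_row {σ κ : Type} {D : σ → κ → ℕ} (H : IsForest D) (z : κ → σ) (S : Finset σ)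
    (hS : S.Nonempty) :
    ∃ i ∈ S, ∀ j, z j = i → D i j ≠ 0 → ∀ i' ∈ S, i' ≠ i → D i' j = 0 := by
  obtain ⟨a, b, h0, hr, hc⟩ := H
  by_contra hcon
  push Not at hcon
  by_cases hA : ∃ i ∈ S, ∃ j, z j = i ∧ D i j ≠ 0 ∧ (∃ i' ∈ S, i' ≠ i ∧ D i' j ≠ 0) ∧ a i < b j
  · obtain ⟨i₀, hi₀S, hi₀⟩ := hA
    classical
    obtain ⟨i, hi, hmax⟩ := Finset.exists_max_image
      (S.filter fun i => ∃ j, z j = i ∧ D i j ≠ 0 ∧ (∃ i' ∈ S, i' ≠ i ∧ D i' j ≠ 0) ∧ a i < b j) a
      ⟨i₀, Finset.mem_filter.mpr ⟨hi₀S, hi₀⟩⟩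
    obtain ⟨hiS, j, hz, hD, ⟨i', hi'S, hne, hD'⟩, hlt⟩ := Finset.mem_filter.mp hi
    have h1 : b j < a i' := by
      rcases lt_trichotomy (a i') (b j) with h | h | h
      · exact absurd (hc j i' i hD' hD h hlt) hne
      · exact absurd h (h0 i' j hD')
      · exact h
    obtain ⟨j₁, hz₁, hD₁, i'', hi''S, hne'', hD''⟩ := hcon i' hi'S
    have hj : j₁ ≠ j := by
      rintro rfl
      exact hne (hz₁.symm.trans hz)
    have h2 : a i' < b j₁ := by
      rcases lt_trichotomy (a i') (b j₁) with h | h | h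
      · exact h
      · exact absurd h (h0 i' j₁ hD₁)
      · exact absurd (hr i' j₁ j hD₁ hD' h h1) hj
    have h3 := hmax i' (Finset.mem_filter.mpr ⟨hi'S, j₁, hz₁, hD₁, ⟨i'', hi''S, hne'', hD''⟩, h2⟩)
    omega
  · push Not at hA
    obtain ⟨i, hiS, hmin⟩ := Finset.exists_min_image S a hS
    obtain ⟨j, hz, hD, i', hi'S, hne, hD'⟩ := hcon i hiS
    have h1 := hA i hiS j hz hD ⟨i', hi'S, hne, hD'⟩
    have h1' := h0 i j hD
    have h2 := hmin i' hi'S
    obtain ⟨j₁, hz₁, hD₁, i'', hi''S, hne'', hD''⟩ := hcon i' hi'S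
    have h3 := hA i' hi'S j₁ hz₁ hD₁ ⟨i'', hi''S, hne'', hD''⟩
    have h3' := h0 i' j₁ hD₁
    have h4 : j₁ = j := hr i' j₁ j hD₁ hD' (by omega) (by omega)
    subst h4
    exact hne (hz₁.symm.trans hz)

theorem isReg_forest {σ κ : Type} [Fintype κ] [DecidableEq κ] {D : σ → κ → ℕ}
    (H : IsForest D) : IsReg D := by
  classical
  intro z e he1 he2 hdet
  obtain ⟨v, hv0, hv⟩ := Matrix.exists_mulVec_eq_zero_iff.mpr hdet
  have hv' : ∀ j, v j = ∑ j', (if e j j' = true then (D (z j') j : ℝ) else 0) * v j' := by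
    intro j
    have h := congrFun hv j
    simp only [Matrix.mulVec, dotProduct, Matrix.of_apply, sub_mul, Finset.sum_sub_distrib,
      Pi.zero_apply] at h
    have h1 : ∑ x, (if j = x then (1 : ℝ) else 0) * v x = v j := by simp
    rw [h1] at h
    linarith
  have hstep : ∀ j, v j ≠ 0 → ∃ j', e j j' = true ∧ D (z j') j ≠ 0 ∧ v j' ≠ 0 := by
    intro j hj
    by_contra hcon
    push Not at hcon
    apply hj
    rw [hv' j]
    refine Finset.sum_eq_zero fun j' _ => ?_
    by_cases h : e j j' = true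
    · by_cases h2 : D (z j') j = 0
      · simp [h2]
      · rw [hcon j' h h2, mul_zero]
    · simp [h]
  let T : Finset κ := Finset.univ.filter fun j => v j ≠ 0 ∧ ∃ j₀, e j₀ j = true
  have hT : T.Nonempty := by
    obtain ⟨j, hj⟩ : ∃ j, v j ≠ 0 := by
      by_contra h
      push Not at h
      exact hv0 (funext h)
    obtain ⟨j', h1, _, h3⟩ := hstep j hj
    exact ⟨j', Finset.mem_filter.mpr ⟨Finset.mem_univ _, h3, j, h1⟩⟩
  obtain ⟨i, hi, hrow⟩ := exists_row H z (T.image z) (hT.image z)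
  obtain ⟨j₁, hj₁T, hj₁⟩ := Finset.mem_image.mp hi
  obtain ⟨j, hj, hmin⟩ := Finset.exists_min_image (T.filter fun j => z j = i) (fun j => |v j|)
    ⟨j₁, Finset.mem_filter.mpr ⟨hj₁T, hj₁⟩⟩
  obtain ⟨hjT, hz⟩ := Finset.mem_filter.mp hj
  obtain ⟨_, hvj, j₀, hj₀⟩ := Finset.mem_filter.mp hjT
  have hD2 : 2 ≤ D i j := hz ▸ he1 j₀ j hj₀
  have hrow' := hrow j hz (by omega)
  obtain ⟨j', h1, h2, h3⟩ := hstep j hvj
  have hj'T : j' ∈ T := Finset.mem_filter.mpr ⟨Finset.mem_univ _, h3, j, h1⟩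
  have hzj' : z j' = i := by
    by_contra hne
    exact h2 (hrow' (z j') (Finset.mem_image_of_mem z hj'T) hne)
  have hsum : v j = (D i j : ℝ) * v j' := by
    rw [hv' j, Finset.sum_eq_single j']
    · rw [if_pos h1, hzj']
    · intro x _ hx
      by_cases hex : e j x = true
      · by_cases hvx : v x = 0
        · rw [hvx, mul_zero]
        · have hxT : x ∈ T := Finset.mem_filter.mpr ⟨Finset.mem_univ _, hvx, j, hex⟩
          by_cases hzx : z x = i
          · exact absurd (he2 j x j' hex h1 (hzx.trans hzj'.symm)) hx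
          · rw [hrow' (z x) (Finset.mem_image_of_mem z hxT) hzx]
            simp
      · simp [hex]
    · intro h
      exact absurd (Finset.mem_univ _) h
  have hm := hmin j' (Finset.mem_filter.mpr ⟨hj'T, hzj'⟩)
  rw [hsum, abs_mul, Nat.abs_cast] at hm
  have h5 : 0 < |v j'| := abs_pos.mpr h3
  have h6 : (2 : ℝ) ≤ (D i j : ℝ) := by exact_mod_cast hD2
  nlinarith

end Pool.Agent.H99.PI
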