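import Pool.Agent.H99.PI.BVec

/-!
# Singular pairs of tuples

`Amat p q` for `p j = cver j (y j)`, `q j' = pray (z j')` is the matrix of
`(if j = j' then 1 else 0) - cdeg (fac (z j')) j * (if z j' = y j (fac (z j')) then 1 else 0)`. If for all
`j, j'` with `z j' = y j (fac (z j'))` and `cdeg (fac (z j')) j ≠ 0` we have `2 ≤ cdeg (fac (z j')) j'` then
this is the matrix of `IsReg` for `z' j' = fac (z j')` and `e j j' = (z j' = y j (fac (z j')) and
cdeg (fac (z j')) j ≠ 0)`; note `cdeg (fac (z j')) j' ≠ 0` as `z j'` is in this block, and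
`z j' = y j i = z j''` implies `j' = j''` as `part (z j') = j'`.
-/

set_option linter.unusedSectionVars false

open MeasureTheory Matrix
open scoped ENNReal

namespace Pool.Agent.H99.PI

open Pool.Agent.H99.SYZ Pool.Agent.H55.CI Pool.Agent.H2.CI Pool.Agent.H99.ON

variable {ι σ κ : Type} [Fintype ι] [Fintype σ] [Fintype κ] [DecidableEq ι] [DecidableEq σ]
  [DecidableEq κ] {f : ι → σ} {part : ι ⊕ σ → κ} {P : κ → Set (ι → ℝ)} {g h : (ι → ℝ) → ℝ}

/-- If a pair of tuples is singular then some `z j'` is alone in its block and equal to some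
`y j i`. -/
theorem c_det (hD : IsReg (cdeg f part)) {y : κ → σ → ι ⊕ σ}
    (hy : ∀ j i, fac f (y j i) = i) {z : κ → ι ⊕ σ} (hz : ∀ j, part (z j) = j)
    (hdet : (Amat (fun j => cver f part j (y j)) fun j => pray f (z j)).det = 0) :
    ∃ j j', z j' = y j (fac f (z j')) ∧ cdeg f part (fac f (z j')) j ≠ 0 ∧
      cdeg f part (fac f (z j')) j' = 1 := by
  classical
  by_contra hcon
  push Not at hcon
  have hpos : ∀ j', cdeg f part (fac f (z j')) j' ≠ 0 := by
    intro j' h0
    unfold cdeg at h0
    rw [Finset.card_eq_zero, Finset.filter_eq_empty_iff] at h0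
    exact h0 (Finset.mem_univ (z j')) ⟨rfl, hz j'⟩
  refine hD (fun j' => fac f (z j'))
    (fun j j' => decide (z j' = y j (fac f (z j')) ∧ cdeg f part (fac f (z j')) j ≠ 0)) ?_ ?_ ?_
  · intro j j' he
    rw [decide_eq_true_eq] at he
    have h1 := hcon j j' he.1 he.2
    have h2 := hpos j'
    show 2 ≤ cdeg f part (fac f (z j')) j'
    omega
  · intro j j' j'' he he' hzz
    rw [decide_eq_true_eq] at he he'
    have h1 : fac f (z j') = fac f (z j'') := hzz
    rw [← hz j', ← hz j'', he.1, he'.1, h1]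
  · refine (congrArg Matrix.det ?_).trans hdet
    ext j j'
    show (if j = j' then (1 : ℝ) else 0) - (if decide (z j' = y j (fac f (z j')) ∧
      cdeg f part (fac f (z j')) j ≠ 0) = true then (cdeg f part (fac f (z j')) j : ℝ) else 0) =
      cver f part j (y j) ⬝ᵥ pray f (z j')
    rw [cver_dot (hy j), hz j']
    have h1 : (if j = j' then (1 : ℝ) else 0) = if j' = j then 1 else 0 := by
      by_cases h2 : j = j'
      · rw [if_pos h2, if_pos h2.symm]
      · rw [if_neg h2, if_neg fun h3 => h2 h3.symm]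
    rw [h1]
    congr 1
    by_cases h2 : z j' = y j (fac f (z j'))
    · rw [if_pos h2, mul_one]
      by_cases h3 : cdeg f part (fac f (z j')) j = 0
      · rw [if_neg (by rw [decide_eq_true_eq]; exact fun h4 => h4.2 h3), h3, Nat.cast_zero]
      · rw [if_pos (by rw [decide_eq_true_eq]; exact ⟨h2, h3⟩)]
    · rw [if_neg h2, mul_zero, if_neg (by rw [decide_eq_true_eq]; exact fun h4 => h2 h4.1)]

/-- A coordinate which is alone in its block. -/
theorem cdeg_one {a : ι ⊕ σ} (ha : cdeg f part (fac f a) (part a) = 1) {k : ι ⊕ σ}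
    (h1 : fac f k = fac f a) (h2 : part k = part a) : k = a := by
  unfold cdeg at ha
  exact Finset.card_le_one.1 ha.le k (Finset.mem_filter.2 ⟨Finset.mem_univ _, h1, h2⟩) a
    (Finset.mem_filter.2 ⟨Finset.mem_univ _, rfl, rfl⟩)

/-- Without entries `1` all pairs of tuples are nonsingular. -/
theorem c_nondeg (hD : IsReg (cdeg f part)) (h1 : ∀ i j, cdeg f part i j ≠ 1)
    {p : κ → ι → ℝ} (hp : p ∈ tup (cP f part)) {q : κ → ι → ℝ} (hq : q ∈ tup (cQ f part)) :
    (Amat p q).det ≠ 0 := by
  intro hdet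
  choose y hy hpy using fun j => (hp j).2
  choose z hz hqz using hq
  have h2 : p = fun j => cver f part j (y j) := funext hpy
  have h3 : q = fun j => pray f (z j) := funext hqz
  rw [h2, h3] at hdet
  obtain ⟨j, j', -, -, h4⟩ := c_det hD hy hz hdet
  exact h1 _ _ h4

end Pool.Agent.H99.PI
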