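import Pool.Agent.H99.PI.BHom

/-!
# The polytopes and the tight normals in the new coordinates
-/

set_option linter.unusedSectionVars false

open MeasureTheory Matrix
open scoped ENNReal

namespace Pool.Agent.H99.PI

open Pool.Agent.H99.SYZ Pool.Agent.H55.CI Pool.Agent.H2.CI Pool.Agent.H99.ON

variable {ι σ κ : Type} [Fintype ι] [Fintype σ] [Fintype κ] [DecidableEq ι] [DecidableEq σ]
  [DecidableEq κ] {f : ι → σ} {part : ι ⊕ σ → κ} {P : κ → Set (ι → ℝ)} {g h : (ι → ℝ) → ℝ}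
  {c : κ → ℝ}

theorem mem_polyQ {m : ι → ℝ} : m ∈ poly (un (cQ f part)) g ↔ ∀ k, 0 ≤ smap f g m k := by
  constructor
  · intro hm k
    exact sub_nonneg.2 (hm (pray f k) ⟨part k, k, rfl, rfl⟩)
  · rintro hm q ⟨j, k, -, rfl⟩
    exact sub_nonneg.1 (hm k)

theorem tightQ {m : ι → ℝ} (k : ι ⊕ σ) : m ⬝ᵥ pray f k = g (pray f k) ↔ smap f g m k = 0 := by
  unfold smap
  rw [sub_eq_zero, eq_comm]

private theorem bt_dot (n : ι → ℝ) {u : ι ⊕ σ → ℕ} {j : κ} {p : ι → ℝ}
    (hu : IsCExp f part j u p) :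
    n ⬝ᵥ p = rsum part j (thom f n) - ∑ k, (u k : ℝ) * thom f n k := by
  have h1 : n ⬝ᵥ p = ∑ k, thom f n k * (p ⬝ᵥ pray f k) := by
    conv_lhs => rw [(isPHom_thom f n).eq]
    rw [sum_dotProduct]
    refine Finset.sum_congr rfl fun k _ => ?_
    rw [smul_dotProduct, smul_eq_mul, dotProduct_comm]
  rw [h1, rsum, ← Finset.sum_sub_distrib]
  refine Finset.sum_congr rfl fun k _ => ?_
  rw [hu.dot k]
  split_ifs <;> ring

private theorem bt_sum {y : σ → ι ⊕ σ} (hy : ∀ i, fac f (y i) = i) (j : κ) (t : ι ⊕ σ → ℝ) :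
    ∑ k, (((if k = y (fac f k) then cdeg f part (fac f k) j else 0 : ℕ)) : ℝ) * t k =
      ∑ i, (cdeg f part i j : ℝ) * t (y i) := by
  have h1 : ∀ i, (cdeg f part i j : ℝ) * t (y i) =
      ∑ k, if k = y i then (cdeg f part i j : ℝ) * t k else 0 := by
    intro i
    rw [Finset.sum_ite_eq' Finset.univ (y i)]
    simp
  rw [Finset.sum_congr rfl fun i _ => h1 i, Finset.sum_comm]
  refine Finset.sum_congr rfl fun k _ => ?_
  rw [Finset.sum_eq_single (fac f k)]
  · split_ifs <;> simp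
  · intro i _ hi
    rw [if_neg]
    intro hk
    apply hi
    rw [hk, hy]
  · intro h
    exact absurd (Finset.mem_univ _) h

theorem dot_cver (n : ι → ℝ) {y : σ → ι ⊕ σ} (hy : ∀ i, fac f (y i) = i) (j : κ) :
    n ⬝ᵥ cver f part j y =
      rsum part j (thom f n) - ∑ i, (cdeg f part i j : ℝ) * thom f n (y i) := by
  rw [bt_dot n (isCExp_cver hy j), bt_sum hy]

/-- For general monomials. -/
theorem dot_cexp (n : ι → ℝ) {u : ι ⊕ σ → ℕ} {j : κ} {p : ι → ℝ} (hu : IsCExp f part j u p) :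
    n ⬝ᵥ p = rsum part j (thom f n) - ∑ k, (u k : ℝ) * thom f n k :=
  bt_dot n hu

private theorem bt_choice (f : ι → σ) (n : ι → ℝ) :
    ∃ y : σ → ι ⊕ σ, (∀ i, fac f (y i) = i) ∧ ∀ i, thom f n (y i) = 0 := by
  choose y hy using (isPHom_thom f n).zero
  exact ⟨y, fun i => (hy i).1, fun i => (hy i).2⟩

private theorem bt_nonneg (f : ι → σ) (n : ι → ℝ) (y : σ → ι ⊕ σ) (j : κ) :
    ∀ i ∈ Finset.univ, 0 ≤ (cdeg f part i j : ℝ) * thom f n (y i) := fun i _ =>
  mul_nonneg (Nat.cast_nonneg _) ((isPHom_thom f n).nonneg (y i))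

private theorem bt_rsum_le {n : ι → ℝ} (hn : n ∈ poly (un (cP f part)) h) {B : ℝ} (hB : 0 ≤ B)
    {j : κ} (hhB : ∀ p ∈ cP f part j, h p ≤ B) : rsum part j (thom f n) ≤ B := by
  obtain ⟨y, hy, hy0⟩ := bt_choice f n
  have h1 : n ⬝ᵥ cver f part j y = rsum part j (thom f n) := by
    rw [dot_cver n hy j, Finset.sum_eq_zero, sub_zero]
    intro i _
    rw [hy0, mul_zero]
  by_cases h0 : cver f part j y = 0
  · rw [← h1, h0, dotProduct_zero]
    exact hB
  · have hm : cver f part j y ∈ cP f part j := ⟨h0, y, hy, rfl⟩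
    rw [← h1]
    exact (hn _ ⟨j, hm⟩).trans (hhB _ hm)

/-- The polytope of the powers with constant heights `c j ≥ 0`. (If `cver f part j y = 0` for the zeros
`y` of the coordinates of `n` then `rsum part j = 0`.) -/
theorem mem_polyP (hc : ∀ j, 0 ≤ c j) (hh : ∀ j, ∀ p ∈ cP f part j, h p = c j) {n : ι → ℝ} :
    n ∈ poly (un (cP f part)) h ↔ ∀ j, rsum part j (thom f n) ≤ c j := by
  constructor
  · intro hn j
    exact bt_rsum_le hn (hc j) fun p hp => (hh j p hp).le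
  · rintro hn p ⟨j, hp⟩
    rw [hh j p hp]
    obtain ⟨-, y, hy, rfl⟩ := hp
    rw [dot_cver n hy j]
    have h1 := Finset.sum_nonneg (bt_nonneg (part := part) f n y j)
    have h2 := hn j
    linarith

theorem tightP (hc : ∀ j, 0 ≤ c j) (hh : ∀ j, ∀ p ∈ cP f part j, h p = c j) {n : ι → ℝ}
    (hn : n ∈ poly (un (cP f part)) h) {y : σ → ι ⊕ σ} (hy : ∀ i, fac f (y i) = i) (j : κ) :
    n ⬝ᵥ cver f part j y = c j ↔
      rsum part j (thom f n) = c j ∧ ∀ i, cdeg f part i j ≠ 0 → thom f n (y i) = 0 := by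
  rw [dot_cver n hy j]
  have h0 := bt_nonneg (part := part) f n y j
  have h1 := Finset.sum_nonneg h0
  have h2 := (mem_polyP hc hh).1 hn j
  constructor
  · intro ht
    have h3 : ∑ i, (cdeg f part i j : ℝ) * thom f n (y i) = 0 := by linarith
    refine ⟨by linarith, fun i hi => ?_⟩
    have h4 := (Finset.sum_eq_zero_iff_of_nonneg h0).1 h3 i (Finset.mem_univ i)
    rcases mul_eq_zero.1 h4 with h5 | h5
    · exact absurd (Nat.cast_eq_zero.1 h5) hi
    · exact h5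
  · rintro ⟨ht, hz⟩
    rw [ht, Finset.sum_eq_zero, sub_zero]
    intro i _
    by_cases hi : cdeg f part i j = 0
    · rw [hi, Nat.cast_zero, zero_mul]
    · rw [hz i hi, mul_zero]

/-- Points with tight tuples are in the skeleton. -/
theorem thom_mem_Xs (hc : ∀ j, 0 < c j) (hh : ∀ j, ∀ p ∈ cP f part j, h p = c j) {n : ι → ℝ}
    (hn : n ∈ poly (un (cP f part)) h) {p : κ → ι → ℝ} (hp : p ∈ tup (cP f part))
    (ht : ∀ j, n ⬝ᵥ p j = h (p j)) : thom f n ∈ Xs part (fac f) c := by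
  refine ⟨(isPHom_thom f n).nonneg, fun j => ?_, (isPHom_thom f n).zero⟩
  have h1 := ht j
  rw [hh j _ (hp j)] at h1
  obtain ⟨-, y, hy, hpy⟩ := hp j
  rw [hpy] at h1
  exact ((tightP (fun j => (hc j).le) hh hn hy j).1 h1).1

/-- A bound for the coordinates, for arbitrary heights. -/
theorem thom_le {n : ι → ℝ} (hn : n ∈ poly (un (cP f part)) h) {B : ℝ} (hB : 0 ≤ B)
    (hhB : ∀ p ∈ un (cP f part), h p ≤ B) (k : ι ⊕ σ) : thom f n k ≤ B := by
  have h1 : rsum part (part k) (thom f n) ≤ B :=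
    bt_rsum_le hn hB fun p hp => hhB p ⟨part k, hp⟩
  refine le_trans ?_ h1
  have h2 : ∀ l ∈ Finset.univ, 0 ≤ (if part l = part k then thom f n l else 0) := by
    intro l _
    split_ifs
    · exact (isPHom_thom f n).nonneg l
    · exact le_rfl
  have h3 := Finset.single_le_sum h2 (Finset.mem_univ k)
  rwa [if_pos rfl] at h3

theorem bounded_polyQ (g : (ι → ℝ) → ℝ) : Bornology.IsBounded (poly (un (cQ f part)) g) := by
  refine (p_bddQ f g).subset ?_
  rintro m hm q ⟨-, k, rfl⟩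
  exact hm _ ⟨part k, k, rfl, rfl⟩

theorem bounded_polyP (h : (ι → ℝ) → ℝ) : Bornology.IsBounded (poly (un (cP f part)) h) := by
  set B : ℝ := ∑ w : κ × (σ → ι ⊕ σ), |h (cver f part w.1 w.2)| with hB
  have hB0 : 0 ≤ B := Finset.sum_nonneg fun _ _ => abs_nonneg _
  have hhB : ∀ p ∈ un (cP f part), h p ≤ B := by
    rintro p ⟨j, -, y, -, rfl⟩
    exact (le_abs_self _).trans (Finset.single_le_sum
      (f := fun w : κ × (σ → ι ⊕ σ) => |h (cver f part w.1 w.2)|)
      (fun _ _ => abs_nonneg _) (Finset.mem_univ (j, y)))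
  set N : ℝ := (Fintype.card (ι ⊕ σ) : ℝ) with hN
  have hN0 : 0 ≤ N := Nat.cast_nonneg _
  refine isBounded_iff_forall_norm_le.2 ⟨N * B, fun n hn => ?_⟩
  have hk : ∀ k, thom f n k ≤ B := fun k => thom_le hn hB0 hhB k
  refine (pi_norm_le_iff_of_nonneg (by positivity)).2 fun x => ?_
  rw [(isPHom_thom f n).eq, Finset.sum_apply]
  have h2 : ∑ _k : ι ⊕ σ, B = N * B := by
    rw [Finset.sum_const, Finset.card_univ, nsmul_eq_mul]
  rw [← h2]
  refine (norm_sum_le _ _).trans (Finset.sum_le_sum fun l _ => ?_)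
  rw [Pi.smul_apply, smul_eq_mul, norm_mul, Real.norm_eq_abs,
    abs_of_nonneg ((isPHom_thom f n).nonneg l)]
  refine le_trans (mul_le_of_le_one_right ((isPHom_thom f n).nonneg l) ?_) (hk l)
  rcases l with y | i
  · show ‖(Pi.single y (1 : ℝ) : ι → ℝ) x‖ ≤ 1
    rw [Pi.single_apply]
    split_ifs <;> simp
  · show ‖(if f x = i then (-1 : ℝ) else 0)‖ ≤ 1
    split_ifs <;> simp

end Pool.Agent.H99.PI
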