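import Pool.Agent.H99.PI.BTight
import Pool.Agent.H99.ON.Strong

/-!
# Strongly regular heights, and the existence of tight tuples

`c_strongQ`: let `q j = pray (z j)` be tight and `q' = pray k'` also, `k' ≠ z j` for all `j`, and
`q' = ∑ λ j • q j`. By `pray_rel` the coefficients of this linear relation of the rays are constant on the
factors. The coefficient of `k'` is `1`, so all coordinates of the factor of `k'` are `k'` or a `z j`,
so all `smap` are zero there, but their sum is `gsum > 0`.

`c_strongP`: let `p` be a tight tuple, `p' ∈ cP j'` tight as well, `p' = ∑ λ j • p j`. For `l` take `k` with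
`part k = l` and `thom k > 0` (the sum is `c l > 0`). All tight powers of the equation `j` have the pairing
`1` with `pray k` if `j = l` and `0` otherwise. So `λ l` is `1` for `l = j'` and `0` otherwise.

`c_ne`: `exists_tight` (`Pool.Agent.H99.ON.Strong`) with `q j = pray (z j)`, `m` with `m ⬝ pray (z j) = 1`,
`m ⬝ pray k = 0` for the other `k` which are not `e i`, and `m ⬝ pray (e i) = -(number of z j in the factor)`
(`exists_dot_pray`).
-/

set_option linter.unusedSectionVars false

open MeasureTheory Matrix
open scoped ENNReal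

namespace Pool.Agent.H99.PI

open Pool.Agent.H99.SYZ Pool.Agent.H55.CI Pool.Agent.H2.CI Pool.Agent.H99.ON

variable {ι σ κ : Type} [Fintype ι] [Fintype σ] [Fintype κ] [DecidableEq ι] [DecidableEq σ]
  [DecidableEq κ] {f : ι → σ} {part : ι ⊕ σ → κ} {P : κ → Set (ι → ℝ)} {g h : (ι → ℝ) → ℝ}
  {c : κ → ℝ}

theorem c_strongQ (hf : Function.Surjective f) (hg : ∀ k, 0 < g (pray f k)) :
    IsStrong (cQ f part) g := by
  refine ⟨?_, bounded_polyQ g, ?_⟩
  · rintro q ⟨j, k, -, rfl⟩
    exact hg k
  · rintro q hq m hm ht q' ⟨j', k', -, rfl⟩ hne ht' hsp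
    choose z hz using hq
    obtain ⟨b, hb⟩ := (Submodule.mem_span_range_iff_exists_fun ℝ).1 hsp
    have hzk : ∀ j, z j ≠ k' := fun j hj => hne j (by rw [(hz j).2, hj])
    set w : ι ⊕ σ → ℝ := fun k => (if k = k' then 1 else 0) - ∑ j, if z j = k then b j else 0
      with hw
    have hrel : ∑ k, w k • pray f k = 0 := by
      have h1 : ∑ k, (if k = k' then (1 : ℝ) else 0) • pray f k = pray f k' := by
        rw [Finset.sum_eq_single k']
        · rw [if_pos rfl, one_smul]
        · intro k _ hk
          rw [if_neg hk, zero_smul]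
        · intro h
          exact absurd (Finset.mem_univ _) h
      have h2 : ∑ k, (∑ j, if z j = k then b j else 0) • pray f k = ∑ j, b j • q j := by
        simp only [Finset.sum_smul]
        rw [Finset.sum_comm]
        refine Finset.sum_congr rfl fun j _ => ?_
        rw [Finset.sum_eq_single (z j)]
        · rw [if_pos rfl, (hz j).2]
        · intro k _ hk
          rw [if_neg (Ne.symm hk), zero_smul]
        · intro h
          exact absurd (Finset.mem_univ _) h
      simp only [hw, sub_smul]
      rw [Finset.sum_sub_distrib, h1, h2, hb, sub_self]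
    have hk1 : w k' = 1 := by
      simp only [hw, if_true]
      rw [Finset.sum_eq_zero, sub_zero]
      intro j _
      rw [if_neg (hzk j)]
    have hzero : ∀ l, fac f l = fac f k' → smap f g m l = 0 := by
      intro l hl
      by_cases hlk : l = k'
      · rw [hlk]
        exact (tightQ k').1 ht'
      · have h1 : w l = 1 := (pray_rel hrel hl).trans hk1
        have h2 : ∃ j, z j = l := by
          by_contra hcon
          push Not at hcon
          have h3 : w l = 0 := by
            simp only [hw, if_neg hlk]
            rw [Finset.sum_eq_zero, sub_zero]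
            intro j _
            rw [if_neg (hcon j)]
          rw [h3] at h1
          exact zero_ne_one h1
        obtain ⟨j, hj⟩ := h2
        have h3 := ht j
        rw [(hz j).2, hj] at h3
        exact (tightQ l).1 h3
    have h1 := rsum_smap f g m (fac f k')
    have h2 : rsum (fac f) (fac f k') (smap f g m) = 0 := by
      unfold rsum
      refine Finset.sum_eq_zero fun l _ => ?_
      split_ifs with hl
      · exact hzero l hl
      · rfl
    have h3 : 0 < gsum f g (fac f k') := by
      unfold gsum
      refine Finset.sum_pos' (fun l _ => ?_) ⟨k', Finset.mem_univ _, ?_⟩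
      · split_ifs
        · exact (hg l).le
        · exact le_rfl
      · rw [if_pos rfl]
        exact hg k'
    rw [← h1, h2] at h3
    exact lt_irrefl _ h3

/-- the pairing of a tight product of powers with a coordinate which is not zero -/
private theorem bs_dot (hc : ∀ j, 0 < c j) (hh : ∀ j, ∀ p ∈ cP f part j, h p = c j) {n : ι → ℝ}
    (hn : n ∈ poly (un (cP f part)) h) {j : κ} {p : ι → ℝ} (hp : p ∈ cP f part j)
    (ht : n ⬝ᵥ p = h p) {k : ι ⊕ σ} (hk : 0 < thom f n k) :
    p ⬝ᵥ pray f k = if part k = j then 1 else 0 := by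
  rw [hh j p hp] at ht
  obtain ⟨-, y, hy, rfl⟩ := hp
  have h1 := ((tightP (fun j => (hc j).le) hh hn hy j).1 ht).2
  rw [cver_dot hy]
  by_cases h2 : k = y (fac f k)
  · by_cases h3 : cdeg f part (fac f k) j = 0
    · rw [h3, Nat.cast_zero, zero_mul, sub_zero]
    · have h4 := h1 (fac f k) h3
      rw [← h2] at h4
      exact absurd h4 hk.ne'
  · rw [if_neg h2, mul_zero, sub_zero]

theorem c_strongP (hc : ∀ j, 0 < c j) (hh : ∀ j, ∀ p ∈ cP f part j, h p = c j) :
    IsStrong (cP f part) h := by
  refine ⟨?_, bounded_polyP h, ?_⟩
  · rintro p ⟨j, hp⟩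
    rw [hh j p hp]
    exact hc j
  · rintro p hp n hn ht p' ⟨j', hp'⟩ hne ht' hsp
    obtain ⟨b, hb⟩ := (Submodule.mem_span_range_iff_exists_fun ℝ).1 hsp
    have hX := thom_mem_Xs hc hh hn hp ht
    have hex : ∀ l, ∃ k, part k = l ∧ 0 < thom f n k := by
      intro l
      by_contra hcon
      push Not at hcon
      have h1 := hX.2.1 l
      have h2 : rsum part l (thom f n) ≤ 0 := by
        unfold rsum
        refine Finset.sum_nonpos fun k _ => ?_
        split_ifs with hk
        · exact hcon k hk
        · exact le_rfl
      have h3 := hc l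
      linarith
    have hcoef : ∀ l, b l = if l = j' then 1 else 0 := by
      intro l
      obtain ⟨k, hk, hk0⟩ := hex l
      have h1 := bs_dot hc hh hn hp' ht' hk0
      rw [← hb, sum_dotProduct, Finset.sum_eq_single l] at h1
      · rw [smul_dotProduct, bs_dot hc hh hn (hp l) (ht l) hk0, if_pos hk, smul_eq_mul, mul_one,
          hk] at h1
        exact h1
      · intro j _ hj
        rw [smul_dotProduct, bs_dot hc hh hn (hp j) (ht j) hk0, if_neg, smul_eq_mul, mul_zero]
        rw [hk]
        exact Ne.symm hj
      · intro h
        exact absurd (Finset.mem_univ _) h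
    refine hne j' ?_
    rw [← hb, Finset.sum_eq_single j']
    · rw [hcoef, if_pos rfl, one_smul]
    · intro j _ hj
      rw [hcoef, if_neg hj, zero_smul]
    · intro h
      exact absurd (Finset.mem_univ _) h

theorem c_ne (hf : Function.Surjective f) (hs : HasSec f part)
    (hh : ∀ p ∈ un (cP f part), 0 < h p) :
    ∃ p ∈ tup (cP f part), ∃ n ∈ poly (un (cP f part)) h, ∀ i, n ⬝ᵥ p i = h (p i) := by
  classical
  obtain ⟨z, e, hz, he⟩ := hs
  set N : σ → ℝ := fun i => ∑ k, if fac f k = i then (if ∃ j, k = z j then (1 : ℝ) else 0) else 0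
    with hN
  obtain ⟨m, hm⟩ := exists_dot_pray (f := f) (b := fun k => (if ∃ j, k = z j then (1 : ℝ) else 0) -
    (if k = e (fac f k) then N (fac f k) else 0)) (by
      intro i
      have h1 : ∀ k, (if fac f k = i then ((if ∃ j, k = z j then (1 : ℝ) else 0) -
          (if k = e (fac f k) then N (fac f k) else 0)) else 0) =
          (if fac f k = i then (if ∃ j, k = z j then (1 : ℝ) else 0) else 0) -
            (if k = e i then N i else 0) := by
        intro k
        by_cases hk : fac f k = i
        · rw [if_pos hk, if_pos hk, hk]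
        · rw [if_neg hk, if_neg hk, if_neg, sub_zero]
          intro h2
          exact hk (by rw [h2, he.1])
      rw [Finset.sum_congr rfl fun k _ => h1 k, Finset.sum_sub_distrib,
        Finset.sum_ite_eq' Finset.univ (e i), if_pos (Finset.mem_univ _), sub_self])
  refine exists_tight (c_pair cP_subset) hh (bounded_polyP h) (q := fun j => pray f (z j))
    (fun j => ⟨z j, hz j, rfl⟩) (m := m) fun j => ?_
  show 0 < m ⬝ᵥ pray f (z j)
  rw [hm, if_pos ⟨j, rfl⟩, if_neg (fun h1 => he.2 _ _ h1.symm), sub_zero]
  exact one_pos

end Pool.Agent.H99.PI
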