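import Pool.Agent.H99.PI.BTight

/-!
# The open faces in the new coordinates

`oface_T_exists`: let `n` be in the open face of `p`, `p j = cver j (y' j)`, `t = thom f n`. By `tightP` the
sums of `t` over the parts are `c j`. If a factor `i` had two zeros `k ≠ k'` of `t`: take `j` with
`cdeg i j ≠ 0` and replace `y' j i` by `k` or by `k'`. Both powers are tight, they are different
(`cver_dot` at `k`), nonzero as their pairing with `n` is `c j > 0`, and equal to no `p l`, `l ≠ j`
(`cfull_disjoint`); one of them is not `p j`, a contradiction. So every factor has exactly one zero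
`y i`, and `y' j i = y i` if `cdeg i j ≠ 0`.
-/

set_option linter.unusedSectionVars false

open MeasureTheory Matrix
open scoped ENNReal

namespace Pool.Agent.H99.PI

open Pool.Agent.H99.SYZ Pool.Agent.H55.CI Pool.Agent.H2.CI Pool.Agent.H99.ON

variable {ι σ κ : Type} [Fintype ι] [Fintype σ] [Fintype κ] [DecidableEq ι] [DecidableEq σ]
  [DecidableEq κ] {f : ι → σ} {part : ι ⊕ σ → κ} {g h : (ι → ℝ) → ℝ} {c : κ → ℝ}

theorem oface_S (hf : Function.Surjective f) {z : κ → ι ⊕ σ} (hz : IsSec part z) {m : ι → ℝ} :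
    m ∈ oface (cQ f part) g (fun j => pray f (z j)) ↔
      smap f g m ∈ fc (fac f) (gsum f g) z := by
  constructor
  · rintro ⟨h1, h2⟩
    refine ⟨fun j => (tightQ (z j)).1 (h1 j), fun i => rsum_smap f g m i, fun k hk => ?_⟩
    have h3 := h2 (pray f k) ⟨part k, k, rfl, rfl⟩ fun j hj => hk j (pray_injective hf hj)
    exact sub_pos.2 h3
  · rintro ⟨h1, -, h3⟩
    refine ⟨fun j => (tightQ (z j)).2 (h1 j), ?_⟩
    rintro q' ⟨j, k, -, rfl⟩ hq
    have h4 := h3 k fun j hj => hq j (by rw [hj])
    exact sub_pos.1 h4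

/-- `cver f part j y` only depends on the `y i` with `cdeg f part i j ≠ 0`. -/
theorem cver_congr {j : κ} {y y' : σ → ι ⊕ σ} (h : ∀ i, cdeg f part i j ≠ 0 → y i = y' i) :
    cver f part j y = cver f part j y' := by
  funext x
  unfold cver
  by_cases h0 : cdeg f part (f x) j = 0
  · rw [h0, Nat.cast_zero, zero_mul, zero_mul]
  · rw [h _ h0]

/-- Every factor has a positive degree. -/
theorem exists_cdeg (f : ι → σ) (part : ι ⊕ σ → κ) (i : σ) : ∃ j, cdeg f part i j ≠ 0 := by
  refine ⟨part (Sum.inr i), ?_⟩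
  unfold cdeg
  exact Finset.card_ne_zero_of_mem (a := Sum.inr i)
    (Finset.mem_filter.2 ⟨Finset.mem_univ _, rfl, rfl⟩)

theorem mem_oface_T (hc : ∀ j, 0 < c j) (hh : ∀ j, ∀ p ∈ cP f part j, h p = c j)
    {y : σ → ι ⊕ σ} (hy : IsSec (fac f) y) {n : ι → ℝ} (hn : thom f n ∈ fc part c y) :
    (fun j => cver f part j y) ∈ tup (cP f part) ∧
      n ∈ oface (cP f part) h (fun j => cver f part j y) := by
  obtain ⟨h1, h2, h3⟩ := hn
  have hd : ∀ j, n ⬝ᵥ cver f part j y = c j := by
    intro j
    rw [dot_cver n hy j, h2 j, Finset.sum_eq_zero, sub_zero]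
    intro i _
    rw [h1 i, mul_zero]
  have hm : ∀ j, cver f part j y ∈ cP f part j := by
    intro j
    refine ⟨fun h0 => ?_, y, hy, rfl⟩
    have h4 := hd j
    rw [h0, dotProduct_zero] at h4
    exact (hc j).ne h4
  refine ⟨hm, fun j => ?_, ?_⟩
  · rw [hd j, hh j _ (hm j)]
  · rintro q' ⟨j, hq⟩ hne
    rw [hh j _ hq]
    obtain ⟨-, y', hy', rfl⟩ := hq
    have h4 : ∃ i, cdeg f part i j ≠ 0 ∧ y' i ≠ y i := by
      by_contra hcon
      push Not at hcon
      exact hne j (cver_congr hcon)
    obtain ⟨i, hi, hyi⟩ := h4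
    have h5 : 0 < thom f n (y' i) := by
      refine h3 _ fun i' hi' => ?_
      have h6 : i = i' := by
        have h7 := congrArg (fac f) hi'
        rwa [hy' i, hy i'] at h7
      subst h6
      exact hyi hi'
    have h6 : 0 < ∑ i, (cdeg f part i j : ℝ) * thom f n (y' i) := by
      refine Finset.sum_pos' (fun i _ => mul_nonneg (Nat.cast_nonneg _)
        ((isPHom_thom f n).nonneg _)) ⟨i, Finset.mem_univ i, ?_⟩
      exact mul_pos (Nat.cast_pos.2 (Nat.pos_of_ne_zero hi)) h5
    rw [dot_cver n hy' j, h2 j]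
    linarith

theorem oface_T_exists (hf : Function.Surjective f) (hc : ∀ j, 0 < c j)
    (hh : ∀ j, ∀ p ∈ cP f part j, h p = c j) {p : κ → ι → ℝ} (hp : p ∈ tup (cP f part))
    {n : ι → ℝ} (hn : n ∈ oface (cP f part) h p) :
    ∃ y, IsSec (fac f) y ∧ (p = fun j => cver f part j y) ∧ thom f n ∈ fc part c y := by
  have hpoly : n ∈ poly (un (cP f part)) h := by
    intro q hq
    by_cases hqp : ∃ j, q = p j
    · obtain ⟨j, rfl⟩ := hqp
      exact (hn.1 j).le
    · push Not at hqp
      exact (hn.2 q hq hqp).le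
  choose y' hy' using fun j => (hp j).2
  have hcle : ∀ j, 0 ≤ c j := fun j => (hc j).le
  have ht : ∀ j, rsum part j (thom f n) = c j ∧
      ∀ i, cdeg f part i j ≠ 0 → thom f n (y' j i) = 0 := by
    intro j
    have h1 := hn.1 j
    rw [hh j _ (hp j), (hy' j).2] at h1
    exact (tightP hcle hh hpoly (hy' j).1 j).1 h1
  -- a tight power of the part `j` is `p j`
  have huniq : ∀ j (y : σ → ι ⊕ σ), (∀ i, fac f (y i) = i) →
      (∀ i, cdeg f part i j ≠ 0 → thom f n (y i) = 0) → cver f part j y = p j := by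
    intro j y hy hz
    have h1 : n ⬝ᵥ cver f part j y = c j := (tightP hcle hh hpoly hy j).2 ⟨(ht j).1, hz⟩
    have h2 : cver f part j y ∈ cP f part j := by
      refine ⟨fun h0 => ?_, y, hy, rfl⟩
      rw [h0, dotProduct_zero] at h1
      exact (hc j).ne h1
    by_contra hne
    have h3 : ∀ l, cver f part j y ≠ p l := by
      intro l hl
      by_cases hlj : l = j
      · subst hlj
        exact hne hl
      · refine Set.disjoint_left.1 (cfull_disjoint (f := f) (part := part) (Ne.symm hlj))
          (cP_subset j h2) ?_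
        rw [hl]
        exact cP_subset l (hp l)
    have h4 := hn.2 _ ⟨j, h2⟩ h3
    rw [h1, hh j _ h2] at h4
    exact lt_irrefl _ h4
  -- every factor has only one zero
  have hone : ∀ k k' : ι ⊕ σ, fac f k = fac f k' → thom f n k = 0 → thom f n k' = 0 →
      k = k' := by
    intro k k' hkk hk hk'
    by_contra hne
    obtain ⟨j, hj⟩ := exists_cdeg f part (fac f k)
    have hy1 : ∀ l, fac f l = fac f k → ∀ i, fac f (Function.update (y' j) (fac f k) l i) = i := by
      intro l hl i
      by_cases hi : i = fac f k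
      · subst hi
        rw [Function.update_self, hl]
      · rw [Function.update_of_ne hi]
        exact (hy' j).1 i
    have hz1 : ∀ l, thom f n l = 0 → ∀ i, cdeg f part i j ≠ 0 →
        thom f n (Function.update (y' j) (fac f k) l i) = 0 := by
      intro l hl i hi
      by_cases hi' : i = fac f k
      · subst hi'
        rw [Function.update_self, hl]
      · rw [Function.update_of_ne hi']
        exact (ht j).2 i hi
    have h1 := huniq j _ (hy1 k rfl) (hz1 k hk)
    have h2 := huniq j _ (hy1 k' hkk.symm) (hz1 k' hk')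
    have h3 := congrArg (fun v => v ⬝ᵥ pray f k) (h1.trans h2.symm)
    simp only [cver_dot (hy1 k rfl), cver_dot (hy1 k' hkk.symm), Function.update_self] at h3
    rw [if_pos trivial, if_neg hne] at h3
    have h4 : (cdeg f part (fac f k) j : ℝ) ≠ 0 := Nat.cast_ne_zero.2 hj
    apply h4
    linarith
  choose y hy using (isPHom_thom f n).zero
  refine ⟨y, fun i => (hy i).1, ?_, ⟨fun i => (hy i).2, fun j => (ht j).1, fun k hk => ?_⟩⟩
  · funext j
    exact (huniq j y (fun i => (hy i).1) fun i _ => (hy i).2).symm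
  · refine lt_of_le_of_ne ((isPHom_thom f n).nonneg k) fun h0 => ?_
    exact hk (fac f k) (hone k (y (fac f k)) (hy (fac f k)).1.symm h0.symm (hy (fac f k)).2)

/-- Different sections have different tuples. -/
theorem cver_injective (hf : Function.Surjective f) {y y' : σ → ι ⊕ σ} (hy : IsSec (fac f) y)
    (hy' : IsSec (fac f) y') (h : (fun j => cver f part j y) = fun j => cver f part j y') :
    y = y' := by
  funext i
  obtain ⟨j, hj⟩ := exists_cdeg f part i
  have h1 := congrArg (fun v => v ⬝ᵥ pray f (y i)) (congrFun h j)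
  simp only [cver_dot hy, cver_dot hy'] at h1
  rw [hy i] at h1
  by_contra hne
  rw [if_pos rfl, if_neg hne] at h1
  have h4 : (cdeg f part i j : ℝ) ≠ 0 := Nat.cast_ne_zero.2 hj
  apply h4
  linarith

end Pool.Agent.H99.PI
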