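import Pool.Agent.H99.PI.BDefs
import Pool.Agent.H99.ON.PPair

/-!
# The nef pair of the monomials and the rays

See `Pool.Agent.H99.ON.PDefs` (`pver_dot`) and `Pool.Agent.H99.ON.PPair` for the case of one equation.
-/

set_option linter.unusedSectionVars false

open MeasureTheory Matrix
open scoped ENNReal

namespace Pool.Agent.H99.PI

open Pool.Agent.H99.SYZ Pool.Agent.H55.CI Pool.Agent.H2.CI Pool.Agent.H99.ON

variable {ι σ κ : Type} [Fintype ι] [Fintype σ] [Fintype κ] [DecidableEq ι] [DecidableEq σ]
  [DecidableEq κ] {f : ι → σ} {part : ι ⊕ σ → κ} {P : κ → Set (ι → ℝ)} {g h : (ι → ℝ) → ℝ}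

private theorem bvec_inl (m : ι → ℝ) (x : ι) : m ⬝ᵥ pray f (Sum.inl x) = m x := by
  simp [pray, dotProduct_single]

private theorem bvec_inr (m : ι → ℝ) (i : σ) :
    m ⬝ᵥ pray f (Sum.inr i) = -∑ x, if f x = i then m x else 0 := by
  simp only [pray, dotProduct]
  rw [← Finset.sum_neg_distrib]
  refine Finset.sum_congr rfl fun x _ => ?_
  split_ifs <;> simp

private theorem bvec_key (k : ι ⊕ σ) (i : σ) :
    (∑ x, if f x = i then (if (Sum.inl x : ι ⊕ σ) = k then (1 : ℝ) else 0) else 0) =
      (if fac f k = i then 1 else 0) - (if (Sum.inr i : ι ⊕ σ) = k then 1 else 0) := by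
  cases k with
  | inl y =>
    have h1 : ∀ x : ι, (if f x = i then (if (Sum.inl x : ι ⊕ σ) = Sum.inl y then (1 : ℝ) else 0)
        else 0) = if x = y then (if f y = i then 1 else 0) else 0 := by
      intro x
      by_cases hx : x = y
      · subst hx; simp
      · simp [hx]
    rw [Finset.sum_congr rfl fun x _ => h1 x, Finset.sum_ite_eq' Finset.univ y]
    change _ = (if f y = i then (1 : ℝ) else 0) - _
    simp
  | inr j =>
    change _ = (if j = i then (1 : ℝ) else 0) - _
    by_cases hj : j = i
    · subst hj; simp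
    · have hj' : i ≠ j := fun h => hj h.symm
      simp [hj, hj']

private theorem bvec_sum_fac (b : ι ⊕ σ → ℝ) (i : σ) :
    (∑ k, if fac f k = i then b k else 0) = (∑ x, if f x = i then b (Sum.inl x) else 0) +
      b (Sum.inr i) := by
  rw [Fintype.sum_sum_type]
  change (∑ x, if f x = i then b (Sum.inl x) else 0) +
    (∑ j, if j = i then b (Sum.inr j) else 0) = _
  rw [Finset.sum_ite_eq' Finset.univ i]
  simp

private theorem bvec_cdeg (i : σ) (j : κ) : (cdeg f part i j : ℝ) =
    (∑ x, if f x = i then (if part (Sum.inl x) = j then (1 : ℝ) else 0) else 0) +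
      (if part (Sum.inr i) = j then 1 else 0) := by
  have h1 : (cdeg f part i j : ℝ) =
      ∑ k, if fac f k = i then (if part k = j then (1 : ℝ) else 0) else 0 := by
    rw [cdeg, Finset.card_filter]
    push_cast
    refine Finset.sum_congr rfl fun k _ => ?_
    by_cases h1 : fac f k = i <;> by_cases h2 : part k = j <;> simp [h1, h2]
  rw [h1, bvec_sum_fac (f := f) (fun k => if part k = j then (1 : ℝ) else 0) i]

theorem cver_dot {y : σ → ι ⊕ σ} (hy : ∀ i, fac f (y i) = i) (j : κ) (l : ι ⊕ σ) :
    cver f part j y ⬝ᵥ pray f l = (if part l = j then 1 else 0) -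
      (cdeg f part (fac f l) j : ℝ) * (if l = y (fac f l) then 1 else 0) := by
  cases l with
  | inl x => rw [bvec_inl]; rfl
  | inr i =>
    rw [bvec_inr]
    have h1 : ∀ x : ι, (if f x = i then cver f part j y x else 0) =
        (if f x = i then (if part (Sum.inl x) = j then (1 : ℝ) else 0) else 0) -
        (cdeg f part i j : ℝ) * (if f x = i then
          (if (Sum.inl x : ι ⊕ σ) = y i then (1 : ℝ) else 0) else 0) := by
      intro x
      by_cases hx : f x = i
      · subst hx; simp [cver]
      · simp [hx]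
    rw [Finset.sum_congr rfl fun x _ => h1 x, Finset.sum_sub_distrib, ← Finset.mul_sum,
      bvec_key (f := f) (y i) i, if_pos (hy i)]
    have h2 := bvec_cdeg (f := f) (part := part) i j
    have h3 : (∑ x, if f x = i then (if part (Sum.inl x) = j then (1 : ℝ) else 0) else 0) =
        cdeg f part i j - (if part (Sum.inr i) = j then 1 else 0) := by linarith
    rw [h3]
    change _ = (if part (Sum.inr i) = j then 1 else 0) -
      (cdeg f part i j : ℝ) * (if Sum.inr i = y i then 1 else 0)
    ring

/-- Every factor has at least two coordinates. -/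
theorem exists_two (hf : Function.Surjective f) (k : ι ⊕ σ) : ∃ l, l ≠ k ∧ fac f l = fac f k := by
  cases k with
  | inl x => exact ⟨Sum.inr (f x), by simp, rfl⟩
  | inr i =>
    obtain ⟨x, hx⟩ := hf i
    exact ⟨Sum.inl x, by simp, hx⟩

theorem pray_injective (hf : Function.Surjective f) : Function.Injective (pray f) := by
  intro k l hkl
  obtain ⟨k', hk', hfk⟩ := exists_two hf k
  have h1 := pcor_dot (f := f) hfk.symm k
  have h2 := pcor_dot (f := f) hfk.symm l
  rw [← hkl, h1, if_pos rfl, if_neg (Ne.symm hk')] at h2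
  by_contra hne
  rw [if_neg (Ne.symm hne)] at h2
  split_ifs at h2 <;> norm_num at h2

theorem zero_notMem_cQ (hf : Function.Surjective f) : (0 : ι → ℝ) ∉ un (cQ f part) := by
  rintro ⟨j, k, -, hk⟩
  obtain ⟨k', hk', hfk⟩ := exists_two hf k
  have h1 := pcor_dot (f := f) hfk.symm k
  rw [← hk, dotProduct_zero, if_pos rfl, if_neg (Ne.symm hk')] at h1
  norm_num at h1

theorem zero_notMem_cP : (0 : ι → ℝ) ∉ un (cP f part) := by
  rintro ⟨j, h0, -⟩
  exact h0 rfl

theorem finite_cQ (j : κ) : (cQ f part j).Finite := by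
  refine (Set.finite_range (pray f)).subset ?_
  rintro q ⟨k, -, rfl⟩
  exact ⟨k, rfl⟩

private theorem bvec_exp_le {j : κ} {u : ι ⊕ σ → ℕ} {p : ι → ℝ} (hu : IsCExp f part j u p)
    (k : ι ⊕ σ) : u k ≤ cdeg f part (fac f k) j := by
  rw [← hu.degree (fac f k)]
  calc u k = (fun l => if fac f l = fac f k then u l else 0) k := by simp
    _ ≤ ∑ l, (fun l => if fac f l = fac f k then u l else 0) l :=
        Finset.single_le_sum (f := fun l => if fac f l = fac f k then u l else 0)
          (fun _ _ => Nat.zero_le _) (Finset.mem_univ k)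

theorem finite_cfull (j : κ) : (cfull f part j).Finite := by
  classical
  have hfin : (Set.Iic (fun k : ι ⊕ σ => cdeg f part (fac f k) j)).Finite := Set.finite_Iic _
  refine (hfin.image fun u => if h : ∃ p, IsCExp f part j u p then h.choose else 0).subset ?_
  rintro p ⟨-, u, hu⟩
  refine ⟨u, fun k => bvec_exp_le hu k, ?_⟩
  have hex : ∃ p, IsCExp f part j u p := ⟨p, hu⟩
  show (if h : ∃ p, IsCExp f part j u p then h.choose else 0) = p
  rw [dif_pos hex]
  refine ext_pray (f := f) fun k => ?_
  rw [hex.choose_spec.dot k, hu.dot k]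

theorem isCExp_cver {y : σ → ι ⊕ σ} (hy : ∀ i, fac f (y i) = i) (j : κ) :
    IsCExp f part j (fun k => if k = y (fac f k) then cdeg f part (fac f k) j else 0)
      (cver f part j y) := by
  refine ⟨fun i => ?_, fun l => ?_⟩
  · have h1 : ∀ l : ι ⊕ σ, (if fac f l = i then
        (if l = y (fac f l) then cdeg f part (fac f l) j else 0) else 0) =
        if l = y i then cdeg f part i j else 0 := by
      intro l
      by_cases hl : fac f l = i
      · rw [if_pos hl, hl]
      · rw [if_neg hl, if_neg]
        intro h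
        exact hl (h ▸ hy i)
    rw [Finset.sum_congr rfl fun l _ => h1 l, Finset.sum_ite_eq' Finset.univ (y i)]
    simp
  · rw [cver_dot hy j l]
    push_cast
    split_ifs <;> simp

theorem cP_subset (j : κ) : cP f part j ⊆ cfull f part j := by
  rintro p ⟨h0, y, hy, rfl⟩
  exact ⟨h0, _, isCExp_cver hy j⟩

/-- A common element `p` of the parts `i ≠ j` would have `p ⬝ q_k ≤ 0` for all `k`, hence `= 0`
(`sum_dot_pray`), and `p = 0` (`ext_pray`). -/
theorem cfull_disjoint {i j : κ} (hij : i ≠ j) :
    Disjoint (cfull f part i) (cfull f part j) := by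
  rw [Set.disjoint_left]
  rintro p ⟨h0, u, hu⟩ ⟨-, v, hv⟩
  have hle : ∀ k, p ⬝ᵥ pray f k ≤ 0 := by
    intro k
    by_cases hk : part k = i
    · rw [hv.dot k, if_neg (by rw [hk]; exact hij)]
      have : (0 : ℝ) ≤ (v k : ℝ) := Nat.cast_nonneg _
      linarith
    · rw [hu.dot k, if_neg hk]
      have : (0 : ℝ) ≤ (u k : ℝ) := Nat.cast_nonneg _
      linarith
  apply h0
  refine ext_pray (f := f) fun k => ?_
  rw [zero_dotProduct]
  have h1 := sum_dot_pray f p (fac f k)
  have h2 := (Finset.sum_eq_zero_iff_of_nonpos (f := fun l =>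
    if fac f l = fac f k then p ⬝ᵥ pray f l else 0) (s := Finset.univ) (fun l _ => by
      show (if fac f l = fac f k then p ⬝ᵥ pray f l else 0) ≤ 0
      split_ifs
      · exact hle l
      · exact le_rfl)).1 h1 k (Finset.mem_univ k)
  simpa using h2

theorem c_pair (hP : ∀ j, P j ⊆ cfull f part j) : IsNefPair P (cQ f part) where
  finP i := (finite_cfull i).subset (hP i)
  finQ j := finite_cQ j
  le_one i p hp q hq := by
    obtain ⟨-, u, hu⟩ := hP i hp
    obtain ⟨k, hk, rfl⟩ := hq
    rw [hu.dot k, if_pos hk]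
    have : (0 : ℝ) ≤ (u k : ℝ) := Nat.cast_nonneg _
    linarith
  nonpos i j hij p hp q hq := by
    obtain ⟨-, u, hu⟩ := hP i hp
    obtain ⟨k, hk, rfl⟩ := hq
    rw [hu.dot k, if_neg (by rw [hk]; exact Ne.symm hij)]
    have : (0 : ℝ) ≤ (u k : ℝ) := Nat.cast_nonneg _
    linarith
  int i j p hp q hq := by
    obtain ⟨-, u, hu⟩ := hP i hp
    obtain ⟨k, -, rfl⟩ := hq
    refine ⟨(if part k = i then 1 else 0) - (u k : ℤ), ?_⟩
    rw [hu.dot k]
    push_cast
    rfl

/-- The only linear relations of the rays are the sums over the factors. -/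
theorem pray_rel {b : ι ⊕ σ → ℝ} (hb : ∑ k, b k • pray f k = 0) {k l : ι ⊕ σ}
    (hkl : fac f k = fac f l) : b k = b l := by
  have h1 : pcor k l ⬝ᵥ (∑ m, b m • pray f m) = b k - b l := by
    rw [dotProduct_sum]
    have h2 : ∀ m, pcor k l ⬝ᵥ (b m • pray f m) =
        (if m = k then b m else 0) - (if m = l then b m else 0) := by
      intro m
      rw [dotProduct_smul, pcor_dot hkl m, smul_eq_mul]
      split_ifs <;> ring
    rw [Finset.sum_congr rfl fun m _ => h2 m, Finset.sum_sub_distrib,
      Finset.sum_ite_eq' Finset.univ k, Finset.sum_ite_eq' Finset.univ l]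
    simp
  rw [hb, dotProduct_zero] at h1
  linarith

theorem sum_row_pray (i : σ) : (∑ k, if fac f k = i then pray f k else 0) = 0 := by
  funext x
  rw [Finset.sum_apply, Pi.zero_apply, ← sum_dot_pray f (Pi.single x 1) i]
  refine Finset.sum_congr rfl fun k _ => ?_
  split_ifs
  · simp
  · rfl

end Pool.Agent.H99.PI
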