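import Pool.Agent.H99.ON.Cone
import Pool.Agent.H99.ON.PolV

/-!
# The Alexandrov estimate for doubling Monge-Ampere measures
-/

open MeasureTheory Matrix
open scoped ENNReal Pointwise

namespace Pool.Agent.H99.PI

open Pool.Agent.H99.ON

variable {ι : Type} [Fintype ι] {f : (ι → ℝ) → ℝ} {A B : Set (ι → ℝ)}

private theorem vol_aff (p : ι → ℝ) {D : ℝ} (hD : 0 ≤ D) (s : Set (ι → ℝ)) :
    volume ((fun v => p + D • v) '' s) = ENNReal.ofReal (D ^ Fintype.card ι) * volume s := by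
  have h1 : (fun v => p + D • v) '' s = p +ᵥ (D • s) := by
    ext y
    simp only [Set.mem_image, Set.mem_vadd_set, Set.mem_smul_set, vadd_eq_add]
    constructor
    · rintro ⟨v, hv, rfl⟩
      exact ⟨D • v, ⟨v, hv, rfl⟩, rfl⟩
    · rintro ⟨w, ⟨v, hv, rfl⟩, rfl⟩
      exact ⟨v, hv, rfl⟩
  rw [h1, measure_vadd, Measure.addHaar_smul, Module.finrank_fintype_fun_eq_card,
    abs_of_nonneg (pow_nonneg hD _)]

/-- The constant of the Alexandrov estimate. -/
noncomputable def thK (ι : Type) [Fintype ι] (K : ℝ) : ℝ :=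
  1 / (4 * K * (4 * (1 + cst ι) ^ 2) ^ Fintype.card ι)

theorem thK_pos {K : ℝ} (hK : 0 < K) : 0 < thK ι K := by
  have h : 0 < cst ι := by unfold cst; positivity
  unfold thK
  positivity

theorem tht_le (hf : ConvexOn ℝ Set.univ f) {K : ℝ} (hK : 0 < K) {z : ι → ℝ}
    (hMA : ∀ S : Set (ι → ℝ), IsOpen S → Convex ℝ S → Bornology.IsBounded S →
      volume {y | ∃ x ∈ S, IsSub f x y} ≤ ENNReal.ofReal K *
        volume {y | ∃ x ∈ (fun v => (1 / 2 : ℝ) • z + (1 / 2 : ℝ) • v) '' S, IsSub f x y})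
    {p : ι → ℝ} {h : ℝ} (hh : 0 < h)
    (hb : Bornology.IsBounded (sec f z p h)) (hbal : Balanced (sec f z p h) z (cst ι))
    {b : ι → ℝ} (hbf : b ∈ frontier (sec f z p h)) {θ : ℝ} (h0 : 0 < θ) (h1 : θ ≤ 1)
    (hD : h ≤ f z + p ⬝ᵥ (b + θ • (z - b) - z) + h - f (b + θ • (z - b))) :
    thK ι K ≤ θ := by
  set d := Fintype.card ι with hd
  have hC1 : (1 : ℝ) ≤ cst ι := by
    unfold cst
    have : (0 : ℝ) ≤ 2 ^ (Fintype.card ι + 1) := by positivity
    linarith
  have hC0 : 0 < cst ι := by linarith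
  set x := b + θ • (z - b) with hx
  set D := f z + p ⬝ᵥ (x - z) + h - f x with hDdef
  have hD0 : 0 < D := lt_of_lt_of_le hh hD
  set S := sec f z p h with hS
  have hSo : IsOpen S := isOpen_sec hf z p h
  have hSc : Convex ℝ S := convex_sec hf z p h
  have hzS : z ∈ S := mem_sec z p hh
  have hxS : x ∈ S := by
    rw [hS]
    show f x < f z + p ⬝ᵥ (x - z) + h
    linarith
  set M := (1 + cst ι) * h with hM
  have hM0 : 0 < M := by positivity
  -- first inclusion
  have e1 : ENNReal.ofReal (D ^ d) * volume (Pol S x) ≤ volume {y | ∃ x ∈ S, IsSub f x y} := by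
    rw [← vol_aff p hD0.le]
    refine measure_mono ?_
    rintro y ⟨v, hv, rfl⟩
    exact sub_of_pol hf hb hxS hv
  -- the half section
  set T : Set (ι → ℝ) := (fun v => (1 / 2 : ℝ) • z + (1 / 2 : ℝ) • v) '' S with hT
  have e2 : volume {y | ∃ x ∈ T, IsSub f x y} ≤
      ENNReal.ofReal ((2 * M) ^ d) * volume (Pol S z) := by
    rw [← vol_aff p (by positivity)]
    refine measure_mono ?_
    rintro y ⟨w, ⟨v, hv, rfl⟩, hy⟩
    have hy' : IsSub f ((1 / 2 : ℝ) • (z + v)) y := by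
      have : (1 / 2 : ℝ) • (z + v) = (1 / 2 : ℝ) • z + (1 / 2 : ℝ) • v := smul_add _ _ _
      rw [this]; exact hy
    refine ⟨(2 * M)⁻¹ • (y - p), ?_, ?_⟩
    · intro s hs
      have := sub_half hf hh (fun x hx => depth_le hf hC0 hbal hx) hv hy' s hs
      rw [smul_dotProduct, smul_eq_mul, inv_mul_le_iff₀ (by positivity)]
      simpa using this
    · show p + (2 * M) • ((2 * M)⁻¹ • (y - p)) = y
      rw [smul_smul, mul_inv_cancel₀ (by positivity), one_smul]
      abel
  have e4 := pol_volume_le hSo hSc hb hzS hC1 hbal hbf h0 h1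
  rw [← hx] at e4
  have hp0 := pol_volume_pos hb x
  have hpt := pol_volume_ne_top hSo hxS
  have e5 : ENNReal.ofReal (D ^ d) * volume (Pol S x) ≤
      ENNReal.ofReal (K * ((2 * M) ^ d * (4 * θ * (2 * (1 + cst ι)) ^ d))) *
        volume (Pol S x) := by
    calc ENNReal.ofReal (D ^ d) * volume (Pol S x) ≤ volume {y | ∃ x ∈ S, IsSub f x y} := e1
      _ ≤ ENNReal.ofReal K * volume {y | ∃ x ∈ T, IsSub f x y} := hMA S hSo hSc hb
      _ ≤ ENNReal.ofReal K * (ENNReal.ofReal ((2 * M) ^ d) * volume (Pol S z)) := by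
          gcongr
      _ ≤ ENNReal.ofReal K * (ENNReal.ofReal ((2 * M) ^ d) *
            (ENNReal.ofReal (4 * θ * (2 * (1 + cst ι)) ^ d) * volume (Pol S x))) := by
          gcongr
      _ = _ := by
          rw [ENNReal.ofReal_mul (p := K) hK.le,
            ENNReal.ofReal_mul (p := (2 * M) ^ d) (by positivity)]
          simp only [mul_assoc]
  have e6 : ENNReal.ofReal (D ^ d) ≤
      ENNReal.ofReal (K * ((2 * M) ^ d * (4 * θ * (2 * (1 + cst ι)) ^ d))) :=
    (ENNReal.mul_le_mul_iff_left hp0 hpt).1 e5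
  have e7 : D ^ d ≤ K * ((2 * M) ^ d * (4 * θ * (2 * (1 + cst ι)) ^ d)) :=
    (ENNReal.ofReal_le_ofReal_iff (by positivity)).1 e6
  have e8 : h ^ d ≤ 4 * θ * K * (4 * (1 + cst ι) ^ 2) ^ d * h ^ d := by
    calc h ^ d ≤ D ^ d := pow_le_pow_left₀ hh.le hD _
      _ ≤ _ := e7
      _ = _ := by
          rw [hM]
          have h8 : (4 * (1 + cst ι) ^ 2) ^ d * h ^ d =
              (2 * ((1 + cst ι) * h)) ^ d * (2 * (1 + cst ι)) ^ d := by
            rw [← mul_pow, ← mul_pow]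
            congr 1
            ring
          rw [mul_assoc (4 * θ * K), h8]
          ring
  have e9 : 1 ≤ 4 * θ * K * (4 * (1 + cst ι) ^ 2) ^ d := by
    have hp : 0 < h ^ d := pow_pos hh _
    by_contra hcon
    push Not at hcon
    nlinarith
  unfold thK
  rw [div_le_iff₀ (by positivity)]
  calc (1 : ℝ) ≤ _ := e9
    _ = _ := by rw [hd]; ring

end Pool.Agent.H99.PI
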