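import Pool.Agent.H99.PI.ADefs

/-!
# The functions `tau` and `cpr`

`tau` is the maximum of the linear functions `vv k - vv l` of `ξ`, `l` in the row of `k`, where `vv l` is
`-ξ l`, or `0` for `l = e (row l)`.
-/

set_option linter.unusedSectionVars false

open MeasureTheory Matrix
open scoped ENNReal

namespace Pool.Agent.H99.PI

variable {Ω σ κ : Type} [Fintype Ω] [DecidableEq Ω] [Fintype σ] [DecidableEq σ] [Fintype κ]
  [DecidableEq κ] {row : Ω → σ} {col : Ω → κ} {M : Finset σ} {e : σ → Ω}

private theorem vv_le_tau (ξ : FrM row M e → ℝ) (k l : Ω) (h : row l = row k) :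
    vv row M e ξ k - vv row M e ξ l ≤ tau row M e ξ k := by
  unfold tau
  exact Finset.le_sup' (f := fun l => vv row M e ξ k - vv row M e ξ l) (by simpa using h)

private theorem tau_le' {ξ : FrM row M e → ℝ} {k : Ω} {b : ℝ}
    (h : ∀ l, row l = row k → vv row M e ξ k - vv row M e ξ l ≤ b) :
    tau row M e ξ k ≤ b := by
  unfold tau
  refine Finset.sup'_le _ _ fun l hl => ?_
  exact h l (by simpa using hl)

theorem tau_nonneg (ξ : FrM row M e → ℝ) (k : Ω) : 0 ≤ tau row M e ξ k := by
  have := vv_le_tau (row := row) (M := M) (e := e) ξ k k rfl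
  simpa using this

/-- Every row contains a zero. -/
theorem exists_tau_zero (he : ∀ i, row (e i) = i) (ξ : FrM row M e → ℝ) (i : σ) :
    ∃ k, row k = i ∧ tau row M e ξ k = 0 := by
  obtain ⟨k, hk, hmin⟩ := Finset.exists_min_image (Finset.univ.filter fun l => row l = i)
    (vv row M e ξ) ⟨e i, by simp [he]⟩
  have hk' : row k = i := by simpa using hk
  refine ⟨k, hk', le_antisymm ?_ (tau_nonneg ξ k)⟩
  refine tau_le' fun l hl => ?_
  have := hmin l (by simp [hl, hk'])
  linarith

private theorem vv_xi {t : Ω → ℝ} {l : Ω} (hl : row l ∈ M) :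
    vv row M e (xi row M e (-t)) l = t l - t (e (row l)) := by
  unfold vv
  by_cases h : l = e (row l)
  · have h2 : ¬ (row l ∈ M ∧ l ≠ e (row l)) := fun h3 => h3.2 h
    rw [dif_neg h2]
    have : t l = t (e (row l)) := congrArg t h
    rw [this, sub_self]
  · rw [dif_pos ⟨hl, h⟩]
    simp only [xi, Pi.neg_apply]
    ring

/-- The coordinates `xi (-t)` determine `t` if every row of `t` contains a zero. -/
theorem tau_xi (he : ∀ i, row (e i) = i) {t : Ω → ℝ} (ht : ∀ k, 0 ≤ t k)
    (ht0 : ∀ i ∈ M, ∃ k, row k = i ∧ t k = 0) {k : Ω} (hk : row k ∈ M) :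
    tau row M e (xi row M e (-t)) k = t k := by
  have key : ∀ l, row l = row k → vv row M e (xi row M e (-t)) k - vv row M e (xi row M e (-t)) l
      = t k - t l := by
    intro l hl
    rw [vv_xi hk, vv_xi (by rw [hl]; exact hk), hl]
    ring
  apply le_antisymm
  · refine tau_le' fun l hl => ?_
    rw [key l hl]
    have := ht l
    linarith
  · obtain ⟨l, hl, hl0⟩ := ht0 (row k) hk
    have := vv_le_tau (row := row) (M := M) (e := e) (xi row M e (-t)) k l hl
    rw [key l hl, hl0] at this
    linarith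

private theorem vv_mid (ξ ζ : FrM row M e → ℝ) (l : Ω) :
    vv row M e ((1 / 2 : ℝ) • ζ + (1 / 2 : ℝ) • ξ) l =
      (vv row M e ζ l + vv row M e ξ l) / 2 := by
  unfold vv
  split_ifs
  · simp only [Pi.add_apply, Pi.smul_apply, smul_eq_mul]
    ring
  · norm_num

theorem tau_mid (ξ ζ : FrM row M e → ℝ) (k : Ω) :
    tau row M e ((1 / 2 : ℝ) • ζ + (1 / 2 : ℝ) • ξ) k ≤
      (tau row M e ζ k + tau row M e ξ k) / 2 := by
  refine tau_le' fun l hl => ?_
  rw [vv_mid, vv_mid]
  have h1 := vv_le_tau (row := row) (M := M) (e := e) ξ k l hl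
  have h2 := vv_le_tau (row := row) (M := M) (e := e) ζ k l hl
  linarith

private theorem vv_end (ξ : FrM row M e → ℝ) (a : FrM row M e) (s : ℝ) (l : Ω) :
    vv row M e (ξ - s • Pi.single a 1) l = vv row M e ξ l + if l = a.1 then s else 0 := by
  unfold vv
  by_cases h : row l ∈ M ∧ l ≠ e (row l)
  · rw [dif_pos h, dif_pos h]
    by_cases hl : l = a.1
    · have ha : (⟨l, h⟩ : FrM row M e) = a := Subtype.ext hl
      rw [if_pos hl, ha]
      simp only [Pi.sub_apply, Pi.smul_apply, Pi.single_eq_same, smul_eq_mul]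
      ring
    · have ha : (⟨l, h⟩ : FrM row M e) ≠ a := fun h2 => hl (congrArg Subtype.val h2)
      rw [if_neg hl]
      simp only [Pi.sub_apply, Pi.smul_apply, Pi.single_eq_of_ne ha, smul_eq_mul]
      ring
  · rw [dif_neg h, dif_neg h]
    have hl : l ≠ a.1 := by
      intro h2
      apply h
      rw [h2]
      exact a.2
    rw [if_neg hl, add_zero]

/-- The coordinate `a` of the point is increased by `s`. -/
theorem tau_end (ξ : FrM row M e → ℝ) (a : FrM row M e) {s : ℝ} (hs : 0 ≤ s) (k : Ω) :
    tau row M e (ξ - s • Pi.single a 1) k ≤ tau row M e ξ k + if k = a.1 then s else 0 := by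
  refine tau_le' fun l hl => ?_
  rw [vv_end, vv_end]
  have h1 := vv_le_tau (row := row) (M := M) (e := e) ξ k l hl
  have h2 : 0 ≤ (if l = a.1 then s else 0) := by
    split_ifs
    · exact hs
    · exact le_refl _
  linarith

theorem continuous_tau (k : Ω) : Continuous fun ξ : FrM row M e → ℝ => tau row M e ξ k := by
  have hv : ∀ l, Continuous fun ξ : FrM row M e → ℝ => vv row M e ξ l := by
    intro l
    unfold vv
    split_ifs
    · exact (continuous_apply _).neg
    · exact continuous_const
  unfold tau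
  exact Continuous.finset_sup'_apply _ fun l _ => (hv k).sub (hv l)

theorem cpr_mid (c : κ → ℝ) (j : κ) {ξ ζ : FrM row M e → ℝ}
    (hζ : 0 ≤ cpr row col M e c j ζ) :
    cpr row col M e c j ξ / 2 ≤ cpr row col M e c j ((1 / 2 : ℝ) • ζ + (1 / 2 : ℝ) • ξ) := by
  have key : (∑ k, if col k = j ∧ row k ∈ M then
      tau row M e ((1 / 2 : ℝ) • ζ + (1 / 2 : ℝ) • ξ) k else 0) ≤
      ((∑ k, if col k = j ∧ row k ∈ M then tau row M e ζ k else 0) +
        ∑ k, if col k = j ∧ row k ∈ M then tau row M e ξ k else 0) / 2 := by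
    rw [← Finset.sum_add_distrib, Finset.sum_div]
    refine Finset.sum_le_sum fun k _ => ?_
    split_ifs
    · exact tau_mid ξ ζ k
    · norm_num
  unfold cpr at *
  linarith

/-- If `a` is the only macro coordinate of its column and `tau ξ a = 0` then the numbers `cpr` stay
nonnegative if the coordinate `a` of the point is increased by at most `c (col a)`. -/
theorem cpr_end {c : κ → ℝ} {a : FrM row M e} (ha : ∀ k, col k = col a.1 → row k ∈ M → k = a.1)
    {ξ : FrM row M e → ℝ} (h0 : tau row M e ξ a.1 = 0) (hξ : ∀ j, 0 ≤ cpr row col M e c j ξ)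
    {s : ℝ} (hs : 0 ≤ s) (hsc : s ≤ c (col a.1)) (j : κ) :
    0 ≤ cpr row col M e c j (ξ - s • Pi.single a 1) := by
  by_cases hj : j = col a.1
  · have key : (∑ k, if col k = j ∧ row k ∈ M then
        tau row M e (ξ - s • Pi.single a 1) k else 0) ≤ ∑ k, if k = a.1 then s else 0 := by
      refine Finset.sum_le_sum fun k _ => ?_
      by_cases hk : col k = j ∧ row k ∈ M
      · have hka : k = a.1 := ha k (hk.1.trans hj) hk.2
        rw [if_pos hk, if_pos hka, hka]
        have := tau_end ξ a hs a.1
        rw [h0, if_pos rfl] at this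
        linarith
      · rw [if_neg hk]
        split_ifs
        · exact hs
        · exact le_refl _
    rw [Finset.sum_ite_eq' Finset.univ a.1 (fun _ => s), if_pos (Finset.mem_univ _)] at key
    unfold cpr
    rw [hj] at key ⊢
    linarith
  · have key : (∑ k, if col k = j ∧ row k ∈ M then
        tau row M e (ξ - s • Pi.single a 1) k else 0) ≤
        ∑ k, if col k = j ∧ row k ∈ M then tau row M e ξ k else 0 := by
      refine Finset.sum_le_sum fun k _ => ?_
      by_cases hk : col k = j ∧ row k ∈ M
      · have hka : k ≠ a.1 := by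
          intro h
          apply hj
          rw [← hk.1, h]
        rw [if_pos hk, if_pos hk]
        have := tau_end ξ a hs k
        rw [if_neg hka] at this
        linarith
      · rw [if_neg hk, if_neg hk]
    have := hξ j
    unfold cpr at this ⊢
    linarith

/-- For `t` in the set `Xs col row c` (the sums of the columns are `c j`, every row contains a zero). -/
theorem cpr_xi (he : ∀ i, row (e i) = i) {c : κ → ℝ} {t : Ω → ℝ} (ht : t ∈ Xs col row c) (j : κ) :
    cpr row col M e c j (xi row M e (-t)) = ∑ k, if col k = j ∧ row k ∉ M then t k else 0 := by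
  obtain ⟨h1, h2, h3⟩ := ht
  have hc : c j = ∑ k, if col k = j then t k else 0 := (h2 j).symm
  unfold cpr
  rw [hc, ← Finset.sum_sub_distrib]
  refine Finset.sum_congr rfl fun k _ => ?_
  by_cases hj : col k = j
  · by_cases hk : row k ∈ M
    · rw [if_pos hj, if_pos ⟨hj, hk⟩, if_neg (fun h => h.2 hk),
        tau_xi he h1 (fun i _ => h3 i) hk, sub_self]
    · rw [if_pos hj, if_neg (fun h => hk h.2), if_pos ⟨hj, hk⟩, sub_zero]
  · rw [if_neg hj, if_neg (fun h => hj h.1), if_neg (fun h => hj h.1), sub_zero]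

end Pool.Agent.H99.PI
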