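import Pool.Agent.H99.PI.AInt

/-!
# The doubling property

Sections `y` of `row` are divided into classes with the same micro part; in a class the fill
coordinates `e'` are the same (chosen as a function of the micro part: `col (e' j) = j`, `e' j` micro and
different from all `y i`; they exist because every column contains two coordinates of the same micro
row), so `Gv` is the same function, and by `face_int`
`ν {t | xi (-t) ∈ S} = ∑ y, D y * ∫ S ∩ cone y, Gv y`. Let `D₀` and `D₁` be the minimum and the maximum of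
the constants. The sum is at most `D₁ ∑ (classes) ∫ S, Gv` and (the cones of a class cover almost
everything, `cone_cover`) at least `D₀ ∑ (classes) ∫ S, Gv`. The substitution
`ξ ↦ ζ / 2 + ξ / 2` and `Gv_half` give the inequality. (For a section `y` whose face is empty nothing
is needed.)
-/

set_option linter.unusedSectionVars false

open MeasureTheory Matrix
open scoped ENNReal

namespace Pool.Agent.H99.PI

variable {Ω σ κ : Type} [Fintype Ω] [DecidableEq Ω] [Fintype σ] [DecidableEq σ] [Fintype κ]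
  [DecidableEq κ] {row : Ω → σ} {col : Ω → κ} {M : Finset σ} {e : σ → Ω}

private theorem vol_congr {P Q : Ω → Prop} [iP : DecidablePred P] [iQ : DecidablePred Q]
    (h : P = Q) (col : Ω → κ) (b : κ → ℝ) :
    volume {w : {k // P k} → ℝ | (∀ k, 0 < w k) ∧
      ∀ j, ∑ k, (if col k.1 = j then w k else 0) < b j} =
    volume {w : {k // Q k} → ℝ | (∀ k, 0 < w k) ∧
      ∀ j, ∑ k, (if col k.1 = j then w k else 0) < b j} := by
  subst h
  have h2 : iP = iQ := Subsingleton.elim _ _
  subst h2
  rfl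

/-- `Gv` depends only on the micro part of `y`. -/
private theorem Gv_congr {c : κ → ℝ} {y z : σ → Ω} (h : ∀ i, i ∉ M → z i = y i) {e' : κ → Ω}
    (ξ : FrM row M e → ℝ) : Gv row col M e c y e' ξ = Gv row col M e c z e' ξ := by
  refine vol_congr (P := fun k => row k ∉ M ∧ k ≠ y (row k) ∧ k ≠ e' (col k))
    (Q := fun k => row k ∉ M ∧ k ≠ z (row k) ∧ k ≠ e' (col k)) ?_ col
    (fun j => cpr row col M e c j ξ)
  funext k
  refine propext (and_congr_right fun hk => ?_)
  rw [h _ hk]

/-- `cone` depends only on the macro part of `y`. -/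
private theorem cone_congr {y z : σ → Ω} (h : ∀ i, i ∈ M → z i = y i) :
    cone row M e y = cone row M e z := by
  ext ξ
  simp only [cone, Set.mem_ofPred_eq]
  refine forall_congr' fun k => ?_
  refine forall_congr' fun hk => ?_
  rw [h _ hk]

/-- The substitution `ξ ↦ ζ / 2 + ξ / 2`. -/
private theorem subst_half {ι : Type} [Fintype ι] (ζ : ι → ℝ) {S : Set (ι → ℝ)}
    (hS : MeasurableSet S) (f : (ι → ℝ) → ℝ≥0∞) (hf : Measurable f) :
    ∃ B : ℝ≥0∞, B = ENNReal.ofReal |(((1 / 2 : ℝ)) ^ Module.finrank ℝ (ι → ℝ))⁻¹| ∧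
      MeasurableSet ((fun v => (1 / 2 : ℝ) • ζ + (1 / 2 : ℝ) • v) '' S) ∧
      ∫⁻ ξ in S, f ((1 / 2 : ℝ) • ζ + (1 / 2 : ℝ) • ξ) =
        B * ∫⁻ ξ in (fun v => (1 / 2 : ℝ) • ζ + (1 / 2 : ℝ) • v) '' S, f ξ := by
  set φ : (ι → ℝ) → (ι → ℝ) := fun v => (1 / 2 : ℝ) • ζ + (1 / 2 : ℝ) • v with hφ
  have hφm : Measurable φ := by fun_prop
  have hψm : Measurable (fun v : ι → ℝ => (2 : ℝ) • v - ζ) := by fun_prop
  have him : φ '' S = (fun v : ι → ℝ => (2 : ℝ) • v - ζ) ⁻¹' S := by
    ext v
    constructor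
    · rintro ⟨w, hw, rfl⟩
      have : (2 : ℝ) • φ w - ζ = w := by
        simp only [hφ]
        rw [smul_add, smul_smul, smul_smul]
        norm_num
      rw [Set.mem_preimage, this]
      exact hw
    · intro hv
      refine ⟨(2 : ℝ) • v - ζ, hv, ?_⟩
      simp only [hφ]
      rw [smul_sub, smul_smul]
      norm_num
  have hT : MeasurableSet (φ '' S) := by
    rw [him]
    exact hψm hS
  refine ⟨_, rfl, hT, ?_⟩
  have hmem : ∀ ξ, ξ ∈ S ↔ φ ξ ∈ φ '' S := by
    intro ξ
    constructor
    · intro h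
      exact ⟨ξ, h, rfl⟩
    · intro h
      rw [him, Set.mem_preimage] at h
      have : (2 : ℝ) • φ ξ - ζ = ξ := by
        simp only [hφ]
        rw [smul_add, smul_smul, smul_smul]
        norm_num
      rwa [this] at h
  have hmap : (volume : Measure (ι → ℝ)).map φ =
      ENNReal.ofReal |(((1 / 2 : ℝ)) ^ Module.finrank ℝ (ι → ℝ))⁻¹| • volume := by
    have h1 : φ = (fun v => (1 / 2 : ℝ) • ζ + v) ∘ (fun v => (1 / 2 : ℝ) • v) := rfl
    have h2 : Measurable (fun v : ι → ℝ => (1 / 2 : ℝ) • v) := by fun_prop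
    have h3 : Measurable (fun v : ι → ℝ => (1 / 2 : ℝ) • ζ + v) := by fun_prop
    rw [h1, ← Measure.map_map h3 h2, Measure.map_addHaar_smul volume (by norm_num),
      Measure.map_smul]
    congr 1
    exact map_add_left_eq_self _ _
  have h4 : ∫⁻ ξ in S, f (φ ξ) = ∫⁻ ξ, (φ '' S).indicator f (φ ξ) := by
    rw [← lintegral_indicator hS]
    refine lintegral_congr fun ξ => ?_
    by_cases h : ξ ∈ S
    · rw [Set.indicator_of_mem h, Set.indicator_of_mem ((hmem ξ).1 h)]
    · rw [Set.indicator_of_notMem h, Set.indicator_of_notMem (fun h2 => h ((hmem ξ).2 h2))]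
  change ∫⁻ ξ in S, f (φ ξ) = _
  rw [h4, ← lintegral_map (hf.indicator hT) hφm, hmap, lintegral_smul_measure,
    lintegral_indicator hT]
  rfl

theorem doubling (he : ∀ i, row (e i) = i) (hth : IsThick row col M)
    {C : (σ → Ω) → (κ → Ω) → ℝ≥0∞} (hC : IsCst col row C) {c : κ → ℝ}
    {ν : Measure (Ω → ℝ)} (hν : IsFlat col row C c ν) :
    ∃ K : ℝ≥0∞, K ≠ ∞ ∧ ∀ (S : Set (FrM row M e → ℝ)) (ζ : FrM row M e → ℝ), MeasurableSet S →
      (∀ j, 0 ≤ cpr row col M e c j ζ) →
        ν {t | xi row M e (-t) ∈ S} ≤ K *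
          ν {t | xi row M e (-t) ∈ (fun v => (1 / 2 : ℝ) • ζ + (1 / 2 : ℝ) • v) '' S} := by
  classical
  choose kk kk' h1 h2 h3 h4 h5 using hth
  set E : (σ → Ω) → κ → Ω := fun y j => if kk j = y (row (kk j)) then kk' j else kk j with hE
  have hEM : ∀ y j, row (E y j) ∉ M := by
    intro y j
    simp only [hE]
    split_ifs
    · rw [← h2 j]
      exact h3 j
    · exact h3 j
  have hEf : ∀ y, IsSec row y → IsFill col y (E y) := by
    intro y hy
    refine ⟨fun j => ?_, fun j i => ?_⟩
    · simp only [hE]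
      split_ifs
      · exact h5 j
      · exact h4 j
    · intro h
      have hr : row (E y j) = i := by
        rw [h]
        exact hy i
      have hy2 : E y j = y (row (E y j)) := by
        rw [hr]
        exact h
      simp only [hE] at hy2
      split_ifs at hy2 with h6
      · rw [← h2 j, ← h6] at hy2
        exact h1 j hy2.symm
      · exact h6 hy2
  have hEc : ∀ y z : σ → Ω, (∀ i, i ∉ M → z i = y i) → E z = E y := by
    intro y z h
    funext j
    simp only [hE]
    rw [h _ (h3 j)]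
  -- the faces
  have hxi : Measurable fun t : Ω → ℝ => xi row M e (-t) := by
    unfold xi
    fun_prop
  have hface : ∀ y, IsSec row y → ∃ A : ℝ≥0∞, A ≠ 0 ∧ A ≠ ∞ ∧
      ∀ S : Set (FrM row M e → ℝ), MeasurableSet S →
        ν ({t | xi row M e (-t) ∈ S} ∩ fc col c y) =
          A * ∫⁻ ξ in S ∩ cone row M e y, Gv row col M e c y (E y) ξ := by
    intro y hy
    obtain ⟨D, hD0, hD1, hD⟩ := face_int (e := e) he hy (hEf y hy) (hEM y)
    obtain ⟨hC0, hC1⟩ := hC y (E y) hy (hEf y hy)
    refine ⟨C y (E y) * D, mul_ne_zero hC0 hD0, ENNReal.mul_ne_top hC1 hD1, fun S hS => ?_⟩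
    have hm : MeasurableSet (fc col c y) := measurableSet_fc col c y
    rw [← Measure.restrict_apply' hm, hν.flat y (E y) hy (hEf y hy), Measure.smul_apply,
      Measure.restrict_apply' hm, hD c S hS, smul_eq_mul, mul_assoc]
  choose! A hA0 hA1 hA using hface
  set secs : Finset (σ → Ω) := Finset.univ.filter fun y => IsSec row y with hsecs
  have hsec : ∀ y, y ∈ secs ↔ IsSec row y := by
    intro y
    simp [hsecs]
  set B : ℝ≥0∞ := ENNReal.ofReal
    |(((1 / 2 : ℝ)) ^ Module.finrank ℝ (FrM row M e → ℝ))⁻¹| with hB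
  set c2 : ℝ≥0∞ := 2 ^ Fintype.card Ω * B with hc2
  have hc2t : c2 ≠ ∞ := ENNReal.mul_ne_top (ENNReal.pow_ne_top (by norm_num)) ENNReal.ofReal_ne_top
  refine ⟨∑ y ∈ secs, ∑ z ∈ secs, A y * c2 * (A z)⁻¹, ?_, ?_⟩
  · refine (ENNReal.sum_lt_top.2 fun y hy => ENNReal.sum_lt_top.2 fun z hz => ?_).ne
    refine ENNReal.mul_lt_top (ENNReal.mul_lt_top (lt_top_iff_ne_top.2 (hA1 y ((hsec y).1 hy)))
      (lt_top_iff_ne_top.2 hc2t)) ?_
    exact ENNReal.inv_lt_top.2 (pos_iff_ne_zero.2 (hA0 z ((hsec z).1 hz)))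
  intro S ζ hS hζ
  set T : Set (FrM row M e → ℝ) := (fun v => (1 / 2 : ℝ) • ζ + (1 / 2 : ℝ) • v) '' S with hT
  -- the union of the faces
  have hcov : ν {t | xi row M e (-t) ∈ S} ≤
      ∑ y ∈ secs, ν ({t | xi row M e (-t) ∈ S} ∩ fc col c y) := by
    have hsub : {t | xi row M e (-t) ∈ S} ⊆ {s | ∀ z, IsSec row z → s ∉ fc col c z} ∪
        ⋃ y ∈ secs, ({t | xi row M e (-t) ∈ S} ∩ fc col c y) := by
      intro t ht
      by_cases h : ∀ z, IsSec row z → t ∉ fc col c z
      · exact Or.inl h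
      · push Not at h
        obtain ⟨z, hz, htz⟩ := h
        refine Or.inr ?_
        simp only [Set.mem_iUnion]
        exact ⟨z, (hsec z).2 hz, ht, htz⟩
    calc ν {t | xi row M e (-t) ∈ S}
        ≤ ν ({s | ∀ z, IsSec row z → s ∉ fc col c z} ∪
          ⋃ y ∈ secs, ({t | xi row M e (-t) ∈ S} ∩ fc col c y)) := measure_mono hsub
      _ ≤ ν {s | ∀ z, IsSec row z → s ∉ fc col c z} +
          ν (⋃ y ∈ secs, ({t | xi row M e (-t) ∈ S} ∩ fc col c y)) := measure_union_le _ _
      _ ≤ 0 + ∑ y ∈ secs, ν ({t | xi row M e (-t) ∈ S} ∩ fc col c y) :=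
          add_le_add hν.null.le (measure_biUnion_finset_le _ _)
      _ = _ := zero_add _
  refine hcov.trans ?_
  rw [Finset.sum_mul]
  refine Finset.sum_le_sum fun y hy => ?_
  have hyS := (hsec y).1 hy
  obtain ⟨B', hB', hTm, hsub⟩ := subst_half ζ hS (Gv row col M e c y (E y))
    (measurable_Gv c y (E y))
  -- upper bound
  have hup : ν ({t | xi row M e (-t) ∈ S} ∩ fc col c y) ≤
      A y * (c2 * ∫⁻ ξ in T, Gv row col M e c y (E y) ξ) := by
    rw [hA y hyS S hS]
    refine mul_le_mul_right ?_ _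
    calc ∫⁻ ξ in S ∩ cone row M e y, Gv row col M e c y (E y) ξ
        ≤ ∫⁻ ξ in S, Gv row col M e c y (E y) ξ := lintegral_mono_set Set.inter_subset_left
      _ ≤ ∫⁻ ξ in S, 2 ^ Fintype.card Ω *
          Gv row col M e c y (E y) ((1 / 2 : ℝ) • ζ + (1 / 2 : ℝ) • ξ) :=
          lintegral_mono fun ξ => Gv_half c y (E y) hζ
      _ = 2 ^ Fintype.card Ω *
          ∫⁻ ξ in S, Gv row col M e c y (E y) ((1 / 2 : ℝ) • ζ + (1 / 2 : ℝ) • ξ) :=
          lintegral_const_mul' _ _ (ENNReal.pow_ne_top (by norm_num))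
      _ = c2 * ∫⁻ ξ in T, Gv row col M e c y (E y) ξ := by
          rw [hsub, hB', hc2, mul_assoc]
  -- lower bound
  have hlow : ∫⁻ ξ in T, Gv row col M e c y (E y) ξ ≤
      ∑ z ∈ secs, (A z)⁻¹ * ν {t | xi row M e (-t) ∈ T} := by
    set s : (σ → Ω) → Set (FrM row M e → ℝ) := fun z =>
      if IsSec row z ∧ ∀ i, i ∉ M → z i = y i then T ∩ cone row M e z else ∅ with hs
    have hae : (T : Set (FrM row M e → ℝ)) ≤ᵐ[volume] (⋃ z, s z : Set (FrM row M e → ℝ)) := by
      filter_upwards [cone_cover (row := row) (M := M) (e := e) he] with ξ hξ hξT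
      obtain ⟨z, hz, hz2, hz3⟩ := hξ
      refine Set.mem_iUnion.2 ⟨fun i => if i ∈ M then z i else y i, ?_⟩
      have h6 : IsSec row (fun i => if i ∈ M then z i else y i) ∧
          ∀ i, i ∉ M → (fun i => if i ∈ M then z i else y i) i = y i := by
        refine ⟨fun i => ?_, fun i hi => ?_⟩
        · by_cases hi : i ∈ M
          · simp only [hi, if_true]
            exact hz i
          · simp only [hi, if_false]
            exact hyS i
        · simp only [hi, if_false]
      simp only [hs]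
      rw [if_pos h6]
      refine ⟨hξT, ?_⟩
      rw [cone_congr (y := fun i => if i ∈ M then z i else y i) (z := z)
        (fun i hi => by simp only [hi, if_true])]
      exact hz3
    calc ∫⁻ ξ in T, Gv row col M e c y (E y) ξ
        ≤ ∫⁻ ξ in ⋃ z, s z, Gv row col M e c y (E y) ξ := lintegral_mono_set' hae
      _ ≤ ∑' z, ∫⁻ ξ in s z, Gv row col M e c y (E y) ξ := lintegral_iUnion_le _ _
      _ = ∑ z, ∫⁻ ξ in s z, Gv row col M e c y (E y) ξ := tsum_fintype _
      _ ≤ ∑ z, (if z ∈ secs then (A z)⁻¹ * ν {t | xi row M e (-t) ∈ T} else 0) := by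
          refine Finset.sum_le_sum fun z _ => ?_
          by_cases hz : IsSec row z ∧ ∀ i, i ∉ M → z i = y i
          · have hsz : s z = T ∩ cone row M e z := by
              simp only [hs]
              rw [if_pos hz]
            rw [if_pos ((hsec z).2 hz.1), hsz]
            have hcongr : ∀ ξ, Gv row col M e c y (E y) ξ = Gv row col M e c z (E z) ξ := by
              intro ξ
              rw [hEc y z hz.2]
              exact Gv_congr hz.2 ξ
            have h7 := hA z hz.1 T hTm
            have h8 : ∫⁻ ξ in T ∩ cone row M e z, Gv row col M e c y (E y) ξ =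
                (A z)⁻¹ * ν ({t | xi row M e (-t) ∈ T} ∩ fc col c z) := by
              rw [h7, ← mul_assoc, ENNReal.inv_mul_cancel (hA0 z hz.1) (hA1 z hz.1), one_mul]
              exact lintegral_congr fun ξ => hcongr ξ
            rw [h8]
            exact mul_le_mul_right (measure_mono Set.inter_subset_left) _
          · have hsz : s z = ∅ := by
              simp only [hs]
              rw [if_neg hz]
            rw [hsz, Measure.restrict_empty, lintegral_zero_measure]
            exact zero_le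
      _ = ∑ z ∈ secs, (A z)⁻¹ * ν {t | xi row M e (-t) ∈ T} := by
          rw [← Finset.sum_filter]
          refine Finset.sum_congr ?_ fun _ _ => rfl
          ext z
          simp
  refine hup.trans ?_
  calc A y * (c2 * ∫⁻ ξ in T, Gv row col M e c y (E y) ξ)
      ≤ A y * (c2 * ∑ z ∈ secs, (A z)⁻¹ * ν {t | xi row M e (-t) ∈ T}) :=
        mul_le_mul_right (mul_le_mul_right hlow _) _
    _ = (∑ z ∈ secs, A y * c2 * (A z)⁻¹) * ν {t | xi row M e (-t) ∈ T} := by
        rw [← mul_assoc, Finset.mul_sum, Finset.sum_mul]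
        refine Finset.sum_congr rfl fun z _ => ?_
        ring

end Pool.Agent.H99.PI
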