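import Pool.Agent.H99.ON.CDefs
import Pool.Agent.H99.OC.Lim

/-!
# Project PI (ProductIntersections): abstract definitions

`Ω` is the set of the homogeneous coordinates of a product of projective spaces; `row k` is the
factor and `col k` the part (the equation) of the coordinate `k`. In a second use of these
definitions the roles of `row` and `col` are exchanged. `M` is the set of the macro rows.
Paper proof: note 3855, and `/team-store/h99_PI_README.txt`.
-/

set_option linter.unusedSectionVars false

open MeasureTheory Matrix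
open scoped ENNReal

namespace Pool.Agent.H99.PI

variable {Ω σ κ : Type} [Fintype Ω] [DecidableEq Ω] [Fintype σ] [DecidableEq σ] [Fintype κ]
  [DecidableEq κ]

/-- The sum of the coordinates of the row `i`. -/
def rsum (row : Ω → σ) (i : σ) (s : Ω → ℝ) : ℝ := ∑ k, if row k = i then s k else 0

/-- The points with coordinates `≥ 0`, the sums `G i` over the rows and a zero in every column. -/
def Xs (row : Ω → σ) (col : Ω → κ) (G : σ → ℝ) : Set (Ω → ℝ) :=
  {s | (∀ k, 0 ≤ s k) ∧ (∀ i, rsum row i s = G i) ∧ ∀ j, ∃ k, col k = j ∧ s k = 0}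

/-- The open face where exactly the coordinates `z j` vanish. -/
def fc (row : Ω → σ) (G : σ → ℝ) (z : κ → Ω) : Set (Ω → ℝ) :=
  {s | (∀ j, s (z j) = 0) ∧ (∀ i, rsum row i s = G i) ∧ ∀ k, (∀ j, k ≠ z j) → 0 < s k}

/-- One coordinate of every column. -/
def IsSec (col : Ω → κ) (z : κ → Ω) : Prop := ∀ j, col (z j) = j

/-- One coordinate `e i` of every row, different from all `z j`. -/
def IsFill (row : Ω → σ) (z : κ → Ω) (e : σ → Ω) : Prop :=
  (∀ i, row (e i) = i) ∧ ∀ i j, e i ≠ z j

/-- The free coordinates of the face `z`: not one of the `z j` or `e i`. -/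
abbrev Fr (row : Ω → σ) (z : κ → Ω) (e : σ → Ω) : Type :=
  {k : Ω // (∀ j, k ≠ z j) ∧ k ≠ e (row k)}

/-- The point of the affine span of the face `z` with given free coordinates: the coordinates `z j`
are `0`, the coordinates `e i` are determined by the sums `G i`. -/
noncomputable def fill (row : Ω → σ) (z : κ → Ω) (e : σ → Ω) (G : σ → ℝ)
    (x : Fr row z e → ℝ) : Ω → ℝ := fun k =>
  if h : (∀ j, k ≠ z j) ∧ k ≠ e (row k) then x ⟨k, h⟩
  else if k = e (row k) then G (row k) - ∑ l : Fr row z e, (if row l.1 = row k then x l else 0)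
  else 0

/-- `μ` is concentrated on the open faces, and on the face `z` it is `C z e` times the image of the
Lebesgue measure of the free coordinates. -/
structure IsFlat (row : Ω → σ) (col : Ω → κ) (C : (κ → Ω) → (σ → Ω) → ℝ≥0∞) (G : σ → ℝ)
    (μ : Measure (Ω → ℝ)) : Prop where
  null : μ {s | ∀ z, IsSec col z → s ∉ fc row G z} = 0
  flat : ∀ z e, IsSec col z → IsFill row z e →
    μ.restrict (fc row G z) = C z e • (volume.map (fill row z e G)).restrict (fc row G z)

/-- All constants are positive and finite. -/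
def IsCst (row : Ω → σ) (col : Ω → κ) (C : (κ → Ω) → (σ → Ω) → ℝ≥0∞) : Prop :=
  ∀ z e, IsSec col z → IsFill row z e → C z e ≠ 0 ∧ C z e ≠ ∞

/-- The normalised measure. -/
noncomputable def nrm {α : Type*} [MeasurableSpace α] (μ : Measure α) : Measure α :=
  (μ Set.univ)⁻¹ • μ

/-- The limit of the factors of the rows: `1` for the macro rows, `0` for the other rows. -/
def lamM (M : Finset σ) (i : σ) : ℝ := if i ∈ M then 1 else 0

/-- The coordinates of the macro simplices: `e i` is left out in the row `i`. -/
abbrev FrM (row : Ω → σ) (M : Finset σ) (e : σ → Ω) : Type :=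
  {k : Ω // row k ∈ M ∧ k ≠ e (row k)}

/-- The point with given macro coordinates; all other coordinates are `0`. -/
noncomputable def fillM (row : Ω → σ) (M : Finset σ) (e : σ → Ω) (G : σ → ℝ)
    (x : FrM row M e → ℝ) : Ω → ℝ := fun k =>
  if h : row k ∈ M ∧ k ≠ e (row k) then x ⟨k, h⟩
  else if row k ∈ M then G (row k) - ∑ l : FrM row M e, (if row l.1 = row k then x l else 0)
  else 0

/-- The product of the macro simplices in these coordinates. -/
def Dh (row : Ω → σ) (M : Finset σ) (e : σ → Ω) (G : σ → ℝ) : Set (FrM row M e → ℝ) :=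
  {x | (∀ k, 0 ≤ x k) ∧ ∀ i ∈ M, ∑ l : FrM row M e, (if row l.1 = i then x l else 0) ≤ G i}

/-- The uniform measure of the product of the macro simplices. -/
noncomputable def unif (row : Ω → σ) (M : Finset σ) (e : σ → Ω) (G : σ → ℝ) : Measure (Ω → ℝ) :=
  nrm ((volume.restrict (Dh row M e G)).map (fillM row M e G))

/-- The dual coordinates of `τ` (which will be `-t`). -/
def xi (row : Ω → σ) (M : Finset σ) (e : σ → Ω) (τ : Ω → ℝ) : FrM row M e → ℝ :=
  fun k => τ k.1 - τ (e (row k.1))

/-- A point `t` (of the macro rows) with `xi (-t) = ξ`. -/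
def vv (row : Ω → σ) (M : Finset σ) (e : σ → Ω) (ξ : FrM row M e → ℝ) (k : Ω) : ℝ :=
  if h : row k ∈ M ∧ k ≠ e (row k) then -ξ ⟨k, h⟩ else 0

/-- The same, normalised such that the minimum over every row is `0`. -/
noncomputable def tau (row : Ω → σ) (M : Finset σ) (e : σ → Ω) (ξ : FrM row M e → ℝ)
    (k : Ω) : ℝ :=
  (Finset.univ.filter fun l => row l = row k).sup' ⟨k, by simp⟩
    fun l => vv row M e ξ k - vv row M e ξ l

/-- What remains of `c j` for the other rows. -/
noncomputable def cpr (row : Ω → σ) (col : Ω → κ) (M : Finset σ) (e : σ → Ω) (c : κ → ℝ) (j : κ)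
    (ξ : FrM row M e → ℝ) : ℝ :=
  c j - ∑ k, if col k = j ∧ row k ∈ M then tau row M e ξ k else 0

/-- Every column contains two coordinates of one row which is not a macro row. -/
def IsThick (row : Ω → σ) (col : Ω → κ) (M : Finset σ) : Prop :=
  ∀ j, ∃ k k', k ≠ k' ∧ row k = row k' ∧ row k ∉ M ∧ col k = j ∧ col k' = j

end Pool.Agent.H99.PI
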