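import Pool.Agent.H99.PI.ADefs

/-!
# The faces, and the uniform measure of the macro simplices
-/

set_option linter.unusedSectionVars false

open MeasureTheory Matrix
open scoped ENNReal

namespace Pool.Agent.H99.PI

variable {Ω σ κ : Type} [Fintype Ω] [DecidableEq Ω] [Fintype σ] [DecidableEq σ] [Fintype κ]
  [DecidableEq κ] {row : Ω → σ} {col : Ω → κ} {M : Finset σ} {e : σ → Ω} {G : σ → ℝ}

private theorem continuous_rsum (row : Ω → σ) (i : σ) : Continuous (rsum row i) := by
  unfold rsum
  refine continuous_finsetSum _ fun k _ => ?_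
  by_cases h : row k = i
  · simp only [if_pos h]; exact continuous_apply k
  · simp only [if_neg h]; exact continuous_const

theorem measurableSet_fc (row : Ω → σ) (G : σ → ℝ) (z : κ → Ω) : MeasurableSet (fc row G z) := by
  have h : fc row G z = (⋂ j, {s | s (z j) = 0}) ∩ ((⋂ i, {s | rsum row i s = G i}) ∩
      ⋂ k, ⋂ _ : (∀ j, k ≠ z j), {s | 0 < s k}) := by
    ext s
    simp [fc]
  rw [h]
  refine MeasurableSet.inter (MeasurableSet.iInter fun j => ?_)
    (MeasurableSet.inter (MeasurableSet.iInter fun i => ?_)
      (MeasurableSet.iInter fun k => MeasurableSet.iInter fun _ => ?_))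
  · exact (isClosed_eq (continuous_apply _) continuous_const).measurableSet
  · exact (isClosed_eq (continuous_rsum row i) continuous_const).measurableSet
  · exact (isOpen_lt continuous_const (continuous_apply _)).measurableSet

theorem fc_subset {z : κ → Ω} (hz : IsSec col z) : fc row G z ⊆ Xs row col G := by
  rintro s ⟨h1, h2, h3⟩
  refine ⟨fun k => ?_, h2, fun j => ⟨z j, hz j, h1 j⟩⟩
  by_cases h : ∃ j, k = z j
  · obtain ⟨j, rfl⟩ := h
    exact (h1 j).ge
  · push Not at h
    exact (h3 k h).le

/-- Different sections have disjoint faces (their sets of zeros are different). -/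
theorem fc_disjoint {z z' : κ → Ω} (hz : IsSec col z) (hz' : IsSec col z') (hne : z ≠ z') :
    Disjoint (fc row G z) (fc row G z') := by
  rw [Set.disjoint_left]
  rintro s ⟨h1, -, -⟩ ⟨-, -, h3⟩
  apply hne
  funext j
  by_contra hj
  have h : ∀ j', z j ≠ z' j' := by
    intro j' h
    have h4 : j = j' := by rw [← hz j, ← hz' j', h]
    subst h4
    exact hj h
  exact absurd (h1 j) (h3 (z j) h).ne'

theorem isClosed_Xs (row : Ω → σ) (col : Ω → κ) (G : σ → ℝ) : IsClosed (Xs row col G) := by
  have h : Xs row col G = (⋂ k, {s | 0 ≤ s k}) ∩ ((⋂ i, {s | rsum row i s = G i}) ∩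
      ⋂ j, ⋃ k, {s | col k = j ∧ s k = 0}) := by
    ext s
    simp [Xs]
  rw [h]
  refine IsClosed.inter (isClosed_iInter fun k => ?_)
    (IsClosed.inter (isClosed_iInter fun i => ?_)
      (isClosed_iInter fun j => isClosed_iUnion_of_finite fun k => ?_))
  · exact isClosed_le continuous_const (continuous_apply _)
  · exact isClosed_eq (continuous_rsum row i) continuous_const
  · exact isClosed_const.inter (isClosed_eq (continuous_apply k) continuous_const)

theorem Xs_le {s : Ω → ℝ} (hs : s ∈ Xs row col G) (k : Ω) : 0 ≤ s k ∧ s k ≤ G (row k) := by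
  obtain ⟨h1, h2, -⟩ := hs
  refine ⟨h1 k, ?_⟩
  rw [← h2 (row k)]
  unfold rsum
  have h := Finset.single_le_sum (f := fun l => if row l = row k then s l else 0)
    (fun l _ => by
      by_cases h : row l = row k
      · simp only [if_pos h]; exact h1 l
      · simp only [if_neg h]; exact le_rfl) (Finset.mem_univ k)
  simpa using h

theorem isCompact_Xs (row : Ω → σ) (col : Ω → κ) (G : σ → ℝ) : IsCompact (Xs row col G) := by
  refine (isCompact_Icc (a := (0 : Ω → ℝ)) (b := fun k => G (row k))).of_isClosed_subset
    (isClosed_Xs row col G) fun s hs => ?_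
  exact ⟨fun k => (Xs_le hs k).1, fun k => (Xs_le hs k).2⟩

theorem continuous_fill (row : Ω → σ) (z : κ → Ω) (e : σ → Ω) (G : σ → ℝ) :
    Continuous (fill row z e G) := by
  refine continuous_pi fun k => ?_
  unfold fill
  by_cases h : (∀ j, k ≠ z j) ∧ k ≠ e (row k)
  · simp only [dif_pos h]; exact continuous_apply _
  · simp only [dif_neg h]
    by_cases h' : k = e (row k)
    · simp only [if_pos h']
      refine continuous_const.sub (continuous_finsetSum _ fun l _ => ?_)
      by_cases h2 : row l.1 = row k
      · simp only [if_pos h2]; exact continuous_apply l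
      · simp only [if_neg h2]; exact continuous_const
    · simp only [if_neg h']; exact continuous_const

theorem continuous_fillM (row : Ω → σ) (M : Finset σ) (e : σ → Ω) (G : σ → ℝ) :
    Continuous (fillM row M e G) := by
  refine continuous_pi fun k => ?_
  unfold fillM
  by_cases h : row k ∈ M ∧ k ≠ e (row k)
  · simp only [dif_pos h]; exact continuous_apply _
  · simp only [dif_neg h]
    by_cases h' : row k ∈ M
    · simp only [if_pos h']
      refine continuous_const.sub (continuous_finsetSum _ fun l _ => ?_)
      by_cases h2 : row l.1 = row k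
      · simp only [if_pos h2]; exact continuous_apply l
      · simp only [if_neg h2]; exact continuous_const
    · simp only [if_neg h']; exact continuous_const

/-- If a face is nonempty then there are fill coordinates. -/
theorem exists_isFill (hrow : ∀ i, ∃ k, row k = i) (hG : ∀ i, 0 < G i) {z : κ → Ω}
    (hne : (fc row G z).Nonempty) : ∃ e, IsFill row z e := by
  obtain ⟨s, h1, h2, -⟩ := hne
  have h : ∀ i, ∃ k, row k = i ∧ ∀ j, k ≠ z j := by
    intro i
    by_contra hi
    push Not at hi
    have h3 : rsum row i s = 0 := by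
      unfold rsum
      refine Finset.sum_eq_zero fun k _ => ?_
      by_cases hk : row k = i
      · obtain ⟨j, rfl⟩ := hi k hk
        rw [if_pos hk, h1]
      · rw [if_neg hk]
    rw [h2] at h3
    exact (hG i).ne' h3
  choose e he1 he2 using h
  exact ⟨e, he1, he2⟩

private theorem continuous_rsM (row : Ω → σ) (M : Finset σ) (e : σ → Ω) (i : σ) :
    Continuous fun x : FrM row M e → ℝ => ∑ l, (if row l.1 = i then x l else 0) := by
  refine continuous_finsetSum _ fun l _ => ?_
  by_cases h2 : row l.1 = i
  · simp only [if_pos h2]; exact continuous_apply l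
  · simp only [if_neg h2]; exact continuous_const

private theorem isClosed_Dh (row : Ω → σ) (M : Finset σ) (e : σ → Ω) (G : σ → ℝ) :
    IsClosed (Dh row M e G) := by
  have h : Dh row M e G = (⋂ k, {x | 0 ≤ x k}) ∩ ⋂ i, ⋂ _ : i ∈ M,
      {x : FrM row M e → ℝ | ∑ l, (if row l.1 = i then x l else 0) ≤ G i} := by
    ext s
    simp [Dh]
  rw [h]
  refine IsClosed.inter (isClosed_iInter fun k => ?_)
    (isClosed_iInter fun i => isClosed_iInter fun _ => ?_)
  · exact isClosed_le continuous_const (continuous_apply _)
  · exact isClosed_le (continuous_rsM row M e i) continuous_const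

theorem isCompact_Dh (hG : ∀ i, 0 < G i) : IsCompact (Dh row M e G) := by
  refine (isCompact_Icc (a := (0 : FrM row M e → ℝ)) (b := fun k => G (row k.1))).of_isClosed_subset
    (isClosed_Dh row M e G) ?_
  rintro x ⟨h1, h2⟩
  refine ⟨h1, fun k => le_trans ?_ (h2 (row k.1) k.2.1)⟩
  have h := Finset.single_le_sum (f := fun l : FrM row M e => if row l.1 = row k.1 then x l else 0)
    (fun l _ => by
      by_cases h : row l.1 = row k.1
      · simp only [if_pos h]; exact h1 l
      · simp only [if_neg h]; exact le_rfl) (Finset.mem_univ k)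
  simpa using h

theorem convex_Dh (row : Ω → σ) (M : Finset σ) (e : σ → Ω) (G : σ → ℝ) :
    Convex ℝ (Dh row M e G) := by
  rintro x ⟨h1, h2⟩ y ⟨h3, h4⟩ a b ha hb hab
  refine ⟨fun k => ?_, fun i hi => ?_⟩
  · simp only [Pi.add_apply, Pi.smul_apply, smul_eq_mul]
    exact add_nonneg (mul_nonneg ha (h1 k)) (mul_nonneg hb (h3 k))
  · have h5 : ∑ l : FrM row M e, (if row l.1 = i then (a • x + b • y) l else 0) =
        a * (∑ l : FrM row M e, (if row l.1 = i then x l else 0)) +
        b * (∑ l : FrM row M e, (if row l.1 = i then y l else 0)) := by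
      rw [Finset.mul_sum, Finset.mul_sum, ← Finset.sum_add_distrib]
      refine Finset.sum_congr rfl fun l _ => ?_
      by_cases h : row l.1 = i
      · simp only [if_pos h, Pi.add_apply, Pi.smul_apply, smul_eq_mul]
      · simp only [if_neg h]; ring
    rw [h5]
    calc _ ≤ a * G i + b * G i := add_le_add (mul_le_mul_of_nonneg_left (h2 i hi) ha)
            (mul_le_mul_of_nonneg_left (h4 i hi) hb)
      _ = G i := by rw [← add_mul, hab, one_mul]

theorem interior_Dh (hG : ∀ i, 0 < G i) : (interior (Dh row M e G)).Nonempty := by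
  have hU : IsOpen ((⋂ k, {x : FrM row M e → ℝ | 0 < x k}) ∩ ⋂ i : σ,
      {x : FrM row M e → ℝ | ∑ l, (if row l.1 = i then x l else 0) < G i}) := by
    refine IsOpen.inter (isOpen_iInter_of_finite fun k => ?_) (isOpen_iInter_of_finite fun i => ?_)
    · exact isOpen_lt continuous_const (continuous_apply _)
    · exact isOpen_lt (continuous_rsM row M e i) continuous_const
  have hs : ((⋂ k, {x : FrM row M e → ℝ | 0 < x k}) ∩ ⋂ i : σ,
      {x : FrM row M e → ℝ | ∑ l, (if row l.1 = i then x l else 0) < G i}) ⊆ Dh row M e G := by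
    rintro x ⟨h1, h2⟩
    rw [Set.mem_iInter] at h1 h2
    exact ⟨fun k => (h1 k).le, fun i _ => (h2 i).le⟩
  refine ⟨fun k => G (row k.1) / (Fintype.card (FrM row M e) + 1), interior_maximal hs hU ?_⟩
  have hc : (0 : ℝ) < (Fintype.card (FrM row M e) : ℝ) + 1 := by positivity
  refine ⟨Set.mem_iInter.2 fun k => div_pos (hG _) hc, Set.mem_iInter.2 fun i => ?_⟩
  show ∑ l : FrM row M e, (if row l.1 = i then
    G (row l.1) / ((Fintype.card (FrM row M e) : ℝ) + 1) else 0) < G i
  calc ∑ l : FrM row M e, (if row l.1 = i then
        G (row l.1) / ((Fintype.card (FrM row M e) : ℝ) + 1) else 0)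
      ≤ ∑ _l : FrM row M e, G i / ((Fintype.card (FrM row M e) : ℝ) + 1) := by
        refine Finset.sum_le_sum fun l _ => ?_
        by_cases h : row l.1 = i
        · rw [if_pos h, h]
        · rw [if_neg h]; exact (div_pos (hG _) hc).le
    _ = (Fintype.card (FrM row M e) : ℝ) * (G i / ((Fintype.card (FrM row M e) : ℝ) + 1)) := by
        rw [Finset.sum_const, nsmul_eq_mul, Finset.card_univ]
    _ < G i := by
        rw [mul_div_assoc', div_lt_iff₀ hc]
        have := hG i
        nlinarith

private theorem vol_Dh_ne (hG : ∀ i, 0 < G i) : volume (Dh row M e G) ≠ 0 := by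
  intro h
  have h1 := measure_mono_null interior_subset h
  exact (isOpen_interior.measure_ne_zero volume (interior_Dh hG)) h1

private theorem vol_Dh_lt (hG : ∀ i, 0 < G i) : volume (Dh row M e G) ≠ ∞ :=
  (isCompact_Dh hG).measure_lt_top.ne

private theorem map_univ (hG : ∀ i, 0 < G i) :
    ((volume.restrict (Dh row M e G)).map (fillM row M e G)) Set.univ =
      volume (Dh row M e G) := by
  rw [Measure.map_apply (continuous_fillM row M e G).measurable MeasurableSet.univ,
    Set.preimage_univ, Measure.restrict_apply_univ]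

theorem isProbabilityMeasure_unif (hG : ∀ i, 0 < G i) :
    IsProbabilityMeasure (unif row M e G) := by
  constructor
  rw [unif, nrm, Measure.smul_apply, smul_eq_mul, map_univ hG]
  exact ENNReal.inv_mul_cancel (vol_Dh_ne hG) (vol_Dh_lt hG)

/-- The coordinates of the uniform measure. -/
theorem unif_map (hG : ∀ i, 0 < G i) :
    (unif row M e G).map (fun s (k : FrM row M e) => s k.1) =
      nrm (volume.restrict (Dh row M e G)) := by
  have hm : Measurable (fun (s : Ω → ℝ) (k : FrM row M e) => s k.1) :=
    measurable_pi_lambda _ fun k => measurable_pi_apply _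
  rw [unif, nrm, map_univ hG, Measure.map_smul,
    Measure.map_map hm (continuous_fillM row M e G).measurable]
  have hid : ((fun (s : Ω → ℝ) (k : FrM row M e) => s k.1) ∘ fillM row M e G) = id := by
    funext x k
    simp only [Function.comp_apply, fillM, id]
    rw [dif_pos k.2]
  rw [hid, Measure.map_id, nrm, Measure.restrict_apply_univ]

private theorem rsum_fillM (he : ∀ i, row (e i) = i) {i : σ} (hi : i ∈ M)
    (x : FrM row M e → ℝ) : rsum row i (fillM row M e G x) = G i := by
  have h1 : ∑ l : FrM row M e, (if row l.1 = i then x l else 0) =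
      ∑ k ∈ Finset.univ.erase (e i), (if row k = i then fillM row M e G x k else 0) := by
    have h2 : ∑ l : FrM row M e, (if row l.1 = i then x l else 0) =
        ∑ l : FrM row M e, (if row l.1 = i then fillM row M e G x l.1 else 0) := by
      refine Finset.sum_congr rfl fun l _ => ?_
      have h3 : fillM row M e G x l.1 = x l := by
        unfold fillM
        rw [dif_pos l.2]
      rw [h3]
    have h4 : ∑ l : FrM row M e, (if row l.1 = i then fillM row M e G x l.1 else 0) =
        ∑ k ∈ Finset.univ.filter (fun k => row k ∈ M ∧ k ≠ e (row k)),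
          (if row k = i then fillM row M e G x k else 0) :=
      (Finset.sum_subtype (Finset.univ.filter (fun k => row k ∈ M ∧ k ≠ e (row k)))
        (by simp) (fun k => if row k = i then fillM row M e G x k else 0)).symm
    rw [h2, h4]
    have h5 : ∀ s : Finset Ω, ∑ k ∈ s, (if row k = i then fillM row M e G x k else 0) =
        ∑ k ∈ s.filter (fun k => row k = i), fillM row M e G x k := fun s =>
      (Finset.sum_filter _ _).symm
    rw [h5, h5]
    refine Finset.sum_congr ?_ fun _ _ => rfl
    ext k
    simp only [Finset.mem_filter, Finset.mem_univ, true_and, Finset.mem_erase, and_true]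
    constructor
    · rintro ⟨⟨_, h6⟩, h7⟩
      rw [h7] at h6
      exact ⟨h6, h7⟩
    · rintro ⟨h6, h7⟩
      rw [h7]
      exact ⟨⟨hi, h6⟩, rfl⟩
  unfold rsum
  rw [← Finset.add_sum_erase Finset.univ _ (Finset.mem_univ (e i)), ← h1, he, if_pos rfl]
  have h8 : fillM row M e G x (e i) =
      G i - ∑ l : FrM row M e, (if row l.1 = i then x l else 0) := by
    unfold fillM
    rw [dif_neg (by rw [he]; simp), he, if_pos hi]
  rw [h8]
  ring

/-- The uniform measure is concentrated on the points of the macro simplices. -/
theorem unif_ae (he : ∀ i, row (e i) = i) (hG : ∀ i, 0 < G i) :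
    ∀ᵐ s ∂(unif row M e G), (∀ k, row k ∉ M → s k = 0) ∧ (∀ i ∈ M, rsum row i s = G i) ∧
      (fun k : FrM row M e => s k.1) ∈ Dh row M e G := by
  have hc : IsClosed {s : Ω → ℝ | (∀ k, row k ∉ M → s k = 0) ∧ (∀ i ∈ M, rsum row i s = G i) ∧
      (fun k : FrM row M e => s k.1) ∈ Dh row M e G} := by
    have h : {s : Ω → ℝ | (∀ k, row k ∉ M → s k = 0) ∧ (∀ i ∈ M, rsum row i s = G i) ∧
      (fun k : FrM row M e => s k.1) ∈ Dh row M e G} = (⋂ k, ⋂ _ : row k ∉ M, {s | s k = 0}) ∩
        ((⋂ i, ⋂ _ : i ∈ M, {s | rsum row i s = G i}) ∩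
          (fun (s : Ω → ℝ) (k : FrM row M e) => s k.1) ⁻¹' Dh row M e G) := by
      ext s
      simp
    rw [h]
    refine IsClosed.inter (isClosed_iInter fun k => isClosed_iInter fun _ => ?_)
      (IsClosed.inter (isClosed_iInter fun i => isClosed_iInter fun _ => ?_) ?_)
    · exact isClosed_eq (continuous_apply k) continuous_const
    · exact isClosed_eq (continuous_rsum row i) continuous_const
    · exact (isClosed_Dh row M e G).preimage (continuous_pi fun k => continuous_apply _)
  rw [unif, nrm]
  refine Measure.ae_smul_measure ?_ _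
  rw [ae_map_iff (continuous_fillM row M e G).aemeasurable hc.measurableSet]
  refine (ae_restrict_mem (isClosed_Dh row M e G).measurableSet).mono fun x hx => ?_
  refine ⟨fun k hk => ?_, fun i hi => rsum_fillM he hi x, ?_⟩
  · unfold fillM
    rw [dif_neg (fun h => hk h.1), if_neg hk]
  · have h : (fun k : FrM row M e => fillM row M e G x k.1) = x := by
      funext k
      unfold fillM
      rw [dif_pos k.2]
    rw [h]
    exact hx

end Pool.Agent.H99.PI
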