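import Pool.Agent.H99.PI.AIntA

/-!
# The measure of a face in the dual macro coordinates

Here `ν` is a flat measure with the roles of `row` and `col` exchanged: its faces are
`fc col c y` for sections `y` of `row` (the coordinates `y i` are `0`), and the fill coordinates `e' j` are
chosen in the columns, in rows which are not macro rows. In the free coordinates
`w` of the face (`Fr col y e'`) the macro coordinates are free (all `k` with `row k ∈ M`,
`k ≠ y (row k)`), and the micro coordinates have to satisfy `w > 0` and
`∑ (col k = j) w k < c j - (sum of the macro coordinates of the column j)` (the fill coordinate `e' j` is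
positive). The linear map from the macro coordinates to `xi (-t)` is bijective with a constant
determinant; it maps the positive macro coordinates onto the cone `cone y`, where
`tau ξ k` is the coordinate `k`. Fubini.
-/

set_option linter.unusedSectionVars false

open MeasureTheory Matrix
open scoped ENNReal

namespace Pool.Agent.H99.PI

variable {Ω σ κ : Type} [Fintype Ω] [DecidableEq Ω] [Fintype σ] [DecidableEq σ] [Fintype κ]
  [DecidableEq κ] {row : Ω → σ} {col : Ω → κ} {M : Finset σ} {e : σ → Ω}

/-! ### the linear map -/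

/-- The macro coordinates of the face, extended by `0`. -/
private def aext (row : Ω → σ) (M : Finset σ) (y : σ → Ω) (u : FrM row M y → ℝ) (k : Ω) : ℝ :=
  if h : row k ∈ M ∧ k ≠ y (row k) then u ⟨k, h⟩ else 0

private theorem aext_coe {y : σ → Ω} (u : FrM row M y → ℝ) (k : FrM row M y) :
    aext row M y u k.1 = u k := dif_pos k.2

private theorem aext_sec {y : σ → Ω} (hy : IsSec row y) (u : FrM row M y → ℝ) (i : σ) :
    aext row M y u (y i) = 0 := dif_neg fun h => h.2 (by rw [hy i])

private theorem aext_micro {y : σ → Ω} (u : FrM row M y → ℝ) {k : Ω} (hk : row k ∉ M) :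
    aext row M y u k = 0 := dif_neg fun h => hk h.1

private theorem vv_coe (ξ : FrM row M e → ℝ) (k : FrM row M e) : vv row M e ξ k.1 = -ξ k :=
  dif_pos k.2

private theorem vv_fill (he : ∀ i, row (e i) = i) (ξ : FrM row M e → ℝ) (i : σ) :
    vv row M e ξ (e i) = 0 := dif_neg fun h => h.2 (by rw [he i])

private theorem xi_aext (he : ∀ i, row (e i) = i) {y : σ → Ω} (u : FrM row M y → ℝ) {k : Ω}
    (hk : row k ∈ M) : vv row M e (xi row M e (-(aext row M y u))) k =
      aext row M y u k - aext row M y u (e (row k)) := by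
  by_cases h : k = e (row k)
  · rw [h, vv_fill he, he, sub_self]
  · rw [vv_coe _ ⟨k, hk, h⟩]
    simp only [xi, Pi.neg_apply]
    ring

/-- The linear map. -/
private noncomputable def alin (he : ∀ i, row (e i) = i) {y : σ → Ω} (hy : IsSec row y) :
    (FrM row M y → ℝ) ≃ₗ[ℝ] (FrM row M e → ℝ) where
  toFun u := xi row M e (-(aext row M y u))
  map_add' u v := by
    funext k
    simp only [xi, Pi.neg_apply, Pi.add_apply, aext]
    split_ifs <;> simp <;> ring
  map_smul' a u := by
    funext k
    simp only [xi, Pi.neg_apply, Pi.smul_apply, aext, smul_eq_mul, RingHom.id_apply]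
    (split_ifs <;> simp) <;> ring
  invFun ξ k := vv row M e ξ k.1 - vv row M e ξ (y (row k.1))
  left_inv u := by
    funext k
    have h1 : row (y (row k.1)) ∈ M := by rw [hy]; exact k.2.1
    show vv row M e (xi row M e (-(aext row M y u))) k.1 -
      vv row M e (xi row M e (-(aext row M y u))) (y (row k.1)) = u k
    rw [xi_aext he u k.2.1, xi_aext he u h1, aext_sec hy, aext_coe, hy]
    ring
  right_inv ξ := by
    funext k
    set u : FrM row M y → ℝ := fun k => vv row M e ξ k.1 - vv row M e ξ (y (row k.1)) with hu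
    have h1 : ∀ k : Ω, row k ∈ M →
        aext row M y u k = vv row M e ξ k - vv row M e ξ (y (row k)) := by
      intro k hk
      by_cases h : k = y (row k)
      · rw [h, aext_sec hy, hy, sub_self]
      · rw [aext_coe u ⟨k, hk, h⟩]
    show -(aext row M y u k.1) - -(aext row M y u (e (row k.1))) = ξ k
    rw [h1 _ k.2.1, h1 _ (by rw [he]; exact k.2.1), he, vv_coe, vv_fill he]
    ring

private theorem alin_apply (he : ∀ i, row (e i) = i) {y : σ → Ω} (hy : IsSec row y)
    (u : FrM row M y → ℝ) : alin (M := M) he hy u = xi row M e (-(aext row M y u)) := rfl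

private theorem alin_cone (he : ∀ i, row (e i) = i) {y : σ → Ω} (hy : IsSec row y)
    (u : FrM row M y → ℝ) : alin (M := M) he hy u ∈ cone row M e y ↔ ∀ k, 0 < u k := by
  have h1 : ∀ k : FrM row M y, vv row M e (alin (M := M) he hy u) k.1 -
      vv row M e (alin (M := M) he hy u) (y (row k.1)) = u k := fun k =>
    congrFun ((alin (M := M) he hy).left_inv u) k
  constructor
  · intro h k
    have h2 := h k.1 k.2.1 k.2.2
    rw [← h1 k]
    linarith
  · intro h k hk hk'
    have h2 := h ⟨k, hk, hk'⟩
    rw [← h1 ⟨k, hk, hk'⟩] at h2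
    have h3 : vv row M e (alin (M := M) he hy u) (y (row k)) <
      vv row M e (alin (M := M) he hy u) k := by linarith
    exact h3

/-- The remainder of the column. -/
private theorem alin_cpr (he : ∀ i, row (e i) = i) {y : σ → Ω} (hy : IsSec row y)
    {u : FrM row M y → ℝ} (hu : ∀ k, 0 < u k) (c : κ → ℝ) (j : κ) :
    cpr row col M e c j (alin (M := M) he hy u) =
      c j - ∑ k : FrM row M y, if col k.1 = j then u k else 0 := by
  have h0 : ∀ k, 0 ≤ aext row M y u k := by
    intro k
    unfold aext
    split_ifs
    · exact (hu _).le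
    · exact le_rfl
  have h1 : ∀ k, row k ∈ M → tau row M e (alin (M := M) he hy u) k = aext row M y u k := by
    intro k hk
    rw [alin_apply]
    exact tau_xi he h0 (fun i _ => ⟨y i, hy i, aext_sec hy u i⟩) hk
  unfold cpr
  congr 1
  rw [← Fintype.sum_subtype_add_sum_subtype (fun k => row k ∈ M ∧ k ≠ y (row k))]
  rw [add_eq_left.2]
  · refine Finset.sum_congr rfl fun k _ => ?_
    by_cases h : col k.1 = j
    · rw [if_pos ⟨h, k.2.1⟩, if_pos h, h1 _ k.2.1, aext_coe]
    · rw [if_neg fun h' => h h'.1, if_neg h]
  · refine Finset.sum_eq_zero fun k _ => ?_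
    split_ifs with h
    · rw [h1 _ h.2]
      exact dif_neg k.2
    · rfl

/-! ### the face -/

/-- The free coordinates are the macro and the micro coordinates. -/
private def aeqv {y : σ → Ω} (hy : ∀ i, row (y i) = i) {e' : κ → Ω} (heM : ∀ j, row (e' j) ∉ M) :
    FrM row M y ⊕ Frm row col M y e' ≃ Fr col y e' where
  toFun := Sum.elim
    (fun k => ⟨k.1, fun i h => k.2.2 (by rw [h, hy i]), fun h => heM (col k.1) (by
      rw [← h]; exact k.2.1)⟩)
    (fun k => ⟨k.1, fun i h => k.2.2.1 (by rw [h, hy i]), k.2.2.2⟩)
  invFun k := if h : row k.1 ∈ M then Sum.inl ⟨k.1, h, fun h' => k.2.1 _ h'⟩ else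
    Sum.inr ⟨k.1, h, fun h' => k.2.1 _ h', k.2.2⟩
  left_inv := by
    rintro (k | k)
    · exact dif_pos k.2.1
    · exact dif_neg k.2.1
  right_inv k := by
    by_cases h : row k.1 ∈ M
    · simp only [h, dite_true, Sum.elim_inl]
    · simp only [h, dite_false, Sum.elim_inr]

private theorem fill_fc {y : σ → Ω} {e' : κ → Ω} (he' : IsFill col y e') (c : κ → ℝ)
    (x : Fr col y e' → ℝ) : fill col y e' c x ∈ fc col c y ↔
      (∀ k, 0 < x k) ∧ ∀ j, ∑ l : Fr col y e', (if col l.1 = j then x l else 0) < c j := by
  have h1 : ∀ k : Fr col y e', fill col y e' c x k.1 = x k := fun k => dif_pos k.2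
  have h2 : ∀ i, fill col y e' c x (y i) = 0 := by
    intro i
    unfold fill
    rw [dif_neg fun h => h.1 i rfl, if_neg fun h => he'.2 _ i h.symm]
  have h3 : ∀ j, fill col y e' c x (e' j) =
      c j - ∑ l : Fr col y e', if col l.1 = j then x l else 0 := by
    intro j
    unfold fill
    rw [dif_neg fun h => h.2 (by rw [he'.1 j]), if_pos (by rw [he'.1 j])]
    simp only [he'.1 j]
  have h4 : ∀ j, rsum col j (fill col y e' c x) = c j := by
    intro j
    unfold rsum
    rw [← Fintype.sum_subtype_add_sum_subtype (fun k => (∀ i, k ≠ y i) ∧ k ≠ e' (col k))]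
    have h5 : ∑ k : {k : Ω // ¬ ((∀ i, k ≠ y i) ∧ k ≠ e' (col k))},
        (if col k.1 = j then fill col y e' c x k.1 else 0) =
        c j - ∑ l : Fr col y e', if col l.1 = j then x l else 0 := by
      rw [Finset.sum_eq_single (⟨e' j, fun h => h.2 (by rw [he'.1 j])⟩ :
        {k : Ω // ¬ ((∀ i, k ≠ y i) ∧ k ≠ e' (col k))})]
      · rw [if_pos (he'.1 j), h3]
      · intro k _ hk
        by_cases hj : col k.1 = j
        · rw [if_pos hj]
          by_cases hi : ∀ i, k.1 ≠ y i
          · exfalso
            apply hk
            have := k.2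
            apply Subtype.ext
            show k.1 = e' j
            by_contra hne
            exact this ⟨hi, by rw [hj]; exact hne⟩
          · push Not at hi
            obtain ⟨i, hi⟩ := hi
            rw [hi, h2]
        · rw [if_neg hj]
      · intro h
        exact absurd (Finset.mem_univ _) h
    rw [h5]
    have h6 : ∑ k : {k : Ω // (∀ i, k ≠ y i) ∧ k ≠ e' (col k)},
        (if col k.1 = j then fill col y e' c x k.1 else 0) =
        ∑ l : Fr col y e', if col l.1 = j then x l else 0 := by
      refine Finset.sum_congr rfl fun k _ => ?_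
      rw [h1 k]
    rw [h6]
    ring
  constructor
  · rintro ⟨-, -, h⟩
    refine ⟨fun k => ?_, fun j => ?_⟩
    · rw [← h1 k]
      exact h k.1 k.2.1
    · have := h (e' j) fun i => he'.2 j i
      rw [h3] at this
      linarith
  · rintro ⟨h, h'⟩
    refine ⟨h2, h4, fun k hk => ?_⟩
    by_cases hk' : k = e' (col k)
    · have := h' (col k)
      rw [hk', h3]
      linarith
    · have := h ⟨k, hk, hk'⟩
      rw [← h1] at this
      exact this

/-- The face in the dual macro coordinates. -/
theorem face_int (he : ∀ i, row (e i) = i) {y : σ → Ω} (hy : IsSec row y) {e' : κ → Ω}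
    (he' : IsFill col y e') (heM : ∀ j, row (e' j) ∉ M) :
    ∃ D : ℝ≥0∞, D ≠ 0 ∧ D ≠ ∞ ∧ ∀ (c : κ → ℝ) (S : Set (FrM row M e → ℝ)), MeasurableSet S →
      (volume.map (fill col y e' c)) ({t | xi row M e (-t) ∈ S} ∩ fc col c y) =
        D * ∫⁻ ξ in S ∩ cone row M e y, Gv row col M e c y e' ξ := by
  set L := (alin (M := M) he hy).toContinuousLinearEquiv with hL
  have hLu : ∀ u, L u = alin (M := M) he hy u := fun _ => rfl
  have hD := Measure.isAddLeftInvariant_eq_smul (Measure.map L volume) volume
  have hDpos := Measure.addHaarScalarFactor_pos_of_isAddHaarMeasure (Measure.map L volume) volume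
  set D := Measure.addHaarScalarFactor (Measure.map L volume) volume
  refine ⟨(D : ℝ≥0∞), by simpa using hDpos.ne', ENNReal.coe_ne_top, fun c S hS => ?_⟩
  have hxi : Measurable fun t : Ω → ℝ => xi row M e (-t) := by
    refine measurable_pi_iff.2 fun k => ?_
    simp only [xi, Pi.neg_apply]
    fun_prop
  have hA : MeasurableSet ({t | xi row M e (-t) ∈ S} ∩ fc col c y) :=
    (hxi hS).inter (measurableSet_fc col c y)
  have hfm := (continuous_fill col y e' c).measurable
  rw [Measure.map_apply hfm hA]
  have hT := (volume_measurePreserving_sumPiEquivProdPi_symm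
    (fun _ : FrM row M y ⊕ Frm row col M y e' => ℝ)).trans
    (volume_measurePreserving_piCongrLeft (fun _ : Fr col y e' => ℝ) (aeqv (col := col) hy heM))
  set E := aeqv (col := col) hy heM with hE
  set T := (MeasurableEquiv.sumPiEquivProdPi
    (fun _ : FrM row M y ⊕ Frm row col M y e' => ℝ)).symm.trans
      (MeasurableEquiv.piCongrLeft (fun _ : Fr col y e' => ℝ) E) with hTdef
  have hT' : MeasurePreserving T := hT
  have hTl : ∀ p k, T p (E (Sum.inl k)) = p.1 k := by
    intro p k
    exact Equiv.piCongrLeft_apply_apply (fun _ : Fr col y e' => ℝ) E _ (Sum.inl k)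
  have hTr : ∀ p k, T p (E (Sum.inr k)) = p.2 k := by
    intro p k
    exact Equiv.piCongrLeft_apply_apply (fun _ : Fr col y e' => ℝ) E _ (Sum.inr k)
  rw [← hT'.measure_preimage (hfm hA).nullMeasurableSet, Measure.volume_eq_prod,
    Measure.prod_apply (T.measurable (hfm hA))]
  -- the inner volumes
  have key : ∀ u : FrM row M y → ℝ, volume (Prod.mk u ⁻¹' (T ⁻¹' (fill col y e' c ⁻¹'
      ({t | xi row M e (-t) ∈ S} ∩ fc col c y)))) =
      (S ∩ cone row M e y).indicator (Gv row col M e c y e') (L u) := by
    intro u
    have h1 : ∀ w, xi row M e (-(fill col y e' c (T (u, w)))) = L u := by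
      intro w
      rw [hLu, alin_apply]
      have h2 : ∀ k, row k ∈ M → fill col y e' c (T (u, w)) k = aext row M y u k := by
        intro k hk
        by_cases h : k = y (row k)
        · rw [h, aext_sec hy]
          unfold fill
          rw [dif_neg fun h => h.1 _ rfl, if_neg fun h => he'.2 _ _ h.symm]
        · rw [aext_coe u ⟨k, hk, h⟩]
          refine Eq.trans ?_ (hTl (u, w) ⟨k, hk, h⟩)
          exact dif_pos (E (Sum.inl ⟨k, hk, h⟩)).2
      funext k
      simp only [xi, Pi.neg_apply]
      rw [h2 _ k.2.1, h2 _ (by rw [he]; exact k.2.1)]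
    have h3 : ∀ w, (∀ k, 0 < T (u, w) k) ↔ (∀ k, 0 < u k) ∧ ∀ k, 0 < w k := by
      intro w
      constructor
      · intro h
        refine ⟨fun k => ?_, fun k => ?_⟩
        · have h4 := h (E (Sum.inl k))
          rw [hTl] at h4
          exact h4
        · have h4 := h (E (Sum.inr k))
          rw [hTr] at h4
          exact h4
      · rintro ⟨h, h'⟩ k
        obtain ⟨k | k, rfl⟩ := E.surjective k
        · rw [hTl]; exact h k
        · rw [hTr]; exact h' k
    have h4 : ∀ w j, ∑ l : Fr col y e', (if col l.1 = j then T (u, w) l else 0) =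
        (∑ k : FrM row M y, if col k.1 = j then u k else 0) +
          ∑ k : Frm row col M y e', if col k.1 = j then w k else 0 := by
      intro w j
      rw [← E.sum_comp, Fintype.sum_sum_type]
      congr 1
      · refine Finset.sum_congr rfl fun k _ => ?_
        rw [hTl]
        rfl
      · refine Finset.sum_congr rfl fun k _ => ?_
        rw [hTr]
        rfl
    have h5 : ∀ w, w ∈ (Prod.mk u ⁻¹' (T ⁻¹' (fill col y e' c ⁻¹'
        ({t | xi row M e (-t) ∈ S} ∩ fc col c y)))) ↔ L u ∈ S ∧ ((∀ k, 0 < u k) ∧
          ∀ k, 0 < w k) ∧ ∀ j, (∑ k : FrM row M y, if col k.1 = j then u k else 0) +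
            (∑ k : Frm row col M y e', if col k.1 = j then w k else 0) < c j := by
      intro w
      show (xi row M e (-(fill col y e' c (T (u, w)))) ∈ S ∧
        fill col y e' c (T (u, w)) ∈ fc col c y) ↔ _
      rw [h1, fill_fc he', h3]
      simp only [h4]
    by_cases hu : L u ∈ S ∩ cone row M e y
    · rw [Set.indicator_of_mem hu]
      unfold Gv
      congr 1
      ext w
      have hu' : ∀ k, 0 < u k := (alin_cone he hy u).1 hu.2
      rw [h5]
      simp only [Set.mem_ofPred_eq]
      constructor
      · rintro ⟨-, ⟨-, h6⟩, h7⟩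
        refine ⟨h6, fun j => ?_⟩
        have := h7 j
        rw [hLu, alin_cpr he hy hu']
        linarith
      · rintro ⟨h6, h7⟩
        refine ⟨hu.1, ⟨hu', h6⟩, fun j => ?_⟩
        have := h7 j
        rw [hLu, alin_cpr he hy hu'] at this
        linarith
    · rw [Set.indicator_of_notMem hu]
      refine measure_mono_null (t := ∅) (fun w hw => ?_) measure_empty
      rw [h5] at hw
      exact hu ⟨hw.1, (alin_cone he hy u).2 hw.2.1.1⟩
  have hme : Measurable ((S ∩ cone row M e y).indicator (Gv row col M e c y e')) :=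
    (measurable_Gv c y e').indicator (hS.inter (measurableSet_cone y))
  simp only [key]
  rw [← lintegral_map (f := (S ∩ cone row M e y).indicator (Gv row col M e c y e')) hme
    L.continuous.measurable, hD, lintegral_smul_measure,
    lintegral_indicator (hS.inter (measurableSet_cone y))]
  rfl

end Pool.Agent.H99.PI
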