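import Pool.Agent.H99.PI.ACone
import Pool.Agent.H99.PI.AFace

/-!
# Cones and volumes over the dual macro coordinates
-/

set_option linter.unusedSectionVars false

open MeasureTheory Matrix
open scoped ENNReal Pointwise

namespace Pool.Agent.H99.PI

variable {Ω σ κ : Type} [Fintype Ω] [DecidableEq Ω] [Fintype σ] [DecidableEq σ] [Fintype κ]
  [DecidableEq κ] {row : Ω → σ} {col : Ω → κ} {M : Finset σ} {e : σ → Ω}

/-- The points where `y i` is the only coordinate with `tau = 0` in the macro row `i`. -/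
def cone (row : Ω → σ) (M : Finset σ) (e : σ → Ω) (y : σ → Ω) : Set (FrM row M e → ℝ) :=
  {ξ | ∀ k, row k ∈ M → k ≠ y (row k) → vv row M e ξ (y (row k)) < vv row M e ξ k}

/-- The free micro coordinates of the face `y`. -/
abbrev Frm (row : Ω → σ) (col : Ω → κ) (M : Finset σ) (y : σ → Ω) (e' : κ → Ω) : Type :=
  {k : Ω // row k ∉ M ∧ k ≠ y (row k) ∧ k ≠ e' (col k)}

/-- The volume of the free micro coordinates over the point `ξ`. -/
noncomputable def Gv (row : Ω → σ) (col : Ω → κ) (M : Finset σ) (e : σ → Ω) (c : κ → ℝ)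
    (y : σ → Ω) (e' : κ → Ω) (ξ : FrM row M e → ℝ) : ℝ≥0∞ :=
  volume {w : Frm row col M y e' → ℝ | (∀ k, 0 < w k) ∧
    ∀ j, ∑ k, (if col k.1 = j then w k else 0) < cpr row col M e c j ξ}

/-- `vv` as a linear functional. -/
private noncomputable def vvL (row : Ω → σ) (M : Finset σ) (e : σ → Ω) (k : Ω) :
    (FrM row M e → ℝ) →ₗ[ℝ] ℝ :=
  if h : row k ∈ M ∧ k ≠ e (row k) then -LinearMap.proj ⟨k, h⟩ else 0

private theorem vvL_apply (k : Ω) (ξ : FrM row M e → ℝ) :
    vvL row M e k ξ = vv row M e ξ k := by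
  unfold vvL vv
  split_ifs <;> rfl

private theorem continuous_vv (k : Ω) :
    Continuous fun ξ : FrM row M e → ℝ => vv row M e ξ k := by
  unfold vv
  split_ifs
  · exact (continuous_apply _).neg
  · exact continuous_const

private theorem continuous_cpr (c : κ → ℝ) (j : κ) :
    Continuous fun ξ : FrM row M e → ℝ => cpr row col M e c j ξ := by
  unfold cpr
  refine continuous_const.sub (continuous_finsetSum _ fun k _ => ?_)
  split_ifs
  · exact continuous_tau k
  · exact continuous_const

theorem measurable_Gv (c : κ → ℝ) (y : σ → Ω) (e' : κ → Ω) :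
    Measurable (Gv row col M e c y e') := by
  have h : IsOpen {p : (FrM row M e → ℝ) × (Frm row col M y e' → ℝ) | (∀ k, 0 < p.2 k) ∧
      ∀ j, ∑ k, (if col k.1 = j then p.2 k else 0) < cpr row col M e c j p.1} := by
    simp only [Set.ofPred_and, Set.ofPred_forall]
    refine IsOpen.inter (isOpen_iInter_of_finite fun k => ?_)
      (isOpen_iInter_of_finite fun j => ?_)
    · exact isOpen_lt continuous_const ((continuous_apply k).comp continuous_snd)
    · refine isOpen_lt (continuous_finsetSum _ fun k _ => ?_)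
        ((continuous_cpr c j).comp continuous_fst)
      split_ifs
      · exact (continuous_apply k).comp continuous_snd
      · exact continuous_const
  exact measurable_measure_prodMk_left (ν := volume) h.measurableSet

theorem measurableSet_cone (y : σ → Ω) : MeasurableSet (cone row M e y) := by
  have h : IsOpen (cone row M e y) := by
    unfold cone
    simp only [Set.ofPred_forall]
    refine isOpen_iInter_of_finite fun k => isOpen_iInter_of_finite fun _ =>
      isOpen_iInter_of_finite fun _ => ?_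
    exact isOpen_lt (continuous_vv _) (continuous_vv _)
  exact h.measurableSet

private theorem ae_ne {k l : Ω} (hkl : k ≠ l) (hr : row k = row l)
    (hk : row k ∈ M) : ∀ᵐ ξ : FrM row M e → ℝ, vv row M e ξ k ≠ vv row M e ξ l := by
  have h1 : LinearMap.ker (vvL row M e k - vvL row M e l) ≠ ⊤ := by
    intro h
    have hz : vvL row M e k - vvL row M e l = 0 := LinearMap.ker_eq_top.1 h
    have hv : ∀ ξ, vv row M e ξ k - vv row M e ξ l = 0 := fun ξ => by
      rw [← vvL_apply, ← vvL_apply]
      exact congrArg (fun f => f ξ) hz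
    have hl : row l ∈ M := hr ▸ hk
    by_cases h2 : k ≠ e (row k)
    · have h3 := hv (Pi.single ⟨k, hk, h2⟩ 1)
      unfold vv at h3
      rw [dif_pos ⟨hk, h2⟩, Pi.single_eq_same] at h3
      by_cases h4 : row l ∈ M ∧ l ≠ e (row l)
      · rw [dif_pos h4, Pi.single_eq_of_ne (fun h5 => hkl (congrArg Subtype.val h5).symm)] at h3
        norm_num at h3
      · rw [dif_neg h4] at h3
        norm_num at h3
    · have h2' : k = e (row k) := not_not.1 h2
      have h4 : l ≠ e (row l) := by
        intro h5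
        rw [← hr, ← h2'] at h5
        exact hkl h5.symm
      have h3 := hv (Pi.single ⟨l, hl, h4⟩ 1)
      unfold vv at h3
      rw [dif_neg (fun h5 => h2 h5.2), dif_pos ⟨hl, h4⟩, Pi.single_eq_same] at h3
      norm_num at h3
  have h2 := Measure.addHaar_submodule (volume : Measure (FrM row M e → ℝ)) _ h1
  rw [ae_iff]
  refine measure_mono_null (fun ξ hξ => ?_) h2
  have h3 : vv row M e ξ k = vv row M e ξ l := not_not.1 hξ
  show (vvL row M e k - vvL row M e l) ξ = 0
  rw [LinearMap.sub_apply, vvL_apply, vvL_apply, h3, sub_self]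

/-- The closed cones cover, and the difference of the closed and the open cones is a null set. -/
theorem cone_cover (he : ∀ i, row (e i) = i) :
    ∀ᵐ ξ : FrM row M e → ℝ, ∃ y, IsSec row y ∧ (∀ i, i ∉ M → y i = e i) ∧ ξ ∈ cone row M e y := by
  have h1 : ∀ᵐ ξ : FrM row M e → ℝ, ∀ k l : Ω, k ≠ l → row k = row l → row k ∈ M →
      vv row M e ξ k ≠ vv row M e ξ l := by
    rw [ae_all_iff]
    intro k
    rw [ae_all_iff]
    intro l
    by_cases h : k ≠ l ∧ row k = row l ∧ row k ∈ M
    · filter_upwards [ae_ne h.1 h.2.1 h.2.2] with ξ hξ _ _ _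
      exact hξ
    · exact Filter.Eventually.of_forall fun ξ h2 h3 h4 => absurd ⟨h2, h3, h4⟩ h
  filter_upwards [h1] with ξ hξ
  have h2 : ∀ i, ∃ k, row k = i ∧ ∀ l, row l = i → vv row M e ξ k ≤ vv row M e ξ l := by
    intro i
    obtain ⟨k, hk, hmin⟩ := Finset.exists_min_image (Finset.univ.filter fun l => row l = i)
      (vv row M e ξ) ⟨e i, by simp [he]⟩
    exact ⟨k, by simpa using hk, fun l hl => hmin l (by simp [hl])⟩
  choose f hf1 hf2 using h2
  refine ⟨fun i => if i ∈ M then f i else e i, fun i => ?_, fun i hi => if_neg hi, ?_⟩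
  · show row (if i ∈ M then f i else e i) = i
    split_ifs
    · exact hf1 i
    · exact he i
  · intro k hk hne
    simp only [if_pos hk] at hne ⊢
    refine lt_of_le_of_ne (hf2 _ k rfl) ?_
    exact hξ _ _ (Ne.symm hne) (hf1 _) (by rw [hf1]; exact hk)

theorem Gv_half (c : κ → ℝ) (y : σ → Ω) (e' : κ → Ω) {ξ ζ : FrM row M e → ℝ}
    (hζ : ∀ j, 0 ≤ cpr row col M e c j ζ) :
    Gv row col M e c y e' ξ ≤ 2 ^ Fintype.card Ω *
      Gv row col M e c y e' ((1 / 2 : ℝ) • ζ + (1 / 2 : ℝ) • ξ) := by
  unfold Gv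
  set S : Set (Frm row col M y e' → ℝ) := {w | (∀ k, 0 < w k) ∧
    ∀ j, ∑ k, (if col k.1 = j then w k else 0) < cpr row col M e c j ξ} with hS
  set S' : Set (Frm row col M y e' → ℝ) := {w | (∀ k, 0 < w k) ∧
    ∀ j, ∑ k, (if col k.1 = j then w k else 0) <
      cpr row col M e c j ((1 / 2 : ℝ) • ζ + (1 / 2 : ℝ) • ξ)} with hS'
  have h1 : (1 / 2 : ℝ) • S ⊆ S' := by
    rintro _ ⟨w, ⟨hw1, hw2⟩, rfl⟩
    refine ⟨fun k => ?_, fun j => ?_⟩
    · show 0 < (1 / 2 : ℝ) * w k
      have := hw1 k
      linarith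
    · have h2 : ∑ k : Frm row col M y e', (if col k.1 = j then ((1 / 2 : ℝ) • w) k else 0) =
          (∑ k : Frm row col M y e', (if col k.1 = j then w k else 0)) / 2 := by
        rw [Finset.sum_div]
        refine Finset.sum_congr rfl fun k _ => ?_
        split_ifs
        · show (1 / 2 : ℝ) * w k = w k / 2
          ring
        · norm_num
      show ∑ k : Frm row col M y e', (if col k.1 = j then ((1 / 2 : ℝ) • w) k else 0) < _
      rw [h2]
      have h3 := cpr_mid c j (ξ := ξ) (hζ j)
      have h4 := hw2 j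
      linarith
  have h2 := Measure.addHaar_smul (volume : Measure (Frm row col M y e' → ℝ)) (1 / 2) S
  have h3 : volume ((1 / 2 : ℝ) • S) ≤ volume S' := measure_mono h1
  rw [Module.finrank_fintype_fun_eq_card] at h2
  have h4 : (2 : ℝ≥0∞) ^ Fintype.card (Frm row col M y e') * volume ((1 / 2 : ℝ) • S) =
      volume S := by
    rw [h2, ← mul_assoc, abs_of_nonneg (by positivity), ENNReal.ofReal_pow (by norm_num),
      ← mul_pow]
    have h5 : (2 : ℝ≥0∞) * ENNReal.ofReal (1 / 2) = 1 := by
      rw [one_div, ENNReal.ofReal_inv_of_pos (by norm_num)]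
      norm_num
      exact ENNReal.mul_inv_cancel (by norm_num) (by norm_num)
    rw [h5, one_pow, one_mul]
  rw [← h4]
  refine mul_le_mul' ?_ h3
  refine pow_le_pow_right₀ (by norm_num) ?_
  exact Fintype.card_subtype_le _

end Pool.Agent.H99.PI
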