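import Pool.Agent.H99.PI.AMA
import Pool.Agent.H99.PI.AFace
import Pool.Agent.H2.MA.Conj
import Pool.Agent.H2.MA.Rock

/-!
# The potential of the limit plan, in the macro coordinates

`dot_xi`: for `s` in the product of the macro simplices, `s ⬝ᵥ τ` is the product of the coordinates
`s k`, `k` in `FrM`, with `xi τ`, plus a function of `τ` only.

`exists_pot`: let `p w = (restriction of w.1 to FrM, xi w.2)` and `Γ = γ₀.support ∪ {(s₀, τ₀)}`. The
support is contained in every closed set of full measure, so for `w ∈ Γ` the point `w.1` is in the image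
of the compact set `Dh` under `fillM` and `w.2 ∈ T`. By `dot_xi` (the second term telescopes) `p '' Γ` is
cyclically monotone. `rockafellar` and `exists_conj` (with the compact sets `Dh` and `xi '' T`) give the
potentials. `isPot_of_conj`, `vol_sub` (with the plan `γ₀.map p` of `nrm (volume.restrict Dh)`,
`unif_map`, and `ρ.map xi`) and `isSub_of_contact`.
-/

set_option linter.unusedSectionVars false

open MeasureTheory Matrix
open scoped ENNReal

namespace Pool.Agent.H99.PI

open Pool.Agent.H99.ON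
open Pool.Agent.H2.MA (IsConj contact CycMono)
open Pool.Agent.H61.OT (IsPlan)

variable {Ω σ : Type} [Fintype Ω] [DecidableEq Ω] [Fintype σ] [DecidableEq σ]
  {row : Ω → σ} {M : Finset σ} {e : σ → Ω} {G : σ → ℝ}

theorem dot_xi (he : ∀ i, row (e i) = i) {s : Ω → ℝ} (hs : ∀ k, row k ∉ M → s k = 0)
    (hG : ∀ i ∈ M, rsum row i s = G i) (τ : Ω → ℝ) :
    s ⬝ᵥ τ = (fun k : FrM row M e => s k.1) ⬝ᵥ xi row M e τ + ∑ i ∈ M, G i * τ (e i) := by
  have h1 : (fun k : FrM row M e => s k.1) ⬝ᵥ xi row M e τ =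
      ∑ k, if row k ∈ M ∧ k ≠ e (row k) then s k * (τ k - τ (e (row k))) else 0 := by
    simp only [dotProduct, xi]
    rw [← Finset.sum_filter]
    exact (Finset.sum_subtype _ (by simp) fun k => s k * (τ k - τ (e (row k)))).symm
  have h2 : ∑ i ∈ M, G i * τ (e i) = ∑ k, if row k ∈ M then s k * τ (e (row k)) else 0 := by
    calc ∑ i ∈ M, G i * τ (e i)
        = ∑ i ∈ M, ∑ k, if row k = i then s k * τ (e (row k)) else 0 := by
          refine Finset.sum_congr rfl fun i hi => ?_
          rw [← hG i hi, rsum, Finset.sum_mul]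
          refine Finset.sum_congr rfl fun k _ => ?_
          by_cases hk : row k = i
          · rw [if_pos hk, if_pos hk, hk]
          · rw [if_neg hk, if_neg hk, zero_mul]
      _ = ∑ k, ∑ i ∈ M, if row k = i then s k * τ (e (row k)) else 0 := Finset.sum_comm
      _ = ∑ k, if row k ∈ M then s k * τ (e (row k)) else 0 := by
          refine Finset.sum_congr rfl fun k _ => ?_
          rw [Finset.sum_ite_eq]
  rw [h1, h2, ← Finset.sum_add_distrib]
  simp only [dotProduct]
  refine Finset.sum_congr rfl fun k _ => ?_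
  by_cases hk : row k ∈ M
  · by_cases hke : k = e (row k)
    · rw [if_neg (fun h => h.2 hke), if_pos hk, zero_add, ← hke]
    · rw [if_pos ⟨hk, hke⟩, if_pos hk]
      ring
  · rw [if_neg (fun h => hk h.1), if_neg hk, hs k hk]
    ring

/-- the restriction of a pair to the macro coordinates -/
private def alim_p (row : Ω → σ) (M : Finset σ) (e : σ → Ω) (w : (Ω → ℝ) × (Ω → ℝ)) :
    (FrM row M e → ℝ) × (FrM row M e → ℝ) := (fun k => w.1 k.1, xi row M e w.2)

private theorem alim_cont_xi (row : Ω → σ) (M : Finset σ) (e : σ → Ω) :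
    Continuous (xi row M e) :=
  continuous_pi fun k => (continuous_apply _).sub (continuous_apply _)

private theorem alim_cont_res (row : Ω → σ) (M : Finset σ) (e : σ → Ω) :
    Continuous fun (s : Ω → ℝ) (k : FrM row M e) => s k.1 :=
  continuous_pi fun _ => continuous_apply _

private theorem alim_cont_p (row : Ω → σ) (M : Finset σ) (e : σ → Ω) :
    Continuous (alim_p row M e) :=
  ((alim_cont_res row M e).comp continuous_fst).prodMk ((alim_cont_xi row M e).comp continuous_snd)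

/-- The image of a cyclically monotone set. -/
private theorem alim_cyc (he : ∀ i, row (e i) = i) {Γ : Set ((Ω → ℝ) × (Ω → ℝ))}
    (h0 : ∀ w ∈ Γ, (∀ k, row k ∉ M → w.1 k = 0) ∧ ∀ i ∈ M, rsum row i w.1 = G i)
    (hc : CycMono Γ) : CycMono (alim_p row M e '' Γ) := by
  intro k x hx
  choose w hw hwx using hx
  have key : ∀ i j, (x i).1 ⬝ᵥ ((x j).2 - (x i).2) = (w i).1 ⬝ᵥ ((w j).2 - (w i).2) -
      (∑ a ∈ M, G a * (w j).2 (e a) - ∑ a ∈ M, G a * (w i).2 (e a)) := by
    intro i j
    obtain ⟨ha, hb⟩ := h0 _ (hw i)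
    have e1 := dot_xi he ha hb (w j).2
    have e2 := dot_xi he ha hb (w i).2
    rw [← hwx i, ← hwx j]
    show (fun k : FrM row M e => (w i).1 k.1) ⬝ᵥ (xi row M e (w j).2 - xi row M e (w i).2) = _
    rw [dotProduct_sub, dotProduct_sub]
    linarith
  have h1 : ∑ i ∈ Finset.range k, (x i).1 ⬝ᵥ ((x (i + 1)).2 - (x i).2) =
      ∑ i ∈ Finset.range k, (w i).1 ⬝ᵥ ((w (i + 1)).2 - (w i).2) -
        (∑ a ∈ M, G a * (w k).2 (e a) - ∑ a ∈ M, G a * (w 0).2 (e a)) := by
    rw [← Finset.sum_range_sub (fun i => ∑ a ∈ M, G a * (w i).2 (e a)) k,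
      ← Finset.sum_sub_distrib]
    exact Finset.sum_congr rfl fun i _ => key i (i + 1)
  have h2 := hc k w hw
  rw [h1, key k 0]
  linarith

theorem exists_pot (he : ∀ i, row (e i) = i) (hG : ∀ i, 0 < G i)
    {ρ : Measure (Ω → ℝ)} [IsProbabilityMeasure ρ] {T : Set (Ω → ℝ)} (hT : IsCompact T)
    (hρ : ∀ᵐ τ ∂ρ, τ ∈ T) {γ₀ : Measure ((Ω → ℝ) × (Ω → ℝ))}
    (hγ : IsPlan (unif row M e G) ρ γ₀) {s₀ τ₀ : Ω → ℝ}
    (hs₀ : ∀ k, row k ∉ M → s₀ k = 0) (hs₁ : ∀ i ∈ M, rsum row i s₀ = G i)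
    (hs₂ : (fun k : FrM row M e => s₀ k.1) ∈ Dh row M e G) (hτ₀ : τ₀ ∈ T)
    (hc : CycMono (γ₀.support ∪ {(s₀, τ₀)})) :
    ∃ u : (FrM row M e → ℝ) → ℝ, IsPot (Dh row M e G) u ∧
      (∀ S, IsOpen S → volume {y | ∃ x ∈ S, IsSub u x y} =
        volume (Dh row M e G) * ρ {τ | xi row M e τ ∈ S}) ∧
      IsSub u (xi row M e τ₀) fun k => s₀ k.1 := by
  have hD : IsCompact (Dh row M e G) := isCompact_Dh hG
  have hxc := alim_cont_xi row M e
  have hrc := alim_cont_res row M e
  have hpc := alim_cont_p row M e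
  set C : Set ((Ω → ℝ) × (Ω → ℝ)) := {w | ((∀ k, row k ∉ M → w.1 k = 0) ∧
    (∀ i ∈ M, rsum row i w.1 = G i) ∧ (fun k : FrM row M e => w.1 k.1) ∈ Dh row M e G) ∧
    w.2 ∈ T} with hC
  have hCc : IsClosed C := by
    have c1 : IsClosed {w : (Ω → ℝ) × (Ω → ℝ) | ∀ k, row k ∉ M → w.1 k = 0} := by
      simp only [Set.setOf_forall]
      exact isClosed_iInter fun k => isClosed_iInter fun _ =>
        isClosed_eq ((continuous_apply k).comp continuous_fst) continuous_const
    have c2 : IsClosed {w : (Ω → ℝ) × (Ω → ℝ) | ∀ i ∈ M, rsum row i w.1 = G i} := by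
      simp only [Set.setOf_forall]
      refine isClosed_iInter fun i => isClosed_iInter fun _ => isClosed_eq ?_ continuous_const
      unfold rsum
      refine continuous_finset_sum _ fun k _ => ?_
      by_cases hk : row k = i
      · simp only [if_pos hk]
        exact (continuous_apply k).comp continuous_fst
      · simp only [if_neg hk]
        exact continuous_const
    have c3 : IsClosed {w : (Ω → ℝ) × (Ω → ℝ) |
        (fun k : FrM row M e => w.1 k.1) ∈ Dh row M e G} :=
      hD.isClosed.preimage (hrc.comp continuous_fst)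
    have c4 : IsClosed {w : (Ω → ℝ) × (Ω → ℝ) | w.2 ∈ T} :=
      hT.isClosed.preimage continuous_snd
    exact (c1.inter (c2.inter c3)).inter c4
  have hae1 : ∀ᵐ w ∂γ₀, (∀ k, row k ∉ M → w.1 k = 0) ∧
      (∀ i ∈ M, rsum row i w.1 = G i) ∧ (fun k : FrM row M e => w.1 k.1) ∈ Dh row M e G := by
    have h1 := unif_ae (row := row) (M := M) (e := e) (G := G) he hG
    rw [← hγ.1] at h1
    exact ae_of_ae_map measurable_fst.aemeasurable h1
  have hae2 : ∀ᵐ w ∂γ₀, w.2 ∈ T := by
    have h1 := hρ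
    rw [← hγ.2] at h1
    exact ae_of_ae_map measurable_snd.aemeasurable h1
  have hsupp : γ₀.support ⊆ C :=
    Measure.support_subset_of_isClosed hCc (by filter_upwards [hae1, hae2] with w h1 h2 using ⟨h1, h2⟩)
  have hsub : γ₀.support ∪ {(s₀, τ₀)} ⊆ C :=
    Set.union_subset hsupp (Set.singleton_subset_iff.2 ⟨⟨hs₀, hs₁, hs₂⟩, hτ₀⟩)
  set Γ : Set ((FrM row M e → ℝ) × (FrM row M e → ℝ)) :=
    alim_p row M e '' (γ₀.support ∪ {(s₀, τ₀)}) with hΓ
  have hcyc : CycMono Γ := alim_cyc he (fun w hw => ⟨(hsub hw).1.1, (hsub hw).1.2.1⟩) hc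
  have hx0 : alim_p row M e (s₀, τ₀) ∈ Γ := ⟨_, Or.inr rfl, rfl⟩
  have hne : Γ.Nonempty := ⟨_, hx0⟩
  have hL : IsCompact (xi row M e '' T) := hT.image hxc
  have hΓs : Γ ⊆ Dh row M e G ×ˢ (xi row M e '' T) := by
    rintro _ ⟨w, hw, rfl⟩
    exact ⟨(hsub hw).1.2.2, ⟨w.2, (hsub hw).2, rfl⟩⟩
  obtain ⟨w, hw⟩ := Pool.Agent.H2.MA.rockafellar hcyc hne
    (hD.isBounded.subset (by rintro _ ⟨z, hz, rfl⟩; exact (hΓs hz).1))
  obtain ⟨u, v, Hc, hE⟩ := Pool.Agent.H2.MA.exists_conj hD hL hne hΓs hw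
  refine ⟨u, isPot_of_conj hD (convex_Dh row M e G) hL Hc, fun S hS => ?_,
    isSub_of_contact Hc (hE hx0)⟩
  have hplan : IsPlan (nrm (volume.restrict (Dh row M e G))) (ρ.map (xi row M e))
      (γ₀.map (alim_p row M e)) := by
    refine ⟨?_, ?_⟩
    · rw [Measure.map_map measurable_fst hpc.measurable, ← unif_map hG, ← hγ.1,
        Measure.map_map hrc.measurable measurable_fst]
      rfl
    · rw [Measure.map_map measurable_snd hpc.measurable, ← hγ.2,
        Measure.map_map hxc.measurable measurable_snd]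
      rfl
  have hcont : ∀ᵐ x ∂(γ₀.map (alim_p row M e)), x ∈ contact (Dh row M e G)
      (xi row M e '' T) u v := by
    have hm : MeasurableSet {x | x ∈ contact (Dh row M e G) (xi row M e '' T) u v} :=
      (Hc.isCompact_contact hD hL).isClosed.measurableSet
    refine (ae_map_iff hpc.measurable.aemeasurable hm).2 ?_
    have h1 : ∀ᵐ x ∂γ₀, x ∈ γ₀.support := Measure.support_mem_ae
    filter_upwards [h1] with x hx using hE ⟨x, Or.inl hx, rfl⟩
  rw [vol_sub hD (convex_Dh row M e G) (interior_Dh hG) hL Hc hplan hcont hS,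
    Measure.map_apply hxc.measurable hS.measurableSet]
  rfl

end Pool.Agent.H99.PI
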