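import Pool.Agent.H99.PI.AStrict
import Pool.Agent.H99.PI.ADbl
import Pool.Agent.H99.PI.ALim

/-!
# The end of the argument

`exists_pot` with `T = neg '' Xs col row c` (`ν` is concentrated on `Xs col row c` by `IsFlat.null` and
`fc_subset`) gives the potential `u`. Then `doubling` (for `ν`, hence for `nrm ν`) and
`strict_convexity` at the point `z = xi τ₀ - c (col a) • δ_a`, with `x₀ = xi τ₀` and
`x₁ = xi τ₀ - (2 * c (col a)) • δ_a` (`cpr_end`, `cpr_xi`, `tau_xi` for `t = -τ₀`): all three points have the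
subgradient `s₀` (restricted to `FrM`): `u (xi τ₀ - s • δ_a) = u (xi τ₀)` for `s ≥ 0`, as `s₀ a = 0` and all
subgradients have a coordinate `a` which is `≥ 0` (`IsPot.sub`, `Dh`; subgradients exist,
`Pool.Agent.H2.MA.exists_subgrad`).
-/

set_option linter.unusedSectionVars false

open MeasureTheory Matrix Filter Topology
open scoped ENNReal

namespace Pool.Agent.H99.PI

open Pool.Agent.H99.ON
open Pool.Agent.H2.MA (CycMono)
open Pool.Agent.H61.OT (IsPlan)

variable {Ω σ κ : Type} [Fintype Ω] [DecidableEq Ω] [Fintype σ] [DecidableEq σ] [Fintype κ]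
  [DecidableEq κ] {row : Ω → σ} {col : Ω → κ} {M : Finset σ}

/-- The end of the argument: no such limit plan. -/
theorem limit_false (hth : IsThick row col M) {a : Ω} (haM : row a ∈ M)
    (ha : ∀ k, col k = col a → row k ∈ M → k = a) {G : σ → ℝ} (hG : ∀ i, 0 < G i) {c : κ → ℝ}
    (hc : ∀ j, 0 < c j) {C' : (σ → Ω) → (κ → Ω) → ℝ≥0∞} (hC' : IsCst col row C')
    {ν : Measure (Ω → ℝ)} (hν : IsFlat col row C' c ν) (hνp : IsProbabilityMeasure (nrm ν))
    {e : σ → Ω} (he : ∀ i, row (e i) = i) (hea : e (row a) ≠ a)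
    {γ₀ : Measure ((Ω → ℝ) × (Ω → ℝ))}
    (hγ : IsPlan (unif row M e G) ((nrm ν).map Neg.neg) γ₀) {s₀ τ₀ : Ω → ℝ}
    (hs₀ : ∀ k, row k ∉ M → s₀ k = 0) (hs₁ : ∀ i ∈ M, rsum row i s₀ = G i)
    (hs₂ : ∀ k, 0 ≤ s₀ k) (hτ₀ : -τ₀ ∈ Xs col row c)
    (hcyc : CycMono (γ₀.support ∪ {(s₀, τ₀)})) (hsa : s₀ a = 0) (hta : τ₀ a = 0) : False := by
  classical
  have hT : IsCompact (Neg.neg '' Xs col row c) := (isCompact_Xs col row c).image continuous_neg
  have hprob : IsProbabilityMeasure ((nrm ν).map Neg.neg) :=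
    Measure.isProbabilityMeasure_map measurable_neg.aemeasurable
  have hnull : nrm ν {t | t ∉ Xs col row c} = 0 := by
    have h1 : ν {t | t ∉ Xs col row c} = 0 := by
      refine measure_mono_null ?_ hν.null
      intro t ht z hz hf
      exact ht (fc_subset hz hf)
    rw [nrm, Measure.smul_apply, h1, smul_zero]
  have hρ : ∀ᵐ τ ∂((nrm ν).map Neg.neg), τ ∈ Neg.neg '' Xs col row c := by
    have hm : MeasurableSet (Neg.neg '' Xs col row c) := hT.isClosed.measurableSet
    refine (ae_map_iff measurable_neg.aemeasurable hm).2 ?_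
    refine measure_mono_null ?_ hnull
    intro t ht hX
    exact ht ⟨t, hX, rfl⟩
  have hs₂' : (fun k : FrM row M e => s₀ k.1) ∈ Dh row M e G := by
    refine ⟨fun k => hs₂ k.1, fun i hi => ?_⟩
    rw [← hs₁ i hi, rsum]
    calc ∑ l : FrM row M e, (if row l.1 = i then s₀ l.1 else 0)
        = ∑ l ∈ Finset.univ.filter (fun k => row k ∈ M ∧ k ≠ e (row k)),
            (if row l = i then s₀ l else 0) :=
          (Finset.sum_subtype _ (by simp) fun l => if row l = i then s₀ l else 0).symm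
      _ ≤ ∑ k, if row k = i then s₀ k else 0 := by
          refine Finset.sum_le_sum_of_subset_of_nonneg (Finset.filter_subset _ _)
            fun k _ _ => ?_
          split_ifs
          · exact hs₂ k
          · exact le_rfl
  obtain ⟨u, hpot, hvol, hsub⟩ := exists_pot (M := M) he hG hT hρ hγ hs₀ hs₁ hs₂'
    ⟨-τ₀, hτ₀, neg_neg τ₀⟩ hcyc
  obtain ⟨K, hK, hdbl⟩ := doubling (M := M) he hth hC' hν
  set y : FrM row M e → ℝ := fun k => s₀ k.1 with hy
  set a' : FrM row M e := ⟨a, haM, fun h => hea h.symm⟩ with ha'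
  have hcc : 0 < c (col a) := hc _
  set δ : FrM row M e → ℝ := Pi.single a' 1 with hδ
  have hya : y ⬝ᵥ δ = 0 := by
    rw [hδ, dotProduct_single, hy]
    simp [ha', hsa]
  have hxi : xi row M e τ₀ = xi row M e (-(-τ₀)) := by rw [neg_neg]
  have h0 : tau row M e (xi row M e τ₀) a'.1 = 0 := by
    rw [hxi, tau_xi he hτ₀.1 (fun i _ => hτ₀.2.2 i) haM]
    show -τ₀ a = 0
    rw [hta, neg_zero]
  have hcp : ∀ j, 0 ≤ cpr row col M e c j (xi row M e τ₀) := by
    intro j
    rw [hxi, cpr_xi he hτ₀ j]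
    refine Finset.sum_nonneg fun k _ => ?_
    split_ifs
    · exact hτ₀.1 k
    · exact le_rfl
  have hcz : ∀ j, 0 ≤ cpr row col M e c j (xi row M e τ₀ - c (col a) • δ) :=
    fun j => cpr_end (a := a') ha h0 hcp hcc.le le_rfl j
  have hsub1 : IsSub u (xi row M e τ₀ - (2 * c (col a)) • δ) y := by
    obtain ⟨p, hp⟩ := exists_sub hpot.convex (xi row M e τ₀ - (2 * c (col a)) • δ)
    have hpD := hpot.sub _ _ hp
    have h1 := hp (xi row M e τ₀)
    rw [sub_sub_cancel, dotProduct_smul, hδ, dotProduct_single, mul_one, smul_eq_mul] at h1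
    have h2 : 0 ≤ 2 * c (col a) * p a' := mul_nonneg (by linarith) (hpD.1 a')
    intro x'
    have h3 := hsub x'
    have e1 : y ⬝ᵥ (x' - (xi row M e τ₀ - (2 * c (col a)) • δ)) =
        y ⬝ᵥ (x' - xi row M e τ₀) := by
      rw [show x' - (xi row M e τ₀ - (2 * c (col a)) • δ) =
        (x' - xi row M e τ₀) + (2 * c (col a)) • δ by abel, dotProduct_add, dotProduct_smul, hya,
        smul_zero, add_zero]
    rw [e1]
    rw [← hδ] at h1
    linarith
  have hMA : ∀ S : Set (FrM row M e → ℝ), IsOpen S → Convex ℝ S → Bornology.IsBounded S →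
      volume {y | ∃ x ∈ S, IsSub u x y} ≤ K *
        volume {y | ∃ x ∈ (fun v => (1 / 2 : ℝ) • (xi row M e τ₀ - c (col a) • δ) +
          (1 / 2 : ℝ) • v) '' S, IsSub u x y} := by
    intro S hSo _ _
    have hSo' : IsOpen ((fun v => (1 / 2 : ℝ) • (xi row M e τ₀ - c (col a) • δ) +
        (1 / 2 : ℝ) • v) '' S) := by
      have := ((Homeomorph.smulOfNeZero (1 / 2 : ℝ) (by norm_num)).trans
        (Homeomorph.addLeft ((1 / 2 : ℝ) • (xi row M e τ₀ - c (col a) • δ)))).isOpenMap S hSo
      exact this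
    have hxic : Continuous (xi row M e) := by
      refine continuous_pi fun k => ?_
      exact (continuous_apply k.1).sub (continuous_apply (e (row k.1)))
    have hmap : ∀ U : Set (FrM row M e → ℝ), IsOpen U →
        ((nrm ν).map Neg.neg) {τ | xi row M e τ ∈ U} =
          (ν Set.univ)⁻¹ * ν {t | xi row M e (-t) ∈ U} := by
      intro U hU
      have hm : MeasurableSet {τ | xi row M e τ ∈ U} := (hU.preimage hxic).measurableSet
      rw [Measure.map_apply measurable_neg hm, nrm, Measure.smul_apply, smul_eq_mul]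
      rfl
    rw [hvol S hSo, hvol _ hSo', hmap S hSo, hmap _ hSo']
    have h1 := hdbl S _ hSo.measurableSet hcz
    calc volume (Dh row M e G) * ((ν Set.univ)⁻¹ * ν {t | xi row M e (-t) ∈ S})
        ≤ volume (Dh row M e G) * ((ν Set.univ)⁻¹ * (K * ν {t | xi row M e (-t) ∈
            (fun v => (1 / 2 : ℝ) • (xi row M e τ₀ - c (col a) • δ) + (1 / 2 : ℝ) • v) '' S})) := by
          gcongr
      _ = _ := by ring
  have hfin := strict_convexity hpot (isCompact_Dh hG) (convex_Dh row M e G) (interior_Dh hG) hK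
    (z := xi row M e τ₀ - c (col a) • δ) (x₀ := xi row M e τ₀)
    (x₁ := xi row M e τ₀ - (2 * c (col a)) • δ) (y := y) hMA (by
      ext k
      simp only [Pi.sub_apply, Pi.smul_apply, Pi.add_apply, smul_eq_mul]
      ring) hsub hsub1
  have h5 := congrFun hfin a'
  simp only [Pi.sub_apply, Pi.smul_apply, smul_eq_mul, hδ, Pi.single_eq_same, mul_one] at h5
  linarith

end Pool.Agent.H99.PI
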