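import Pool.Agent.H99.ON.Sec

/-!
# The argument on a line, with an arbitrary constant
-/

open MeasureTheory Matrix
open scoped ENNReal

namespace Pool.Agent.H99.PI

open Pool.Agent.H99.ON

variable {ι : Type} [Fintype ι] {f : (ι → ℝ) → ℝ} {A B : Set (ι → ℝ)}

private lemma line_cst_pos : 0 < cst ι := by unfold cst; positivity

/-- the exit point of a ray from a bounded open set -/
private lemma line_exit {S : Set (ι → ℝ)} (hS : IsOpen S) (hb : Bornology.IsBounded S)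
    {z v : ι → ℝ} (hv : v ≠ 0) (h1 : z + v ∈ S) :
    ∃ s : ℝ, 1 < s ∧ z + s • v ∈ frontier S := by
  have hcont : Continuous (fun t : ℝ => z + t • v) := by fun_prop
  set T : Set ℝ := {t : ℝ | z + t • v ∈ S} with hT
  have hTo : IsOpen T := hS.preimage hcont
  have h1T : (1 : ℝ) ∈ T := by
    show z + (1 : ℝ) • v ∈ S
    rwa [one_smul]
  have hvn : 0 < ‖v‖ := norm_pos_iff.mpr hv
  have hbdd : BddAbove T := by
    obtain ⟨R, hR⟩ := hb.exists_norm_le
    refine ⟨(R + ‖z‖) / ‖v‖, ?_⟩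
    intro t ht
    rw [le_div_iff₀ hvn]
    have h2 : ‖t • v‖ ≤ R + ‖z‖ := by
      calc ‖t • v‖ = ‖(z + t • v) - z‖ := by rw [add_sub_cancel_left]
        _ ≤ ‖z + t • v‖ + ‖z‖ := norm_sub_le _ _
        _ ≤ R + ‖z‖ := by
            have := hR _ ht
            linarith
    rw [norm_smul, Real.norm_eq_abs] at h2
    exact (mul_le_mul_of_nonneg_right (le_abs_self t) hvn.le).trans h2
  have hnot : sSup T ∉ T := by
    intro hmem
    obtain ⟨ε, hε, hball⟩ := Metric.isOpen_iff.mp hTo _ hmem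
    have h3 : sSup T + ε / 2 ∈ T := by
      apply hball
      rw [Metric.mem_ball, Real.dist_eq, add_sub_cancel_left, abs_of_pos (by linarith)]
      linarith
    have h4 := le_csSup hbdd h3
    linarith
  have hcl : sSup T ∈ closure T := csSup_mem_closure ⟨1, h1T⟩ hbdd
  refine ⟨sSup T, ?_, ?_⟩
  · refine lt_of_le_of_ne (le_csSup hbdd h1T) ?_
    intro h
    rw [← h] at hnot
    exact hnot h1T
  · rw [hS.frontier_eq]
    refine ⟨?_, hnot⟩
    have h5 := image_closure_subset_closure_image hcont (s := T) ⟨_, hcl, rfl⟩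
    refine closure_mono ?_ h5
    rintro _ ⟨t, ht, rfl⟩
    exact ht

private lemma line_side (hf : ConvexOn ℝ Set.univ f) {θ₀ : ℝ} (hθ : 0 < θ₀) {z y e : ι → ℝ}
    (he : e ≠ 0)
    (hsub : IsSub f z y) (h1 : f (z + e) = f z + y ⬝ᵥ e) :
    ∃ δ : ℝ, 0 < δ ∧ ∀ (h : ℝ) (p : ι → ℝ), 0 < h → h < δ →
      Bornology.IsBounded (sec f z p h) → Balanced (sec f z p h) z (cst ι) →
      (∀ b ∈ frontier (sec f z p h), ∀ θ : ℝ, 0 < θ → θ ≤ 1 →
        h ≤ f z + p ⬝ᵥ (b + θ • (z - b) - z) + h - f (b + θ • (z - b)) → θ₀ ≤ θ) →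
      0 ≤ (p - y) ⬝ᵥ e → False := by
  have hC := line_cst_pos (ι := ι)
  have hfc : Continuous f := continuous_of_convex hf
  have hen : 0 < ‖e‖ := norm_pos_iff.mpr he
  have hsub' : ∀ t : ℝ, f z + t * (y ⬝ᵥ e) ≤ f (z + t • e) := by
    intro t
    have h2 := hsub (z + t • e)
    rwa [add_sub_cancel_left, dotProduct_smul, smul_eq_mul] at h2
  by_cases hU : ∀ t : ℝ, 0 ≤ t → f (z + t • e) = f z + t * (y ⬝ᵥ e)
  · refine ⟨1, one_pos, ?_⟩
    intro h p hh _ hb _ _ hpe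
    obtain ⟨R, hR⟩ := hb.exists_norm_le
    have hmem : ∀ t : ℝ, 0 ≤ t → z + t • e ∈ sec f z p h := by
      intro t ht
      show f (z + t • e) < f z + p ⬝ᵥ (z + t • e - z) + h
      rw [hU t ht, add_sub_cancel_left, dotProduct_smul, smul_eq_mul]
      rw [sub_dotProduct] at hpe
      have := mul_le_mul_of_nonneg_left (sub_nonneg.mp hpe) ht
      linarith
    have hR0 : 0 ≤ R := (norm_nonneg _).trans (hR _ (hmem 0 le_rfl))
    have ht0 : 0 ≤ (R + ‖z‖ + 1) / ‖e‖ := by positivity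
    have h2 := hR _ (hmem _ ht0)
    have h3 : ‖((R + ‖z‖ + 1) / ‖e‖) • e‖ = R + ‖z‖ + 1 := by
      rw [norm_smul, Real.norm_of_nonneg ht0]
      field_simp
    have h4 : ‖((R + ‖z‖ + 1) / ‖e‖) • e‖ ≤ ‖z + ((R + ‖z‖ + 1) / ‖e‖) • e‖ + ‖z‖ := by
      calc ‖((R + ‖z‖ + 1) / ‖e‖) • e‖ = ‖(z + ((R + ‖z‖ + 1) / ‖e‖) • e) - z‖ := by
            rw [add_sub_cancel_left]
        _ ≤ _ := norm_sub_le _ _
    linarith
  · push Not at hU
    obtain ⟨t₀, ht₀, hne⟩ := hU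
    set T : Set ℝ := {t : ℝ | 0 ≤ t ∧ f (z + t • e) = f z + t * (y ⬝ᵥ e)} with hT
    have h1T : (1 : ℝ) ∈ T := ⟨zero_le_one, by rw [one_smul, one_mul]; exact h1⟩
    have hTc : IsClosed T := by
      apply IsClosed.inter
      · exact isClosed_le continuous_const continuous_id
      · exact isClosed_eq (by fun_prop) (by fun_prop)
    have hbdd : BddAbove T := by
      refine ⟨t₀, ?_⟩
      intro t ht
      by_contra hlt
      push Not at hlt
      have htpos : 0 < t := lt_of_le_of_lt ht₀ hlt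
      have hc1 : 0 ≤ 1 - t₀ / t := by rw [sub_nonneg, div_le_one htpos]; exact hlt.le
      have hc2 : 0 ≤ t₀ / t := by positivity
      have hc3 : (1 - t₀ / t) + t₀ / t = 1 := by ring
      have hconv := hf.2 (Set.mem_univ z) (Set.mem_univ (z + t • e)) hc1 hc2 hc3
      have heq : (1 - t₀ / t) • z + (t₀ / t) • (z + t • e) = z + t₀ • e := by
        rw [smul_add, smul_smul, div_mul_cancel₀ _ htpos.ne', sub_smul, one_smul]
        abel
      rw [heq, ht.2, smul_eq_mul, smul_eq_mul] at hconv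
      have h2 : (1 - t₀ / t) * f z + t₀ / t * (f z + t * (y ⬝ᵥ e)) = f z + t₀ * (y ⬝ᵥ e) := by
        field_simp
        ring
      rw [h2] at hconv
      exact hne (le_antisymm hconv (hsub' t₀))
    set β : ℝ := sSup T with hβ
    have hβT : β ∈ T := hTc.csSup_mem ⟨1, h1T⟩ hbdd
    have hβ1 : 1 ≤ β := le_csSup hbdd h1T
    have hgt : f z + ((1 + θ₀) * β) * (y ⬝ᵥ e) < f (z + ((1 + θ₀) * β) • e) := by
      refine lt_of_le_of_ne (hsub' _) ?_
      intro heq
      have h2 : (1 + θ₀) * β ∈ T := ⟨by positivity, heq.symm⟩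
      have h3 := le_csSup hbdd h2
      rw [← hβ] at h3
      nlinarith
    refine ⟨(f (z + ((1 + θ₀) * β) • e) - (f z + ((1 + θ₀) * β) * (y ⬝ᵥ e)))
      / ((1 + θ₀) * cst ι + 1), div_pos (by linarith) (by positivity), ?_⟩
    intro h p hh hlt hb hbal hexit hpe
    rw [sub_dotProduct] at hpe
    have hxβ : f (z + β • e) = f z + β * (y ⬝ᵥ e) := hβT.2
    have hβe : β * (y ⬝ᵥ e) ≤ β * (p ⬝ᵥ e) :=
      mul_le_mul_of_nonneg_left (sub_nonneg.mp hpe) (by linarith)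
    have hmem : z + β • e ∈ sec f z p h := by
      show f (z + β • e) < f z + p ⬝ᵥ (z + β • e - z) + h
      rw [hxβ, add_sub_cancel_left, dotProduct_smul, smul_eq_mul]
      linarith
    have hve : β • e ≠ 0 := smul_ne_zero (by linarith) he
    obtain ⟨s, hs1, hsf⟩ := line_exit (isOpen_sec hf z p h) hb hve hmem
    have hs0 : 0 < s := by linarith
    have hpt : (z + s • β • e) + (1 - 1 / s) • (z - (z + s • β • e)) = z + β • e := by
      rw [sub_add_cancel_left, smul_neg, sub_smul, one_smul, smul_smul (1 / s) s,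
        one_div_mul_cancel hs0.ne', one_smul]
      abel
    have hθs : θ₀ ≤ 1 - 1 / s := by
      refine hexit _ hsf (1 - 1 / s) ?_ ?_ ?_
      · rw [sub_pos, div_lt_one hs0]; exact hs1
      · have : 0 < 1 / s := by positivity
        linarith
      · rw [hpt, hxβ, add_sub_cancel_left, dotProduct_smul, smul_eq_mul]
        linarith
    have hs2 : 1 + θ₀ ≤ s := by
      have h2 : 1 / s ≤ 1 - θ₀ := by linarith
      rw [div_le_iff₀ hs0] at h2
      nlinarith
    have hx2 : z + ((1 + θ₀) * β) • e ∈ closure (sec f z p h) := by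
      have hcc := (convex_sec hf z p h).closure
      have hzc : z ∈ closure (sec f z p h) := subset_closure (mem_sec z p hh)
      have hbc : z + s • β • e ∈ closure (sec f z p h) := frontier_subset_closure hsf
      have hc1 : 0 ≤ 1 - (1 + θ₀) / s := by rw [sub_nonneg, div_le_one hs0]; exact hs2
      have hc2 : 0 ≤ (1 + θ₀) / s := by positivity
      have hc3 : (1 - (1 + θ₀) / s) + (1 + θ₀) / s = 1 := by ring
      have h2 := hcc hzc hbc hc1 hc2 hc3
      have heq : (1 - (1 + θ₀) / s) • z + ((1 + θ₀) / s) • (z + s • β • e)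
          = z + ((1 + θ₀) * β) • e := by
        rw [smul_add, smul_smul, div_mul_cancel₀ _ hs0.ne', smul_smul, sub_smul, one_smul]
        abel
      rwa [heq] at h2
    have h2 := closure_sec hf hx2
    rw [add_sub_cancel_left, dotProduct_smul, smul_eq_mul] at h2
    have h3 := closure_sec hf (hbal _ hmem)
    have heq3 : z - (cst ι)⁻¹ • (z + β • e - z) = z + (-((cst ι)⁻¹ * β)) • e := by
      rw [add_sub_cancel_left, smul_smul, neg_smul, sub_eq_add_neg]
    rw [heq3, add_sub_cancel_left, dotProduct_smul, smul_eq_mul] at h3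
    have h4 := hsub' (-((cst ι)⁻¹ * β))
    have h5 : β * (p ⬝ᵥ e - y ⬝ᵥ e) ≤ cst ι * h := by
      have h6 : (cst ι)⁻¹ * (β * (p ⬝ᵥ e - y ⬝ᵥ e)) ≤ h := by
        have h7 : (cst ι)⁻¹ * (β * (p ⬝ᵥ e - y ⬝ᵥ e))
            = (-((cst ι)⁻¹ * β)) * (y ⬝ᵥ e) - (-((cst ι)⁻¹ * β)) * (p ⬝ᵥ e) := by ring
        rw [h7]
        linarith
      rwa [inv_mul_le_iff₀ hC] at h6
    have h8 : f (z + ((1 + θ₀) * β) • e) - (f z + ((1 + θ₀) * β) * (y ⬝ᵥ e))
        ≤ ((1 + θ₀) * cst ι + 1) * h := by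
      have h9 : (1 + θ₀) * (β * (p ⬝ᵥ e - y ⬝ᵥ e)) ≤ (1 + θ₀) * (cst ι * h) :=
        mul_le_mul_of_nonneg_left h5 (by positivity)
      nlinarith
    rw [lt_div_iff₀ (by positivity)] at hlt
    linarith

theorem strict_of_alex (hf : ConvexOn ℝ Set.univ f) {z : ι → ℝ} {θ₀ : ℝ} (hθ : 0 < θ₀)
    (H : ∀ h : ℝ, 0 < h → ∃ p : ι → ℝ, Bornology.IsBounded (sec f z p h) ∧
      Balanced (sec f z p h) z (cst ι) ∧ ∀ b ∈ frontier (sec f z p h), ∀ θ : ℝ, 0 < θ → θ ≤ 1 →
        h ≤ f z + p ⬝ᵥ (b + θ • (z - b) - z) + h - f (b + θ • (z - b)) → θ₀ ≤ θ)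
    {x₀ x₁ y : ι → ℝ} (hmid : z = (1 / 2 : ℝ) • (x₀ + x₁)) (h₀ : IsSub f x₀ y)
    (h₁ : IsSub f x₁ y) : x₀ = x₁ := by
  by_contra hne
  have hz0 := h₀ z
  have hz1 := h₁ z
  have hc1 : (0 : ℝ) ≤ 1 / 2 := by norm_num
  have hc3 : (1 : ℝ) / 2 + 1 / 2 = 1 := by norm_num
  have hconv := hf.2 (Set.mem_univ x₀) (Set.mem_univ x₁) hc1 hc1 hc3
  rw [← smul_add, ← hmid, smul_eq_mul, smul_eq_mul] at hconv
  have hsum : y ⬝ᵥ (z - x₀) + y ⬝ᵥ (z - x₁) = 0 := by
    rw [← dotProduct_add]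
    have : z - x₀ + (z - x₁) = 0 := by
      rw [hmid]
      ext i
      simp only [Pi.add_apply, Pi.sub_apply, Pi.smul_apply, smul_eq_mul, Pi.zero_apply]
      ring
    rw [this, dotProduct_zero]
  have hfx0 : f z = f x₀ + y ⬝ᵥ (z - x₀) := by linarith
  have hfx1 : f z = f x₁ + y ⬝ᵥ (z - x₁) := by linarith
  have hsub : IsSub f z y := by
    intro x'
    have h2 := h₀ x'
    have h3 : y ⬝ᵥ (x' - x₀) = y ⬝ᵥ (z - x₀) + y ⬝ᵥ (x' - z) := by
      rw [← dotProduct_add]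
      congr 1
      abel
    rw [hfx0]
    linarith
  have he : x₁ - z ≠ 0 := by
    intro h
    apply hne
    have h2 : x₁ = z := sub_eq_zero.mp h
    rw [hmid] at h2
    ext i
    have h3 := congrFun h2 i
    simp only [Pi.add_apply, Pi.smul_apply, smul_eq_mul] at h3
    linarith
  have he' : x₀ - z = -(x₁ - z) := by
    rw [hmid]
    ext i
    simp only [Pi.add_apply, Pi.sub_apply, Pi.smul_apply, smul_eq_mul, Pi.neg_apply]
    ring
  have hA : f (z + (x₁ - z)) = f z + y ⬝ᵥ (x₁ - z) := by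
    rw [add_sub_cancel, hfx1]
    have : y ⬝ᵥ (z - x₁) + y ⬝ᵥ (x₁ - z) = 0 := by
      rw [← dotProduct_add]
      simp
    linarith
  have hB : f (z + (x₀ - z)) = f z + y ⬝ᵥ (x₀ - z) := by
    rw [add_sub_cancel, hfx0]
    have : y ⬝ᵥ (z - x₀) + y ⬝ᵥ (x₀ - z) = 0 := by
      rw [← dotProduct_add]
      simp
    linarith
  obtain ⟨δ₁, hδ₁, H₁⟩ := line_side hf hθ he hsub hA
  obtain ⟨δ₂, hδ₂, H₂⟩ := line_side hf hθ (by rw [he']; exact neg_ne_zero.mpr he) hsub hB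
  have hmin : 0 < min δ₁ δ₂ := lt_min hδ₁ hδ₂
  obtain ⟨p, hb, hbal, hex⟩ := H (min δ₁ δ₂ / 2) (by linarith)
  have hm1 : min δ₁ δ₂ / 2 < δ₁ := by
    have := min_le_left δ₁ δ₂
    linarith
  have hm2 : min δ₁ δ₂ / 2 < δ₂ := by
    have := min_le_right δ₁ δ₂
    linarith
  rcases le_total 0 ((p - y) ⬝ᵥ (x₁ - z)) with h | h
  · exact H₁ _ p (by linarith) hm1 hb hbal hex h
  · refine H₂ _ p (by linarith) hm2 hb hbal hex ?_
    rw [he', dotProduct_neg]
    linarith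

end Pool.Agent.H99.PI
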