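import Pool.Agent.H99.PI.ADefs
import Pool.Agent.H99.ON.Meas
import Pool.Agent.H2.MA.Potential
import Pool.Agent.H55.CI.MultiNull

/-!
# The Monge-Ampere measure of the potential of a plan whose first marginal is uniform

`isPot_of_conj`: convexity and growth are `IsConj.isPotential`; a subgradient `y` of `u` at `x` which
is not in the compact convex set `B` is separated from it strictly by some `w` (`y ⬝ w > b ⬝ w + δ` for
`b` in `B`), and `u (x + t w) ≥ u x + t y ⬝ w` contradicts the growth for large `t`.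

`vol_sub`: let `N = {y | ∃ x ∈ S, IsSub u x y}` (measurable, `measurableSet_sub`), `N ⊆ B`. So
`volume N = volume B * (nrm (volume.restrict B)) N = volume B * γ {w | w.1 ∈ N}`. A pair `w` in the
contact set satisfies `IsSub u w.2 w.1` (as `u n ≥ m ⬝ n - v m` for all `n`). Hence `w.2 ∈ S` implies
`w.1 ∈ N`; if `w.1 ∈ N` with `x ∈ S` then `w.2 = x` unless `w.1` is in the set of the `y` in `B` with two
different points `x`, which is a null set: apply `Pool.Agent.H55.CI.multi_null` with `κ = Fin 0` to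
`{(y, x) | y ∈ B, x ∈ closedBall 0 R, IsSub u x y}` (compact and monotone) for all natural `R`.
-/

set_option linter.unusedSectionVars false

open MeasureTheory Matrix
open scoped ENNReal

namespace Pool.Agent.H99.PI

open Pool.Agent.H99.ON
open Pool.Agent.H2.MA (IsConj contact)
open Pool.Agent.H61.OT (IsPlan)

variable {ι : Type} [Fintype ι]

theorem isPot_of_conj {B L : Set (ι → ℝ)} (hB : IsCompact B) (hBc : Convex ℝ B)
    (hL : IsCompact L) {u v : (ι → ℝ) → ℝ} (Hc : IsConj B L u v) : IsPot B u := by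
  classical
  obtain ⟨C, hC1, hC2⟩ := (Hc.isPotential hB hL).growth
  refine ⟨Hc.convexOn, ⟨C, fun x y hy => ?_⟩, fun x y hy => ?_⟩
  · rw [dotProduct_comm]
    exact hC1 x y hy
  · by_contra hyB
    obtain ⟨f, b, hf, hb⟩ := geometric_hahn_banach_closed_point hBc hB.isClosed hyB
    set w : ι → ℝ := fun i => f (Pi.single i 1) with hw
    have hdot : ∀ z : ι → ℝ, f z = z ⬝ᵥ w := by
      intro z
      have h1 : z = ∑ i, z i • (Pi.single i (1 : ℝ) : ι → ℝ) := by
        ext j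
        rw [Finset.sum_apply]
        simp [Pi.single_apply]
      conv_lhs => rw [h1]
      rw [map_sum, dotProduct]
      exact Finset.sum_congr rfl fun i _ => by rw [map_smul, smul_eq_mul]
    set d : ℝ := f y - b with hd
    have hd0 : 0 < d := sub_pos.2 hb
    set T : ℝ := (2 * |C| + 1) / d with hT
    have hT0 : 0 < T := div_pos (by positivity) hd0
    have h1 := hy (x + T • w)
    rw [add_sub_cancel_left, dotProduct_smul, smul_eq_mul, ← hdot] at h1
    obtain ⟨m, hm, h2⟩ := hC2 (x + T • w)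
    rw [dotProduct_add, dotProduct_smul, smul_eq_mul, ← hdot] at h2
    have h3 := hC1 x m hm
    have h4 : T * f m ≤ T * b := mul_le_mul_of_nonneg_left (hf m hm).le hT0.le
    have h5 : T * d = 2 * |C| + 1 := by
      rw [hT]
      field_simp
    have h6 : T * d = T * f y - T * b := by rw [hd]; ring
    have h7 := le_abs_self C
    linarith

theorem isSub_of_contact {B L : Set (ι → ℝ)} {u v : (ι → ℝ) → ℝ} (Hc : IsConj B L u v)
    {w : (ι → ℝ) × (ι → ℝ)} (hw : w ∈ contact B L u v) : IsSub u w.2 w.1 := fun x' =>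
  Hc.subgrad_of_contact (m := w.1) (n := w.2) hw x'

/-- Pairs of a subgradient and a point of a ball. -/
private def AMA_G (B : Set (ι → ℝ)) (u : (ι → ℝ) → ℝ) (R : ℝ) : Set ((ι → ℝ) × (ι → ℝ)) :=
  (B ×ˢ Metric.closedBall 0 R) ∩ {p | IsSub u p.2 p.1}

private theorem AMA_isCompact {B : Set (ι → ℝ)} (hB : IsCompact B) {u : (ι → ℝ) → ℝ}
    (hu : Continuous u) (R : ℝ) : IsCompact (AMA_G B u R) := by
  refine (hB.prod (isCompact_closedBall 0 R)).inter_right ?_
  have h : {p : (ι → ℝ) × (ι → ℝ) | IsSub u p.2 p.1} =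
      ⋂ x' : ι → ℝ, {p : (ι → ℝ) × (ι → ℝ) | u p.2 + p.1 ⬝ᵥ (x' - p.2) ≤ u x'} := by
    ext p
    simp only [Set.mem_ofPred_eq, Set.mem_iInter]
    rfl
  rw [h]
  refine isClosed_iInter fun x' => isClosed_le ?_ continuous_const
  exact (hu.comp continuous_snd).add
    (continuous_fst.dotProduct (continuous_const.sub continuous_snd))

private theorem AMA_mono (B : Set (ι → ℝ)) (u : (ι → ℝ) → ℝ) (R : ℝ) :
    Pool.Agent.H99.SYZ.Mono (AMA_G B u R) := by
  rintro ⟨y, x⟩ ⟨-, h1⟩ ⟨y', x'⟩ ⟨-, h2⟩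
  have h3 : u x + y ⬝ᵥ (x' - x) ≤ u x' := h1 x'
  have h4 : u x' + y' ⬝ᵥ (x - x') ≤ u x := h2 x
  show 0 ≤ (y - y') ⬝ᵥ (x - x')
  rw [sub_dotProduct]
  rw [dotProduct_sub] at h3 h4
  rw [dotProduct_sub, dotProduct_sub]
  linarith

/-- The subgradients at two different points of a ball. -/
private def AMA_D (B : Set (ι → ℝ)) (u : (ι → ℝ) → ℝ) (R : ℝ) : Set (ι → ℝ) :=
  {y | ∃ x ∈ AMA_G B u R, ∃ x' ∈ AMA_G B u R, ∃ t s : Fin 0 → ℝ,
    y = x.1 + Pool.Agent.H55.CI.comb (fun j : Fin 0 => j.elim0) t ∧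
    y = x'.1 + Pool.Agent.H55.CI.comb (fun j : Fin 0 => j.elim0) s ∧ x.2 ≠ x'.2}

theorem vol_sub {B L : Set (ι → ℝ)} (hB : IsCompact B) (hBc : Convex ℝ B)
    (hBi : (interior B).Nonempty) (hL : IsCompact L) {u v : (ι → ℝ) → ℝ} (Hc : IsConj B L u v)
    {ρ : Measure (ι → ℝ)} {γ : Measure ((ι → ℝ) × (ι → ℝ))}
    (hγ : IsPlan (nrm (volume.restrict B)) ρ γ) (hcont : ∀ᵐ w ∂γ, w ∈ contact B L u v)
    {S : Set (ι → ℝ)} (hS : IsOpen S) :
    volume {y | ∃ x ∈ S, IsSub u x y} = volume B * ρ S := by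
  have hpot := isPot_of_conj hB hBc hL Hc
  have hu : Continuous u := Hc.continuous hB
  set N : Set (ι → ℝ) := {y | ∃ x ∈ S, IsSub u x y} with hN
  have hNm : MeasurableSet N := measurableSet_sub hpot hB hS
  have hNB : N ⊆ B := by
    rintro y ⟨x, -, hy⟩
    exact hpot.sub x y hy
  have hB0 : volume B ≠ 0 := (Measure.measure_pos_of_nonempty_interior volume hBi).ne'
  have hB1 : volume B ≠ ∞ := hB.measure_lt_top.ne
  have hnrm : ∀ T : Set (ι → ℝ), MeasurableSet T →
      nrm (volume.restrict B) T = (volume B)⁻¹ * volume (T ∩ B) := by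
    intro T hT
    unfold nrm
    rw [Measure.smul_apply, Measure.restrict_apply_univ, Measure.restrict_apply hT, smul_eq_mul]
  have h1 : volume N = volume B * nrm (volume.restrict B) N := by
    rw [hnrm N hNm, Set.inter_eq_left.2 hNB, ← mul_assoc, ENNReal.mul_inv_cancel hB0 hB1, one_mul]
  have hfst : ∀ T : Set (ι → ℝ), MeasurableSet T →
      γ (Prod.fst ⁻¹' T) = nrm (volume.restrict B) T := by
    intro T hT
    rw [← hγ.1, Measure.map_apply measurable_fst hT]
  have hsnd : γ (Prod.snd ⁻¹' S) = ρ S := by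
    rw [← hγ.2, Measure.map_apply measurable_snd hS.measurableSet]
  have hD : ∀ R : ℝ, MeasurableSet (AMA_D B u R) ∧ volume (AMA_D B u R) = 0 := fun R =>
    Pool.Agent.H55.CI.multi_null (AMA_isCompact hB hu R) (AMA_mono B u R)
      (c := fun j : Fin 0 => j.elim0) fun _ _ j => j.elim0
  have hDae : ∀ᵐ w ∂γ, ∀ n : ℕ, w.1 ∉ AMA_D B u n := by
    rw [ae_all_iff]
    intro n
    rw [ae_iff]
    have h2 : {w : (ι → ℝ) × (ι → ℝ) | ¬ w.1 ∉ AMA_D B u n} = Prod.fst ⁻¹' AMA_D B u n := by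
      ext w
      simp
    rw [h2, hfst _ (hD n).1, hnrm _ (hD n).1]
    have h3 : volume (AMA_D B u n ∩ B) = 0 :=
      le_antisymm ((measure_mono Set.inter_subset_left).trans (hD n).2.le) zero_le
    rw [h3, mul_zero]
  have h4 : γ (Prod.fst ⁻¹' N) = γ (Prod.snd ⁻¹' S) := by
    refine measure_congr ?_
    filter_upwards [hcont, hDae] with w hw hwD
    have hsub := isSub_of_contact Hc hw
    refine propext ⟨?_, fun h => ⟨w.2, h, hsub⟩⟩
    rintro ⟨x, hx, hxs⟩
    by_cases hxw : x = w.2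
    · rw [hxw] at hx
      exact hx
    · exfalso
      obtain ⟨n, hn⟩ := exists_nat_ge (max ‖x‖ ‖w.2‖)
      refine hwD n ⟨(w.1, x), ⟨⟨hpot.sub _ _ hxs, ?_⟩, hxs⟩, (w.1, w.2), ⟨⟨hpot.sub _ _ hxs, ?_⟩,
        hsub⟩, fun j => j.elim0, fun j => j.elim0, ?_, ?_, hxw⟩
      · exact mem_closedBall_zero_iff.2 ((le_max_left _ _).trans hn)
      · exact mem_closedBall_zero_iff.2 ((le_max_right _ _).trans hn)
      · simp [Pool.Agent.H55.CI.comb]
      · simp [Pool.Agent.H55.CI.comb]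
  rw [h1, ← hfst N hNm, h4, hsnd]

end Pool.Agent.H99.PI
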