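import Pool.Agent.H99.PI.AWeak
import Pool.Agent.H99.PI.ALimF

/-!
# The macro lemma

Choose `e` with `row (e i) = i` and `e (row a) ≠ a`. `Pool.Agent.H99.OC.exists_limit` (with
`tendsto_macro` and `hρl`) gives the limit plan; apply `limit_false`. (`s₀ k = 0` for micro `k` and the
macro sums of `s₀` are `G i` by continuity.)
-/

set_option linter.unusedSectionVars false

open MeasureTheory Matrix Filter Topology
open scoped ENNReal

namespace Pool.Agent.H99.PI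

open Pool.Agent.H99.ON
open Pool.Agent.H2.MA (CycMono)
open Pool.Agent.H61.OT (IsPlan)

variable {Ω σ κ : Type} [Fintype Ω] [DecidableEq Ω] [Fintype σ] [DecidableEq σ] [Fintype κ]
  [DecidableEq κ] {row : Ω → σ} {col : Ω → κ} {M : Finset σ}

theorem macro_false (hrow : ∀ i, ∃ k, row k = i) (hth : IsThick row col M) {a : Ω}
    (haM : row a ∈ M) (ha : ∀ k, col k = col a → row k ∈ M → k = a)
    (ha' : ∃ k, k ≠ a ∧ row k = row a) {G : σ → ℝ} (hG : ∀ i, 0 < G i) {c : κ → ℝ}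
    (hc : ∀ j, 0 < c j) {C : (κ → Ω) → (σ → Ω) → ℝ≥0∞} (hC : IsCst row col C)
    {C' : (σ → Ω) → (κ → Ω) → ℝ≥0∞} (hC' : IsCst col row C') {lam : ℕ → σ → ℝ}
    (hlam : ∀ n i, 0 < lam n i) (hlam0 : ∀ i, Tendsto (fun n => lam n i) atTop (𝓝 (lamM M i)))
    {μ : ℕ → Measure (Ω → ℝ)} (hμ : ∀ n, IsFlat row col C (fun i => lam n i * G i) (μ n))
    (hμp : ∀ n, IsProbabilityMeasure (nrm (μ n))) {ν : Measure (Ω → ℝ)}
    (hν : IsFlat col row C' c ν) (hνp : IsProbabilityMeasure (nrm ν)) {ρ : ℕ → Measure (Ω → ℝ)}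
    (hρ : ∀ n, IsProbabilityMeasure (ρ n))
    (hρl : ∀ φ : (Ω → ℝ) → ℝ, Continuous φ → (∃ B, ∀ x, |φ x| ≤ B) →
      Tendsto (fun n => ∫ x, φ x ∂(ρ n)) atTop (𝓝 (∫ x, φ x ∂((nrm ν).map Neg.neg))))
    {π : ℕ → Measure ((Ω → ℝ) × (Ω → ℝ))} (hπ : ∀ n, IsPlan (nrm (μ n)) (ρ n) (π n))
    {K : Set ((Ω → ℝ) × (Ω → ℝ))} (hK : IsCompact K) {Γ : ℕ → Set ((Ω → ℝ) × (Ω → ℝ))}
    (hΓK : ∀ n, Γ n ⊆ K)
    (hΓ : ∀ n, ∀ w ∈ Γ n, (∀ k, 0 ≤ w.1 k) ∧ ∀ i, rsum row i w.1 = lam n i * G i)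
    (hΓa : ∀ n, ∀ᵐ w ∂(π n), w ∈ Γ n) (hΓc : ∀ n, CycMono (Γ n))
    {x : ℕ → (Ω → ℝ) × (Ω → ℝ)} (hx : ∀ n, x n ∈ Γ n) {s₀ τ₀ : Ω → ℝ}
    (hx0 : Tendsto x atTop (𝓝 (s₀, τ₀))) (hτ₀ : -τ₀ ∈ Xs col row c) (hsa : s₀ a = 0)
    (hta : τ₀ a = 0) : False := by
  -- the coordinates `e i`
  have hex : ∀ i, ∃ k, row k = i ∧ (i = row a → k ≠ a) := by
    intro i
    by_cases hi : i = row a
    · obtain ⟨k, hka, hk⟩ := ha'
      exact ⟨k, hk.trans hi.symm, fun _ => hka⟩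
    · obtain ⟨k, hk⟩ := hrow i
      exact ⟨k, hk, fun h => absurd h hi⟩
  choose e he hea' using hex
  have hea : e (row a) ≠ a := hea' _ rfl
  -- the limit measures
  have hmac : ∀ φ : (Ω → ℝ) → ℝ, Continuous φ → (∃ B, ∀ x, |φ x| ≤ B) →
      Tendsto (fun n => ∫ x, φ x ∂(nrm (μ n))) atTop (𝓝 (∫ x, φ x ∂(unif row M e G))) :=
    fun φ hφ hb => tendsto_macro hrow hth he hG hC hlam hlam0 hμ hμp hφ hb
  have hup : IsProbabilityMeasure (unif row M e G) := by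
    have h1 := hmac (fun _ => 1) continuous_const ⟨1, fun _ => by simp⟩
    have h2 : (fun n => ∫ _, (1 : ℝ) ∂(nrm (μ n))) = fun _ => (1 : ℝ) := by
      funext n
      have := hμp n
      simp
    rw [h2] at h1
    have h3 := tendsto_nhds_unique h1 tendsto_const_nhds
    rw [integral_const, smul_eq_mul, mul_one, Measure.real] at h3
    refine ⟨?_⟩
    exact (ENNReal.toReal_eq_one_iff _).1 h3
  have hnp : IsProbabilityMeasure ((nrm ν).map Neg.neg) :=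
    Measure.isProbabilityMeasure_map measurable_neg.aemeasurable
  -- the limit plan
  obtain ⟨γ₀, hγ₀, hc₀⟩ := Pool.Agent.H99.OC.exists_limit hμp hρ hmac hρl hπ hK hΓK hΓa hΓc hx hx0
  -- the limit point
  have hl : ∀ k, Tendsto (fun n => (x n).1 k) atTop (𝓝 (s₀ k)) := fun k =>
    ((continuous_apply k).tendsto s₀).comp ((continuous_fst.tendsto (s₀, τ₀)).comp hx0)
  have hr : ∀ i, Tendsto (fun n => rsum row i (x n).1) atTop (𝓝 (rsum row i s₀)) := by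
    intro i
    refine tendsto_finsetSum _ fun k _ => ?_
    split_ifs
    · exact hl k
    · exact tendsto_const_nhds
  have hr' : ∀ i, Tendsto (fun n => lam n i * G i) atTop (𝓝 (lamM M i * G i)) := fun i =>
    (hlam0 i).mul_const _
  have hri : ∀ i, rsum row i s₀ = lamM M i * G i := fun i =>
    tendsto_nhds_unique (hr i) ((hr' i).congr fun n => ((hΓ n _ (hx n)).2 i).symm)
  have hs₂ : ∀ k, 0 ≤ s₀ k := fun k =>
    ge_of_tendsto' (hl k) fun n => (hΓ n _ (hx n)).1 k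
  refine limit_false hth haM ha hG hc hC' hν hνp he hea hγ₀ (fun k hk => ?_) (fun i hi => ?_)
    hs₂ hτ₀ hc₀ hsa hta
  · have h1 : rsum row (row k) s₀ = 0 := by
      rw [hri, lamM, if_neg hk, zero_mul]
    have h2 := (Finset.sum_eq_zero_iff_of_nonneg fun l _ => by
      split_ifs
      · exact hs₂ l
      · exact le_rfl).1 h1 k (Finset.mem_univ _)
    rwa [if_pos rfl] at h2
  · rw [hri, lamM, if_pos hi, one_mul]

end Pool.Agent.H99.PI
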