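import Pool.Agent.H99.PI.AScale

/-!
# The limit on the faces without macro zeros

If all `z j` are micro coordinates then the free coordinates of the face split into the macro
coordinates `FrM` and the free micro coordinates, the conditions of the open face split as well (in the
macro coordinates they define the interior of `Dh`, up to a null set the set `Dh`), and
`sc (lamM M)` sets the micro coordinates to `0`. `e'` is `e` on `M`, so `FrM row M e` and
`FrM row M e'` are the same set of coordinates. `V` is the volume of the domain in the micro coordinates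
times the volume of `Dh`.
-/

set_option linter.unusedSectionVars false

open MeasureTheory Matrix
open scoped ENNReal

namespace Pool.Agent.H99.PI

variable {Ω σ κ : Type} [Fintype Ω] [DecidableEq Ω] [Fintype σ] [DecidableEq σ] [Fintype κ]
  [DecidableEq κ] {row : Ω → σ} {col : Ω → κ} {M : Finset σ} {e e' : σ → Ω} {G : σ → ℝ}

/-- The open domain given by strict inequalities, for any family of coordinates. -/
private def am_D {ι : Type} [Fintype ι] (r : ι → σ) (N : Finset σ) (G : σ → ℝ) : Set (ι → ℝ) :=
  {x | (∀ k, 0 < x k) ∧ ∀ i ∈ N, ∑ l, (if r l = i then x l else 0) < G i}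

private theorem am_open {ι : Type} [Fintype ι] (r : ι → σ) (N : Finset σ) (G : σ → ℝ) :
    IsOpen (am_D r N G) := by
  have : am_D r N G = (⋂ k, {x : ι → ℝ | 0 < x k}) ∩
      ⋂ i ∈ N, {x : ι → ℝ | ∑ l, (if r l = i then x l else 0) < G i} := by
    ext x
    simp [am_D]
  rw [this]
  refine IsOpen.inter (isOpen_iInter_of_finite fun k => isOpen_lt continuous_const
    (continuous_apply k)) (isOpen_biInter_finset fun i _ => isOpen_lt ?_ continuous_const)
  refine continuous_finsetSum _ fun l _ => ?_
  split_ifs
  · exact continuous_apply l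
  · exact continuous_const

private theorem am_convex {ι : Type} [Fintype ι] (r : ι → σ) (N : Finset σ) (G : σ → ℝ) :
    Convex ℝ (am_D r N G) := by
  intro x hx y hy a b ha hb hab
  have key : ∀ u v u' v' : ℝ, u < v → u' < v' → a * u + b * u' < a * v + b * v' := by
    intro u v u' v' h1 h2
    rcases eq_or_lt_of_le ha with h | h
    · have hb1 : b = 1 := by linarith
      rw [← h, hb1]; linarith
    · nlinarith [mul_lt_mul_of_pos_left h1 h, mul_le_mul_of_nonneg_left h2.le hb]
  refine ⟨fun k => ?_, fun i hi => ?_⟩
  · have := key 0 (x k) 0 (y k) (hx.1 k) (hy.1 k)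
    simpa using this
  · have h1 : ∑ l, (if r l = i then (a • x + b • y) l else 0) =
        a * (∑ l, if r l = i then x l else 0) + b * ∑ l, (if r l = i then y l else 0) := by
      rw [Finset.mul_sum, Finset.mul_sum, ← Finset.sum_add_distrib]
      refine Finset.sum_congr rfl fun l _ => ?_
      split_ifs <;> simp
    rw [h1]
    have h2 := key _ _ _ _ (hx.2 i hi) (hy.2 i hi)
    have h3 : a * G i + b * G i = G i := by rw [← add_mul, hab, one_mul]
    linarith

/-- A point of the domain. -/
private theorem am_point {ι : Type} [Fintype ι] (r : ι → σ) (N : Finset σ) {G : σ → ℝ}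
    (hG : ∀ i, 0 < G i) : (fun k => G (r k) / (Fintype.card ι + 1)) ∈ am_D r N G := by
  have hc : (0 : ℝ) < Fintype.card ι + 1 := by positivity
  refine ⟨fun k => div_pos (hG _) hc, fun i _ => ?_⟩
  have h1 : ∑ l, (if r l = i then G (r l) / ((Fintype.card ι : ℝ) + 1) else 0) ≤
      ∑ _l : ι, G i / ((Fintype.card ι : ℝ) + 1) := by
    refine Finset.sum_le_sum fun l _ => ?_
    split_ifs with h
    · rw [h]
    · exact (div_pos (hG i) hc).le
  rw [Finset.sum_const, Finset.card_univ, nsmul_eq_mul] at h1
  refine h1.trans_lt ?_
  rw [← mul_div_assoc, div_lt_iff₀ hc]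
  nlinarith [hG i]

private theorem am_vol_pos {ι : Type} [Fintype ι] (r : ι → σ) (N : Finset σ) {G : σ → ℝ}
    (hG : ∀ i, 0 < G i) : 0 < volume (am_D r N G) :=
  (am_open r N G).measure_pos _ ⟨_, am_point r N hG⟩

private theorem am_vol_lt {ι : Type} [Fintype ι] (r : ι → σ) (N : Finset σ) {G : σ → ℝ}
    (hr : ∀ k, r k ∈ N) : volume (am_D r N G) < ∞ := by
  have : am_D r N G ⊆ Set.Icc 0 (fun k => G (r k)) := by
    intro x hx
    refine ⟨fun k => (hx.1 k).le, fun k => ?_⟩
    refine le_trans ?_ (hx.2 (r k) (hr k)).le
    have : x k = (if r k = r k then x k else 0) := by rw [if_pos rfl]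
    rw [this]
    refine Finset.single_le_sum (f := fun l => if r l = r k then x l else 0) (fun l _ => ?_)
      (Finset.mem_univ k)
    show (0 : ℝ) ≤ if r l = r k then x l else 0
    split_ifs
    · exact (hx.1 l).le
    · exact le_rfl
  exact (measure_mono this).trans_lt isCompact_Icc.measure_lt_top

/-- The domain of the macro coordinates is `Dh` up to a null set. -/
private theorem am_Dh (hG : ∀ i, 0 < G i) :
    (am_D (fun k : FrM row M e => row k.1) M G : Set (FrM row M e → ℝ)) =ᵐ[volume]
      Dh row M e G := by
  have hsub : am_D (fun k : FrM row M e => row k.1) M G ⊆ Dh row M e G :=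
    fun x hx => ⟨fun k => (hx.1 k).le, fun i hi => (hx.2 i hi).le⟩
  have hcl : Dh row M e G ⊆ closure (am_D (fun k : FrM row M e => row k.1) M G) := by
    intro y hy
    set c : FrM row M e → ℝ := fun k => G (row k.1) / (Fintype.card (FrM row M e) + 1) with hc
    have hcm : c ∈ am_D (fun k : FrM row M e => row k.1) M G :=
      am_point (fun k : FrM row M e => row k.1) M hG
    have ht : Filter.Tendsto (fun n : ℕ => (1 - 1 / ((n : ℝ) + 1)) • y + (1 / ((n : ℝ) + 1)) • c)
        Filter.atTop (nhds ((1 - (0 : ℝ)) • y + (0 : ℝ) • c)) :=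
      ((tendsto_const_nhds.sub tendsto_one_div_add_atTop_nhds_zero_nat).smul_const y).add
        (tendsto_one_div_add_atTop_nhds_zero_nat.smul_const c)
    rw [sub_zero, one_smul, zero_smul, add_zero] at ht
    refine mem_closure_of_tendsto ht (Filter.Eventually.of_forall fun n => ?_)
    have h0 : (0 : ℝ) < 1 / ((n : ℝ) + 1) := by positivity
    have h1 : (0 : ℝ) ≤ 1 - 1 / ((n : ℝ) + 1) := by
      rw [sub_nonneg, div_le_one (by positivity)]
      have : (0 : ℝ) ≤ n := n.cast_nonneg
      linarith
    generalize 1 / ((n : ℝ) + 1) = t at h0 h1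
    refine ⟨fun k => ?_, fun i hi => ?_⟩
    · show 0 < (1 - t) * y k + t * c k
      have := mul_nonneg h1 (hy.1 k)
      have := mul_pos h0 (hcm.1 k)
      linarith
    · have h2 : ∑ l : FrM row M e, (if row l.1 = i then ((1 - t) • y + t • c) l else 0) =
          (1 - t) * (∑ l : FrM row M e, if row l.1 = i then y l else 0) +
            t * ∑ l : FrM row M e, (if row l.1 = i then c l else 0) := by
        rw [Finset.mul_sum, Finset.mul_sum, ← Finset.sum_add_distrib]
        refine Finset.sum_congr rfl fun l _ => ?_
        split_ifs <;> simp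
      rw [h2]
      have h3 := mul_le_mul_of_nonneg_left (hy.2 i hi) h1
      have h4 := mul_lt_mul_of_pos_left (hcm.2 i hi) h0
      have h5 : (1 - t) * G i + t * G i = G i := by ring
      linarith
  have hfr : volume (frontier (am_D (fun k : FrM row M e => row k.1) M G)) = 0 :=
    (am_convex _ M G).addHaar_frontier volume
  refine (hsub.eventuallyLE).antisymm ?_
  rw [ae_le_set]
  refine measure_mono_null ?_ hfr
  rw [frontier, (am_open _ M G).interior_eq]
  exact Set.sdiff_subset_sdiff_left hcl

/-- The macro coordinates among the free coordinates. -/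
private def am_eqA (z : κ → Ω) (hzM : ∀ j, row (z j) ∉ M) (hee : ∀ i ∈ M, e' i = e i) :
    FrM row M e ≃ {k : Fr row z e' // row k.1 ∈ M} where
  toFun a := ⟨⟨a.1, fun j h => hzM j (h ▸ a.2.1), by rw [hee _ a.2.1]; exact a.2.2⟩, a.2.1⟩
  invFun k := ⟨k.1.1, k.2, by rw [← hee _ k.2]; exact k.1.2.2⟩
  left_inv _ := rfl
  right_inv _ := rfl

/-- The splitting of the free coordinates. -/
private def am_eq (z : κ → Ω) (hzM : ∀ j, row (z j) ∉ M) (hee : ∀ i ∈ M, e' i = e i) :
    FrM row M e ⊕ {k : Fr row z e' // row k.1 ∉ M} ≃ Fr row z e' :=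
  (Equiv.sumCongr (am_eqA z hzM hee) (Equiv.refl _)).trans
    (Equiv.sumCompl (fun k : Fr row z e' => row k.1 ∈ M))

theorem fint_zero (hG : ∀ i, 0 < G i) {z : κ → Ω} (hz : IsSec col z)
    (hzM : ∀ j, row (z j) ∉ M) (he' : IsFill row z e') (hee : ∀ i ∈ M, e' i = e i) :
    ∃ V : ℝ, 0 < V ∧ ∀ φ : (Ω → ℝ) → ℝ, Continuous φ → (∃ B, ∀ x, |φ x| ≤ B) →
      fint row z e' G (lamM M) φ = V * ∫ s, φ s ∂(unif row M e G) := by
  classical
  set f := am_eq (row := row) (e := e) z hzM hee with hf
  have hfl : ∀ a, (f (Sum.inl a)).1 = a.1 := fun a => rfl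
  have hfr : ∀ b, f (Sum.inr b) = b.1 := fun b => rfl
  -- the measurable equivalence
  set Φ : (Fr row z e' → ℝ) ≃ᵐ (FrM row M e → ℝ) × ({k : Fr row z e' // row k.1 ∉ M} → ℝ) :=
    (MeasurableEquiv.piCongrLeft (fun _ => ℝ) f).symm.trans
      (MeasurableEquiv.sumPiEquivProdPi (fun _ => ℝ)) with hΦ
  have hΦ1 : ∀ x a, (Φ x).1 a = x (f (Sum.inl a)) := fun x a => rfl
  have hΦ2 : ∀ x b, (Φ x).2 b = x b.1 := fun x b => rfl
  have hmp : MeasurePreserving Φ volume (volume.prod volume) :=
    (volume_measurePreserving_sumPiEquivProdPi (fun _ => ℝ)).comp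
      ((volume_measurePreserving_piCongrLeft (fun _ => ℝ) f).symm)
  -- sums over the free coordinates
  have hsum : ∀ (x : Fr row z e' → ℝ) (i : σ),
      ∑ l : Fr row z e', (if row l.1 = i then x l else 0) =
        ∑ l : FrM row M e, (if row l.1 = i then (Φ x).1 l else 0) +
          ∑ l : {k : Fr row z e' // row k.1 ∉ M}, (if row l.1.1 = i then (Φ x).2 l else 0) := by
    intro x i
    rw [← Equiv.sum_comp f (fun l : Fr row z e' => if row l.1 = i then x l else 0),
      Fintype.sum_sum_type]
    rfl
  have hsM : ∀ (x : Fr row z e' → ℝ) (i : σ), i ∈ M →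
      ∑ l : Fr row z e', (if row l.1 = i then x l else 0) =
        ∑ l : FrM row M e, (if row l.1 = i then (Φ x).1 l else 0) := by
    intro x i hi
    rw [hsum]
    have : ∑ l : {k : Fr row z e' // row k.1 ∉ M},
        (if row l.1.1 = i then (Φ x).2 l else 0) = 0 := by
      refine Finset.sum_eq_zero fun l _ => if_neg ?_
      intro h
      exact l.2 (h ▸ hi)
    rw [this, add_zero]
  have hsm : ∀ (x : Fr row z e' → ℝ) (i : σ), i ∉ M →
      ∑ l : Fr row z e', (if row l.1 = i then x l else 0) =
        ∑ l : {k : Fr row z e' // row k.1 ∉ M}, (if row l.1.1 = i then (Φ x).2 l else 0) := by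
    intro x i hi
    rw [hsum]
    have : ∑ l : FrM row M e, (if row l.1 = i then (Φ x).1 l else 0) = 0 := by
      refine Finset.sum_eq_zero fun l _ => if_neg ?_
      intro h
      exact hi (h ▸ l.2.1)
    rw [this, zero_add]
  -- the domain
  set DM := am_D (fun k : FrM row M e => row k.1) M G with hDM
  set Dm := am_D (fun k : {k : Fr row z e' // row k.1 ∉ M} => row k.1.1) Mᶜ G with hDm
  have hdom : {x : Fr row z e' → ℝ | fill row z e' G x ∈ fc row G z} = Φ ⁻¹' (DM ×ˢ Dm) := by
    ext x
    have h1 : fill row z e' G x ∈ fc row G z ↔ (∀ k : Fr row z e', 0 < x k) ∧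
        ∀ i, ∑ l : Fr row z e', (if row l.1 = i then x l else 0) < G i := by
      have hpos : ∀ k : Fr row z e', fill row z e' G x k.1 = x k := by
        intro k
        unfold fill
        rw [dif_pos k.2]
      have hfil : ∀ i, fill row z e' G x (e' i) =
          G i - ∑ l : Fr row z e', (if row l.1 = i then x l else 0) := by
        intro i
        unfold fill
        rw [dif_neg (by rw [he'.1 i]; exact fun h => h.2 rfl), if_pos (by rw [he'.1 i]), he'.1 i]
      constructor
      · rintro ⟨_, _, h⟩
        refine ⟨fun k => ?_, fun i => ?_⟩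
        · rw [← hpos k]
          exact h k.1 k.2.1
        · have := h (e' i) (fun j => he'.2 i j)
          rw [hfil] at this
          linarith
      · rintro ⟨h1, h2⟩
        have hfill0 : ∀ j, fill row z e' G x (z j) = 0 := by
          intro j
          unfold fill
          rw [dif_neg (fun h => h.1 j rfl), if_neg (fun h => he'.2 (row (z j)) j h.symm)]
        refine ⟨hfill0, fun i => ?_, fun k hk => ?_⟩
        · -- the sum over a row
          unfold rsum
          have h3 : ∀ k, (if row k = i then fill row z e' G x k else 0) =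
              (if k = e' i then
                G i - ∑ l : Fr row z e', (if row l.1 = i then x l else 0) else 0) +
              ∑ l : Fr row z e', (if l.1 = k then (if row l.1 = i then x l else 0) else 0) := by
            intro k
            by_cases hk1 : (∀ j, k ≠ z j) ∧ k ≠ e' (row k)
            · have h4 : ∑ l : Fr row z e', (if l.1 = k then
                  (if row l.1 = i then x l else 0) else 0) =
                  (if row k = i then x ⟨k, hk1⟩ else 0) := by
                rw [Finset.sum_eq_single (⟨k, hk1⟩ : Fr row z e')]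
                · rw [if_pos rfl]
                · intro l _ hl
                  rw [if_neg fun h => hl (Subtype.ext h)]
                · intro h
                  exact absurd (Finset.mem_univ _) h
              rw [h4]
              have h5 : ¬ (k = e' i) := by
                intro h
                apply hk1.2
                rw [h, he'.1]
              rw [if_neg h5, zero_add]
              by_cases hri : row k = i
              · rw [if_pos hri, if_pos hri]
                exact hpos ⟨k, hk1⟩
              · rw [if_neg hri, if_neg hri]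
            · have h4 : ∑ l : Fr row z e', (if l.1 = k then
                  (if row l.1 = i then x l else 0) else 0) = 0 := by
                refine Finset.sum_eq_zero fun l _ => if_neg ?_
                intro h
                exact hk1 (h ▸ l.2)
              rw [h4, add_zero]
              by_cases hke : k = e' i
              · rw [if_pos hke, hke, if_pos (he'.1 i), hfil]
              · rw [if_neg hke]
                by_cases hri : row k = i
                · rw [if_pos hri]
                  unfold fill
                  rw [dif_neg hk1, if_neg (by rw [hri]; exact hke)]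
                · rw [if_neg hri]
          rw [Finset.sum_congr rfl fun k _ => h3 k, Finset.sum_add_distrib,
            Finset.sum_ite_eq' Finset.univ (e' i), if_pos (Finset.mem_univ _), Finset.sum_comm]
          have h6 : ∀ l : Fr row z e', ∑ k, (if l.1 = k then
              (if row l.1 = i then x l else 0) else 0) = (if row l.1 = i then x l else 0) := by
            intro l
            rw [Finset.sum_ite_eq Finset.univ l.1, if_pos (Finset.mem_univ _)]
          rw [Finset.sum_congr rfl fun l _ => h6 l]
          ring
        · by_cases hke : k = e' (row k)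
          · have := hfil (row k)
            rw [← hke] at this
            rw [this]
            linarith [h2 (row k)]
          · rw [hpos ⟨k, hk, hke⟩]
            exact h1 _
    rw [Set.mem_ofPred_eq, h1, Set.mem_preimage, Set.mem_prod]
    constructor
    · rintro ⟨h2, h3⟩
      refine ⟨⟨fun a => h2 _, fun i hi => ?_⟩, ⟨fun b => h2 _, fun i hi => ?_⟩⟩
      · rw [← hsM x i hi]
        exact h3 i
      · rw [← hsm x i (Finset.mem_compl.1 hi)]
        exact h3 i
    · rintro ⟨⟨h2, h3⟩, ⟨h4, h5⟩⟩
      refine ⟨fun k => ?_, fun i => ?_⟩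
      · by_cases hk : row k.1 ∈ M
        · have := h2 ((am_eqA z hzM hee).symm ⟨k, hk⟩)
          exact this
        · exact h4 ⟨k, hk⟩
      · by_cases hi : i ∈ M
        · rw [hsM x i hi]
          exact h3 i hi
        · rw [hsm x i hi]
          exact h5 i (Finset.mem_compl.2 hi)
  -- the integrand
  have hint : ∀ x : Fr row z e' → ℝ, sc row (lamM M) (fill row z e' G x) =
      fillM row M e G (Φ x).1 := by
    intro x
    funext k
    unfold sc lamM fillM
    by_cases hk : row k ∈ M
    · rw [if_pos hk, one_mul]
      by_cases hke : k = e (row k)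
      · rw [dif_neg (fun h => h.2 hke), if_pos hk]
        unfold fill
        rw [dif_neg (fun h => h.2 (by rw [hee _ hk]; exact hke)),
          if_pos (by rw [hee _ hk]; exact hke), hsM x (row k) hk]
      · rw [dif_pos ⟨hk, hke⟩]
        unfold fill
        rw [dif_pos ⟨fun j h => hzM j (h ▸ hk), by rw [hee _ hk]; exact hke⟩]
        rfl
    · rw [if_neg hk, zero_mul, dif_neg (fun h => hk h.1), if_neg hk]
  have hvm0 : 0 < volume Dm := am_vol_pos _ _ hG
  have hvm1 : volume Dm < ∞ :=
    am_vol_lt _ _ (fun k => Finset.mem_compl.2 k.2)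
  have hvM : volume DM = volume (Dh row M e G) := measure_congr (am_Dh hG)
  have hv0 : 0 < volume (Dh row M e G) := hvM ▸ am_vol_pos _ _ hG
  have hv1 : volume (Dh row M e G) < ∞ := (isCompact_Dh hG).measure_lt_top
  refine ⟨(volume Dm).toReal * (volume (Dh row M e G)).toReal,
    mul_pos (ENNReal.toReal_pos hvm0.ne' hvm1.ne) (ENNReal.toReal_pos hv0.ne' hv1.ne),
    fun φ hφ _ => ?_⟩
  -- the left side
  have hL : fint row z e' G (lamM M) φ =
      (∫ y in Dh row M e G, φ (fillM row M e G y)) * (volume Dm).toReal := by
    unfold fint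
    rw [hdom]
    have h1 : (fun x : Fr row z e' → ℝ => φ (sc row (lamM M) (fill row z e' G x))) =
        fun x => (fun p : (FrM row M e → ℝ) × ({k : Fr row z e' // row k.1 ∉ M} → ℝ) =>
          φ (fillM row M e G p.1) * 1) (Φ x) := by
      funext x
      rw [hint x]
      simp
    rw [h1, hmp.setIntegral_preimage_emb Φ.measurableEmbedding
        (fun p : (FrM row M e → ℝ) × ({k : Fr row z e' // row k.1 ∉ M} → ℝ) =>
          φ (fillM row M e G p.1) * 1) (DM ×ˢ Dm),
      setIntegral_prod_mul (fun y => φ (fillM row M e G y)) (fun _ => (1 : ℝ)),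
      setIntegral_congr_set (am_Dh hG)]
    congr 1
    rw [setIntegral_const, smul_eq_mul, mul_one]
    rfl
  -- the right side
  have hR : ∫ s, φ s ∂(unif row M e G) =
      ((volume (Dh row M e G)).toReal)⁻¹ * ∫ y in Dh row M e G, φ (fillM row M e G y) := by
    unfold unif nrm
    have h1 : ((volume.restrict (Dh row M e G)).map (fillM row M e G)) Set.univ =
        volume (Dh row M e G) := by
      rw [Measure.map_apply (continuous_fillM row M e G).measurable MeasurableSet.univ,
        Set.preimage_univ, Measure.restrict_apply MeasurableSet.univ, Set.univ_inter]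
    rw [h1, integral_smul_measure, ENNReal.toReal_inv, smul_eq_mul,
      integral_map (continuous_fillM row M e G).measurable.aemeasurable
        hφ.aestronglyMeasurable]
  rw [hL, hR]
  have h2 : (volume (Dh row M e G)).toReal ≠ 0 := (ENNReal.toReal_pos hv0.ne' hv1.ne).ne'
  field_simp

end Pool.Agent.H99.PI
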