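import Pool.Agent.H99.PI.AFace

/-!
# The integral over one face for the sums `lam i * G i`

The linear map `sc lam` (multiplication of the coordinates of the row `i` by `lam i > 0`) maps the face
for the sums `G` onto the face for the sums `lam i * G i`, and
`fill (lam * G) x' = sc lam (fill G x)` if `x' k = lam (row k) * x k` (note that `row (e i) = i`). The
change of variables `x ↦ x'` of `Fr row z e → ℝ` has the determinant
`∏ k : Fr, lam (row k) = (∏ k : Ω, lam (row k)) / ((∏ j, lam (row (z j))) * ∏ i, lam i)`.
-/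

set_option linter.unusedSectionVars false

open MeasureTheory Matrix
open scoped ENNReal

namespace Pool.Agent.H99.PI

variable {Ω σ κ : Type} [Fintype Ω] [DecidableEq Ω] [Fintype σ] [DecidableEq σ] [Fintype κ]
  [DecidableEq κ] {row : Ω → σ} {col : Ω → κ} {M : Finset σ} {e : σ → Ω} {G : σ → ℝ}

/-- Multiplication of the row `i` by `lam i`. -/
def sc (row : Ω → σ) (lam : σ → ℝ) (s : Ω → ℝ) : Ω → ℝ := fun k => lam (row k) * s k

/-- The weight of the face `z`. -/
noncomputable def wt (row : Ω → σ) (lam : σ → ℝ) (z : κ → Ω) : ℝ := ∏ j, (lam (row (z j)))⁻¹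

/-- The integral over the open face of `φ (sc lam s)`, in the free coordinates. -/
noncomputable def fint (row : Ω → σ) (z : κ → Ω) (e : σ → Ω) (G : σ → ℝ) (lam : σ → ℝ)
    (φ : (Ω → ℝ) → ℝ) : ℝ :=
  ∫ x in {x : Fr row z e → ℝ | fill row z e G x ∈ fc row G z}, φ (sc row lam (fill row z e G x))

private theorem fill_sc (z : κ → Ω) (e : σ → Ω) (G lam : σ → ℝ) (x : Fr row z e → ℝ) :
    fill row z e (fun i => lam i * G i) (fun k => lam (row k.1) * x k) =
      sc row lam (fill row z e G x) := by
  funext k
  show fill row z e (fun i => lam i * G i) (fun k => lam (row k.1) * x k) k =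
    lam (row k) * fill row z e G x k
  unfold fill
  split_ifs with h1 h2
  · rfl
  · rw [mul_sub, Finset.mul_sum]
    congr 1
    refine Finset.sum_congr rfl fun l _ => ?_
    split_ifs with h3
    · show lam (row l.1) * x l = lam (row k) * x l
      rw [h3]
    · rw [mul_zero]
  · rw [mul_zero]

private theorem sc_mem {z : κ → Ω} {lam : σ → ℝ} (hlam : ∀ i, 0 < lam i) (s : Ω → ℝ) :
    sc row lam s ∈ fc row (fun i => lam i * G i) z ↔ s ∈ fc row G z := by
  have hr : ∀ i, rsum row i (sc row lam s) = lam i * rsum row i s := fun i => by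
    unfold rsum sc
    rw [Finset.mul_sum]
    refine Finset.sum_congr rfl fun k _ => ?_
    split_ifs with h
    · rw [h]
    · rw [mul_zero]
  constructor
  · rintro ⟨h1, h2, h3⟩
    refine ⟨fun j => ?_, fun i => ?_, fun k hk => ?_⟩
    · have h := h1 j
      unfold sc at h
      exact (mul_eq_zero.1 h).resolve_left (hlam _).ne'
    · have h := h2 i
      rw [hr] at h
      exact mul_left_cancel₀ (hlam i).ne' h
    · have h := h3 k hk
      unfold sc at h
      exact (mul_pos_iff_of_pos_left (hlam _)).1 h
  · rintro ⟨h1, h2, h3⟩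
    refine ⟨fun j => ?_, fun i => ?_, fun k hk => ?_⟩
    · unfold sc
      rw [h1 j, mul_zero]
    · rw [hr, h2 i]
    · exact mul_pos (hlam _) (h3 k hk)

private theorem prod_free {z : κ → Ω} (hz : IsSec col z) (he : IsFill row z e) {lam : σ → ℝ}
    (hlam : ∀ i, 0 < lam i) :
    ∏ k : Fr row z e, lam (row k.1) =
      ((∏ k, lam (row k)) * ∏ i, (lam i)⁻¹) * wt row lam z := by
  have hzi : Function.Injective z := fun j j' h => by
    rw [← hz j, ← hz j', h]
  have hei : Function.Injective e := fun i i' h => by
    rw [← he.1 i, ← he.1 i', h]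
  have h1 : (∏ k, lam (row k)) = (∏ k : Fr row z e, lam (row k.1)) *
      ((∏ j, lam (row (z j))) * ∏ i, lam i) := by
    rw [← Finset.prod_filter_mul_prod_filter_not Finset.univ
      (fun k : Ω => (∀ j, k ≠ z j) ∧ k ≠ e (row k))]
    congr 1
    · exact Finset.prod_subtype _ (fun k => by simp) _
    · have h2 : (Finset.univ.filter fun k : Ω => ¬ ((∀ j, k ≠ z j) ∧ k ≠ e (row k))) =
          Finset.univ.image z ∪ Finset.univ.image e := by
        ext k
        simp only [Finset.mem_filter, Finset.mem_univ, true_and, Finset.mem_union,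
          Finset.mem_image]
        constructor
        · intro h
          by_cases h3 : ∃ j, z j = k
          · exact Or.inl h3
          · right
            by_contra h4
            refine h ⟨fun j hj => h3 ⟨j, hj.symm⟩, fun h5 => h4 ⟨row k, h5.symm⟩⟩
        · rintro (⟨j, rfl⟩ | ⟨i, rfl⟩) ⟨h3, h4⟩
          · exact h3 j rfl
          · exact h4 (by rw [he.1 i])
      rw [h2, Finset.prod_union, Finset.prod_image fun a _ b _ h => hzi h,
        Finset.prod_image fun a _ b _ h => hei h]
      · congr 1
        exact Finset.prod_congr rfl fun i _ => by rw [he.1 i]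
      · rw [Finset.disjoint_left]
        intro k hk hk'
        obtain ⟨j, -, rfl⟩ := Finset.mem_image.1 hk
        obtain ⟨i, -, hi⟩ := Finset.mem_image.1 hk'
        exact he.2 i j hi
  have h3 : (∏ i, lam i) ≠ 0 := Finset.prod_ne_zero_iff.2 fun i _ => (hlam i).ne'
  have h4 : (∏ j, lam (row (z j))) ≠ 0 := Finset.prod_ne_zero_iff.2 fun j _ => (hlam _).ne'
  rw [h1, wt, Finset.prod_inv_distrib, Finset.prod_inv_distrib]
  field_simp

theorem integral_face {C : (κ → Ω) → (σ → Ω) → ℝ≥0∞} {z : κ → Ω} (hz : IsSec col z)
    (he : IsFill row z e) {lam : σ → ℝ} (hlam : ∀ i, 0 < lam i) {μ : Measure (Ω → ℝ)}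
    (hμ : IsFlat row col C (fun i => lam i * G i) μ) {φ : (Ω → ℝ) → ℝ} (hφ : Continuous φ) :
    ∫ s in fc row (fun i => lam i * G i) z, φ s ∂μ =
      ((∏ k, lam (row k)) * ∏ i, (lam i)⁻¹) * wt row lam z *
        ((C z e).toReal * fint row z e G lam φ) := by
  have hF := measurableSet_fc row (fun i => lam i * G i) z
  have hcf := continuous_fill row z e (fun i => lam i * G i)
  set D : Fr row z e → ℝ := fun k => lam (row k.1) with hD
  have hdet : Matrix.det (Matrix.diagonal D) = ∏ k : Fr row z e, lam (row k.1) := by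
    rw [Matrix.det_diagonal]
  have hpos : 0 < ∏ k : Fr row z e, lam (row k.1) := Finset.prod_pos fun k _ => hlam _
  have hne : Matrix.det (Matrix.diagonal D) ≠ 0 := by
    rw [hdet]
    exact hpos.ne'
  have hP : ∀ x, Matrix.toLin' (Matrix.diagonal D) x = fun k => lam (row k.1) * x k := fun x => by
    funext k
    rw [Matrix.toLin'_apply, Matrix.mulVec_diagonal]
  have hPc : Continuous (Matrix.toLin' (Matrix.diagonal D)) :=
    LinearMap.continuous_of_finiteDimensional _
  have hvol := Real.smul_map_diagonal_volume_pi hne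
  have hA : MeasurableSet (fill row z e (fun i => lam i * G i) ⁻¹'
      fc row (fun i => lam i * G i) z) := hcf.measurable hF
  have e1 : ∫ s in fc row (fun i => lam i * G i) z, φ s ∂μ = (C z e).toReal *
      ∫ x in fill row z e (fun i => lam i * G i) ⁻¹' fc row (fun i => lam i * G i) z,
        φ (fill row z e (fun i => lam i * G i) x) := by
    rw [hμ.flat z e hz he, integral_smul_measure, smul_eq_mul,
      setIntegral_map hF hφ.aestronglyMeasurable hcf.aemeasurable]
  have e2 : ∫ x in fill row z e (fun i => lam i * G i) ⁻¹' fc row (fun i => lam i * G i) z,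
        φ (fill row z e (fun i => lam i * G i) x) =
      (∏ k : Fr row z e, lam (row k.1)) * fint row z e G lam φ := by
    conv_lhs => rw [← hvol]
    rw [Measure.restrict_smul, integral_smul_measure, smul_eq_mul,
      setIntegral_map (f := fun x => φ (fill row z e (fun i => lam i * G i) x)) hA
        (hφ.comp hcf).aestronglyMeasurable hPc.aemeasurable, hdet,
      abs_of_pos hpos, ENNReal.toReal_ofReal hpos.le]
    congr 1
    unfold fint
    have hset : (Matrix.toLin' (Matrix.diagonal D)) ⁻¹'
        (fill row z e (fun i => lam i * G i) ⁻¹' fc row (fun i => lam i * G i) z) =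
        {x : Fr row z e → ℝ | fill row z e G x ∈ fc row G z} := by
      ext x
      rw [Set.mem_preimage, Set.mem_preimage, hP, fill_sc, sc_mem hlam]
      rfl
    rw [hset]
    refine integral_congr_ae (Filter.Eventually.of_forall fun x => ?_)
    show φ (fill row z e (fun i => lam i * G i) (Matrix.toLin' (Matrix.diagonal D) x)) = _
    rw [hP, fill_sc]
  rw [e1, e2, prod_free hz he hlam]
  ring

/-- Continuity in `lam` (dominated convergence: the domain is bounded, so has finite volume). -/
theorem tendsto_fint {z : κ → Ω} (he : IsFill row z e) (hG : ∀ i, 0 < G i)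
    {φ : (Ω → ℝ) → ℝ} (hφ : Continuous φ) (hb : ∃ B, ∀ x, |φ x| ≤ B) {lam : ℕ → σ → ℝ}
    {lam₀ : σ → ℝ} (hlam : ∀ i, Filter.Tendsto (fun n => lam n i) Filter.atTop (nhds (lam₀ i))) :
    Filter.Tendsto (fun n => fint row z e G (lam n) φ) Filter.atTop
      (nhds (fint row z e G lam₀ φ)) := by
  obtain ⟨B, hB⟩ := hb
  have hcf := continuous_fill row z e G
  have hsc : ∀ l : σ → ℝ, Continuous (sc row l) := fun l =>
    continuous_pi fun k => continuous_const.mul (continuous_apply k)
  have hsub : {x : Fr row z e → ℝ | fill row z e G x ∈ fc row G z} ⊆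
      Set.pi Set.univ fun k => Set.Icc 0 (G (row k.1)) := by
    rintro x ⟨h1, h2, h3⟩ k -
    have hk : fill row z e G x k.1 = x k := by
      unfold fill
      rw [dif_pos k.2]
    have hnn : ∀ l, 0 ≤ fill row z e G x l := fun l => by
      by_cases hl : ∃ j, l = z j
      · obtain ⟨j, rfl⟩ := hl
        rw [h1 j]
      · exact (h3 l fun j hj => hl ⟨j, hj⟩).le
    refine ⟨hk ▸ hnn k.1, ?_⟩
    rw [← hk, ← h2 (row k.1)]
    have h4 := Finset.single_le_sum (f := fun l => if row l = row k.1 then fill row z e G x l
      else 0) (fun l _ => by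
        split_ifs
        · exact hnn l
        · exact le_rfl) (Finset.mem_univ k.1)
    rw [if_pos rfl] at h4
    exact h4
  have hfin : volume {x : Fr row z e → ℝ | fill row z e G x ∈ fc row G z} < ∞ :=
    lt_of_le_of_lt (measure_mono hsub) (isCompact_univ_pi fun k => isCompact_Icc).measure_lt_top
  have : IsFiniteMeasure (volume.restrict
      {x : Fr row z e → ℝ | fill row z e G x ∈ fc row G z}) := ⟨by
    rw [Measure.restrict_apply_univ]
    exact hfin⟩
  refine tendsto_integral_of_dominated_convergence (fun _ => B) (fun n => ?_)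
    (integrable_const B) (fun n => ?_) ?_
  · exact (hφ.comp ((hsc _).comp hcf)).aestronglyMeasurable
  · exact Filter.Eventually.of_forall fun x => hB _
  · refine Filter.Eventually.of_forall fun x => ?_
    refine (hφ.tendsto _).comp ?_
    rw [tendsto_pi_nhds]
    intro k
    exact (hlam (row k)).mul_const _

end Pool.Agent.H99.PI
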