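import Pool.Agent.H99.PI.ADefs

/-!
# Sections and fill coordinates
-/

set_option linter.unusedSectionVars false

open MeasureTheory Matrix
open scoped ENNReal

namespace Pool.Agent.H99.PI

variable {Ω σ κ : Type} [Fintype Ω] [DecidableEq Ω] [Fintype σ] [DecidableEq σ] [Fintype κ]
  [DecidableEq κ] {row : Ω → σ} {col : Ω → κ} {M : Finset σ} {e e' : σ → Ω} {G : σ → ℝ}

/-- If a section without macro zeros has fill coordinates then it has some which are equal to `e` on
`M`. -/
theorem exists_fill_eq {z : κ → Ω} (hzM : ∀ j, row (z j) ∉ M) (he : ∀ i, row (e i) = i)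
    (hf : ∃ e', IsFill row z e') : ∃ e', IsFill row z e' ∧ ∀ i ∈ M, e' i = e i := by
  obtain ⟨e', he1, he2⟩ := hf
  refine ⟨fun i => if i ∈ M then e i else e' i, ⟨fun i => ?_, fun i j => ?_⟩, fun i hi => ?_⟩
  · by_cases hi : i ∈ M
    · simp only [hi, if_true]; exact he i
    · simp only [hi, if_false]; exact he1 i
  · by_cases hi : i ∈ M
    · simp only [hi, if_true]
      intro h
      apply hzM j
      rw [← h, he i]
      exact hi
    · simp only [hi, if_false]; exact he2 i j
  · simp only [hi, if_true]

/-- The column `j` contains two coordinates of one micro row: put `z j` in this row. -/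
theorem exists_sec (hrow : ∀ i, ∃ k, row k = i) (hth : IsThick row col M) :
    ∃ (z : κ → Ω) (e' : σ → Ω), IsSec col z ∧ IsFill row z e' := by
  classical
  choose a b hab hrow2 _ hca hcb using hth
  have key : ∀ i, ∃ k, row k = i ∧ ∀ j, k ≠ a j := by
    intro i
    by_cases h : ∃ j, row (a j) = i
    · obtain ⟨j, hj⟩ := h
      refine ⟨b j, by rw [← hrow2 j, hj], fun j' h' => ?_⟩
      have h1 : j = j' := by rw [← hcb j, h', hca j']
      subst h1
      exact hab j h'.symm
    · obtain ⟨k, hk⟩ := hrow i
      refine ⟨k, hk, fun j h' => h ⟨j, by rw [← h', hk]⟩⟩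
  choose e' he1 he2 using key
  exact ⟨a, e', hca, he1, he2⟩

/-- The macro zeros of a section with fill coordinates can be replaced by micro zeros: in a column
`j` with a macro zero take a coordinate of a micro row which contains two coordinates of the column
`j`. (No row with such a new zero is covered by zeros, as it contains another coordinate of the same
column.) -/
theorem exists_micro (hth : IsThick row col M) {z : κ → Ω} {e' : σ → Ω} (hz : IsSec col z)
    (he' : IsFill row z e') :
    ∃ (z₁ : κ → Ω) (e₁ : σ → Ω), IsSec col z₁ ∧ (∀ j, row (z₁ j) ∉ M) ∧ IsFill row z₁ e₁ ∧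
      ∀ j, row (z j) ∉ M → z₁ j = z j := by
  classical
  choose a b hab hrow2 haM hca hcb using hth
  obtain ⟨he1, he2⟩ := he'
  have hz1 : ∀ j, row (z j) ∉ M → (if row (z j) ∈ M then a j else z j) = z j := fun j hj => by
    simp only [hj, if_false]
  have hz2 : ∀ j, row (z j) ∈ M → (if row (z j) ∈ M then a j else z j) = a j := fun j hj => by
    simp only [hj, if_true]
  have key : ∀ i, ∃ k, row k = i ∧ ∀ j, k ≠ (if row (z j) ∈ M then a j else z j) := by
    intro i
    by_cases h : ∃ j, row (z j) ∈ M ∧ row (a j) = i
    · obtain ⟨j, hjM, hj⟩ := h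
      refine ⟨b j, by rw [← hrow2 j, hj], fun j' h' => ?_⟩
      by_cases hj' : row (z j') ∈ M
      · rw [hz2 j' hj'] at h'
        have h1 : j = j' := by rw [← hcb j, h', hca j']
        subst h1
        exact hab j h'.symm
      · rw [hz1 j' hj'] at h'
        have h1 : j = j' := by rw [← hcb j, h', hz j']
        subst h1
        exact hj' hjM
    · refine ⟨e' i, he1 i, fun j h' => ?_⟩
      by_cases hj : row (z j) ∈ M
      · rw [hz2 j hj] at h'
        exact h ⟨j, hj, by rw [← h', he1 i]⟩
      · rw [hz1 j hj] at h'
        exact he2 i j h'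
  choose e₁ h1 h2 using key
  refine ⟨fun j => if row (z j) ∈ M then a j else z j, e₁, fun j => ?_, fun j => ?_, ⟨h1, h2⟩,
    fun j hj => hz1 j hj⟩
  · by_cases hj : row (z j) ∈ M
    · show col (if row (z j) ∈ M then a j else z j) = j
      rw [hz2 j hj]; exact hca j
    · show col (if row (z j) ∈ M then a j else z j) = j
      rw [hz1 j hj]; exact hz j
  · by_cases hj : row (z j) ∈ M
    · show row (if row (z j) ∈ M then a j else z j) ∉ M
      rw [hz2 j hj]; exact haM j
    · show row (if row (z j) ∈ M then a j else z j) ∉ M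
      rw [hz1 j hj]; exact hj

end Pool.Agent.H99.PI
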