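import Pool.Agent.H99.ON.Dep
import Pool.Agent.H99.ON.Cen
import Pool.Agent.H99.ON.Bal
import Pool.Agent.H99.PI.AAlex
import Pool.Agent.H99.PI.ALine

/-!
# Strict convexity up to the boundary for doubling Monge-Ampere measures
-/

open MeasureTheory Matrix
open scoped ENNReal

namespace Pool.Agent.H99.PI

open Pool.Agent.H99.ON

variable {ι : Type} [Fintype ι] {f : (ι → ℝ) → ℝ} {B : Set (ι → ℝ)}

/-- **Strict convexity up to the boundary** (Caffarelli). If the Monge-Ampere measure of the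
potential `f` of a convex set `S` is at most `K` times that of the convex set `S / 2 + z / 2`, for all
`S`, then `z` is not the midpoint of two different points with a common subgradient. -/
theorem strict_convexity (hB : IsPot B f) (hBk : IsCompact B) (hBc : Convex ℝ B)
    (hBi : (interior B).Nonempty) {K : ℝ≥0∞} (hK : K ≠ ∞) {z x₀ x₁ y : ι → ℝ}
    (hMA : ∀ S : Set (ι → ℝ), IsOpen S → Convex ℝ S → Bornology.IsBounded S →
      volume {y | ∃ x ∈ S, IsSub f x y} ≤ K *
        volume {y | ∃ x ∈ (fun v => (1 / 2 : ℝ) • z + (1 / 2 : ℝ) • v) '' S, IsSub f x y})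
    (hmid : z = (1 / 2 : ℝ) • (x₀ + x₁)) (h₀ : IsSub f x₀ y) (h₁ : IsSub f x₁ y) : x₀ = x₁ := by
  have hK1 : 0 < K.toReal + 1 := by positivity
  have hMA' : ∀ S : Set (ι → ℝ), IsOpen S → Convex ℝ S → Bornology.IsBounded S →
      volume {y | ∃ x ∈ S, IsSub f x y} ≤ ENNReal.ofReal (K.toReal + 1) *
        volume {y | ∃ x ∈ (fun v => (1 / 2 : ℝ) • z + (1 / 2 : ℝ) • v) '' S, IsSub f x y} := by
    intro S h1 h2 h3
    refine (hMA S h1 h2 h3).trans ?_
    gcongr
    rw [ENNReal.ofReal_add ENNReal.toReal_nonneg zero_le_one, ENNReal.ofReal_toReal hK]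
    exact le_self_add
  refine strict_of_alex hB.convex (thK_pos (ι := ι) hK1) (fun h hh => ?_) hmid h₀ h₁
  obtain ⟨p, hp, hmin⟩ := exists_min hB hBk hBc hBi z hh
  have hb := isBounded_sec (z := z) hB hp h
  have hbal := balanced_of_centered (isOpen_sec hB.convex z p h) (convex_sec hB.convex z p h) hb
    (mem_sec z p hh) (centered_of_min hB hp hh hmin)
  exact ⟨p, hb, hbal, fun b hbf θ h0 h1 hD => tht_le hB.convex hK1 hMA' hh hb hbal hbf h0 h1 hD⟩

end Pool.Agent.H99.PI
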