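import Pool.Agent.H99.PI.AMicro
import Pool.Agent.H99.PI.ASec

/-!
# The measures converge to the uniform measure of the macro simplices

Let `a n z = wt (lam n) z * (C z e).toReal * fint (lam n) 1` for a section `z` with fill coordinates `e`
(sections without fill coordinates have empty faces, `exists_isFill`). By `integral_face` and
`IsFlat.null`, `∫ φ ∂(nrm (μ n)) - ∫ φ ∂unif` is the quotient of
`∑ z, wt (lam n) z * (C z e).toReal * (fint (lam n) φ - fint (lam n) 1 * ∫ φ ∂unif)` and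
`∑ z, a n z`. If `z` has no macro zeros then the summand `z` divided by `a n z` tends to `0`
(`tendsto_fint`, `fint_zero`, `V > 0`). If `z` has a macro zero then the summand `z` divided by
`a n z₁`, with `z₁` of `exists_micro`, tends to `0`: the quotient of the weights is the product of
`lam n (row (z₁ j)) / lam n (row (z j))` over the `j` with `row (z j) ∈ M`, and these factors tend to `0`.
The denominator is at least `a n z₁` for all `z₁`. There is at least one section (`exists_sec`).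
-/

set_option linter.unusedSectionVars false

open MeasureTheory Matrix Filter Topology
open scoped ENNReal

namespace Pool.Agent.H99.PI

variable {Ω σ κ : Type} [Fintype Ω] [DecidableEq Ω] [Fintype σ] [DecidableEq σ] [Fintype κ]
  [DecidableEq κ] {row : Ω → σ} {col : Ω → κ} {M : Finset σ} {e : σ → Ω} {G : σ → ℝ}

/-- The integral with respect to a flat measure is the sum of the integrals over the faces. -/
theorem integral_flat {C : (κ → Ω) → (σ → Ω) → ℝ≥0∞} {μ : Measure (Ω → ℝ)} [IsFiniteMeasure μ]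
    (hμ : IsFlat row col C G μ) {φ : (Ω → ℝ) → ℝ} (hφ : Continuous φ)
    (hb : ∃ B, ∀ x, |φ x| ≤ B) :
    ∫ s, φ s ∂μ = ∑ z : κ → Ω, if ∀ j, col (z j) = j then ∫ s in fc row G z, φ s ∂μ else 0 := by
  obtain ⟨B, hB⟩ := hb
  have hint : Integrable φ μ :=
    Integrable.of_bound hφ.aestronglyMeasurable B (Filter.Eventually.of_forall fun x => by
      rw [Real.norm_eq_abs]; exact hB x)
  rw [← Finset.sum_filter]
  have h1 : ∀ᵐ s ∂μ, s ∈ ⋃ z ∈ (Finset.univ.filter fun z : κ → Ω => ∀ j, col (z j) = j),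
      fc row G z := by
    have h2 := hμ.null
    rw [ae_iff]
    refine measure_mono_null ?_ h2
    intro s hs z hz hsz
    apply hs
    simp only [Finset.mem_filter, Finset.mem_univ, true_and, Set.mem_iUnion, exists_prop]
    exact ⟨z, hz, hsz⟩
  rw [← integral_biUnion_finset _ (fun z _ => measurableSet_fc row G z) ?_
    (fun z _ => hint.integrableOn), Measure.restrict_eq_self_of_ae_mem h1]
  intro z hz z' hz' hne
  simp only [Finset.coe_filter, Finset.mem_univ, true_and, Set.mem_ofPred_eq] at hz hz'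
  exact fc_disjoint hz hz' hne

/-- The integral as a sum over the sections with fill coordinates. -/
private theorem face_sum (hrow : ∀ i, ∃ k, row k = i) (hG : ∀ i, 0 < G i)
    {C : (κ → Ω) → (σ → Ω) → ℝ≥0∞} {lam : σ → ℝ} (hlam : ∀ i, 0 < lam i)
    {μ : Measure (Ω → ℝ)} [IsFiniteMeasure μ] (hμ : IsFlat row col C (fun i => lam i * G i) μ)
    {S : Finset (κ → Ω)} (hS : ∀ z, z ∈ S ↔ IsSec col z ∧ ∃ e', IsFill row z e')
    {ez : (κ → Ω) → σ → Ω} (hez : ∀ z ∈ S, IsFill row z (ez z))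
    {φ : (Ω → ℝ) → ℝ} (hφ : Continuous φ) (hb : ∃ B, ∀ x, |φ x| ≤ B) :
    ∫ s, φ s ∂μ = ((∏ k, lam (row k)) * ∏ i, (lam i)⁻¹) *
      ∑ z ∈ S, wt row lam z * (C z (ez z)).toReal * fint row z (ez z) G lam φ := by
  rw [integral_flat hμ hφ hb, Finset.mul_sum]
  symm
  rw [← Finset.sum_subset (Finset.subset_univ S)]
  · refine Finset.sum_congr rfl fun z hz => ?_
    have hz1 : IsSec col z := ((hS z).1 hz).1
    have hz2 : ∀ j, col (z j) = j := hz1
    rw [if_pos hz2, integral_face hz1 (hez z hz) hlam hμ hφ]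
    ring
  · intro z _ hz
    split_ifs with h
    · have hempty : fc row (fun i => lam i * G i) z = ∅ := by
        by_contra hne
        rw [← ne_eq, ← Set.nonempty_iff_ne_empty] at hne
        exact hz ((hS z).2 ⟨h, exists_isFill hrow (fun i => mul_pos (hlam i) (hG i)) hne⟩)
      rw [hempty]
      simp
    · rfl

/-- The normalised measure. -/
private theorem integral_nrm {μ : Measure (Ω → ℝ)} (hp : IsProbabilityMeasure (nrm μ)) :
    IsFiniteMeasure μ ∧ 0 < ∫ _, (1 : ℝ) ∂μ ∧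
      ∀ φ : (Ω → ℝ) → ℝ, ∫ x, φ x ∂(nrm μ) = (∫ x, φ x ∂μ) / ∫ _, (1 : ℝ) ∂μ := by
  have h1 : (nrm μ) Set.univ = 1 := hp.measure_univ
  rw [nrm, Measure.smul_apply, smul_eq_mul] at h1
  have h2 : μ Set.univ ≠ ∞ := by
    intro h
    rw [h] at h1
    simp at h1
  have h3 : μ Set.univ ≠ 0 := by
    intro h
    rw [h] at h1
    simp at h1
  have h4 : ∫ _, (1 : ℝ) ∂μ = (μ Set.univ).toReal := by
    rw [integral_const, smul_eq_mul, mul_one]
    rfl
  refine ⟨⟨lt_top_iff_ne_top.2 h2⟩, ?_, fun φ => ?_⟩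
  · rw [h4]
    exact ENNReal.toReal_pos h3 h2
  · rw [h4, nrm, integral_smul_measure, ENNReal.toReal_inv, smul_eq_mul, div_eq_inv_mul]

/-- The quotient of two sums over the faces. -/
private theorem quot_sum (hrow : ∀ i, ∃ k, row k = i) (hG : ∀ i, 0 < G i)
    {C : (κ → Ω) → (σ → Ω) → ℝ≥0∞} {lam : σ → ℝ} (hlam : ∀ i, 0 < lam i)
    {μ : Measure (Ω → ℝ)} (hp : IsProbabilityMeasure (nrm μ))
    (hμ : IsFlat row col C (fun i => lam i * G i) μ)
    {S : Finset (κ → Ω)} (hS : ∀ z, z ∈ S ↔ IsSec col z ∧ ∃ e', IsFill row z e')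
    {ez : (κ → Ω) → σ → Ω} (hez : ∀ z ∈ S, IsFill row z (ez z)) :
    0 < ∑ z ∈ S, wt row lam z * (C z (ez z)).toReal * fint row z (ez z) G lam (fun _ => 1) ∧
    ∀ {φ : (Ω → ℝ) → ℝ}, Continuous φ → (∃ B, ∀ x, |φ x| ≤ B) →
    ∫ s, φ s ∂(nrm μ) =
      (∑ z ∈ S, wt row lam z * (C z (ez z)).toReal * fint row z (ez z) G lam φ) /
      ∑ z ∈ S, wt row lam z * (C z (ez z)).toReal * fint row z (ez z) G lam (fun _ => 1) := by
  obtain ⟨hfin, hpos, hint⟩ := integral_nrm hp
  have hD : 0 < (∏ k, lam (row k)) * ∏ i, (lam i)⁻¹ :=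
    mul_pos (Finset.prod_pos fun k _ => hlam _) (Finset.prod_pos fun i _ => inv_pos.2 (hlam i))
  have h1 := face_sum (φ := fun _ => (1 : ℝ)) hrow hG hlam hμ hS hez continuous_const
    ⟨1, fun x => by simp⟩
  constructor
  · rw [h1] at hpos
    exact (pos_iff_pos_of_mul_pos hpos).1 hD
  · intro φ hφ hb
    rw [hint φ, h1, face_sum hrow hG hlam hμ hS hez hφ hb, mul_div_mul_left _ _ hD.ne']

private theorem wt_pos {lam : σ → ℝ} (hlam : ∀ i, 0 < lam i) (z : κ → Ω) :
    0 < wt row lam z :=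
  Finset.prod_pos fun _ _ => inv_pos.2 (hlam _)

private theorem fint_one_nonneg (z : κ → Ω) (e' : σ → Ω) (lam : σ → ℝ) :
    0 ≤ fint row z e' G lam (fun _ => 1) :=
  integral_nonneg fun _ => zero_le_one

/-- The convergence of a quotient of two sums with weights. -/
private theorem tendsto_quot {ι : Type} {S : Finset ι} {w F P : ι → ℕ → ℝ} {f p : ι → ℝ}
    {L : ℝ} (hw : ∀ z ∈ S, ∀ n, 0 < w z n) (hP : ∀ z ∈ S, ∀ n, 0 ≤ P z n)
    (hf : ∀ z ∈ S, Tendsto (F z) atTop (𝓝 (f z)))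
    (hp : ∀ z ∈ S, Tendsto (P z) atTop (𝓝 (p z))) (hD : ∀ n, 0 < ∑ z ∈ S, w z n * P z n)
    (h : ∀ z ∈ S, (f z = L * p z ∧ 0 < p z) ∨
      ∃ z₁ ∈ S, 0 < p z₁ ∧ Tendsto (fun n => w z n / w z₁ n) atTop (𝓝 0)) :
    Tendsto (fun n => (∑ z ∈ S, w z n * F z n) / ∑ z ∈ S, w z n * P z n) atTop (𝓝 L) := by
  -- the quotient of a weight and the denominator is bounded
  have hbd : ∀ z ∈ S, 0 < p z → ∃ K : ℝ, ∀ᶠ n in atTop,
      |w z n / ∑ z ∈ S, w z n * P z n| ≤ K := by
    intro z hz hpz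
    refine ⟨(p z / 2)⁻¹, ?_⟩
    have h1 : ∀ᶠ n in atTop, p z / 2 < P z n :=
      (hp z hz).eventually_const_lt (by linarith)
    filter_upwards [h1] with n hn
    have h2 : 0 < w z n := hw z hz n
    rw [abs_of_nonneg (div_nonneg h2.le (hD n).le), div_le_iff₀ (hD n)]
    have h3 : w z n * P z n ≤ ∑ z ∈ S, w z n * P z n :=
      Finset.single_le_sum (f := fun z => w z n * P z n)
        (fun y hy => mul_nonneg (hw y hy n).le (hP y hy n)) hz
    have h4 : w z n * (p z / 2) ≤ ∑ z ∈ S, w z n * P z n :=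
      (mul_le_mul_of_nonneg_left hn.le h2.le).trans h3
    have h5 : 0 < p z / 2 := by linarith
    calc w z n = (p z / 2)⁻¹ * (w z n * (p z / 2)) := by field_simp
      _ ≤ (p z / 2)⁻¹ * ∑ z ∈ S, w z n * P z n :=
        mul_le_mul_of_nonneg_left h4 (inv_pos.2 h5).le
  have hterm : ∀ z ∈ S, Tendsto
      (fun n => (w z n / ∑ z ∈ S, w z n * P z n) * (F z n - L * P z n)) atTop (𝓝 0) := by
    intro z hz
    have hlim : Tendsto (fun n => F z n - L * P z n) atTop (𝓝 (f z - L * p z)) :=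
      (hf z hz).sub ((hp z hz).const_mul L)
    rcases h z hz with ⟨h1, h2⟩ | ⟨z₁, hz₁, h2, h3⟩
    · rw [h1, sub_self] at hlim
      obtain ⟨K, hK⟩ := hbd z hz h2
      exact bdd_le_mul_tendsto_zero' K hK hlim
    · obtain ⟨K, hK⟩ := hbd z₁ hz₁ h2
      have h4 : Tendsto (fun n => (w z₁ n / ∑ z ∈ S, w z n * P z n) * (w z n / w z₁ n)) atTop
          (𝓝 0) := bdd_le_mul_tendsto_zero' K hK h3
      have h5 : (fun n => w z n / ∑ z ∈ S, w z n * P z n) =
          fun n => (w z₁ n / ∑ z ∈ S, w z n * P z n) * (w z n / w z₁ n) := by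
        funext n
        have := (hw z₁ hz₁ n).ne'
        field_simp
      rw [← h5] at h4
      have h6 := h4.mul hlim
      rwa [zero_mul] at h6
  have hsum := tendsto_finsetSum S hterm
  rw [Finset.sum_const_zero] at hsum
  have h7 : (fun n => (∑ z ∈ S, w z n * F z n) / ∑ z ∈ S, w z n * P z n) =
      fun n => (∑ z ∈ S, (w z n / ∑ z ∈ S, w z n * P z n) * (F z n - L * P z n)) + L := by
    funext n
    have hne := (hD n).ne'
    rw [eq_comm, ← eq_sub_iff_add_eq, eq_sub_iff_add_eq, eq_div_iff hne, add_mul,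
      Finset.sum_mul]
    have h8 : ∀ z ∈ S, (w z n / ∑ z ∈ S, w z n * P z n) * (F z n - L * P z n) *
        (∑ z ∈ S, w z n * P z n) = w z n * F z n - L * (w z n * P z n) := by
      intro z _
      field_simp
    rw [Finset.sum_congr rfl h8, Finset.sum_sub_distrib, ← Finset.mul_sum]
    ring
  rw [h7]
  simpa using hsum.add_const L

/-- The sections with fill coordinates. -/
private theorem exists_S (row : Ω → σ) (col : Ω → κ) : ∃ S : Finset (κ → Ω),
    ∀ z, z ∈ S ↔ IsSec col z ∧ ∃ e', IsFill row z e' := by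
  classical
  exact ⟨Finset.univ.filter fun z => IsSec col z ∧ ∃ e', IsFill row z e', fun z => by simp⟩

theorem tendsto_macro (hrow : ∀ i, ∃ k, row k = i) (hth : IsThick row col M)
    (he : ∀ i, row (e i) = i) (hG : ∀ i, 0 < G i) {C : (κ → Ω) → (σ → Ω) → ℝ≥0∞}
    (hC : IsCst row col C) {lam : ℕ → σ → ℝ} (hlam : ∀ n i, 0 < lam n i)
    (hlam0 : ∀ i, Tendsto (fun n => lam n i) atTop (𝓝 (lamM M i)))
    {μ : ℕ → Measure (Ω → ℝ)} (hμ : ∀ n, IsFlat row col C (fun i => lam n i * G i) (μ n))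
    (hp : ∀ n, IsProbabilityMeasure (nrm (μ n))) {φ : (Ω → ℝ) → ℝ} (hφ : Continuous φ)
    (hb : ∃ B, ∀ x, |φ x| ≤ B) :
    Tendsto (fun n => ∫ x, φ x ∂(nrm (μ n))) atTop (𝓝 (∫ x, φ x ∂(unif row M e G))) := by
  obtain ⟨S, hS⟩ := exists_S row col
  -- the choice of the fill coordinates
  have hch : ∀ z : κ → Ω, ∃ e' : σ → Ω, z ∈ S →
      IsFill row z e' ∧ ((∀ j, row (z j) ∉ M) → ∀ i ∈ M, e' i = e i) := by
    intro z
    by_cases hz : z ∈ S
    · obtain ⟨h1, h2⟩ := (hS z).1 hz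
      by_cases h3 : ∀ j, row (z j) ∉ M
      · obtain ⟨e', h4, h5⟩ := exists_fill_eq h3 he h2
        exact ⟨e', fun _ => ⟨h4, fun _ => h5⟩⟩
      · obtain ⟨e', h4⟩ := h2
        exact ⟨e', fun _ => ⟨h4, fun h5 => absurd h5 h3⟩⟩
    · exact ⟨e, fun h => absurd h hz⟩
  choose ez hez using hch
  have hez1 : ∀ z ∈ S, IsFill row z (ez z) := fun z hz => (hez z hz).1
  have hq := fun n => quot_sum hrow hG (hlam n) (hp n) (hμ n) hS hez1
  have hunif : IsProbabilityMeasure (unif row M e G) := isProbabilityMeasure_unif hG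
  have heq : (fun n => ∫ x, φ x ∂(nrm (μ n))) = fun n =>
      (∑ z ∈ S, wt row (lam n) z * (C z (ez z)).toReal * fint row z (ez z) G (lam n) φ) /
      ∑ z ∈ S, wt row (lam n) z * (C z (ez z)).toReal *
        fint row z (ez z) G (lam n) (fun _ => 1) :=
    funext fun n => (hq n).2 hφ hb
  rw [heq]
  have hCpos : ∀ z ∈ S, 0 < (C z (ez z)).toReal := by
    intro z hz
    obtain ⟨h1, h2⟩ := hC z (ez z) ((hS z).1 hz).1 (hez1 z hz)
    exact ENNReal.toReal_pos h1 h2
  have hone : ∃ B : ℝ, ∀ x : Ω → ℝ, |(fun _ : Ω → ℝ => (1 : ℝ)) x| ≤ B := ⟨1, fun x => by simp⟩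
  -- the faces without macro zeros
  have hA : ∀ z ∈ S, (∀ j, row (z j) ∉ M) →
      fint row z (ez z) G (lamM M) φ = (∫ x, φ x ∂(unif row M e G)) *
        fint row z (ez z) G (lamM M) (fun _ => 1) ∧
      0 < fint row z (ez z) G (lamM M) (fun _ => 1) := by
    intro z hz hzM
    obtain ⟨V, hV, h1⟩ := fint_zero hG ((hS z).1 hz).1 hzM (hez1 z hz) ((hez z hz).2 hzM)
    have h2 : fint row z (ez z) G (lamM M) (fun _ => 1) = V := by
      rw [h1 (fun _ => 1) continuous_const hone]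
      simp
    rw [h2, h1 φ hφ hb]
    exact ⟨mul_comm _ _, hV⟩
  refine tendsto_quot (w := fun z n => wt row (lam n) z * (C z (ez z)).toReal)
    (F := fun z n => fint row z (ez z) G (lam n) φ)
    (P := fun z n => fint row z (ez z) G (lam n) (fun _ => 1))
    (f := fun z => fint row z (ez z) G (lamM M) φ)
    (p := fun z => fint row z (ez z) G (lamM M) (fun _ => 1))
    (fun z hz n => mul_pos (wt_pos (hlam n) z) (hCpos z hz))
    (fun z _ n => fint_one_nonneg z (ez z) (lam n))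
    (fun z hz => tendsto_fint (hez1 z hz) hG hφ hb hlam0)
    (fun z hz => tendsto_fint (hez1 z hz) hG continuous_const hone hlam0)
    (fun n => (hq n).1) ?_
  intro z hz
  by_cases hzM : ∀ j, row (z j) ∉ M
  · exact Or.inl (hA z hz hzM)
  · right
    obtain ⟨z₁, e₁, hz₁, hz₁M, he₁, hzz⟩ := exists_micro hth ((hS z).1 hz).1 (hez1 z hz)
    have hz₁S : z₁ ∈ S := (hS z₁).2 ⟨hz₁, e₁, he₁⟩
    refine ⟨z₁, hz₁S, (hA z₁ hz₁S hz₁M).2, ?_⟩
    push Not at hzM
    obtain ⟨j₀, hj₀⟩ := hzM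
    -- the quotient of the weights
    have hfac : ∀ j, Tendsto (fun n => (lam n (row (z j)))⁻¹ / (lam n (row (z₁ j)))⁻¹) atTop
        (𝓝 (if row (z j) ∈ M then 0 else 1)) := by
      intro j
      split_ifs with hj
      · have h1 := hlam0 (row (z j))
        have h2 := hlam0 (row (z₁ j))
        rw [lamM, if_pos hj] at h1
        rw [lamM, if_neg (hz₁M j)] at h2
        have h3 := (h1.inv₀ one_ne_zero).mul h2
        simpa only [div_inv_eq_mul, inv_one, one_mul] using h3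
      · rw [hzz j hj]
        refine tendsto_const_nhds.congr fun n => ?_
        rw [div_self (inv_ne_zero (hlam n _).ne')]
    have hprod : Tendsto (fun n => wt row (lam n) z / wt row (lam n) z₁) atTop (𝓝 0) := by
      have h1 := tendsto_finsetProd Finset.univ fun j (_ : j ∈ Finset.univ) => hfac j
      have h2 : (∏ j : κ, if row (z j) ∈ M then (0 : ℝ) else 1) = 0 :=
        Finset.prod_eq_zero (Finset.mem_univ j₀) (by simp [hj₀])
      rw [h2] at h1
      refine h1.congr fun n => ?_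
      rw [Finset.prod_div_distrib]
      rfl
    have h3 := hprod.mul_const ((C z (ez z)).toReal / (C z₁ (ez z₁)).toReal)
    rw [zero_mul] at h3
    refine h3.congr fun n => ?_
    rw [mul_div_mul_comm]

/-- The case of positive limits. -/
theorem tendsto_flat (hrow : ∀ i, ∃ k, row k = i) (hG : ∀ i, 0 < G i)
    {C : (κ → Ω) → (σ → Ω) → ℝ≥0∞} (hC : IsCst row col C) {lam : ℕ → σ → ℝ}
    (hlam : ∀ n i, 0 < lam n i) (hlam0 : ∀ i, Tendsto (fun n => lam n i) atTop (𝓝 1))
    {μ : ℕ → Measure (Ω → ℝ)} (hμ : ∀ n, IsFlat row col C (fun i => lam n i * G i) (μ n))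
    (hp : ∀ n, IsProbabilityMeasure (nrm (μ n))) {μ₀ : Measure (Ω → ℝ)}
    (hμ₀ : IsFlat row col C G μ₀) (hp₀ : IsProbabilityMeasure (nrm μ₀)) {φ : (Ω → ℝ) → ℝ}
    (hφ : Continuous φ) (hb : ∃ B, ∀ x, |φ x| ≤ B) :
    Tendsto (fun n => ∫ x, φ x ∂(nrm (μ n))) atTop (𝓝 (∫ x, φ x ∂(nrm μ₀))) := by
  obtain ⟨S, hS⟩ := exists_S row col
  have hch : ∀ z : κ → Ω, ∃ e' : σ → Ω, z ∈ S → IsFill row z e' := by
    intro z
    by_cases hz : z ∈ S
    · obtain ⟨_, e', h4⟩ := (hS z).1 hz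
      exact ⟨e', fun _ => h4⟩
    · exact ⟨fun i => (hrow i).choose, fun h => absurd h hz⟩
  choose ez hez using hch
  have hμ₁ : IsFlat row col C (fun i => (fun _ : σ => (1 : ℝ)) i * G i) μ₀ := by
    simpa only [one_mul] using hμ₀
  have hq := fun n => quot_sum hrow hG (hlam n) (hp n) (hμ n) hS hez
  have hq₀ := quot_sum hrow hG (lam := fun _ => (1 : ℝ)) (fun _ => one_pos) hp₀ hμ₁ hS hez
  have heq : (fun n => ∫ x, φ x ∂(nrm (μ n))) = fun n =>
      (∑ z ∈ S, wt row (lam n) z * (C z (ez z)).toReal * fint row z (ez z) G (lam n) φ) /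
      ∑ z ∈ S, wt row (lam n) z * (C z (ez z)).toReal *
        fint row z (ez z) G (lam n) (fun _ => 1) :=
    funext fun n => (hq n).2 hφ hb
  rw [heq, hq₀.2 hφ hb]
  have hone : ∃ B : ℝ, ∀ x : Ω → ℝ, |(fun _ : Ω → ℝ => (1 : ℝ)) x| ≤ B := ⟨1, fun x => by simp⟩
  have hwt : ∀ z : κ → Ω, Tendsto (fun n => wt row (lam n) z) atTop
      (𝓝 (wt row (fun _ => (1 : ℝ)) z)) := by
    intro z
    exact tendsto_finsetProd Finset.univ fun j _ => (hlam0 (row (z j))).inv₀ one_ne_zero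
  have hsum : ∀ {ψ : (Ω → ℝ) → ℝ}, Continuous ψ → (∃ B, ∀ x, |ψ x| ≤ B) →
      Tendsto (fun n => ∑ z ∈ S, wt row (lam n) z * (C z (ez z)).toReal *
        fint row z (ez z) G (lam n) ψ) atTop
        (𝓝 (∑ z ∈ S, wt row (fun _ => (1 : ℝ)) z * (C z (ez z)).toReal *
          fint row z (ez z) G (fun _ => (1 : ℝ)) ψ)) := by
    intro ψ hψ hbψ
    exact tendsto_finsetSum S fun z hz =>
      ((hwt z).mul_const _).mul (tendsto_fint (hez z hz) hG hψ hbψ hlam0)
  exact (hsum hφ hb).div (hsum continuous_const hone) hq₀.1.ne'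

end Pool.Agent.H99.PI
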