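import Pool.Agent.H99.ON.PDefs
import Pool.Agent.H99.PI.ADefs

/-!
# Complete intersections in products of projective spaces: definitions

The factors are indexed by `σ`; `f : ι → σ` is surjective and the factor `i` has the dimension
`card (f ⁻¹ i)`. The homogeneous coordinates are indexed by `ι ⊕ σ`, `fac f` gives their factor and
`part` their part (the equation); `cdeg f part i j` is the degree of the equation `j` in the factor `i`.
-/

set_option linter.unusedSectionVars false

open MeasureTheory Matrix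
open scoped ENNReal

namespace Pool.Agent.H99.PI

open Pool.Agent.H99.SYZ Pool.Agent.H55.CI Pool.Agent.H2.CI Pool.Agent.H99.ON

variable {ι σ κ : Type} [Fintype ι] [Fintype σ] [Fintype κ] [DecidableEq ι] [DecidableEq σ]
  [DecidableEq κ]

/-- The degree of the equation `j` in the factor `i`: the number of the coordinates of the factor `i`
in the part `j`. -/
def cdeg (f : ι → σ) (part : ι ⊕ σ → κ) (i : σ) (j : κ) : ℕ :=
  (Finset.univ.filter fun k => fac f k = i ∧ part k = j).card

/-- The rays of the part `j`. -/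
def cQ (f : ι → σ) (part : ι ⊕ σ → κ) : κ → Set (ι → ℝ) := fun j =>
  {q | ∃ k, part k = j ∧ q = pray f k}

/-- (Minus) the exponent of the Laurent monomial `(∏ i, x_{y i} ^ cdeg i j) / x^{part j}`. -/
def cver (f : ι → σ) (part : ι ⊕ σ → κ) (j : κ) (y : σ → ι ⊕ σ) : ι → ℝ := fun x =>
  (if part (Sum.inl x) = j then 1 else 0) -
    (cdeg f part (f x) j : ℝ) * (if Sum.inl x = y (f x) then 1 else 0)

/-- The products of powers of the equation `j`, without the product of the coordinates of the part
`j`. -/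
def cP (f : ι → σ) (part : ι ⊕ σ → κ) : κ → Set (ι → ℝ) := fun j =>
  {p | p ≠ 0 ∧ ∃ y : σ → ι ⊕ σ, (∀ i, fac f (y i) = i) ∧ p = cver f part j y}

/-- `p` is (minus) the exponent of the Laurent monomial `x ^ u / x^{part j}` of degree `0`. -/
structure IsCExp (f : ι → σ) (part : ι ⊕ σ → κ) (j : κ) (u : ι ⊕ σ → ℕ) (p : ι → ℝ) :
    Prop where
  degree : ∀ i, (∑ k, if fac f k = i then u k else 0) = cdeg f part i j
  dot : ∀ k, p ⬝ᵥ pray f k = (if part k = j then 1 else 0) - (u k : ℝ)

/-- All monomials of the equation `j`, without the product of the coordinates of the part `j`. -/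
def cfull (f : ι → σ) (part : ι ⊕ σ → κ) (j : κ) : Set (ι → ℝ) :=
  {p | p ≠ 0 ∧ ∃ u, IsCExp f part j u p}

/-- Further monomials, with heights which are at least an average of the heights of products of
powers. -/
structure IsHigher (P₀ P : κ → Set (ι → ℝ)) (h : (ι → ℝ) → ℝ) : Prop where
  sub : ∀ j, P₀ j ⊆ P j
  hull : ∀ j, ∀ p ∈ P j, ∃ (S : Finset (ι → ℝ)) (b : (ι → ℝ) → ℝ), ↑S ⊆ P₀ j ∧
    (∀ x ∈ S, 0 < b x) ∧ ∑ x ∈ S, b x = 1 ∧ ∑ x ∈ S, b x • x = p ∧ ∑ x ∈ S, b x * h x ≤ h p

/-- The sums of the heights of the rays of the factors. -/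
def gsum (f : ι → σ) (g : (ι → ℝ) → ℝ) (i : σ) : ℝ :=
  ∑ k, if fac f k = i then g (pray f k) else 0

/-- The differences of the inequalities of the rays. -/
def smap (f : ι → σ) (g : (ι → ℝ) → ℝ) (m : ι → ℝ) : ι ⊕ σ → ℝ := fun k =>
  g (pray f k) - m ⬝ᵥ pray f k

/-- The homogeneous coordinates of `n` with minimum `0` over every factor. -/
noncomputable def thom (f : ι → σ) (n : ι → ℝ) (k : ι ⊕ σ) : ℝ :=
  (Finset.univ.filter fun l => fac f l = fac f k).sup' ⟨k, by simp⟩
    fun l => (Sum.elim n 0 : ι ⊕ σ → ℝ) k - (Sum.elim n 0 : ι ⊕ σ → ℝ) l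

/-- Every column contains two coordinates, or more generally there are sections which cover no
factor. -/
def HasSec (f : ι → σ) (part : ι ⊕ σ → κ) : Prop :=
  ∃ (z : κ → ι ⊕ σ) (e : σ → ι ⊕ σ), IsSec part z ∧ IsFill (fac f) z e

/-- Regular degree matrices. -/
def IsReg (D : σ → κ → ℕ) : Prop :=
  ∀ (z : κ → σ) (e : κ → κ → Bool), (∀ j j', e j j' = true → 2 ≤ D (z j') j') →
    (∀ j j' j'', e j j' = true → e j j'' = true → z j' = z j'' → j' = j'') →
    (Matrix.of fun j j' => (if j = j' then 1 else 0) - (if e j j' = true then (D (z j') j : ℝ)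
      else 0)).det ≠ 0

end Pool.Agent.H99.PI
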