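import Pool.Agent.H99.PI.BVec

/-!
# Homogeneous coordinates

`thom f n` is the unique `t : ι ⊕ σ → ℝ` with `t ≥ 0`, a zero in every factor, and
`n = ∑ k, t k • pray f k` (`IsPHom`, `Pool.Agent.H99.ON.PDefs`).
-/

set_option linter.unusedSectionVars false

open MeasureTheory Matrix
open scoped ENNReal

namespace Pool.Agent.H99.PI

open Pool.Agent.H99.SYZ Pool.Agent.H55.CI Pool.Agent.H2.CI Pool.Agent.H99.ON

variable {ι σ κ : Type} [Fintype ι] [Fintype σ] [Fintype κ] [DecidableEq ι] [DecidableEq σ]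
  [DecidableEq κ] {f : ι → σ} {part : ι ⊕ σ → κ} {P : κ → Set (ι → ℝ)} {g h : (ι → ℝ) → ℝ}

private theorem BHom_diff {n : ι → ℝ} {t : ι ⊕ σ → ℝ} (H : IsPHom f n t) (k : ι ⊕ σ) :
    (Sum.elim n 0 : ι ⊕ σ → ℝ) k = t k - t (Sum.inr (fac f k)) := by
  cases k with
  | inr i =>
    show (0 : ℝ) = t (Sum.inr i) - t (Sum.inr i)
    ring
  | inl x =>
    show n x = t (Sum.inl x) - t (Sum.inr (f x))
    conv_lhs => rw [H.eq]
    rw [Finset.sum_apply, Fintype.sum_sum_type]
    simp only [Pi.smul_apply, smul_eq_mul, pray]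
    have h1 : ∀ y : ι, t (Sum.inl y) * (Pi.single y (1 : ℝ) : ι → ℝ) x =
        if y = x then t (Sum.inl x) else 0 := by
      intro y
      by_cases hy : y = x
      · subst hy; simp
      · rw [Pi.single_eq_of_ne (Ne.symm hy)]; simp [hy]
    have h2 : ∀ i : σ, t (Sum.inr i) * (if f x = i then (-1 : ℝ) else 0) =
        if f x = i then -t (Sum.inr (f x)) else 0 := by
      intro i
      by_cases hi : f x = i
      · subst hi; simp
      · simp [hi]
    rw [Finset.sum_congr rfl fun y _ => h1 y, Finset.sum_congr rfl fun i _ => h2 i,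
      Finset.sum_ite_eq' Finset.univ x, Finset.sum_ite_eq Finset.univ (f x)]
    simp
    ring

private theorem BHom_unique {n : ι → ℝ} {t : ι ⊕ σ → ℝ} (H : IsPHom f n t) : thom f n = t := by
  funext k
  unfold thom
  have hd : ∀ l, fac f l = fac f k → (Sum.elim n 0 : ι ⊕ σ → ℝ) k -
      (Sum.elim n 0 : ι ⊕ σ → ℝ) l = t k - t l := by
    intro l hl
    rw [BHom_diff H k, BHom_diff H l, hl]
    ring
  apply le_antisymm
  · refine Finset.sup'_le _ _ fun l hl => ?_
    have hl' := (Finset.mem_filter.1 hl).2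
    show (Sum.elim n 0 : ι ⊕ σ → ℝ) k - (Sum.elim n 0 : ι ⊕ σ → ℝ) l ≤ t k
    rw [hd l hl']
    have := H.nonneg l
    linarith
  · obtain ⟨l, hl, h0⟩ := H.zero (fac f k)
    have hm : l ∈ Finset.univ.filter fun l => fac f l = fac f k :=
      Finset.mem_filter.2 ⟨Finset.mem_univ _, hl⟩
    refine le_trans ?_ (Finset.le_sup' (fun l => (Sum.elim n 0 : ι ⊕ σ → ℝ) k -
      (Sum.elim n 0 : ι ⊕ σ → ℝ) l) hm)
    show t k ≤ (Sum.elim n 0 : ι ⊕ σ → ℝ) k - (Sum.elim n 0 : ι ⊕ σ → ℝ) l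
    rw [hd l hl, h0]
    linarith

theorem isPHom_thom (f : ι → σ) (n : ι → ℝ) : IsPHom f n (thom f n) := by
  obtain ⟨a, ha⟩ := exists_isPHom f n
  rw [BHom_unique ha]
  exact ha

theorem thom_unique {n : ι → ℝ} {t : ι ⊕ σ → ℝ} (H : IsPHom f n t) : thom f n = t :=
  BHom_unique H

theorem continuous_thom (f : ι → σ) : Continuous (thom f) := by
  refine continuous_pi fun k => ?_
  have he : ∀ l : ι ⊕ σ, Continuous fun n : ι → ℝ => (Sum.elim n 0 : ι ⊕ σ → ℝ) l := by
    intro l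
    cases l with
    | inl x => exact continuous_apply x
    | inr i => exact continuous_const
  unfold thom
  exact Continuous.finset_sup'_apply _ fun l _ => (he k).sub (he l)

theorem continuous_smap (f : ι → σ) (g : (ι → ℝ) → ℝ) : Continuous (smap f g) := by
  refine continuous_pi fun k => ?_
  unfold smap
  exact continuous_const.sub (continuous_id.dotProduct continuous_const)

theorem rsum_smap (f : ι → σ) (g : (ι → ℝ) → ℝ) (m : ι → ℝ) (i : σ) :
    rsum (fac f) i (smap f g m) = gsum f g i := by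
  have h1 := sum_dot_pray f m i
  have h2 : rsum (fac f) i (smap f g m) = gsum f g i -
      ∑ k, if fac f k = i then m ⬝ᵥ pray f k else 0 := by
    unfold rsum gsum smap
    rw [← Finset.sum_sub_distrib]
    refine Finset.sum_congr rfl fun k _ => ?_
    split_ifs
    · rfl
    · ring
  rw [h2, h1, sub_zero]

/-- Every point with the right sums over the factors is in the image. -/
theorem exists_smap (f : ι → σ) (g : (ι → ℝ) → ℝ) {s : ι ⊕ σ → ℝ}
    (hs : ∀ i, rsum (fac f) i s = gsum f g i) : ∃ m, smap f g m = s := by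
  obtain ⟨m, hm⟩ := exists_dot_pray (f := f) (b := fun k => g (pray f k) - s k) (by
    intro i
    have h1 := hs i
    unfold rsum gsum at h1
    have h2 : (∑ k, if fac f k = i then g (pray f k) - s k else 0) =
        (∑ k, if fac f k = i then g (pray f k) else 0) -
          ∑ k, if fac f k = i then s k else 0 := by
      rw [← Finset.sum_sub_distrib]
      refine Finset.sum_congr rfl fun k _ => ?_
      split_ifs
      · rfl
      · ring
    rw [h2, h1, sub_self])
  refine ⟨m, ?_⟩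
  funext k
  unfold smap
  rw [hm k]
  ring

/-- The cost in the new coordinates. -/
theorem dot_smap_thom (f : ι → σ) (g : (ι → ℝ) → ℝ) (m n : ι → ℝ) :
    m ⬝ᵥ n = (∑ k, g (pray f k) * thom f n k) - ∑ k, smap f g m k * thom f n k := by
  have h1 := (isPHom_thom f n).eq
  have h2 : m ⬝ᵥ n = ∑ k, (m ⬝ᵥ pray f k) * thom f n k := by
    conv_lhs => rw [h1]
    rw [dotProduct_sum]
    refine Finset.sum_congr rfl fun k _ => ?_
    rw [dotProduct_smul, smul_eq_mul, mul_comm]
  rw [h2, ← Finset.sum_sub_distrib]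
  refine Finset.sum_congr rfl fun k _ => ?_
  unfold smap
  ring

private theorem BHom_st (f : ι → σ) (g : (ι → ℝ) → ℝ) (m n : ι → ℝ) :
    smap f g m ⬝ᵥ thom f n = (∑ k, g (pray f k) * thom f n k) - m ⬝ᵥ n := by
  have h := dot_smap_thom f g m n
  have h1 : smap f g m ⬝ᵥ thom f n = ∑ k, smap f g m k * thom f n k := rfl
  rw [h1]
  linarith

/-- Hence cyclically monotone sets are cyclically monotone in the new coordinates (the first term
telescopes). -/
theorem cycMono_smap {Γ : Set ((ι → ℝ) × (ι → ℝ))} (H : Pool.Agent.H2.MA.CycMono Γ) :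
    Pool.Agent.H2.MA.CycMono ((fun w => (smap f g w.1, -thom f w.2)) '' Γ) := by
  intro k z hz
  choose w hw hwz using hz
  have h1 : ∀ i, (z i).1 = smap f g (w i).1 := fun i => by rw [← hwz i]
  have h2 : ∀ i, (z i).2 = -thom f (w i).2 := fun i => by rw [← hwz i]
  have h3 := H k w hw
  have h4 : ∀ i j, (z i).1 ⬝ᵥ ((z j).2 - (z i).2) = (w i).1 ⬝ᵥ ((w j).2 - (w i).2) -
      ((∑ k, g (pray f k) * thom f (w j).2 k) - ∑ k, g (pray f k) * thom f (w i).2 k) := by
    intro i j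
    rw [h1, h2, h2, dotProduct_sub, dotProduct_neg, dotProduct_neg, BHom_st, BHom_st,
      dotProduct_sub]
    ring
  have h5 : ∑ i ∈ Finset.range k, (z i).1 ⬝ᵥ ((z (i + 1)).2 - (z i).2) =
      ∑ i ∈ Finset.range k, (w i).1 ⬝ᵥ ((w (i + 1)).2 - (w i).2) -
        ((∑ l, g (pray f l) * thom f (w k).2 l) - ∑ l, g (pray f l) * thom f (w 0).2 l) := by
    rw [← Finset.sum_range_sub (fun i => ∑ l, g (pray f l) * thom f (w i).2 l),
      ← Finset.sum_sub_distrib]
    exact Finset.sum_congr rfl fun i _ => h4 i (i + 1)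
  rw [h5, h4 k 0]
  linarith

private theorem BHom_swap {Γ : Set ((ι → ℝ) × (ι → ℝ))} (H : Pool.Agent.H2.MA.CycMono Γ)
    (k : ℕ) (w : ℕ → (ι → ℝ) × (ι → ℝ)) (hw : ∀ i, w i ∈ Γ) :
    ∑ i ∈ Finset.range k, (w i).2 ⬝ᵥ ((w (i + 1)).1 - (w i).1) +
      (w k).2 ⬝ᵥ ((w 0).1 - (w k).1) ≤ 0 := by
  have h3 := H k (fun i => w (k - i)) fun i => hw _
  simp only [Nat.sub_self, Nat.sub_zero] at h3
  have h4 : ∑ i ∈ Finset.range k, (w (k - i)).1 ⬝ᵥ ((w (k - (i + 1))).2 - (w (k - i)).2) =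
      ∑ i ∈ Finset.range k, (w (i + 1)).1 ⬝ᵥ ((w i).2 - (w (i + 1)).2) := by
    rw [← Finset.sum_range_reflect]
    refine Finset.sum_congr rfl fun i hi => ?_
    have hi' := Finset.mem_range.1 hi
    have e1 : k - (k - 1 - i) = i + 1 := by omega
    have e2 : k - (k - 1 - i + 1) = i := by omega
    rw [e1, e2]
  rw [h4] at h3
  have h5 : ∑ i ∈ Finset.range k, (w (i + 1)).1 ⬝ᵥ ((w i).2 - (w (i + 1)).2) =
      ∑ i ∈ Finset.range k, (w i).2 ⬝ᵥ ((w (i + 1)).1 - (w i).1) -
        ((w k).1 ⬝ᵥ (w k).2 - (w 0).1 ⬝ᵥ (w 0).2) := by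
    rw [← Finset.sum_range_sub (fun i => (w i).1 ⬝ᵥ (w i).2), ← Finset.sum_sub_distrib]
    refine Finset.sum_congr rfl fun i _ => ?_
    simp only [dotProduct_sub]
    rw [dotProduct_comm (w i).2, dotProduct_comm (w i).2]
    ring
  rw [h5] at h3
  have h6 : (w k).2 ⬝ᵥ ((w 0).1 - (w k).1) = (w 0).1 ⬝ᵥ (w k).2 - (w k).1 ⬝ᵥ (w k).2 := by
    rw [dotProduct_sub, dotProduct_comm, dotProduct_comm (w k).2]
  rw [dotProduct_sub] at h3
  rw [h6]
  linarith

/-- The same with the roles of the two sides exchanged (`cycMono_swap` in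
`Pool.Agent.H99.ON.BadSim`, and `(-t) ⬝ s = t ⬝ (-s)`). -/
theorem cycMono_thom {Γ : Set ((ι → ℝ) × (ι → ℝ))} (H : Pool.Agent.H2.MA.CycMono Γ) :
    Pool.Agent.H2.MA.CycMono ((fun w => (thom f w.2, -smap f g w.1)) '' Γ) := by
  intro k z hz
  choose w hw hwz using hz
  have h1 : ∀ i, (z i).1 = thom f (w i).2 := fun i => by rw [← hwz i]
  have h2 : ∀ i, (z i).2 = -smap f g (w i).1 := fun i => by rw [← hwz i]
  have h3 := BHom_swap H k w hw
  have h4 : ∀ i j, (z i).1 ⬝ᵥ ((z j).2 - (z i).2) = (w i).2 ⬝ᵥ ((w j).1 - (w i).1) := by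
    intro i j
    rw [h1, h2, h2, dotProduct_sub, dotProduct_neg, dotProduct_neg, dotProduct_sub,
      dotProduct_comm _ (smap f g (w j).1), dotProduct_comm _ (smap f g (w i).1), BHom_st,
      BHom_st, dotProduct_comm (w i).2, dotProduct_comm (w i).2]
    ring
  rw [Finset.sum_congr rfl fun i _ => h4 i (i + 1), h4 k 0]
  exact h3

end Pool.Agent.H99.PI
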