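import Pool.Agent.H55.CI.Eta
import Pool.Agent.H99.PI.ADefs

/-!
# The measure `eta` in affine coordinates

Let `c = dual q` (a dual family, as `q` is linearly independent). The affine map
`T (x, u) = a₀ + L x + ∑ u j • c j` of `(α → ℝ) × (κ → ℝ)` to `ι → ℝ` is bijective, its linear part does not
depend on `b` and `a₀`, so `volume.map T` is a constant multiple of `volume` (`Measure.map` of a product of
volumes under a linear equivalence is a Haar measure). `box q b` is the image of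
`{(x, u) | 0 ≤ u j < 1}`, a set `univ ×ˢ (unit box)`, and `proj q c b (T (x, u)) = a₀ + L x`.
-/

set_option linter.unusedSectionVars false

open MeasureTheory Matrix
open scoped ENNReal

namespace Pool.Agent.H99.PI

open Pool.Agent.H99.SYZ Pool.Agent.H55.CI

variable {ι κ : Type} [Fintype ι] [Fintype κ]

/-- the linear coordinates -/
private noncomputable def CEta_lin (c : κ → ι → ℝ) {α : Type} [Fintype α]
    (L : (α → ℝ) →ₗ[ℝ] (ι → ℝ)) : ((κ → ℝ) × (α → ℝ)) →ₗ[ℝ] (ι → ℝ) where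
  toFun w := comb c w.1 + L w.2
  map_add' v w := by
    rw [Prod.fst_add, Prod.snd_add, comb_add, map_add]
    abel
  map_smul' a w := by
    rw [Prod.smul_fst, Prod.smul_snd, comb_smul, map_smul, RingHom.id_apply, smul_add]

private theorem CEta_bij {q c : κ → ι → ℝ} (hc : IsDual q c) {α : Type} [Fintype α]
    (L : (α → ℝ) →ₗ[ℝ] (ι → ℝ)) (hL : Function.Injective L)
    (hr : ∀ x : ι → ℝ, (∀ j, x ⬝ᵥ q j = 0) ↔ ∃ y, L y = x) :
    Function.Bijective (CEta_lin c L) := by
  have h0 : ∀ y j, L y ⬝ᵥ q j = 0 := fun y j => (hr (L y)).2 ⟨y, rfl⟩ j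
  constructor
  · rw [← LinearMap.ker_eq_bot, Submodule.eq_bot_iff]
    rintro ⟨u, x⟩ h
    have h1 : comb c u + L x = 0 := LinearMap.mem_ker.1 h
    have h2 : u = 0 := by
      funext j
      have h3 := congrArg (fun v => v ⬝ᵥ q j) h1
      simp only [add_dotProduct, h0, add_zero, hc.comb_dot', zero_dotProduct] at h3
      exact h3
    subst h2
    rw [comb_zero, zero_add] at h1
    have h4 : x = 0 := hL (by rw [h1, map_zero])
    rw [h4]
    rfl
  · intro w
    have h1 : ∀ j, (w - comb c fun j => w ⬝ᵥ q j) ⬝ᵥ q j = 0 := by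
      intro j
      rw [sub_dotProduct, hc.comb_dot', sub_self]
    obtain ⟨x, hx⟩ := (hr _).1 h1
    refine ⟨(fun j => w ⬝ᵥ q j, x), ?_⟩
    show comb c (fun j => w ⬝ᵥ q j) + L x = w
    rw [hx]
    abel

theorem eta_param {q : κ → ι → ℝ} (hq : LinearIndependent ℝ q) {α : Type} [Fintype α]
    (L : (α → ℝ) →ₗ[ℝ] (ι → ℝ)) (hL : Function.Injective L)
    (hr : ∀ x : ι → ℝ, (∀ j, x ⬝ᵥ q j = 0) ↔ ∃ y, L y = x) :
    ∃ C : ℝ≥0∞, C ≠ 0 ∧ C ≠ ∞ ∧ ∀ (b : κ → ℝ) (a₀ : ι → ℝ), (∀ j, a₀ ⬝ᵥ q j = b j) →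
      eta q (dual q) b = C • volume.map fun x => a₀ + L x := by
  classical
  have hc := isDual_dual hq
  have h0 : ∀ y j, L y ⬝ᵥ q j = 0 := fun y j => (hr (L y)).2 ⟨y, rfl⟩ j
  let Φ : ((κ → ℝ) × (α → ℝ)) ≃L[ℝ] (ι → ℝ) :=
    (LinearEquiv.ofBijective (CEta_lin (dual q) L) (CEta_bij hc L hL hr)).toContinuousLinearEquiv
  have hΦ : ∀ w : (κ → ℝ) × (α → ℝ), Φ w = comb (dual q) w.1 + L w.2 := fun w => rfl
  have hv : (volume : Measure ((κ → ℝ) × (α → ℝ))).IsAddHaarMeasure :=
    Measure.prod.instIsAddHaarMeasure (volume : Measure (κ → ℝ)) (volume : Measure (α → ℝ))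
  have hHaar : ((volume : Measure ((κ → ℝ) × (α → ℝ))).map Φ).IsAddHaarMeasure :=
    Φ.isAddHaarMeasure_map _
  have hC := Measure.isAddLeftInvariant_eq_smul (volume : Measure (ι → ℝ))
    ((volume : Measure ((κ → ℝ) × (α → ℝ))).map Φ)
  have hpos := Measure.addHaarScalarFactor_pos_of_isAddHaarMeasure (volume : Measure (ι → ℝ))
    ((volume : Measure ((κ → ℝ) × (α → ℝ))).map Φ)
  generalize Measure.addHaarScalarFactor (volume : Measure (ι → ℝ))
    ((volume : Measure ((κ → ℝ) × (α → ℝ))).map Φ) = C at hC hpos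
  refine ⟨C, by exact_mod_cast hpos.ne', ENNReal.coe_ne_top, fun b a₀ ha => ?_⟩
  have hLm : Measurable fun x : α → ℝ => a₀ + L x :=
    (measurable_const_add a₀).comp L.continuous_of_finiteDimensional.measurable
  refine Measure.ext fun B hB => ?_
  have hS : MeasurableSet (box q b ∩ proj q (dual q) b ⁻¹' B) :=
    (measurableSet_box q b).inter ((continuous_proj q (dual q) b).measurable hB)
  rw [eta_apply q (dual q) b hB, Measure.smul_apply, Measure.map_apply hLm hB]
  have h1 : volume (box q b ∩ proj q (dual q) b ⁻¹' B) =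
      volume ((fun w => a₀ + w) ⁻¹' (box q b ∩ proj q (dual q) b ⁻¹' B)) :=
    (measure_preimage_add volume a₀ _).symm
  rw [h1, hC, Measure.smul_apply, Measure.map_apply Φ.continuous.measurable
    (measurable_const_add a₀ hS)]
  congr 1
  have h2 : Φ ⁻¹' ((fun w => a₀ + w) ⁻¹' (box q b ∩ proj q (dual q) b ⁻¹' B)) =
      (Set.univ.pi fun _ : κ => Set.Ico (0 : ℝ) 1) ×ˢ ((fun x : α → ℝ => a₀ + L x) ⁻¹' B) := by
    ext ⟨u, x⟩
    have h3 : ∀ j, (a₀ + (comb (dual q) u + L x)) ⬝ᵥ q j = b j + u j := by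
      intro j
      rw [add_dotProduct, add_dotProduct, ha, hc.comb_dot', h0, add_zero]
    have h4 : proj q (dual q) b (a₀ + (comb (dual q) u + L x)) = a₀ + L x := by
      unfold proj
      have h5 : (fun j => (a₀ + (comb (dual q) u + L x)) ⬝ᵥ q j - b j) = u := by
        funext j
        rw [h3]
        ring
      rw [h5]
      abel
    simp only [Set.mem_preimage, Set.mem_inter_iff, Set.mem_prod, Set.mem_univ_pi, Set.mem_Ico,
      hΦ, h4, box, Set.mem_ofPred_eq, h3]
    constructor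
    · rintro ⟨h6, h7⟩
      exact ⟨fun j => ⟨by linarith [(h6 j).1], by linarith [(h6 j).2]⟩, h7⟩
    · rintro ⟨h6, h7⟩
      exact ⟨fun j => ⟨by linarith [(h6 j).1], by linarith [(h6 j).2]⟩, h7⟩
  rw [h2, Measure.volume_eq_prod, Measure.prod_prod, Real.volume_pi_Ico]
  simp

end Pool.Agent.H99.PI
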