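import Pool.Agent.H99.PI.CEta
import Pool.Agent.H99.PI.CFace
import Pool.Agent.H99.PI.AFace

/-!
# The measure of the skeleton of the rays in the new coordinates

For a section `z` and fill coordinates `e`: the rays `pray (z j)` are linearly independent
(`pray_rel`: no factor is covered by the `z j`). Let `L x` be the `m` with
`m ⬝ pray k = -(fill (fac f) z e 0 x k)` for all `k` (`exists_dot_pray`, linear in `x`), `a₀` the `m` with
`smap f g m = fill (fac f) z e (gsum f g) 0` (`exists_smap`). Then
`smap f g (a₀ + L x) = fill (fac f) z e (gsum f g) x`, and `eta_param` gives the constant.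

`sk` is the sum over the tuples of the restrictions to the open faces; the tuples are the
`fun j => pray (z j)` (`pray_injective`), the image of the open face is in `fc z` and these sets are
disjoint (`fc_disjoint`); `smap f g` is an injective continuous affine map (`MeasurableEmbedding`).
-/

set_option linter.unusedSectionVars false

open MeasureTheory Matrix
open scoped ENNReal

namespace Pool.Agent.H99.PI

open Pool.Agent.H99.SYZ Pool.Agent.H55.CI Pool.Agent.H2.CI Pool.Agent.H99.ON

variable {ι σ κ : Type} [Fintype ι] [Fintype σ] [Fintype κ] [DecidableEq ι] [DecidableEq σ]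
  [DecidableEq κ] {f : ι → σ} {part : ι ⊕ σ → κ} {g h : (ι → ℝ) → ℝ} {c : κ → ℝ}

/-! ### the fill coordinates -/

section

variable {Ω τ : Type} [Fintype Ω] [DecidableEq Ω] [DecidableEq τ] {row : Ω → τ} {z : κ → Ω}
  {e : τ → Ω} {G : τ → ℝ}

private theorem cfs_free {x : Fr row z e → ℝ} {k : Ω} (h : (∀ j, k ≠ z j) ∧ k ≠ e (row k)) :
    fill row z e G x k = x ⟨k, h⟩ := by
  unfold fill
  rw [dif_pos h]

private theorem cfs_e {x : Fr row z e → ℝ} {k : Ω} (h : k = e (row k)) :
    fill row z e G x k =
      G (row k) - ∑ l : Fr row z e, (if row l.1 = row k then x l else 0) := by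
  unfold fill
  rw [dif_neg (fun h' => h'.2 h), if_pos h]

private theorem cfs_z (he : IsFill row z e) {x : Fr row z e → ℝ} (j : κ) :
    fill row z e G x (z j) = 0 := by
  unfold fill
  rw [dif_neg (fun h' => h'.1 j rfl), if_neg (fun h => he.2 _ _ h.symm)]

private theorem cfs_add (x : Fr row z e → ℝ) (k : Ω) :
    fill row z e G x k = fill row z e G 0 k + fill row z e 0 x k := by
  unfold fill
  by_cases h : (∀ j, k ≠ z j) ∧ k ≠ e (row k)
  · rw [dif_pos h, dif_pos h, dif_pos h]
    simp
  · rw [dif_neg h, dif_neg h, dif_neg h]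
    by_cases h' : k = e (row k)
    · rw [if_pos h', if_pos h', if_pos h']
      simp
      ring
    · rw [if_neg h', if_neg h', if_neg h', add_zero]

private theorem cfs_sum (he : IsFill row z e) (y : Ω → ℝ) (hy : ∀ j, y (z j) = 0) (i : τ) :
    rsum row i y = (∑ l : Fr row z e, (if row l.1 = i then y l.1 else 0)) + y (e i) := by
  have h1 : (∑ l : Fr row z e, (if row l.1 = i then y l.1 else 0)) =
      ∑ k ∈ Finset.univ.filter (fun k => (∀ j, k ≠ z j) ∧ k ≠ e (row k)),
        (if row k = i then y k else 0) := by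
    rw [Finset.sum_subtype (p := fun k => (∀ j, k ≠ z j) ∧ k ≠ e (row k))]
    intro k
    simp
  rw [h1, Finset.sum_filter]
  have h2 : y (e i) = ∑ k, if k = e i then y k else 0 := by
    rw [Finset.sum_ite_eq' Finset.univ (e i)]
    simp
  rw [h2, rsum, ← Finset.sum_add_distrib]
  refine Finset.sum_congr rfl fun k _ => ?_
  by_cases hk : row k = i
  · subst hk
    simp only [if_true]
    by_cases hk1 : k = e (row k)
    · rw [if_neg (fun h => h.2 hk1), if_pos hk1, zero_add]
    · rw [if_neg hk1, add_zero]
      by_cases hk2 : ∀ j, k ≠ z j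
      · rw [if_pos ⟨hk2, hk1⟩]
      · rw [if_neg (fun h => hk2 h.1)]
        push Not at hk2
        obtain ⟨j, rfl⟩ := hk2
        exact hy j
  · rw [if_neg hk, ite_self, zero_add, if_neg]
    rintro rfl
    exact hk (he.1 i)

private theorem cfs_rsum (he : IsFill row z e) (x : Fr row z e → ℝ) (i : τ) :
    rsum row i (fill row z e G x) = G i := by
  rw [cfs_sum he _ (fun j => cfs_z he j), cfs_e (by rw [he.1 i]), he.1 i]
  have h1 : ∀ l : Fr row z e, (if row l.1 = i then fill row z e G x l.1 else 0) =
      if row l.1 = i then x l else 0 := by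
    intro l
    rw [cfs_free l.2]
  rw [Finset.sum_congr rfl fun l _ => h1 l]
  ring

private theorem cfs_restrict (he : IsFill row z e) {s : Ω → ℝ} (hs : ∀ j, s (z j) = 0)
    (hr : ∀ i, rsum row i s = G i) : fill row z e G (fun k => s k.1) = s := by
  funext k
  by_cases h : (∀ j, k ≠ z j) ∧ k ≠ e (row k)
  · rw [cfs_free h]
  · by_cases h' : k = e (row k)
    · rw [cfs_e h', ← hr (row k), cfs_sum he s hs, ← h']
      ring
    · have h2 : ∃ j, k = z j := by
        by_contra hcon
        push Not at hcon
        exact h ⟨hcon, h'⟩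
      obtain ⟨j, rfl⟩ := h2
      rw [cfs_z he, hs]

end

private theorem cfs_dot_inl (m : ι → ℝ) (x : ι) : m ⬝ᵥ pray f (Sum.inl x) = m x := by
  simp [pray, dotProduct_single]

private theorem cfs_indep {z : κ → ι ⊕ σ} (hz : IsSec part z)
    {e : σ → ι ⊕ σ} (he : IsFill (fac f) z e) :
    LinearIndependent ℝ fun j => pray f (z j) := by
  have hinj : Function.Injective z := by
    intro j j' h
    rw [← hz j, ← hz j', h]
  rw [Fintype.linearIndependent_iff]
  intro b hb j
  have h1 : ∑ k, (∑ i, if z i = k then b i else 0) • pray f k = 0 := by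
    rw [← hb]
    simp_rw [Finset.sum_smul]
    rw [Finset.sum_comm]
    refine Finset.sum_congr rfl fun i _ => ?_
    rw [Finset.sum_eq_single (z i)]
    · rw [if_pos rfl]
    · intro k _ hk
      rw [if_neg (Ne.symm hk), zero_smul]
    · intro h
      exact absurd (Finset.mem_univ _) h
  have h2 := pray_rel h1 (k := z j) (l := e (fac f (z j))) (he.1 _).symm
  have h3 : (∑ i, if z i = z j then b i else 0) = b j := by
    rw [Finset.sum_eq_single j]
    · rw [if_pos rfl]
    · intro i _ hi
      rw [if_neg (fun h => hi (hinj h))]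
    · intro h
      exact absurd (Finset.mem_univ _) h
  have h4 : (∑ i, if z i = e (fac f (z j)) then b i else 0) = 0 := by
    refine Finset.sum_eq_zero fun i _ => ?_
    rw [if_neg (fun h => he.2 _ _ h.symm)]
  rw [← h3, h2, h4]

/-- One face. -/
theorem eta_S (hf : Function.Surjective f) {z : κ → ι ⊕ σ} (hz : IsSec part z)
    {e : σ → ι ⊕ σ} (he : IsFill (fac f) z e) :
    ∃ C : ℝ≥0∞, C ≠ 0 ∧ C ≠ ∞ ∧ ∀ g : (ι → ℝ) → ℝ,
      (eta (fun j => pray f (z j)) (dual fun j => pray f (z j))
        fun j => g (pray f (z j))).map (smap f g) =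
          C • volume.map (fill (fac f) z e (gsum f g)) := by
  have hlin1 : ∀ x y : Fr (fac f) z e → ℝ, ∀ k, fill (fac f) z e 0 (x + y) k =
      fill (fac f) z e 0 x k + fill (fac f) z e 0 y k := by
    intro x y k
    unfold fill
    by_cases h : (∀ j, k ≠ z j) ∧ k ≠ e (fac f k)
    · rw [dif_pos h, dif_pos h, dif_pos h]
      rfl
    · rw [dif_neg h, dif_neg h, dif_neg h]
      by_cases h' : k = e (fac f k)
      · rw [if_pos h', if_pos h', if_pos h']
        have h1 : (∑ l : Fr (fac f) z e, (if fac f l.1 = fac f k then (x + y) l else 0)) =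
            (∑ l : Fr (fac f) z e, (if fac f l.1 = fac f k then x l else 0)) +
              ∑ l : Fr (fac f) z e, (if fac f l.1 = fac f k then y l else 0) := by
          rw [← Finset.sum_add_distrib]
          refine Finset.sum_congr rfl fun l _ => ?_
          split_ifs
          · rfl
          · rw [add_zero]
        rw [h1]
        simp only [Pi.zero_apply]
        ring
      · rw [if_neg h', if_neg h', if_neg h', add_zero]
  have hlin2 : ∀ (r : ℝ) (x : Fr (fac f) z e → ℝ), ∀ k, fill (fac f) z e 0 (r • x) k =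
      r * fill (fac f) z e 0 x k := by
    intro r x k
    unfold fill
    by_cases h : (∀ j, k ≠ z j) ∧ k ≠ e (fac f k)
    · rw [dif_pos h, dif_pos h]
      rfl
    · rw [dif_neg h, dif_neg h]
      by_cases h' : k = e (fac f k)
      · rw [if_pos h', if_pos h']
        have h1 : (∑ l : Fr (fac f) z e, (if fac f l.1 = fac f k then (r • x) l else 0)) =
            r * ∑ l : Fr (fac f) z e, (if fac f l.1 = fac f k then x l else 0) := by
          rw [Finset.mul_sum]
          refine Finset.sum_congr rfl fun l _ => ?_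
          split_ifs
          · rfl
          · rw [mul_zero]
        rw [h1]
        simp only [Pi.zero_apply]
        ring
      · rw [if_neg h', if_neg h', mul_zero]
  let L : (Fr (fac f) z e → ℝ) →ₗ[ℝ] (ι → ℝ) :=
    { toFun := fun x i => - fill (fac f) z e 0 x (Sum.inl i)
      map_add' := fun x y => by
        funext i
        show - fill (fac f) z e 0 (x + y) (Sum.inl i) = - fill (fac f) z e 0 x (Sum.inl i) +
          - fill (fac f) z e 0 y (Sum.inl i)
        rw [hlin1]
        ring
      map_smul' := fun r x => by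
        funext i
        show - fill (fac f) z e 0 (r • x) (Sum.inl i) =
          r * - fill (fac f) z e 0 x (Sum.inl i)
        rw [hlin2]
        ring }
  have hLdot : ∀ x k, L x ⬝ᵥ pray f k = - fill (fac f) z e 0 x k := by
    intro x
    obtain ⟨m, hm⟩ := exists_dot_pray (f := f) (b := fun k => - fill (fac f) z e 0 x k) (by
      intro i
      have h1 : rsum (fac f) i (fill (fac f) z e 0 x) = 0 := cfs_rsum he x i
      unfold rsum at h1
      rw [← neg_eq_zero, ← Finset.sum_neg_distrib]
      refine (Finset.sum_congr rfl fun k _ => ?_).trans h1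
      split_ifs
      · rw [neg_neg]
      · rw [neg_zero])
    have h2 : m = L x := by
      funext i
      rw [← cfs_dot_inl (f := f) m i, hm]
      rfl
    intro k
    rw [← h2, hm]
  have hL : Function.Injective L := by
    intro x y hxy
    funext l
    have h1 : fill (fac f) z e 0 x l.1 = fill (fac f) z e 0 y l.1 := by
      have h2 := hLdot x l.1
      rw [hxy, hLdot y l.1] at h2
      linarith
    rwa [cfs_free l.2, cfs_free l.2] at h1
  have hr : ∀ m : ι → ℝ, (∀ j, m ⬝ᵥ pray f (z j) = 0) ↔ ∃ y, L y = m := by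
    intro m
    constructor
    · intro hm
      refine ⟨fun k => - (m ⬝ᵥ pray f k.1), ?_⟩
      have h1 : fill (fac f) z e 0 (fun k => - (m ⬝ᵥ pray f k.1)) =
          fun k => - (m ⬝ᵥ pray f k) := by
        refine cfs_restrict (G := 0) (s := fun k => - (m ⬝ᵥ pray f k)) he (fun j => ?_)
          fun i => ?_
        · simp only [hm j, neg_zero]
        · have h2 := sum_dot_pray f m i
          unfold rsum
          rw [Pi.zero_apply, ← neg_eq_zero, ← Finset.sum_neg_distrib]
          refine (Finset.sum_congr rfl fun k _ => ?_).trans h2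
          split_ifs
          · rw [neg_neg]
          · rw [neg_zero]
      refine ext_pray (f := f) fun k => ?_
      rw [hLdot, h1, neg_neg]
    · rintro ⟨y, rfl⟩ j
      rw [hLdot, cfs_z he, neg_zero]
  obtain ⟨C, hC0, hC1, hC⟩ := eta_param (cfs_indep hz he) L hL hr
  refine ⟨C, hC0, hC1, fun g => ?_⟩
  obtain ⟨a₀, ha₀⟩ := exists_smap f g (s := fill (fac f) z e (gsum f g) 0)
    fun i => cfs_rsum he 0 i
  have hb : ∀ j, a₀ ⬝ᵥ pray f (z j) = g (pray f (z j)) := by
    intro j
    rw [tightQ, ha₀, cfs_z he]
  rw [hC (fun j => g (pray f (z j))) a₀ hb, Measure.map_smul]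
  congr 1
  have hLc : Continuous fun x => a₀ + L x :=
    continuous_const.add (LinearMap.continuous_of_finiteDimensional L)
  rw [Measure.map_map (continuous_smap f g).measurable hLc.measurable]
  congr 1
  funext x k
  show g (pray f k) - (a₀ + L x) ⬝ᵥ pray f k = _
  have h1 : g (pray f k) - a₀ ⬝ᵥ pray f k = fill (fac f) z e (gsum f g) 0 k := congrFun ha₀ k
  rw [cfs_add (G := gsum f g) x k, ← h1, add_dotProduct, hLdot]
  ring

theorem exists_flatS (f : ι → σ) (hf : Function.Surjective f) (part : ι ⊕ σ → κ) :
    ∃ C, IsCst (fac f) part C ∧ ∀ g : (ι → ℝ) → ℝ,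
      IsFlat (fac f) part C (gsum f g) ((sk (cQ f part) g).map (smap f g)) := by
  classical
  have key : ∀ (z : κ → ι ⊕ σ) (e : σ → ι ⊕ σ), ∃ C : ℝ≥0∞, C ≠ 0 ∧ C ≠ ∞ ∧
      (IsSec part z → IsFill (fac f) z e → ∀ g : (ι → ℝ) → ℝ,
      (eta (fun j => pray f (z j)) (dual fun j => pray f (z j))
        fun j => g (pray f (z j))).map (smap f g) =
          C • volume.map (fill (fac f) z e (gsum f g))) := by
    intro z e
    by_cases h : IsSec part z ∧ IsFill (fac f) z e
    · obtain ⟨C, h1, h2, h3⟩ := eta_S hf h.1 h.2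
      exact ⟨C, h1, h2, fun _ _ => h3⟩
    · exact ⟨1, one_ne_zero, ENNReal.one_ne_top, fun h1 h2 => absurd ⟨h1, h2⟩ h⟩
  choose C hC0 hC1 hC using key
  refine ⟨C, fun z e _ _ => ⟨hC0 z e, hC1 z e⟩, fun g => ?_⟩
  have hsm : Measurable (smap f g) := (continuous_smap f g).measurable
  -- the tuples
  have htup : ∀ q ∈ tup (cQ f part), ∃ z : κ → ι ⊕ σ, IsSec part z ∧
      q = fun j => pray f (z j) := by
    intro q hq
    choose z hz using hq
    exact ⟨z, fun j => (hz j).1, funext fun j => (hz j).2⟩
  refine ⟨?_, fun z e hz he => ?_⟩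
  · have hmeas : MeasurableSet {s | ∀ z, IsSec part z → s ∉ fc (fac f) (gsum f g) z} := by
      have h1 : {s | ∀ z, IsSec part z → s ∉ fc (fac f) (gsum f g) z} =
          ⋂ z : {z : κ → ι ⊕ σ // IsSec part z}, (fc (fac f) (gsum f g) z.1)ᶜ := by
        ext s
        simp
      rw [h1]
      exact MeasurableSet.iInter fun z => (measurableSet_fc _ _ _).compl
    rw [Measure.map_apply hsm hmeas, sk, Measure.sum_apply _ (hsm hmeas)]
    refine ENNReal.tsum_eq_zero.2 fun q => ?_
    obtain ⟨z, hz, hq⟩ := htup q.1 q.2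
    rw [Measure.restrict_apply (hsm hmeas)]
    have h2 : smap f g ⁻¹' {s | ∀ z, IsSec part z → s ∉ fc (fac f) (gsum f g) z} ∩
        oface (cQ f part) g q.1 = ∅ := by
      rw [Set.eq_empty_iff_forall_notMem]
      rintro m ⟨h3, h4⟩
      rw [hq, oface_S hf hz] at h4
      exact h3 z hz h4
    rw [h2, measure_empty]
  · have hfc := measurableSet_fc (fac f) (gsum f g) z
    have hmem : (fun j => pray f (z j)) ∈ tup (cQ f part) := fun j => ⟨z j, hz j, rfl⟩
    have hpre : smap f g ⁻¹' fc (fac f) (gsum f g) z =
        oface (cQ f part) g fun j => pray f (z j) := by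
      ext m
      exact (oface_S hf hz).symm
    have h1 : (sk (cQ f part) g).restrict (smap f g ⁻¹' fc (fac f) (gsum f g) z) =
        (eta (fun j => pray f (z j)) (dual fun j => pray f (z j))
          fun j => g (pray f (z j))).restrict (smap f g ⁻¹' fc (fac f) (gsum f g) z) := by
      rw [sk, Measure.restrict_sum _ (hsm hfc)]
      ext A hA
      rw [Measure.sum_apply _ hA, tsum_eq_single ⟨_, hmem⟩]
      · rw [Measure.restrict_restrict (hsm hfc), hpre, Set.inter_self]
      · intro q hq
        rw [Measure.restrict_restrict (hsm hfc)]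
        obtain ⟨z', hz', hq'⟩ := htup q.1 q.2
        have hne : z ≠ z' := by
          rintro rfl
          exact hq (Subtype.ext hq')
        have h2 : smap f g ⁻¹' fc (fac f) (gsum f g) z ∩ oface (cQ f part) g q.1 = ∅ := by
          rw [Set.eq_empty_iff_forall_notMem]
          rintro m ⟨h3, h4⟩
          rw [hq', oface_S hf hz'] at h4
          exact Set.disjoint_left.1 (fc_disjoint hz hz' hne) h3 h4
        rw [h2, Measure.restrict_empty]
        rfl
    rw [Measure.restrict_map hsm hfc, h1, ← Measure.restrict_map hsm hfc, hC z e hz he g,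
      Measure.restrict_smul]

end Pool.Agent.H99.PI
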