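import Pool.Agent.H99.PI.CEta
import Pool.Agent.H99.PI.CFace
import Pool.Agent.H99.PI.AFace

/-!
# The measure of the skeleton of the monomials in the new coordinates

For a section `y` of `fac f` and fill coordinates `e` of the parts: let
`A x = ∑ k, fill part y e c x k • pray f k`, an affine map whose linear part `L` does not depend on `c`. It is
injective (all relations of the rays are constant on the factors, `pray_rel`, and `fill` is zero at the
`y i`), and its image is the affine space `n ⬝ cver j y = c j` for all `j`: for any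
representation `n = ∑ t k • pray k` with `t (y i) = 0` (it exists and is unique), `n ⬝ cver j y` is the sum of
`t` over the part `j` (`cver_dot`). The tuple `cver j y` is linearly independent (evaluate at
`pray (e j)`). So `eta_param` gives `eta = C • volume.map A`. The open face corresponds to `fc part c y`:
if `fill x ∈ fc part c y` then `thom f (A x) = fill x` (`thom_unique`) and `mem_oface_T`; if
`A x ∈ oface` then `thom f (A x) ∈ fc part c y` (`oface_T_exists`, `cver_injective`) and `thom f (A x)` and
`fill x` represent the same point and are both zero at the `y i`, so are equal.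
-/

set_option linter.unusedSectionVars false

open MeasureTheory Matrix
open scoped ENNReal

namespace Pool.Agent.H99.PI

open Pool.Agent.H99.SYZ Pool.Agent.H55.CI Pool.Agent.H2.CI Pool.Agent.H99.ON

variable {ι σ κ : Type} [Fintype ι] [Fintype σ] [Fintype κ] [DecidableEq ι] [DecidableEq σ]
  [DecidableEq κ] {f : ι → σ} {part : ι ⊕ σ → κ} {g h : (ι → ℝ) → ℝ} {c : κ → ℝ}

/-! ### The coordinates -/

private theorem CFlatT_fill_y {y : σ → ι ⊕ σ} {e : κ → ι ⊕ σ} (he : IsFill part y e) (c : κ → ℝ)
    (x : Fr part y e → ℝ) (i : σ) : fill part y e c x (y i) = 0 := by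
  unfold fill
  rw [dif_neg fun h => h.1 i rfl, if_neg fun h => he.2 _ i h.symm]

private theorem CFlatT_fill_free {y : σ → ι ⊕ σ} {e : κ → ι ⊕ σ} (c : κ → ℝ)
    (x : Fr part y e → ℝ) (l : Fr part y e) : fill part y e c x l.1 = x l := by
  unfold fill
  rw [dif_pos l.2]

private theorem CFlatT_fill_e {y : σ → ι ⊕ σ} {e : κ → ι ⊕ σ} (he : IsFill part y e) (c : κ → ℝ)
    (x : Fr part y e → ℝ) (j : κ) : fill part y e c x (e j) =
      c j - ∑ l : Fr part y e, (if part l.1 = j then x l else 0) := by
  unfold fill
  have h0 : ¬ ((∀ i, e j ≠ y i) ∧ e j ≠ e (part (e j))) := fun h => h.2 (by rw [he.1 j])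
  have h1 : e j = e (part (e j)) := by rw [he.1 j]
  rw [dif_neg h0, if_pos h1, he.1 j]

/-- The sum over a part of a function which vanishes at the `y i`. -/
private theorem CFlatT_rsum {y : σ → ι ⊕ σ} {e : κ → ι ⊕ σ} (he : IsFill part y e)
    {t : ι ⊕ σ → ℝ} (ht : ∀ i, t (y i) = 0) (j : κ) :
    rsum part j t = t (e j) + ∑ l : Fr part y e, (if part l.1 = j then t l.1 else 0) := by
  have h1 : ∑ l : Fr part y e, (if part l.1 = j then t l.1 else 0) =
      ∑ k, if (∀ i, k ≠ y i) ∧ k ≠ e (part k) then (if part k = j then t k else 0) else 0 := by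
    have h0 : ∑ k ∈ Finset.univ.filter (fun k => (∀ i, k ≠ y i) ∧ k ≠ e (part k)),
        (if part k = j then t k else 0) =
        ∑ l : Fr part y e, (if part l.1 = j then t l.1 else 0) :=
      Finset.sum_subtype (p := fun k => (∀ i, k ≠ y i) ∧ k ≠ e (part k)) _
        (fun k => by simp) fun k => if part k = j then t k else 0
    rw [Finset.sum_filter] at h0
    exact h0.symm
  have h2 : t (e j) = ∑ k, if k = e j then t k else 0 := by
    rw [Finset.sum_ite_eq' Finset.univ (e j)]
    simp
  rw [h1, h2, rsum, ← Finset.sum_add_distrib]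
  refine Finset.sum_congr rfl fun k _ => ?_
  by_cases hk : ∃ i, k = y i
  · obtain ⟨i, rfl⟩ := hk
    simp only [ht i, ite_self, add_zero]
  · push Not at hk
    by_cases hp : part k = j
    · rw [if_pos hp, hp]
      by_cases hkj : k = e j
      · rw [if_pos hkj, if_neg fun h => h.2 hkj, add_zero]
      · rw [if_neg hkj, if_pos ⟨hk, hkj⟩, zero_add]
    · have hkj : k ≠ e j := fun h => hp (by rw [h, he.1 j])
      rw [if_neg hp, if_neg hkj, ite_self, add_zero]

private theorem CFlatT_rsum_fill {y : σ → ι ⊕ σ} {e : κ → ι ⊕ σ} (he : IsFill part y e)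
    (c : κ → ℝ) (x : Fr part y e → ℝ) (j : κ) : rsum part j (fill part y e c x) = c j := by
  rw [CFlatT_rsum he (CFlatT_fill_y he c x) j, CFlatT_fill_e he]
  have h : ∑ l : Fr part y e, (if part l.1 = j then fill part y e c x l.1 else 0) =
      ∑ l : Fr part y e, (if part l.1 = j then x l else 0) :=
    Finset.sum_congr rfl fun l _ => by rw [CFlatT_fill_free]
  rw [h]
  ring

private theorem CFlatT_fill_of {y : σ → ι ⊕ σ} {e : κ → ι ⊕ σ} (he : IsFill part y e)
    {c : κ → ℝ} {t : ι ⊕ σ → ℝ} (ht : ∀ i, t (y i) = 0) (hc : ∀ j, rsum part j t = c j) :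
    fill part y e c (fun l => t l.1) = t := by
  funext k
  by_cases hk : ∃ i, k = y i
  · obtain ⟨i, rfl⟩ := hk
    rw [CFlatT_fill_y he, ht i]
  · push Not at hk
    by_cases hke : k = e (part k)
    · have h1 := CFlatT_rsum he ht (part k)
      rw [hc] at h1
      have h2 := CFlatT_fill_e he c (fun l : Fr part y e => t l.1) (part k)
      rw [← hke] at h1 h2
      rw [h2]
      linarith
    · exact CFlatT_fill_free c (fun l : Fr part y e => t l.1) ⟨k, hk, hke⟩

/-- The homogeneous coordinates with zeros at the `y i` are unique. -/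
private theorem CFlatT_unique {y : σ → ι ⊕ σ} (hy : IsSec (fac f) y) {t t' : ι ⊕ σ → ℝ}
    (ht : ∀ i, t (y i) = 0) (ht' : ∀ i, t' (y i) = 0)
    (h : ∑ k, t k • pray f k = ∑ k, t' k • pray f k) : t = t' := by
  have h1 : ∑ k, (t k - t' k) • pray f k = 0 := by
    simp only [sub_smul, Finset.sum_sub_distrib]
    rw [h, sub_self]
  funext k
  have h2 := pray_rel (f := f) (b := fun k => t k - t' k) h1 (k := k) (l := y (fac f k))
    (hy (fac f k)).symm
  simp only [ht, ht', sub_self] at h2
  linarith

private theorem CFlatT_exists (f : ι → σ) {y : σ → ι ⊕ σ} (hy : IsSec (fac f) y) (n : ι → ℝ) :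
    ∃ t : ι ⊕ σ → ℝ, (∀ i, t (y i) = 0) ∧ ∑ k, t k • pray f k = n := by
  refine ⟨fun k => thom f n k - thom f n (y (fac f k)), fun i => ?_, ?_⟩
  · show thom f n (y i) - thom f n (y (fac f (y i))) = 0
    rw [hy i, sub_self]
  · have h1 : ∑ k, thom f n (y (fac f k)) • pray f k = 0 := by
      have h2 : ∀ k, thom f n (y (fac f k)) • pray f k =
          ∑ i, thom f n (y i) • (if fac f k = i then pray f k else 0) := by
        intro k
        rw [Finset.sum_eq_single (fac f k)]
        · rw [if_pos rfl]
        · intro i _ hi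
          rw [if_neg (Ne.symm hi), smul_zero]
        · intro h
          exact absurd (Finset.mem_univ _) h
      rw [Finset.sum_congr rfl fun k _ => h2 k, Finset.sum_comm]
      refine Finset.sum_eq_zero fun i _ => ?_
      rw [← Finset.smul_sum, sum_row_pray, smul_zero]
    simp only [sub_smul, Finset.sum_sub_distrib]
    rw [h1, sub_zero]
    exact (isPHom_thom f n).eq.symm

private theorem CFlatT_dot {y : σ → ι ⊕ σ} (hy : IsSec (fac f) y) {t : ι ⊕ σ → ℝ}
    (ht : ∀ i, t (y i) = 0) (j : κ) :
    (∑ k, t k • pray f k) ⬝ᵥ cver f part j y = rsum part j t := by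
  rw [sum_dotProduct, rsum]
  refine Finset.sum_congr rfl fun k _ => ?_
  rw [smul_dotProduct, smul_eq_mul, dotProduct_comm, cver_dot hy j k]
  by_cases hk : k = y (fac f k)
  · have h1 : t k = 0 := by rw [hk]; exact ht _
    rw [h1, zero_mul, ite_self]
  · rw [if_neg hk, mul_zero, sub_zero, mul_ite, mul_one, mul_zero]

private theorem CFlatT_indep {y : σ → ι ⊕ σ} (hy : IsSec (fac f) y) {e : κ → ι ⊕ σ}
    (he : IsFill part y e) : LinearIndependent ℝ fun j => cver f part j y := by
  rw [Fintype.linearIndependent_iff]
  intro a ha j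
  have h1 := congrArg (fun v => v ⬝ᵥ pray f (e j)) ha
  simp only [sum_dotProduct, smul_dotProduct, smul_eq_mul, zero_dotProduct, cver_dot hy,
    he.1 j] at h1
  have h2 : ∀ j', a j' * ((if j = j' then (1 : ℝ) else 0) - (cdeg f part (fac f (e j)) j' : ℝ) *
      (if e j = y (fac f (e j)) then 1 else 0)) = if j = j' then a j' else 0 := by
    intro j'
    rw [if_neg (he.2 j _), mul_zero, sub_zero, mul_ite, mul_one, mul_zero]
  rw [Finset.sum_congr rfl fun j' _ => h2 j', Finset.sum_ite_eq Finset.univ j] at h1
  simpa using h1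

/-- The linear part of the parametrisation. -/
private noncomputable def CFlatT_L (f : ι → σ) (part : ι ⊕ σ → κ) (y : σ → ι ⊕ σ)
    (e : κ → ι ⊕ σ) : (Fr part y e → ℝ) →ₗ[ℝ] (ι → ℝ) where
  toFun x := ∑ k, fill part y e 0 x k • pray f k
  map_add' x x' := by
    rw [← Finset.sum_add_distrib]
    refine Finset.sum_congr rfl fun k _ => ?_
    rw [← add_smul]
    congr 1
    unfold fill
    split_ifs
    · rfl
    · have h : ∀ l : Fr part y e, (if part l.1 = part k then (x + x') l else 0) =
          (if part l.1 = part k then x l else 0) + (if part l.1 = part k then x' l else 0) := by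
        intro l
        split_ifs
        · rfl
        · rw [add_zero]
      rw [Finset.sum_congr rfl fun l _ => h l, Finset.sum_add_distrib]
      simp only [Pi.zero_apply]
      ring
    · rw [add_zero]
  map_smul' r x := by
    rw [RingHom.id_apply, Finset.smul_sum]
    refine Finset.sum_congr rfl fun k _ => ?_
    rw [smul_smul]
    congr 1
    unfold fill
    split_ifs
    · rfl
    · have h : ∀ l : Fr part y e, (if part l.1 = part k then (r • x) l else 0) =
          r * (if part l.1 = part k then x l else 0) := by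
        intro l
        split_ifs
        · rfl
        · rw [mul_zero]
      rw [Finset.sum_congr rfl fun l _ => h l, ← Finset.mul_sum]
      simp only [Pi.zero_apply]
      ring
    · rw [mul_zero]

private theorem CFlatT_L_apply (f : ι → σ) (part : ι ⊕ σ → κ) (y : σ → ι ⊕ σ)
    (e : κ → ι ⊕ σ) (x : Fr part y e → ℝ) :
    CFlatT_L f part y e x = ∑ k, fill part y e 0 x k • pray f k := rfl

private theorem CFlatT_affine (f : ι → σ) {y : σ → ι ⊕ σ} {e : κ → ι ⊕ σ}
    (c : κ → ℝ) (x : Fr part y e → ℝ) :
    (∑ k, fill part y e c 0 k • pray f k) + CFlatT_L f part y e x =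
      ∑ k, fill part y e c x k • pray f k := by
  rw [CFlatT_L_apply, ← Finset.sum_add_distrib]
  refine Finset.sum_congr rfl fun k _ => ?_
  rw [← add_smul]
  congr 1
  unfold fill
  split_ifs
  · rw [Pi.zero_apply, zero_add]
  · simp only [Pi.zero_apply, ite_self, Finset.sum_const_zero]
    ring
  · rw [add_zero]

private theorem CFlatT_inj (f : ι → σ) {y : σ → ι ⊕ σ} (hy : IsSec (fac f) y)
    {e : κ → ι ⊕ σ} (he : IsFill part y e) : Function.Injective (CFlatT_L f part y e) := by
  intro x x' h
  rw [CFlatT_L_apply, CFlatT_L_apply] at h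
  have h1 := CFlatT_unique hy (CFlatT_fill_y he 0 x) (CFlatT_fill_y he 0 x') h
  funext l
  rw [← CFlatT_fill_free (0 : κ → ℝ) x l, ← CFlatT_fill_free (0 : κ → ℝ) x' l, h1]

private theorem CFlatT_range {y : σ → ι ⊕ σ} (hy : IsSec (fac f) y)
    {e : κ → ι ⊕ σ} (he : IsFill part y e) (n : ι → ℝ) :
    (∀ j, n ⬝ᵥ cver f part j y = 0) ↔ ∃ x, CFlatT_L f part y e x = n := by
  constructor
  · intro h
    obtain ⟨t, ht, rfl⟩ := CFlatT_exists f hy n
    refine ⟨fun l => t l.1, ?_⟩
    rw [CFlatT_L_apply, CFlatT_fill_of he ht]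
    intro j
    rw [← CFlatT_dot hy ht j]
    exact h j
  · rintro ⟨x, rfl⟩ j
    rw [CFlatT_L_apply, CFlatT_dot hy (CFlatT_fill_y he 0 x), CFlatT_rsum_fill he]
    rfl

/-- One face. -/
theorem eta_T (hf : Function.Surjective f) {y : σ → ι ⊕ σ} (hy : IsSec (fac f) y)
    {e : κ → ι ⊕ σ} (he : IsFill part y e) :
    ∃ C : ℝ≥0∞, C ≠ 0 ∧ C ≠ ∞ ∧ ∀ c : κ → ℝ, (∀ j, 0 < c j) →
      ∀ h : (ι → ℝ) → ℝ, (∀ j, ∀ p ∈ cP f part j, h p = c j) →
        ((eta (fun j => cver f part j y) (dual fun j => cver f part j y) c).restrict
          (oface (cP f part) h fun j => cver f part j y)).map (thom f) =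
            C • (volume.map (fill part y e c)).restrict (fc part c y) := by
  obtain ⟨C, hC0, hCt, hC⟩ := eta_param (CFlatT_indep hy he) (CFlatT_L f part y e)
    (CFlatT_inj f hy he) (CFlatT_range hy he)
  refine ⟨C, hC0, hCt, fun c hc h hh => ?_⟩
  have ha : ∀ j, (∑ k, fill part y e c 0 k • pray f k) ⬝ᵥ cver f part j y = c j := by
    intro j
    rw [CFlatT_dot hy (CFlatT_fill_y he c 0), CFlatT_rsum_fill he]
  have h1 := hC c _ ha
  simp only [CFlatT_affine f c] at h1
  rw [h1]
  have hA : Continuous fun x => ∑ k, fill part y e c x k • pray f k :=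
    continuous_finsetSum _ fun k _ =>
      ((continuous_apply k).comp (continuous_fill part y e c)).smul continuous_const
  have hof : MeasurableSet (oface (cP f part) h fun j => cver f part j y) :=
    measurableSet_oface (fun j => (finite_cfull j).subset (cP_subset j)) _
  refine Measure.ext fun B hB => ?_
  have hB1 : MeasurableSet (thom f ⁻¹' B) := (continuous_thom f).measurable hB
  rw [Measure.map_apply (continuous_thom f).measurable hB, Measure.restrict_apply hB1,
    Measure.smul_apply, Measure.smul_apply, Measure.map_apply hA.measurable (hB1.inter hof),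
    Measure.restrict_apply hB, Measure.map_apply (continuous_fill part y e c).measurable
      (hB.inter (measurableSet_fc part c y))]
  congr 2
  ext x
  have hpos : fill part y e c x ∈ fc part c y →
      thom f (∑ k, fill part y e c x k • pray f k) = fill part y e c x := by
    rintro ⟨h2, -, h3⟩
    refine thom_unique ⟨fun k => ?_, fun i => ⟨y i, hy i, h2 i⟩, rfl⟩
    by_cases hk : ∃ i, k = y i
    · obtain ⟨i, rfl⟩ := hk
      exact (h2 i).ge
    · push Not at hk
      exact (h3 k hk).le
  constructor
  · rintro ⟨h2, h3⟩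
    have h3' : (∑ k, fill part y e c x k • pray f k) ∈
      oface (cP f part) h fun j => cver f part j y := h3
    have hdot : ∀ j, (∑ k, fill part y e c x k • pray f k) ⬝ᵥ cver f part j y = c j := by
      intro j
      rw [CFlatT_dot hy (CFlatT_fill_y he c x), CFlatT_rsum_fill he]
    have hp : (fun j => cver f part j y) ∈ tup (cP f part) := by
      intro j
      refine ⟨fun h0 => ?_, y, hy, rfl⟩
      have h4 := hdot j
      have h0' : cver f part j y = 0 := h0
      rw [h0', dotProduct_zero] at h4
      exact (hc j).ne h4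
    obtain ⟨y', hy', h4, h5⟩ := oface_T_exists hf hc hh hp h3'
    obtain rfl := cver_injective hf hy hy' h4
    have h6 : thom f (∑ k, fill part y e c x k • pray f k) = fill part y e c x :=
      CFlatT_unique hy h5.1 (CFlatT_fill_y he c x) (isPHom_thom f _).eq.symm
    rw [h6] at h5
    refine ⟨?_, h5⟩
    have h7 : thom f (∑ k, fill part y e c x k • pray f k) ∈ B := h2
    rw [h6] at h7
    exact h7
  · rintro ⟨h2, h3⟩
    have h3' : fill part y e c x ∈ fc part c y := h3
    have h6 := hpos h3'
    refine ⟨?_, ?_⟩
    · show thom f (∑ k, fill part y e c x k • pray f k) ∈ B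
      rw [h6]
      exact h2
    · refine (mem_oface_T hc hh hy ?_).2
      rw [h6]
      exact h3'

theorem exists_flatT (f : ι → σ) (hf : Function.Surjective f) (part : ι ⊕ σ → κ) :
    ∃ C, IsCst part (fac f) C ∧ ∀ c : κ → ℝ, (∀ j, 0 < c j) →
      ∀ h : (ι → ℝ) → ℝ, (∀ j, ∀ p ∈ cP f part j, h p = c j) →
        IsFlat part (fac f) C c ((sk (cP f part) h).map (thom f)) := by
  classical
  let C : (σ → ι ⊕ σ) → (κ → ι ⊕ σ) → ℝ≥0∞ := fun y e =>
    if H : IsSec (fac f) y ∧ IsFill part y e then (eta_T hf H.1 H.2).choose else 1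
  have hCspec : ∀ y e (hy : IsSec (fac f) y) (he : IsFill part y e),
      C y e ≠ 0 ∧ C y e ≠ ∞ ∧ ∀ c : κ → ℝ, (∀ j, 0 < c j) →
      ∀ h : (ι → ℝ) → ℝ, (∀ j, ∀ p ∈ cP f part j, h p = c j) →
        ((eta (fun j => cver f part j y) (dual fun j => cver f part j y) c).restrict
          (oface (cP f part) h fun j => cver f part j y)).map (thom f) =
            C y e • (volume.map (fill part y e c)).restrict (fc part c y) := by
    intro y e hy he
    have h1 : C y e = (eta_T hf hy he).choose := dif_pos ⟨hy, he⟩
    rw [h1]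
    exact (eta_T hf hy he).choose_spec
  refine ⟨C, fun y e hy he => ⟨(hCspec y e hy he).1, (hCspec y e hy he).2.1⟩,
    fun c hc h hh => ⟨?_, ?_⟩⟩
  · have hN : MeasurableSet {s : ι ⊕ σ → ℝ | ∀ z, IsSec (fac f) z → s ∉ fc part c z} := by
      have h1 : {s : ι ⊕ σ → ℝ | ∀ z, IsSec (fac f) z → s ∉ fc part c z} =
          ⋂ z, ⋂ _ : IsSec (fac f) z, (fc part c z)ᶜ := by
        ext s
        simp
      rw [h1]
      exact MeasurableSet.iInter fun z => MeasurableSet.iInter fun _ =>
        (measurableSet_fc part c z).compl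
    have hN1 := (continuous_thom f).measurable hN
    rw [Measure.map_apply (continuous_thom f).measurable hN, sk, Measure.sum_apply _ hN1,
      ENNReal.tsum_eq_zero]
    intro q
    rw [Measure.restrict_apply hN1]
    have h2 : thom f ⁻¹' {s : ι ⊕ σ → ℝ | ∀ z, IsSec (fac f) z → s ∉ fc part c z} ∩
        oface (cP f part) h q.1 = ∅ := by
      ext n
      simp only [Set.mem_inter_iff, Set.mem_empty_iff_false, iff_false, not_and]
      intro h3 h4
      obtain ⟨y, hy, -, h5⟩ := oface_T_exists hf hc hh q.2 h4
      exact h3 y hy h5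
    rw [h2, measure_empty]
  · intro y e hy he
    rw [← (hCspec y e hy he).2.2 c hc h hh]
    refine Measure.ext fun B hB => ?_
    have hfc := measurableSet_fc part c y
    have hB1 : MeasurableSet (thom f ⁻¹' B) := (continuous_thom f).measurable hB
    have hB2 : MeasurableSet (thom f ⁻¹' (B ∩ fc part c y)) :=
      (continuous_thom f).measurable (hB.inter hfc)
    rw [Measure.restrict_apply hB, Measure.map_apply (continuous_thom f).measurable (hB.inter hfc),
      Measure.map_apply (continuous_thom f).measurable hB, Measure.restrict_apply hB1, sk,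
      Measure.sum_apply _ hB2]
    by_cases hp : (fun j => cver f part j y) ∈ tup (cP f part)
    · rw [tsum_eq_single (⟨fun j => cver f part j y, hp⟩ : tup (cP f part))]
      · rw [Measure.restrict_apply hB2]
        have h1 : (fun j => h ((⟨fun j => cver f part j y, hp⟩ : tup (cP f part)).1 j)) = c := by
          funext j
          exact hh j _ (hp j)
        rw [h1]
        congr 1
        ext n
        constructor
        · rintro ⟨h2, h3⟩
          exact ⟨h2.1, h3⟩
        · rintro ⟨h2, h3⟩
          refine ⟨⟨h2, ?_⟩, h3⟩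
          obtain ⟨y', hy', h4, h5⟩ := oface_T_exists hf hc hh hp h3
          obtain rfl := cver_injective hf hy hy' h4
          exact h5
      · intro q hq
        rw [Measure.restrict_apply hB2]
        have h2 : thom f ⁻¹' (B ∩ fc part c y) ∩ oface (cP f part) h q.1 = ∅ := by
          ext n
          simp only [Set.mem_inter_iff, Set.mem_empty_iff_false, iff_false, not_and]
          intro h3 h4
          obtain ⟨y', hy', h6, h5⟩ := oface_T_exists hf hc hh q.2 h4
          have h7 : y = y' := by
            by_contra hne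
            exact Set.disjoint_left.1 (fc_disjoint (row := part) (G := c) hy hy' hne) h3.2 h5
          subst h7
          exact hq (Subtype.ext h6)
        rw [h2, measure_empty]
    · -- both sides are zero
      have h2 : ∀ n, thom f n ∉ fc part c y := fun n hn => hp (mem_oface_T hc hh hy hn).1
      have h3 : thom f ⁻¹' (B ∩ fc part c y) = ∅ := by
        ext n
        simp only [Set.mem_preimage, Set.mem_inter_iff, Set.mem_empty_iff_false, iff_false,
          not_and]
        exact fun _ => h2 n
      have h4 : (∑' q : tup (cP f part), ((eta q.1 (dual q.1) fun j => h (q.1 j)).restrict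
          (oface (cP f part) h q.1)) (thom f ⁻¹' (B ∩ fc part c y))) = 0 := by
        rw [h3]
        simp
      rw [h4]
      have h5 := congrArg (fun μ : Measure (ι ⊕ σ → ℝ) => μ B) ((hCspec y e hy he).2.2 c hc h hh)
      simp only [Measure.map_apply (continuous_thom f).measurable hB,
        Measure.restrict_apply hB1, Measure.smul_apply, Measure.restrict_apply hB,
        Measure.map_apply (continuous_fill part y e c).measurable (hB.inter hfc)] at h5
      rw [h5]
      have h6 : fill part y e c ⁻¹' (B ∩ fc part c y) = ∅ := by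
        ext x
        simp only [Set.mem_preimage, Set.mem_inter_iff, Set.mem_empty_iff_false, iff_false,
          not_and]
        intro _ h7
        refine h2 (∑ k, fill part y e c x k • pray f k) ?_
        have h8 : thom f (∑ k, fill part y e c x k • pray f k) = fill part y e c x := by
          refine thom_unique ⟨fun k => ?_, fun i => ⟨y i, hy i, h7.1 i⟩, rfl⟩
          by_cases hk : ∃ i, k = y i
          · obtain ⟨i, rfl⟩ := hk
            exact (h7.1 i).ge
          · push Not at hk
            exact (h7.2.2 k hk).le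
        rw [h8]
        exact h7
      rw [h6, measure_empty, smul_zero]

end Pool.Agent.H99.PI
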