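import Pool.Agent.H99.PI.DDefs
import Pool.Agent.H99.PI.BStrong
import Pool.Agent.H99.PI.BDet
import Pool.Agent.H99.PI.AMicro
import Pool.Agent.H99.PI.AWeak

/-!
# Bad points in the new coordinates, and auxiliary facts
-/

set_option linter.unusedSectionVars false

open MeasureTheory Matrix Filter Topology
open scoped ENNReal

namespace Pool.Agent.H99.PI

open Pool.Agent.H99.SYZ Pool.Agent.H55.CI Pool.Agent.H2.CI Pool.Agent.H99.ON
open Pool.Agent.H2.MA (IsConj contact CycMono)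
open Pool.Agent.H61.OT (IsPlan IsOptimal)

variable {ι σ κ : Type} [Fintype ι] [Fintype σ] [Fintype κ] [DecidableEq ι] [DecidableEq σ]
  [DecidableEq κ] {f : ι → σ} {part : ι ⊕ σ → κ} {g h : (ι → ℝ) → ℝ} {c : κ → ℝ}

/-- A bad point `x` with the data of the singular pair of tuples: `a = z j'` is alone in its block, and
equal to `y j (fac f a)`, for a power of the equation `j` which is tight at `x.2`. -/
structure IsBadPt (f : ι → σ) (part : ι ⊕ σ → κ) (g h : (ι → ℝ) → ℝ)
    (γ : Measure ((ι → ℝ) × (ι → ℝ))) (Γ : Set ((ι → ℝ) × (ι → ℝ))) (x : (ι → ℝ) × (ι → ℝ))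
    (a : ι ⊕ σ) (j : κ) (y : κ → σ → ι ⊕ σ) : Prop where
  plan : IsPlan (skProb (cQ f part) g) (skProb (cP f part) h) γ
  sub : Γ ⊆ poly (un (cQ f part)) g ×ˢ poly (un (cP f part)) h
  ae : ∀ᵐ x ∂γ, x ∈ Γ
  cyc : CycMono Γ
  mem : x ∈ Γ
  one : cdeg f part (fac f a) (part a) = 1
  ne : cdeg f part (fac f a) j ≠ 0
  sec : ∀ j i, fac f (y j i) = i
  eq : y j (fac f a) = a
  tup : ∀ j, cver f part j (y j) ∈ cP f part j
  tightQ : smap f g x.1 a = 0
  tightP : ∀ j, x.2 ⬝ᵥ cver f part j (y j) = h (cver f part j (y j))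

theorem exists_badPt (hD : IsReg (cdeg f part))
    (H : IsBad (cP f part) (cQ f part) g h) :
    ∃ γ Γ x a j y, IsBadPt f part g h γ Γ x a j y := by
  obtain ⟨γ, Γ, x, ⟨p, q⟩, hγ, hΓ, hae, hcyc, hx, hp, hq, hdet, hxq, hxp⟩ := H
  dsimp only at hp hq hdet hxq hxp
  choose y hy hpy using fun j => (hp j).2
  choose z hz hqz using hq
  have hp' : p = fun j => cver f part j (y j) := funext hpy
  have hq' : q = fun j => pray f (z j) := funext hqz
  have hdet' : (Amat (fun j => cver f part j (y j)) fun j => pray f (z j)).det = 0 := by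
    rw [← hp', ← hq']
    exact hdet
  obtain ⟨j, j', h1, h2, h3⟩ := c_det hD hy hz hdet'
  refine ⟨γ, Γ, x, z j', j, y, hγ, hΓ, hae, hcyc, hx, ?_, h2, hy, h1.symm, fun i => ?_, ?_,
    fun i => ?_⟩
  · rw [hz j']
    exact h3
  · have h4 := hp i
    rw [hpy i] at h4
    exact h4
  · have h4 : x.1 ⬝ᵥ q j' = g (q j') := hxq j'
    rw [hqz j'] at h4
    exact sub_eq_zero.2 h4.symm
  · have h4 : x.2 ⬝ᵥ p i = h (p i) := hxp i
    rw [hpy i] at h4
    exact h4

/-- The limit of tight powers, in homogeneous coordinates. -/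
theorem thom_limit {h : ℕ → (ι → ℝ) → ℝ} (hc : ∀ j, 0 < c j)
    (hl : ∀ j, ∀ p ∈ cP f part j, Tendsto (fun n => h n p) atTop (𝓝 (c j)))
    {x : ℕ → ι → ℝ} (hx : ∀ n, x n ∈ poly (un (cP f part)) (h n)) {y : κ → σ → ι ⊕ σ}
    (hy : ∀ j i, fac f (y j i) = i) (hyP : ∀ j, cver f part j (y j) ∈ cP f part j)
    (ht : ∀ n j, x n ⬝ᵥ cver f part j (y j) = h n (cver f part j (y j))) {t₀ : ι ⊕ σ → ℝ}
    (hxt : Tendsto (fun n => thom f (x n)) atTop (𝓝 t₀)) :
    t₀ ∈ Xs part (fac f) c ∧ ∀ j i, cdeg f part i j ≠ 0 → t₀ (y j i) = 0 := by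
  obtain ⟨x₀, hx₀⟩ : ∃ x₀ : ι → ℝ, x₀ = ∑ k, t₀ k • pray f k := ⟨_, rfl⟩
  have hlim : Tendsto x atTop (𝓝 x₀) := by
    rw [hx₀]
    have h1 : x = fun n => ∑ k, thom f (x n) k • pray f k :=
      funext fun n => (isPHom_thom f (x n)).eq
    rw [h1]
    exact tendsto_finsetSum _ fun k _ => ((tendsto_pi_nhds.1 hxt) k).smul_const _
  have hth : thom f x₀ = t₀ :=
    tendsto_nhds_unique (((continuous_thom f).tendsto x₀).comp hlim) hxt
  have hdot : ∀ p : ι → ℝ, Tendsto (fun n => x n ⬝ᵥ p) atTop (𝓝 (x₀ ⬝ᵥ p)) := fun p => by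
    have hcont : Continuous fun m : ι → ℝ => m ⬝ᵥ p := by
      unfold dotProduct
      fun_prop
    exact (hcont.tendsto x₀).comp hlim
  obtain ⟨h₀, hh₀⟩ : ∃ h₀ : (ι → ℝ) → ℝ, ∀ j, ∀ p ∈ cP f part j, h₀ p = c j :=
    ⟨fun p => limUnder atTop fun n => h n p, fun j p hp => (hl j p hp).limUnder_eq⟩
  have hpoly : x₀ ∈ poly (un (cP f part)) h₀ := by
    rintro p ⟨j, hp⟩
    rw [hh₀ j p hp]
    exact le_of_tendsto_of_tendsto' (hdot p) (hl j p hp) fun n => hx n p ⟨j, hp⟩
  have htight : ∀ j, x₀ ⬝ᵥ cver f part j (y j) = c j := fun j => by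
    have h1 := hl j _ (hyP j)
    have h2 : (fun n => h n (cver f part j (y j))) = fun n => x n ⬝ᵥ cver f part j (y j) :=
      funext fun n => (ht n j).symm
    rw [h2] at h1
    exact tendsto_nhds_unique (hdot _) h1
  have h3 := thom_mem_Xs hc hh₀ hpoly (p := fun j => cver f part j (y j)) hyP fun j => by
    rw [htight j, hh₀ j _ (hyP j)]
  rw [hth] at h3
  refine ⟨h3, fun j i hi => ?_⟩
  have h4 := ((tightP (fun j => (hc j).le) hh₀ hpoly (hy j) j).1 (htight j)).2 i hi
  rw [hth] at h4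
  exact h4

/-- Subsequences on which finitely many data are constant. -/
theorem exists_const_subseq {α : Type} [Finite α] (a : ℕ → α) :
    ∃ (b : α) (φ : ℕ → ℕ), StrictMono φ ∧ ∀ n, a (φ n) = b := by
  classical
  obtain ⟨b, hb⟩ := Finite.exists_infinite_fiber a
  refine ⟨b, Nat.orderEmbeddingOfSet (a ⁻¹' {b}), (Nat.orderEmbeddingOfSet _).strictMono,
    fun n => ?_⟩
  have h := Set.mem_range_self (f := Nat.orderEmbeddingOfSet (a ⁻¹' {b})) n
  rw [Nat.orderEmbeddingOfSet_range] at h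
  exact h

theorem map_nrm {α β : Type*} [MeasurableSpace α] [MeasurableSpace β] {μ : Measure α}
    {F : α → β} (hF : Measurable F) : (nrm μ).map F = nrm (μ.map F) := by
  unfold nrm
  rw [Measure.map_smul, Measure.map_apply hF MeasurableSet.univ, Set.preimage_univ]

theorem isProbabilityMeasure_nrm {α : Type*} [MeasurableSpace α] {μ : Measure α}
    (h0 : μ Set.univ ≠ 0) (h1 : μ Set.univ ≠ ∞) : IsProbabilityMeasure (nrm μ) := by
  refine ⟨?_⟩
  show ((μ Set.univ)⁻¹ • μ) Set.univ = 1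
  rw [Measure.smul_apply, smul_eq_mul, ENNReal.inv_mul_cancel h0 h1]

/-- The total masses are positive and finite. -/
theorem mass_S (hf : Function.Surjective f) (hs : HasSec f part)
    (hg : ∀ k, 0 < g (pray f k)) :
    IsProbabilityMeasure (nrm ((sk (cQ f part) g).map (smap f g))) := by
  have hP : IsStrong (cP f part) fun _ => (1 : ℝ) :=
    c_strongP (c := fun _ => (1 : ℝ)) (fun _ => one_pos) fun _ _ _ => rfl
  have N : IsNef (cP f part) (cQ f part) g fun _ => (1 : ℝ) :=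
    isNef_of_strong (c_pair fun j => cP_subset j) (c_strongQ hf hg) hP
  have hne := c_ne (h := fun _ => (1 : ℝ)) hf hs fun _ _ => one_pos
  refine isProbabilityMeasure_nrm ?_ ?_
  · rw [Measure.map_apply (continuous_smap f g).measurable MeasurableSet.univ, Set.preimage_univ]
    exact sk_univ_ne_zero N hne
  · rw [Measure.map_apply (continuous_smap f g).measurable MeasurableSet.univ, Set.preimage_univ]
    exact sk_univ_ne_top N

theorem mass_T (hf : Function.Surjective f) (hs : HasSec f part) (hc : ∀ j, 0 < c j)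
    (hh : ∀ j, ∀ p ∈ cP f part j, h p = c j) :
    IsProbabilityMeasure (nrm ((sk (cP f part) h).map (thom f))) := by
  have hQ : IsStrong (cQ f part) fun _ => (1 : ℝ) :=
    c_strongQ (g := fun _ => (1 : ℝ)) hf fun _ => one_pos
  have N : IsNef (cP f part) (cQ f part) (fun _ => (1 : ℝ)) h :=
    isNef_of_strong (c_pair fun j => cP_subset j) hQ (c_strongP hc hh)
  have hne := c_ne hf hs (h := h) fun p hp => by
    obtain ⟨j, hj⟩ := hp
    rw [hh j p hj]
    exact hc j
  refine isProbabilityMeasure_nrm ?_ ?_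
  · rw [Measure.map_apply (continuous_thom f).measurable MeasurableSet.univ, Set.preimage_univ]
    exact sk_univ_ne_zero N.swap (skel_other N hne)
  · rw [Measure.map_apply (continuous_thom f).measurable MeasurableSet.univ, Set.preimage_univ]
    exact sk_univ_ne_top N.swap

end Pool.Agent.H99.PI
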