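import Pool.Agent.H99.PI.DRow

/-!
# No bad points in the adiabatic limit (columns)

As `rows_seq`, with the roles of the two sides exchanged: `macro_false` with `row = part`,
`col = fac f`, sums `c` and factors `lam n j = c' n j / c j`, `μ n = (sk (cP f part) (h n)).map (thom f)`,
`ν = (sk (cQ f part) g₀).map (smap f g₀)` where `g₀ (pray k) = G (fac k) / (number of coordinates of the
factor)`, and `ρ n = (skProb (cQ f part) (g n)).map (fun x => -smap f (g n) x)`, which converges by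
`tendsto_flat` (the flat measures only depend on the sums). The points are
`(thom f x.2, -smap f (g n) x.1)` (`cycMono_thom`). The part of `a` contains another coordinate:
otherwise its sum would be `thom f x.2 a = 0`, but it is `c' n (part a) > 0`.
-/

set_option linter.unusedSectionVars false

open MeasureTheory Matrix Filter Topology
open scoped ENNReal

namespace Pool.Agent.H99.PI

open Pool.Agent.H99.SYZ Pool.Agent.H55.CI Pool.Agent.H2.CI Pool.Agent.H99.ON
open Pool.Agent.H2.MA (IsConj contact CycMono)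
open Pool.Agent.H61.OT (IsPlan IsOptimal)

variable {ι σ κ : Type} [Fintype ι] [Fintype σ] [Fintype κ] [DecidableEq ι] [DecidableEq σ]
  [DecidableEq κ] {f : ι → σ} {part : ι ⊕ σ → κ} {c : κ → ℝ}

/-- The bad points, with a tight ray of every part. -/
private theorem cs_bad (hD : IsReg (cdeg f part)) {g h : (ι → ℝ) → ℝ}
    (H : IsBad (cP f part) (cQ f part) g h) :
    ∃ γ Γ x a j y, IsBadPt f part g h γ Γ x a j y ∧
      ∀ j, ∃ k, part k = j ∧ smap f g x.1 k = 0 := by
  obtain ⟨γ, Γ, x, ⟨p, q⟩, hγ, hΓ, hae, hcyc, hx, hp, hq, hdet, hxq, hxp⟩ := H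
  dsimp only at hp hq hdet hxq hxp
  choose y hy hpy using fun j => (hp j).2
  choose z hz hqz using hq
  have hp' : p = fun j => cver f part j (y j) := funext hpy
  have hq' : q = fun j => pray f (z j) := funext hqz
  have hdet' : (Amat (fun j => cver f part j (y j)) fun j => pray f (z j)).det = 0 := by
    rw [← hp', ← hq']
    exact hdet
  have hzt : ∀ j, smap f g x.1 (z j) = 0 := fun j => by
    have h4 : x.1 ⬝ᵥ q j = g (q j) := hxq j
    rw [hqz j] at h4
    exact sub_eq_zero.2 h4.symm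
  obtain ⟨j, j', h1, h2, h3⟩ := c_det hD hy hz hdet'
  refine ⟨γ, Γ, x, z j', j, y, ⟨hγ, hΓ, hae, hcyc, hx, ?_, h2, hy, h1.symm, fun i => ?_, hzt j',
    fun i => ?_⟩, fun i => ⟨z i, hz i, hzt i⟩⟩
  · rw [hz j']
    exact h3
  · have h4 := hp i
    rw [hpy i] at h4
    exact h4
  · have h4 : x.2 ⬝ᵥ p i = h (p i) := hxp i
    rw [hpy i] at h4
    exact h4

/-- Heights of the rays with given sums. -/
private theorem cs_height (hf : Function.Surjective f) {G : σ → ℝ} (hG : ∀ i, 0 < G i) :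
    ∃ g₀ : (ι → ℝ) → ℝ, (∀ k, 0 < g₀ (pray f k)) ∧ gsum f g₀ = G := by
  have hd : ∀ i, (0 : ℝ) < pdeg f i := fun i => by
    have h1 := two_le_pdeg hf i
    exact_mod_cast (by omega : 0 < pdeg f i)
  have h0 : ∀ k, Function.extend (pray f) (fun k => G (fac f k) / pdeg f (fac f k)) 1
      (pray f k) = G (fac f k) / pdeg f (fac f k) := fun k =>
    (pray_injective hf).extend_apply _ _ k
  refine ⟨Function.extend (pray f) (fun k => G (fac f k) / pdeg f (fac f k)) 1, fun k => ?_,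
    funext fun i => ?_⟩
  · rw [h0 k]
    exact div_pos (hG _) (hd _)
  · unfold gsum
    have h1 : ∀ k : ι ⊕ σ, (if fac f k = i then Function.extend (pray f)
        (fun k => G (fac f k) / pdeg f (fac f k)) 1 (pray f k) else 0) =
        if fac f k = i then G i / pdeg f i else 0 := fun k => by
      split_ifs with hk
      · rw [h0 k, hk]
      · rfl
    rw [Finset.sum_congr rfl fun k _ => h1 k, ← Finset.sum_filter, Finset.sum_const, nsmul_eq_mul]
    exact mul_div_cancel₀ (G i) (hd i).ne'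

/-- The points of a flat measure have the right sums. -/
private theorem cs_ae {Ω α β : Type} [Fintype Ω] [DecidableEq Ω] [Fintype α] [DecidableEq α]
    [Fintype β] [DecidableEq β] {row : Ω → α} {col : Ω → β} {C : (β → Ω) → (α → Ω) → ℝ≥0∞}
    {G : α → ℝ} {μ : Measure (Ω → ℝ)} (hμ : IsFlat row col C G μ) :
    ∀ᵐ s ∂(nrm μ), ∀ i, rsum row i s = G i := by
  have h0 : {s | ¬ ∀ i, rsum row i s = G i} ⊆ {s | ∀ z, IsSec col z → s ∉ fc row G z} :=
    fun s hs z _ hz => hs hz.2.1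
  have h1 : ∀ᵐ s ∂μ, ∀ i, rsum row i s = G i := measure_mono_null h0 hμ.null
  exact Measure.ae_smul_measure h1 _

private theorem cs_sum_pos {g : (ι → ℝ) → ℝ} (hg : ∀ k, 0 < g (pray f k)) (i : σ) :
    0 < gsum f g i := by
  unfold gsum
  refine Finset.sum_pos' (fun k _ => ?_) ⟨Sum.inr i, Finset.mem_univ _, ?_⟩
  · split_ifs
    · exact (hg k).le
    · exact le_rfl
  · rw [if_pos (show fac f (Sum.inr i) = i from rfl)]
    exact hg _

private theorem cs_emb (f : ι → σ) (g : (ι → ℝ) → ℝ) :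
    MeasurableEmbedding fun w : (ι → ℝ) × (ι → ℝ) => (thom f w.2, -smap f g w.1) := by
  have hc : Continuous fun w : (ι → ℝ) × (ι → ℝ) => (thom f w.2, -smap f g w.1) :=
    ((continuous_thom f).comp continuous_snd).prodMk
      ((continuous_smap f g).comp continuous_fst).neg
  refine hc.measurableEmbedding fun w w' hw => ?_
  have h1 : thom f w.2 = thom f w'.2 := congrArg Prod.fst hw
  have h2 : -smap f g w.1 = -smap f g w'.1 := congrArg Prod.snd hw
  refine Prod.ext (ext_pray (f := f) fun k => ?_) ?_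
  · have h3 := congrFun (neg_injective h2) k
    unfold smap at h3
    linarith
  · refine (isPHom_thom f w.2).eq.trans ?_
    rw [h1]
    exact (isPHom_thom f w'.2).eq.symm

private theorem cs_le {α : Type} [DecidableEq α] {row : ι ⊕ σ → α} {t : ι ⊕ σ → ℝ}
    (ht : ∀ k, 0 ≤ t k) (k : ι ⊕ σ) : t k ≤ rsum row (row k) t := by
  unfold rsum
  have h2 : ∀ l ∈ Finset.univ, 0 ≤ (if row l = row k then t l else 0) := by
    intro l _
    split_ifs
    · exact ht l
    · exact le_rfl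
  have h3 := Finset.single_le_sum h2 (Finset.mem_univ k)
  rwa [if_pos rfl] at h3

private theorem cs_mem {g h : (ι → ℝ) → ℝ} {B₁ B₂ : ℝ} (hB₁ : 0 ≤ B₁)
    (hhB : ∀ p ∈ un (cP f part), h p ≤ B₁) (hgB : ∀ i, gsum f g i ≤ B₂)
    {w : (ι → ℝ) × (ι → ℝ)} (hw : w ∈ poly (un (cQ f part)) g ×ˢ poly (un (cP f part)) h) :
    (thom f w.2, -smap f g w.1) ∈ (Set.univ.pi fun _ : ι ⊕ σ => Set.Icc (0 : ℝ) B₁) ×ˢ
      (Set.univ.pi fun _ : ι ⊕ σ => Set.Icc (-B₂) (0 : ℝ)) := by
  have h0 : ∀ k, 0 ≤ smap f g w.1 k := mem_polyQ.1 hw.1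
  refine ⟨fun k _ => ⟨(isPHom_thom f w.2).nonneg k, thom_le hw.2 hB₁ hhB k⟩,
    fun k _ => ⟨?_, neg_nonpos.2 (h0 k)⟩⟩
  have h1 := cs_le (row := fac f) h0 k
  rw [rsum_smap] at h1
  exact neg_le_neg (h1.trans (hgB _))

private theorem cs_bound {α : Type} [Fintype α] {u : ℕ → α → ℝ} {l : α → ℝ}
    (h : ∀ i, Tendsto (fun n => u n i) atTop (𝓝 (l i))) : ∃ B : ℝ, 0 ≤ B ∧ ∀ n i, u n i ≤ B := by
  choose b hb using fun i => (h i).bddAbove_range
  refine ⟨∑ i, |b i|, Finset.sum_nonneg fun i _ => abs_nonneg _, fun n i => ?_⟩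
  refine (hb i (Set.mem_range_self n)).trans ((le_abs_self _).trans ?_)
  exact Finset.single_le_sum (f := fun i => |b i|) (fun i _ => abs_nonneg _) (Finset.mem_univ i)

private theorem cs_core (hf : Function.Surjective f) {M : Finset κ}
    (hM : IsScale (fun j i => cdeg f part i j) M) (hp : ∀ j, ∃ k, part k = j)
    {G : σ → ℝ} (hG : ∀ i, 0 < G i) (hc : ∀ j, 0 < c j) {g h : ℕ → (ι → ℝ) → ℝ}
    (hg : ∀ n k, 0 < g n (pray f k))
    (hgl : ∀ i, Tendsto (fun n => gsum f (g n) i) atTop (𝓝 (G i)))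
    {c' : ℕ → κ → ℝ} (hc' : ∀ n j, 0 < c' n j)
    (hc'l : ∀ j, Tendsto (fun n => c' n j) atTop (𝓝 (if j ∈ M then c j else 0)))
    (hh : ∀ n j, ∀ p ∈ cP f part j, h n p = c' n j)
    {γ : ℕ → Measure ((ι → ℝ) × (ι → ℝ))} {Γ : ℕ → Set ((ι → ℝ) × (ι → ℝ))}
    {x : ℕ → (ι → ℝ) × (ι → ℝ)} {a : ι ⊕ σ} {j : ℕ → κ} {y : ℕ → κ → σ → ι ⊕ σ}
    (hB : ∀ n, IsBadPt f part (g n) (h n) (γ n) (Γ n) (x n) a (j n) (y n))
    (hz : ∀ n j, ∃ k, part k = j ∧ smap f (g n) (x n).1 k = 0) {s₀ τ₀ : ι ⊕ σ → ℝ}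
    (hx0 : Tendsto (fun n => (thom f (x n).2, -smap f (g n) (x n).1)) atTop (𝓝 (s₀, τ₀))) :
    False := by
  classical
  have hth := isThick_of_scale' hM
  have hs : HasSec f part := by
    obtain ⟨z, e, h1, h2, h3⟩ := exists_sec hp hth
    exact ⟨e, z, h2, h1, fun i j => (h3 j i).symm⟩
  -- the coordinate `a`
  have haM : part a ∈ M := hM.one (part a) (fac f a) (hB 0).one
  have ha : ∀ k, fac f k = fac f a → part k ∈ M → k = a := by
    intro k hk hkM
    by_cases hka : part k = part a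
    · exact cdeg_one (hB 0).one hk hka
    · exfalso
      have h1 := hM.alone (part a) haM (fac f a) (hB 0).one (part k) hkM hka
      have h2 : k ∈ Finset.univ.filter fun l => fac f l = fac f a ∧ part l = part k :=
        Finset.mem_filter.2 ⟨Finset.mem_univ _, hk, rfl⟩
      exact Finset.card_ne_zero_of_mem h2 h1
  have hxP : ∀ n, (x n).2 ∈ poly (un (cP f part)) (h n) := fun n => ((hB n).sub (hB n).mem).2
  have hxQ : ∀ n, (x n).1 ∈ poly (un (cQ f part)) (g n) := fun n => ((hB n).sub (hB n).mem).1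
  have hta : ∀ n, thom f (x n).2 a = 0 := fun n => by
    have h1 := (hB n).tightP (j n)
    rw [hh n _ _ ((hB n).tup (j n))] at h1
    have h2 := ((tightP (fun j => (hc' n j).le) (hh n) (hxP n) ((hB n).sec (j n)) (j n)).1 h1).2
      (fac f a) (hB n).ne
    rw [(hB n).eq] at h2
    exact h2
  have hXs : ∀ n, thom f (x n).2 ∈ Xs part (fac f) (c' n) := fun n =>
    thom_mem_Xs (hc' n) (hh n) (hxP n) (hB n).tup (hB n).tightP
  have ha' : ∃ k, k ≠ a ∧ part k = part a := by
    by_contra hcon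
    push Not at hcon
    have h1 := (hXs 0).2.1 (part a)
    have h2 : rsum part (part a) (thom f (x 0).2) = 0 := by
      unfold rsum
      refine Finset.sum_eq_zero fun k _ => ?_
      split_ifs with hk
      · by_cases hka : k = a
        · rw [hka, hta 0]
        · exact absurd hk (hcon k hka)
      · rfl
    have h3 := hc' 0 (part a)
    linarith
  -- the measures
  obtain ⟨C, hC, hT⟩ := exists_flatT f hf part
  obtain ⟨C', hC', hS⟩ := exists_flatS f hf part
  obtain ⟨g₀, hg₀, hG₀⟩ := cs_height hf hG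
  have hνf : IsFlat (fac f) part C' G ((sk (cQ f part) g₀).map (smap f g₀)) := by
    have h1 := hS g₀
    rwa [hG₀] at h1
  have hgp : ∀ n i, 0 < gsum f (g n) i := fun n i => cs_sum_pos (hg n) i
  have hρl : ∀ φ : (ι ⊕ σ → ℝ) → ℝ, Continuous φ → (∃ B, ∀ x, |φ x| ≤ B) →
      Tendsto (fun n => ∫ x, φ x ∂((nrm ((sk (cQ f part) (g n)).map (smap f (g n)))).map Neg.neg))
        atTop (𝓝 (∫ x, φ x ∂((nrm ((sk (cQ f part) g₀).map (smap f g₀))).map Neg.neg))) := by
    intro φ hφ hb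
    have h0 : ∀ μ : Measure (ι ⊕ σ → ℝ), ∫ x, φ x ∂(μ.map Neg.neg) = ∫ x, φ (-x) ∂μ := fun μ =>
      integral_map measurable_neg.aemeasurable hφ.aestronglyMeasurable
    simp only [h0]
    refine tendsto_flat (row := fac f) (col := part) (φ := fun x => φ (-x))
      (lam := fun n i => gsum f (g n) i / G i) (fun i => ⟨Sum.inr i, rfl⟩) hG hC'
      (fun n i => div_pos (hgp n i) (hG i)) (fun i => ?_) (fun n => ?_)
      (fun n => mass_S hf hs (hg n)) hνf (mass_S hf hs hg₀) (hφ.comp continuous_neg) ?_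
    · have h1 := (hgl i).div_const (G i)
      rwa [div_self (hG i).ne'] at h1
    · have h1 := hS (g n)
      have h2 : (fun i => gsum f (g n) i / G i * G i) = gsum f (g n) :=
        funext fun i => div_mul_cancel₀ _ (hG i).ne'
      rwa [h2]
    · obtain ⟨B, hB⟩ := hb
      exact ⟨B, fun x => hB (-x)⟩
  have hμf : ∀ n, IsFlat part (fac f) C (fun j => c' n j / c j * c j)
      ((sk (cP f part) (h n)).map (thom f)) := fun n => by
    have h1 := hT (c' n) (hc' n) (h n) (hh n)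
    have h2 : (fun j => c' n j / c j * c j) = c' n :=
      funext fun j => div_mul_cancel₀ _ (hc j).ne'
    rwa [h2]
  have hlam0 : ∀ j, Tendsto (fun n => c' n j / c j) atTop (𝓝 (lamM M j)) := fun j => by
    have h1 := (hc'l j).div_const (c j)
    have h2 : (if j ∈ M then c j else 0) / c j = lamM M j := by
      unfold lamM
      split_ifs
      · exact div_self (hc j).ne'
      · exact zero_div _
    rwa [h2] at h1
  -- bounds
  obtain ⟨B₁, hB₁, hB₁'⟩ := cs_bound hc'l
  obtain ⟨B₂, hB₂, hB₂'⟩ := cs_bound hgl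
  have hK : IsCompact ((Set.univ.pi fun _ : ι ⊕ σ => Set.Icc (0 : ℝ) B₁) ×ˢ
      (Set.univ.pi fun _ : ι ⊕ σ => Set.Icc (-B₂) (0 : ℝ))) :=
    (isCompact_univ_pi fun _ => isCompact_Icc).prod (isCompact_univ_pi fun _ => isCompact_Icc)
  have hQ0 : ∀ n, ∀ m ∈ poly (un (cQ f part)) (g n), ∀ k, 0 ≤ smap f (g n) m k := fun n m hm =>
    mem_polyQ.1 hm
  -- the limit point
  have hS' : Tendsto (fun n => smap f (g n) (x n).1) atTop (𝓝 (-τ₀)) := by
    have h1 := (continuous_snd.tendsto (s₀, τ₀)).comp hx0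
    have h2 := h1.neg
    refine h2.congr fun n => ?_
    show -(-smap f (g n) (x n).1) = _
    rw [neg_neg]
  have hT' : Tendsto (fun n => thom f (x n).2) atTop (𝓝 s₀) :=
    (continuous_fst.tendsto (s₀, τ₀)).comp hx0
  have hτ₀ : -τ₀ ∈ Xs (fac f) part G := by
    refine ⟨fun k => ?_, fun i => ?_, fun j => ?_⟩
    · exact ge_of_tendsto' ((tendsto_pi_nhds.1 hS') k) fun n => hQ0 n _ (hxQ n) k
    · have h1 : Tendsto (fun n => rsum (fac f) i (smap f (g n) (x n).1)) atTop
          (𝓝 (rsum (fac f) i (-τ₀))) := by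
        unfold rsum
        refine tendsto_finsetSum _ fun k _ => ?_
        split_ifs
        · exact (tendsto_pi_nhds.1 hS') k
        · exact tendsto_const_nhds
      have h2 : (fun n => rsum (fac f) i (smap f (g n) (x n).1)) = fun n => gsum f (g n) i :=
        funext fun n => rsum_smap f (g n) (x n).1 i
      rw [h2] at h1
      exact tendsto_nhds_unique h1 (hgl i)
    · choose k hk hk0 using fun n => hz n j
      obtain ⟨k₀, φ, hφ, hkφ⟩ := exists_const_subseq k
      refine ⟨k₀, ?_, ?_⟩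
      · rw [← hkφ 0]
        exact hk _
      · have h1 := ((tendsto_pi_nhds.1 hS') k₀).comp hφ.tendsto_atTop
        refine tendsto_nhds_unique h1 (tendsto_const_nhds.congr fun n => ?_)
        show (0 : ℝ) = smap f (g (φ n)) (x (φ n)).1 k₀
        rw [← hkφ n]
        exact (hk0 (φ n)).symm
  have hsa : s₀ a = 0 :=
    tendsto_nhds_unique ((tendsto_pi_nhds.1 hT') a) (tendsto_const_nhds.congr fun n => (hta n).symm)
  have hτa : τ₀ a = 0 := by
    have h1 : (-τ₀) a = 0 := tendsto_nhds_unique ((tendsto_pi_nhds.1 hS') a)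
      (tendsto_const_nhds.congr fun n => ((hB n).tightQ).symm)
    exact neg_eq_zero.1 h1
  refine macro_false (row := part) (col := fac f) (M := M) (a := a) (G := c) (c := G) (C := C)
    (C' := C') (lam := fun n j => c' n j / c j)
    (μ := fun n => (sk (cP f part) (h n)).map (thom f))
    (ν := (sk (cQ f part) g₀).map (smap f g₀))
    (ρ := fun n => (nrm ((sk (cQ f part) (g n)).map (smap f (g n)))).map Neg.neg)
    (π := fun n => (γ n).map fun w => (thom f w.2, -smap f (g n) w.1))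
    (Γ := fun n => (fun w => (thom f w.2, -smap f (g n) w.1)) ''
      {w | w ∈ Γ n ∧ ∀ j, rsum part j (thom f w.2) = c' n j})
    (x := fun n => (thom f (x n).2, -smap f (g n) (x n).1))
    hp hth haM ha ha' hc hG hC hC' (fun n j => div_pos (hc' n j) (hc j)) hlam0 hμf
    (fun n => mass_T hf hs (hc' n) (hh n)) hνf (mass_S hf hs hg₀) (fun n => ?_) hρl (fun n => ?_)
    hK (fun n => ?_) (fun n => ?_) (fun n => ?_) (fun n => ?_) (fun n => ?_) hx0 hτ₀ hsa hτa
  · have := mass_S hf hs (hg n)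
    exact Measure.isProbabilityMeasure_map measurable_neg.aemeasurable
  · have hT0 := (cs_emb f (g n)).measurable
    constructor
    · show ((γ n).map fun w => (thom f w.2, -smap f (g n) w.1)).map Prod.fst =
        nrm ((sk (cP f part) (h n)).map (thom f))
      rw [Measure.map_map measurable_fst hT0]
      have h1 : (Prod.fst ∘ fun w : (ι → ℝ) × (ι → ℝ) => (thom f w.2, -smap f (g n) w.1)) =
          thom f ∘ Prod.snd := rfl
      rw [h1, ← Measure.map_map (continuous_thom f).measurable measurable_snd, (hB n).plan.2,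
        ← map_nrm (continuous_thom f).measurable]
      rfl
    · show ((γ n).map fun w => (thom f w.2, -smap f (g n) w.1)).map Prod.snd =
        (nrm ((sk (cQ f part) (g n)).map (smap f (g n)))).map Neg.neg
      rw [Measure.map_map measurable_snd hT0]
      have h1 : (Prod.snd ∘ fun w : (ι → ℝ) × (ι → ℝ) => (thom f w.2, -smap f (g n) w.1)) =
          Neg.neg ∘ (smap f (g n) ∘ Prod.fst) := rfl
      rw [h1, ← Measure.map_map measurable_neg
        ((continuous_smap f (g n)).measurable.comp measurable_fst),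
        ← Measure.map_map (continuous_smap f (g n)).measurable measurable_fst, (hB n).plan.1,
        ← map_nrm (continuous_smap f (g n)).measurable]
      rfl
  · rintro _ ⟨w, ⟨hw, -⟩, rfl⟩
    refine cs_mem hB₁ (fun p hp => ?_) (hB₂' n) ((hB n).sub hw)
    obtain ⟨j, hj⟩ := hp
    rw [hh n j p hj]
    exact hB₁' n j
  · rintro _ ⟨w, ⟨-, hw⟩, rfl⟩
    exact ⟨(isPHom_thom f w.2).nonneg, fun i => by
      rw [div_mul_cancel₀ _ (hc i).ne']
      exact hw i⟩
  · refine (cs_emb f (g n)).ae_map_iff.2 ?_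
    have h1 : ∀ᵐ s ∂(nrm ((sk (cP f part) (h n)).map (thom f))), ∀ i, rsum part i s = c' n i :=
      cs_ae (hT (c' n) (hc' n) (h n) (hh n))
    rw [← map_nrm (continuous_thom f).measurable] at h1
    have h3 : ∀ᵐ v ∂(skProb (cP f part) (h n)), ∀ i, rsum part i (thom f v) = c' n i :=
      ae_of_ae_map (continuous_thom f).measurable.aemeasurable h1
    rw [← (hB n).plan.2] at h3
    have h4 := ae_of_ae_map measurable_snd.aemeasurable h3
    filter_upwards [(hB n).ae, h4] with w hw hw2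
    exact ⟨w, ⟨hw, hw2⟩, rfl⟩
  · exact cycMono_thom (f := f) (g := g n) fun k w hw => (hB n).cyc k w fun i => (hw i).1
  · exact ⟨x n, ⟨(hB n).mem, (hXs n).2.1⟩, rfl⟩

theorem cols_seq (hf : Function.Surjective f) (hD : IsReg (cdeg f part)) {M : Finset κ}
    (hM : IsScale (fun j i => cdeg f part i j) M) (hp : ∀ j, ∃ i, cdeg f part i j ≠ 0)
    {G : σ → ℝ} (hG : ∀ i, 0 < G i) (hc : ∀ j, 0 < c j) {g h : ℕ → (ι → ℝ) → ℝ}
    (hg : ∀ n k, 0 < g n (pray f k))
    (hgl : ∀ i, Tendsto (fun n => gsum f (g n) i) atTop (𝓝 (G i)))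
    {c' : ℕ → κ → ℝ} (hc' : ∀ n j, 0 < c' n j)
    (hc'l : ∀ j, Tendsto (fun n => c' n j) atTop (𝓝 (if j ∈ M then c j else 0)))
    (hh : ∀ n j, ∀ p ∈ cP f part j, h n p = c' n j)
    (hb : ∀ n, IsBad (cP f part) (cQ f part) (g n) (h n)) : False := by
  choose γ Γ x a j y hB hz using fun n => cs_bad hD (hb n)
  obtain ⟨a₀, φ, hφ, haφ⟩ := exists_const_subseq a
  obtain ⟨B₁, hB₁, hB₁'⟩ := cs_bound hc'l
  obtain ⟨B₂, hB₂, hB₂'⟩ := cs_bound hgl
  have hK : IsCompact ((Set.univ.pi fun _ : ι ⊕ σ => Set.Icc (0 : ℝ) B₁) ×ˢ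
      (Set.univ.pi fun _ : ι ⊕ σ => Set.Icc (-B₂) (0 : ℝ))) :=
    (isCompact_univ_pi fun _ => isCompact_Icc).prod (isCompact_univ_pi fun _ => isCompact_Icc)
  have hmem : ∀ n, (thom f (x n).2, -smap f (g n) (x n).1) ∈
      (Set.univ.pi fun _ : ι ⊕ σ => Set.Icc (0 : ℝ) B₁) ×ˢ
      (Set.univ.pi fun _ : ι ⊕ σ => Set.Icc (-B₂) (0 : ℝ)) := fun n => by
    refine cs_mem hB₁ (fun p hp => ?_) (hB₂' n) ((hB n).sub (hB n).mem)
    obtain ⟨j, hj⟩ := hp
    rw [hh n j p hj]
    exact hB₁' n j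
  obtain ⟨⟨s₀, τ₀⟩, -, ψ, hψ, hlim⟩ := hK.tendsto_subseq fun n => hmem (φ n)
  have hφψ : Tendsto (fun n => φ (ψ n)) atTop atTop := hφ.tendsto_atTop.comp hψ.tendsto_atTop
  refine cs_core hf hM (fun j => ?_) hG hc (g := fun n => g (φ (ψ n)))
    (h := fun n => h (φ (ψ n))) (c' := fun n => c' (φ (ψ n))) (fun n => hg _)
    (fun i => (hgl i).comp hφψ) (fun n => hc' _) (fun j => (hc'l j).comp hφψ) (fun n => hh _)
    (γ := fun n => γ (φ (ψ n))) (Γ := fun n => Γ (φ (ψ n))) (x := fun n => x (φ (ψ n)))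
    (a := a₀) (j := fun n => j (φ (ψ n))) (y := fun n => y (φ (ψ n))) (fun n => ?_)
    (fun n => hz _) hlim
  · obtain ⟨i, hi⟩ := hp j
    obtain ⟨k, hk⟩ := Finset.card_pos.1 (Nat.pos_of_ne_zero hi)
    exact ⟨k, (Finset.mem_filter.1 hk).2.2⟩
  · have h1 := hB (φ (ψ n))
    rwa [haφ] at h1

end Pool.Agent.H99.PI
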