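import Pool.Agent.H99.PI.BDefs
import Pool.Agent.H99.ON.BOpen

/-!
# The adiabatic regions: definitions
-/

set_option linter.unusedSectionVars false

open MeasureTheory Matrix
open scoped ENNReal

namespace Pool.Agent.H99.PI

open Pool.Agent.H99.SYZ Pool.Agent.H55.CI Pool.Agent.H2.CI Pool.Agent.H99.ON

/-- The macro rows `M` of the matrix `D` contain all entries `1`, an entry `1` is the only nonzero entry
of its column in the macro rows, and every column has a nonzero entry outside of the macro rows. -/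
structure IsScale {α β : Type} (D : α → β → ℕ) (M : Finset α) : Prop where
  one : ∀ i j, D i j = 1 → i ∈ M
  alone : ∀ i ∈ M, ∀ j, D i j = 1 → ∀ i' ∈ M, i' ≠ i → D i' j = 0
  micro : ∀ j, ∃ i, i ∉ M ∧ D i j ≠ 0

variable {ι σ κ : Type} [Fintype ι] [Fintype σ] [Fintype κ] [DecidableEq ι] [DecidableEq σ]
  [DecidableEq κ]

/-- Up to a translation and a dilation the heights of the powers are near the constants `c j`. -/
def IsClose (f : ι → σ) (part : ι ⊕ σ → κ) (c : κ → ℝ) (ε : ℝ) (h : (ι → ℝ) → ℝ) : Prop :=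
  ∃ (s : ℝ) (t : ι → ℝ), 0 < s ∧ ∀ j, ∀ p ∈ cP f part j, |h p - s * (c j + t ⬝ᵥ p)| < ε * s

end Pool.Agent.H99.PI
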