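import Pool.Agent.H99.PI.DBad
import Pool.Agent.H2.CI.UAll

/-!
# Further monomials, and the consequences of the absence of bad points
-/

set_option linter.unusedSectionVars false

open MeasureTheory Matrix Filter Topology
open scoped ENNReal

namespace Pool.Agent.H99.PI

open Pool.Agent.H99.SYZ Pool.Agent.H55.CI Pool.Agent.H2.CI Pool.Agent.H99.ON
open Pool.Agent.H2.MA (IsConj contact CycMono)
open Pool.Agent.H61.OT (IsPlan IsOptimal)

variable {ι σ κ : Type} [Fintype ι] [Fintype σ] [Fintype κ] [DecidableEq ι] [DecidableEq σ]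
  [DecidableEq κ] {f : ι → σ} {part : ι ⊕ σ → κ} {g h : (ι → ℝ) → ℝ} {c : κ → ℝ}
  {P : κ → Set (ι → ℝ)}

/-- If `p ∈ P j` is not in `cP j` then the set `S` of `IsHigher.hull` has two different elements, and both
are tight where `p` is. -/
theorem isAbove_of_higher (hP : ∀ j, P j ⊆ cfull f part j) (H : IsHigher (cP f part) P h) :
    IsAbove (cP f part) P h := by
  refine ⟨fun j => (finite_cfull j).subset (hP j), H.sub,
    fun i j hij => (cfull_disjoint hij).mono (hP i) (hP j), ?_, ?_⟩
  · intro j p hp n hn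
    obtain ⟨S, b, hS, hb, h1, h2, h3⟩ := H.hull j p hp
    have h4 : n ⬝ᵥ p = ∑ x ∈ S, b x * (n ⬝ᵥ x) := by
      rw [← h2, dotProduct_sum]
      exact Finset.sum_congr rfl fun x _ => by rw [dotProduct_smul, smul_eq_mul]
    rw [h4]
    exact (Finset.sum_le_sum fun x hx =>
      mul_le_mul_of_nonneg_left (hn x ⟨j, hS hx⟩) (hb x hx).le).trans h3
  · intro j p hp hp0 n hn ht
    obtain ⟨S, b, hS, hb, h1, h2, h3⟩ := H.hull j p hp
    have h4 : n ⬝ᵥ p = ∑ x ∈ S, b x * (n ⬝ᵥ x) := by
      rw [← h2, dotProduct_sum]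
      exact Finset.sum_congr rfl fun x _ => by rw [dotProduct_smul, smul_eq_mul]
    have h5 : ∀ x ∈ S, b x * (n ⬝ᵥ x) ≤ b x * h x := fun x hx =>
      mul_le_mul_of_nonneg_left (hn x ⟨j, hS hx⟩) (hb x hx).le
    have h6 : ∑ x ∈ S, b x * (n ⬝ᵥ x) = ∑ x ∈ S, b x * h x :=
      le_antisymm (Finset.sum_le_sum h5) (by rw [← h4, ht]; exact h3)
    have h7 : ∀ x ∈ S, n ⬝ᵥ x = h x := fun x hx =>
      mul_left_cancel₀ (hb x hx).ne' ((Finset.sum_eq_sum_iff_of_le h5).1 h6 x hx)
    have h8 : 1 < S.card := by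
      by_contra hc
      have hc1 : S.card ≤ 1 := not_lt.1 hc
      have hne : S.Nonempty := by
        rw [Finset.nonempty_iff_ne_empty]
        rintro rfl
        simp at h1
      obtain ⟨x, hx⟩ := Finset.card_eq_one.1 (le_antisymm hc1 (Finset.card_pos.2 hne))
      rw [hx, Finset.sum_singleton] at h1 h2
      rw [h1, one_smul] at h2
      refine hp0 (h2 ▸ hS ?_)
      rw [hx]
      simp
    obtain ⟨a, ha, b', hb', hab⟩ := Finset.one_lt_card.1 h8
    exact ⟨a, hS ha, b', hS hb', hab, h7 a ha, h7 b' hb'⟩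

/-- What is proved: for the powers `cP` there are no bad points, so all solutions are strict; for the
further monomials the equations have solutions, unique up to constants, and the optimal plan is
unique and nonsingular. -/
structure IsGoodAt (f : ι → σ) (part : ι ⊕ σ → κ) (P : κ → Set (ι → ℝ)) (g h : (ι → ℝ) → ℝ) :
    Prop where
  solvable : IsSolvable P (cQ f part) g h
  uniq : IsUniq P (cQ f part) g h
  nonsing : ∀ γ, IsOptimal (skProb (cQ f part) g) (skProb P h) γ →
    IsNonsing P (cQ f part) g h γ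
  plan : ∃! γ, IsOptimal (skProb (cQ f part) g) (skProb P h) γ
  strict : IsStrict (cP f part) (cQ f part) g h
  bddP : Bornology.IsBounded (poly (un P) h)

theorem goodAt (hf : Function.Surjective f) (hs : HasSec f part)
    (hg : ∀ k, 0 < g (pray f k)) (hh : IsStrong (cP f part) h)
    (hb : ¬ IsBad (cP f part) (cQ f part) g h) (hP : ∀ j, P j ⊆ cfull f part j)
    (H : IsHigher (cP f part) P h) : IsGoodAt f part P g h := by
  classical
  have hpair : IsNefPair (cP f part) (cQ f part) := c_pair fun j => cP_subset j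
  have hnef : IsNef (cP f part) (cQ f part) g h := isNef_of_strong hpair (c_strongQ hf hg) hh
  have hne := c_ne hf hs hh.pos
  have hA : IsAbove (cP f part) P h := isAbove_of_higher hP H
  have hns := nonsing_of_not_bad hnef hne hb
  have hcr := criterion_all hnef hne
  have hsol : IsSolvable (cP f part) (cQ f part) g h := hcr.1.2 hns
  have hsk : skProb P h = skProb (cP f part) h := by
    unfold skProb
    rw [hA.sk_eq]
  refine ⟨hA.isSolvable hsol, hA.isUniq (isUniq hnef), ?_, ?_,
    isStrict_of_not_bad hnef hne hb, ?_⟩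
  · intro γ hγ
    rw [hsk] at hγ
    have h1 := hns γ hγ
    unfold IsNonsing at h1 ⊢
    filter_upwards [h1] with x hx p hp q hq hxq hxp
    by_cases hp0 : p ∈ tup (cP f part)
    · rw [hA.oface_eq hp0] at hxp
      exact hx p hp0 q hq hxq hxp
    · rw [hA.oface_empty hp hp0] at hxp
      exact absurd hxp (Set.notMem_empty _)
  · rw [hsk]
    exact hcr.2.2 hsol
  · rw [hA.poly_eq]
    exact hh.bdd

/-- Heights with the same sums over the factors differ by a translation. -/
theorem exists_translation {g g' : (ι → ℝ) → ℝ} (h : ∀ i, gsum f g i = gsum f g' i) :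
    ∃ τ : ι → ℝ, ∀ k, g (pray f k) = g' (pray f k) + τ ⬝ᵥ pray f k := by
  obtain ⟨τ, hτ⟩ := exists_dot_pray (f := f) (b := fun k => g (pray f k) - g' (pray f k))
    (fun i => by
      have h1 := h i
      unfold gsum at h1
      rw [← sub_eq_zero, ← Finset.sum_sub_distrib] at h1
      refine Eq.trans (Finset.sum_congr rfl fun k _ => ?_) h1
      split_ifs
      · rfl
      · rw [sub_zero])
  refine ⟨τ, fun k => ?_⟩
  rw [hτ k]
  ring

/-- Heights with given sums. -/
theorem exists_gsum {G : σ → ℝ} (hf : Function.Surjective f) :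
    ∃ g : (ι → ℝ) → ℝ, ∀ k, g (pray f k) = G (fac f k) / (pdeg f (fac f k) : ℝ) := by
  refine ⟨Function.extend (pray f) (fun k => G (fac f k) / (pdeg f (fac f k) : ℝ)) 0,
    fun k => ?_⟩
  exact (pray_injective hf).extend_apply _ _ k

theorem gsum_of {G : σ → ℝ} {g : (ι → ℝ) → ℝ}
    (hg : ∀ k, g (pray f k) = G (fac f k) / (pdeg f (fac f k) : ℝ)) (i : σ) :
    gsum f g i = G i := by
  have hd : (pdeg f i : ℝ) ≠ 0 := by
    have h1 : 0 < pdeg f i := by
      rw [pdeg, Finset.card_pos]
      exact ⟨Sum.inr i, Finset.mem_filter.2 ⟨Finset.mem_univ _, rfl⟩⟩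
    exact_mod_cast h1.ne'
  have h1 : gsum f g i = ∑ k, if fac f k = i then G i / (pdeg f i : ℝ) else 0 := by
    unfold gsum
    refine Finset.sum_congr rfl fun k _ => ?_
    split_ifs with hk
    · rw [hg k, hk]
    · rfl
  rw [h1, ← Finset.sum_filter, Finset.sum_const, nsmul_eq_mul]
  exact mul_div_cancel₀ _ hd

/-- Heights with given constants on the parts. -/
theorem exists_const (f : ι → σ) (part : ι ⊕ σ → κ) (c : κ → ℝ) :
    ∃ h : (ι → ℝ) → ℝ, ∀ j, ∀ p ∈ cP f part j, h p = c j := by
  classical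
  refine ⟨fun p => ∑ i, if p ∈ cP f part i then c i else 0, fun j p hp => ?_⟩
  have h1 : ∀ i, (if p ∈ cP f part i then c i else 0) = if i = j then c j else 0 := by
    intro i
    by_cases hi : i = j
    · subst hi
      simp [hp]
    · have h2 : p ∉ cP f part i := fun h3 =>
        Set.disjoint_left.1 (cfull_disjoint hi) (cP_subset i h3) (cP_subset j hp)
      simp [hi, h2]
  change (∑ i, if p ∈ cP f part i then c i else 0) = c j
  rw [Finset.sum_congr rfl fun i _ => h1 i]
  simp

end Pool.Agent.H99.PI
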