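import Pool.Agent.H99.PI.DCol
import Pool.Agent.H99.PI.DFine

/-!
# Adiabatic limits, columns
-/

set_option linter.unusedSectionVars false

open MeasureTheory Matrix Filter Topology
open scoped ENNReal

namespace Pool.Agent.H99.PI

open Pool.Agent.H99.SYZ Pool.Agent.H55.CI Pool.Agent.H2.CI Pool.Agent.H99.ON
open Pool.Agent.H2.MA (IsConj contact CycMono)
open Pool.Agent.H61.OT (IsPlan IsOptimal)

variable {ι σ κ : Type} [Fintype ι] [Fintype σ] [Fintype κ] [DecidableEq ι] [DecidableEq σ]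
  [DecidableEq κ] {f : ι → σ} {part : ι ⊕ σ → κ} {c : κ → ℝ}

/-- Sections which cover no factor. -/
private theorem dmc_sec {M : Finset κ} (hM : IsScale (fun j i => cdeg f part i j) M)
    (hp : ∀ j, ∃ i, cdeg f part i j ≠ 0) : HasSec f part := by
  classical
  have h1 : ∀ j, ∃ k, part k = j := by
    intro j
    obtain ⟨i, hi⟩ := hp j
    unfold cdeg at hi
    obtain ⟨k, hk⟩ := Finset.card_ne_zero.1 hi
    exact ⟨k, (Finset.mem_filter.1 hk).2.2⟩
  choose z hz using h1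
  have h2 : ∀ i, ∃ k, fac f k = i ∧ ∀ j, k ≠ z j := by
    intro i
    obtain ⟨j, hjM, hj⟩ := hM.micro i
    have hj0 : cdeg f part i j ≠ 0 := hj
    have hj1 : cdeg f part i j ≠ 1 := fun h => hjM (hM.one j i h)
    have h3 : 1 < cdeg f part i j := by omega
    unfold cdeg at h3
    obtain ⟨a, ha, b, hb, hab⟩ := Finset.one_lt_card.1 h3
    rw [Finset.mem_filter] at ha hb
    have h4 : ∀ k, part k = j → k ≠ z j → ∀ j', k ≠ z j' := by
      intro k hk hkz j' hkj'
      have h5 : j' = j := by rw [← hz j', ← hkj', hk]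
      rw [h5] at hkj'
      exact hkz hkj'
    by_cases h5 : a = z j
    · exact ⟨b, hb.2.1, h4 b hb.2.2 fun h => hab (h5.trans h.symm)⟩
    · exact ⟨a, ha.2.1, h4 a ha.2.2 h5⟩
  choose e he he' using h2
  exact ⟨z, e, hz, he, he'⟩

/-- The choice of `δ`. -/
private theorem dmc_delta (hf : Function.Surjective f) (hD : IsReg (cdeg f part)) {M : Finset κ}
    (hM : IsScale (fun j i => cdeg f part i j) M) (hp : ∀ j, ∃ i, cdeg f part i j ≠ 0)
    {G : σ → ℝ} (hG : ∀ i, 0 < G i) (hc : ∀ j, 0 < c j) :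
    ∃ δ : ℝ, 0 < δ ∧ ∀ (G' : σ → ℝ) (c' : κ → ℝ) (g h : (ι → ℝ) → ℝ), (∀ i, |G' i - G i| < δ) →
      (∀ j ∈ M, |c' j - c j| < δ) → (∀ j, j ∉ M → c' j < δ) → (∀ j, 0 < c' j) →
      (∀ k, 0 < g (pray f k)) → (∀ i, gsum f g i = G' i) →
      (∀ j, ∀ p ∈ cP f part j, h p = c' j) → ¬ IsBad (cP f part) (cQ f part) g h := by
  by_contra hcon
  push Not at hcon
  have hpos : ∀ n : ℕ, (0 : ℝ) < 1 / ((n : ℝ) + 1) := fun n => by positivity
  choose G' c' g h h1 h2 h3 h4 h5 h6 h7 h8 using fun n : ℕ =>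
    hcon (1 / ((n : ℝ) + 1)) (hpos n)
  have hlim : Tendsto (fun n : ℕ => 1 / ((n : ℝ) + 1)) atTop (𝓝 0) :=
    tendsto_one_div_add_atTop_nhds_zero_nat
  refine cols_seq hf hD hM hp hG hc (g := g) (h := h) (c' := c') h5 ?_ h4 ?_ h7 h8
  · intro i
    have h9 : Tendsto (fun n => G' n i - G i) atTop (𝓝 0) :=
      squeeze_zero_norm (fun n => (h1 n i).le) hlim
    have h10 := h9.add_const (G i)
    simp only [sub_add_cancel, zero_add] at h10
    exact h10.congr fun n => (h6 n i).symm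
  · intro j
    split_ifs with hj
    · have h9 : Tendsto (fun n => c' n j - c j) atTop (𝓝 0) :=
        squeeze_zero_norm (fun n => (h2 n j hj).le) hlim
      have h10 := h9.add_const (c j)
      simp only [sub_add_cancel, zero_add] at h10
      exact h10
    · exact squeeze_zero (fun n => (h4 n j).le) (fun n => (h3 n j hj).le) hlim

/-- **Adiabatic limits, columns.** First `δ`, by contradiction from `cols_seq`; then `ε` by `near_good`
(`Pool.Agent.H99.ON.NearStrict`; `criterion_all`, `isStrict_of_not_bad` for the heights with the sums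
`G'` and the constants `c'`), after a translation of `g` (`exists_translation`). -/
theorem main_cols (hf : Function.Surjective f) (hD : IsReg (cdeg f part)) {M : Finset κ}
    (hM : IsScale (fun j i => cdeg f part i j) M) (hp : ∀ j, ∃ i, cdeg f part i j ≠ 0)
    {G : σ → ℝ} (hG : ∀ i, 0 < G i) (hc : ∀ j, 0 < c j) :
    ∃ δ : ℝ, 0 < δ ∧ ∀ (G' : σ → ℝ) (c' : κ → ℝ), (∀ i, |G' i - G i| < δ) →
      (∀ j ∈ M, |c' j - c j| < δ) → (∀ j, j ∉ M → c' j < δ) → (∀ i, 0 < G' i) →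
      (∀ j, 0 < c' j) →
      ∃ ε : ℝ, 0 < ε ∧ ∀ g h : (ι → ℝ) → ℝ, (∀ k, 0 < g (pray f k)) →
        (∀ p ∈ un (cP f part), 0 < h p) →
        (∃ r : ℝ, 0 < r ∧ ∀ i, |gsum f g i - r * G' i| < ε * r) →
        IsClose f part c' ε h → ∀ P : κ → Set (ι → ℝ), (∀ j, P j ⊆ cfull f part j) →
          IsHigher (cP f part) P h → IsGoodAt f part P g h := by
  classical
  obtain ⟨δ, hδ, H⟩ := dmc_delta hf hD hM hp hG hc
  refine ⟨δ, hδ, fun G' c' h1 h2 h3 hG' hc' => ?_⟩
  have hs : HasSec f part := dmc_sec hM hp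
  have hd : ∀ i, (1 : ℝ) ≤ (pdeg f i : ℝ) := by
    intro i
    have h4 : 0 < pdeg f i := by
      rw [pdeg, Finset.card_pos]
      exact ⟨Sum.inr i, Finset.mem_filter.2 ⟨Finset.mem_univ _, rfl⟩⟩
    exact_mod_cast h4
  have hd0 : ∀ i, (0 : ℝ) < (pdeg f i : ℝ) := fun i => lt_of_lt_of_le one_pos (hd i)
  obtain ⟨g₀, hg₀⟩ := exists_gsum (f := f) (G := G') hf
  obtain ⟨h₀, hh₀⟩ := exists_const f part c'
  have hg₀p : ∀ k, 0 < g₀ (pray f k) := fun k => by
    rw [hg₀ k]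
    exact div_pos (hG' _) (hd0 _)
  have hpair : IsNefPair (cP f part) (cQ f part) := c_pair fun j => cP_subset j
  have hQs : IsStrong (cQ f part) g₀ := c_strongQ hf hg₀p
  have hPs : IsStrong (cP f part) h₀ := c_strongP hc' hh₀
  have hnef : IsNef (cP f part) (cQ f part) g₀ h₀ := isNef_of_strong hpair hQs hPs
  have hne := c_ne hf hs hPs.pos
  have hb : ¬ IsBad (cP f part) (cQ f part) g₀ h₀ :=
    H G' c' g₀ h₀ h1 h2 h3 hc' hg₀p (gsum_of hg₀) hh₀
  have hsol : IsSolvable (cP f part) (cQ f part) g₀ h₀ :=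
    (criterion_all hnef hne).1.2 (nonsing_of_not_bad hnef hne hb)
  have hst : IsStrict (cP f part) (cQ f part) g₀ h₀ := isStrict_of_not_bad hnef hne hb
  obtain ⟨ε, hε, H'⟩ := near_good hpair hQs hPs hne hsol hst
  refine ⟨ε, hε, ?_⟩
  rintro g h hg hh ⟨r, hr, hgr⟩ ⟨s, t, hs0, hst'⟩ P hP HP
  -- the heights `g₁`
  obtain ⟨g₁, hg₁⟩ := exists_gsum (f := f) (G := fun i => gsum f g i / r) hf
  have hg₁s : ∀ i, gsum f g₁ i = gsum f g i / r := gsum_of hg₁
  have hgs : ∀ i, gsum f g i = gsum f (fun q => r * g₁ q) i := by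
    intro i
    have h4 : gsum f (fun q => r * g₁ q) i = r * gsum f g₁ i := by
      unfold gsum
      rw [Finset.mul_sum]
      refine Finset.sum_congr rfl fun k _ => ?_
      split_ifs
      · rfl
      · rw [mul_zero]
    rw [h4, hg₁s i]
    field_simp
  obtain ⟨τ, hτ⟩ := exists_translation hgs
  have hgq : ∀ q ∈ un (cQ f part), g q = r * g₁ q + τ ⬝ᵥ q := by
    rintro q ⟨j, k, -, rfl⟩
    exact hτ k
  have hgn : ∀ q ∈ un (cQ f part), |g₁ q - g₀ q| < ε := by
    rintro q ⟨j, k, -, rfl⟩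
    rw [hg₁ k, hg₀ k, ← sub_div, abs_div, abs_of_pos (hd0 _)]
    have h4 : |gsum f g (fac f k) / r - G' (fac f k)| < ε := by
      have h5 : gsum f g (fac f k) / r - G' (fac f k) =
          (gsum f g (fac f k) - r * G' (fac f k)) / r := by
        field_simp
      rw [h5, abs_div, abs_of_pos hr, div_lt_iff₀ hr]
      exact hgr _
    exact (div_le_self (abs_nonneg _) (hd _)).trans_lt h4
  -- the heights `h₁`
  obtain ⟨h₁, hh₁⟩ : ∃ h₁ : (ι → ℝ) → ℝ, ∀ p, h₁ p = h p / s - t ⬝ᵥ p := ⟨_, fun _ => rfl⟩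
  have hhp : ∀ p, h p = s * h₁ p + (s • t) ⬝ᵥ p := by
    intro p
    rw [hh₁ p, smul_dotProduct, smul_eq_mul]
    field_simp
    ring
  have hhn : ∀ p ∈ un (cP f part), |h₁ p - h₀ p| < ε := by
    rintro p ⟨j, hpj⟩
    rw [hh₀ j p hpj]
    have h4 := hst' j p hpj
    have h5 : h p - s * (c' j + t ⬝ᵥ p) = s * (h₁ p - c' j) := by
      rw [hhp p, smul_dotProduct, smul_eq_mul]
      ring
    rw [h5, abs_mul, abs_of_pos hs0, mul_comm] at h4
    exact lt_of_mul_lt_mul_right h4 hs0.le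
  obtain ⟨-, hP1, -, hB1⟩ := H' g₁ h₁ hgn hhn
  have hPst : IsStrong (cP f part) h := hP1.sim hpair.finP hs0 (fun p _ => hhp p) hh
  exact goodAt hf hs hg hPst (fun hbad => hB1 (hbad.sim hpair.finQ hpair.finP (zero_notMem_cQ hf)
    zero_notMem_cP hr hs0 hgq fun p _ => hhp p)) hP HP

end Pool.Agent.H99.PI
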