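import Pool.Agent.H99.PI.DRow
import Pool.Agent.H99.PI.DFine

/-!
# Adiabatic limits, rows
-/

set_option linter.unusedSectionVars false

open MeasureTheory Matrix Filter Topology
open scoped ENNReal

namespace Pool.Agent.H99.PI

open Pool.Agent.H99.SYZ Pool.Agent.H55.CI Pool.Agent.H2.CI Pool.Agent.H99.ON
open Pool.Agent.H2.MA (IsConj contact CycMono)
open Pool.Agent.H61.OT (IsPlan IsOptimal)

variable {ι σ κ : Type} [Fintype ι] [Fintype σ] [Fintype κ] [DecidableEq ι] [DecidableEq σ]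
  [DecidableEq κ] {f : ι → σ} {part : ι ⊕ σ → κ} {c : κ → ℝ}

/-- One step: if the heights are not good then the heights after a dilation (and a translation of the
heights of the monomials) have bad points. -/
private theorem DMainR_step (hf : Function.Surjective f) (hs : HasSec f part) {M : Finset σ}
    {G : σ → ℝ} {h₀ : (ι → ℝ) → ℝ} (hh₀ : ∀ j, ∀ p ∈ cP f part j, h₀ p = c j) {δ : ℝ}
    (hopen : ∀ h' : (ι → ℝ) → ℝ, (∀ p ∈ un (cP f part), |h' p - h₀ p| < δ) →
      IsStrong (cP f part) h')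
    {g h : (ι → ℝ) → ℝ} (hg : ∀ k, 0 < g (pray f k)) (hh : ∀ p ∈ un (cP f part), 0 < h p)
    (hr : ∃ r : ℝ, 0 < r ∧ (∀ i ∈ M, |gsum f g i - r * G i| < δ * r) ∧
      ∀ i, i ∉ M → gsum f g i < δ * r)
    (hcl : IsClose f part c δ h) {P : κ → Set (ι → ℝ)} (hP : ∀ j, P j ⊆ cfull f part j)
    (H : IsHigher (cP f part) P h) (hn : ¬ IsGoodAt f part P g h) :
    ∃ g₁ h₁ : (ι → ℝ) → ℝ, (∀ k, 0 < g₁ (pray f k)) ∧
      (∀ i, |gsum f g₁ i - (if i ∈ M then G i else 0)| < δ) ∧
      (∀ p ∈ un (cP f part), 0 < h₁ p) ∧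
      (∀ j, ∀ p ∈ cP f part j, |h₁ p - c j| < δ) ∧
      IsBad (cP f part) (cQ f part) g₁ h₁ := by
  obtain ⟨r, hr, hM, hM'⟩ := hr
  obtain ⟨s, t, hs0, ht⟩ := hcl
  have hfP : ∀ j, (cP f part j).Finite := fun j => (finite_cfull j).subset (cP_subset j)
  let h₁ : (ι → ℝ) → ℝ := fun p => h p / s - t ⬝ᵥ p
  have e1 : ∀ p, h p = s * h₁ p + (s • t) ⬝ᵥ p := by
    intro p
    change h p = s * (h p / s - t ⬝ᵥ p) + (s • t) ⬝ᵥ p
    rw [smul_dotProduct, smul_eq_mul]
    field_simp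
    ring
  have e2 : ∀ j, ∀ p ∈ cP f part j, |h₁ p - c j| < δ := by
    intro j p hp
    have h3 := ht j p hp
    have h4 : h p - s * (c j + t ⬝ᵥ p) = s * (h₁ p - c j) := by
      rw [e1 p, smul_dotProduct, smul_eq_mul]; ring
    rw [h4, abs_mul, abs_of_pos hs0, mul_comm] at h3
    exact lt_of_mul_lt_mul_right h3 hs0.le
  have hS₁ : IsStrong (cP f part) h₁ := hopen h₁ (by
    rintro p ⟨j, hp⟩
    rw [hh₀ j p hp]
    exact e2 j p hp)
  have hS : IsStrong (cP f part) h := hS₁.sim hfP hs0 (fun p _ => e1 p) hh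
  have hb : IsBad (cP f part) (cQ f part) g h := by
    by_contra hb
    exact hn (goodAt hf hs hg hS hb hP H)
  let g₁ : (ι → ℝ) → ℝ := fun q => g q / r
  have hsum : ∀ i, gsum f g₁ i = gsum f g i / r := by
    intro i
    unfold gsum
    rw [Finset.sum_div]
    refine Finset.sum_congr rfl fun k _ => ?_
    split_ifs
    · rfl
    · rw [zero_div]
  refine ⟨g₁, h₁, fun k => div_pos (hg k) hr, fun i => ?_, hS₁.pos, e2, ?_⟩
  · rw [hsum i]
    split_ifs with hi
    · have h5 := hM i hi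
      have h6 : gsum f g i - r * G i = (gsum f g i / r - G i) * r := by
        field_simp
      rw [h6, abs_mul, abs_of_pos hr] at h5
      exact lt_of_mul_lt_mul_right h5 hr.le
    · have h5 := hM' i hi
      have h6 : 0 ≤ gsum f g i := by
        unfold gsum
        refine Finset.sum_nonneg fun k _ => ?_
        split_ifs
        · exact (hg k).le
        · exact le_rfl
      rw [sub_zero, abs_of_nonneg (div_nonneg h6 hr.le), div_lt_iff₀ hr]
      exact h5
  · exact hb.sim (fun j => finite_cQ j) hfP (zero_notMem_cQ hf) zero_notMem_cP hr hs0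
      (τ := 0) (fun q _ => by
        change g q = r * (g q / r) + 0 ⬝ᵥ q
        rw [zero_dotProduct, add_zero, mul_div_cancel₀ _ hr.ne']) (fun p _ => e1 p)

/-- **Adiabatic limits, rows.** By contradiction: if the statement is false for all
`δ = 1 / (n + 1)` then (after a translation and dilations of the heights, `IsBad.sim`) there are
sequences as in `rows_seq`. The heights `h n` are strong for large `n` (`isStrong_open`, `c_strongP`), so
`goodAt` gives bad points. -/
theorem main_rows (hf : Function.Surjective f) (hD : IsReg (cdeg f part)) {M : Finset σ}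
    (hM : IsScale (cdeg f part) M) {G : σ → ℝ} (hG : ∀ i, 0 < G i) (hc : ∀ j, 0 < c j) :
    ∃ δ : ℝ, 0 < δ ∧ ∀ g h : (ι → ℝ) → ℝ, (∀ k, 0 < g (pray f k)) →
      (∀ p ∈ un (cP f part), 0 < h p) →
      (∃ r : ℝ, 0 < r ∧ (∀ i ∈ M, |gsum f g i - r * G i| < δ * r) ∧
        ∀ i, i ∉ M → gsum f g i < δ * r) →
      IsClose f part c δ h → ∀ P : κ → Set (ι → ℝ), (∀ j, P j ⊆ cfull f part j) →
        IsHigher (cP f part) P h → IsGoodAt f part P g h := by
  classical
  have hs : HasSec f part := exists_sec (fun i => ⟨Sum.inr i, rfl⟩) (isThick_of_scale hM)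
  obtain ⟨h₀, hh₀⟩ := exists_const f part c
  have hfP : ∀ j, (cP f part j).Finite := fun j => (finite_cfull j).subset (cP_subset j)
  obtain ⟨ε₀, hε₀, hopen⟩ := isStrong_open hfP (c_strongP hc hh₀)
  by_contra hcon
  have key : ∀ n : ℕ, ∃ g₁ h₁ : (ι → ℝ) → ℝ, (∀ k, 0 < g₁ (pray f k)) ∧
      (∀ i, |gsum f g₁ i - (if i ∈ M then G i else 0)| < ε₀ / ((n : ℝ) + 1)) ∧
      (∀ p ∈ un (cP f part), 0 < h₁ p) ∧
      (∀ j, ∀ p ∈ cP f part j, |h₁ p - c j| < ε₀ / ((n : ℝ) + 1)) ∧
      IsBad (cP f part) (cQ f part) g₁ h₁ := by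
    intro n
    have hn1 : (0 : ℝ) < (n : ℝ) + 1 := by positivity
    have hδ : 0 < ε₀ / ((n : ℝ) + 1) := div_pos hε₀ hn1
    have hle : ε₀ / ((n : ℝ) + 1) ≤ ε₀ :=
      div_le_self hε₀.le (by linarith [(Nat.cast_nonneg n : (0 : ℝ) ≤ n)])
    by_contra hno
    refine hcon ⟨_, hδ, fun g h hg hh hr hcl P hP H => ?_⟩
    by_contra hn
    exact hno (DMainR_step hf hs hh₀ (fun h' hh' => hopen h' fun p hp => (hh' p hp).trans_le hle)
      hg hh hr hcl hP H hn)
  choose g h hg hgl hh hhl hb using key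
  have hlim : Tendsto (fun n : ℕ => ε₀ / ((n : ℝ) + 1)) atTop (𝓝 0) := by
    have h1 := (tendsto_one_div_add_atTop_nhds_zero_nat (𝕜 := ℝ)).const_mul ε₀
    rw [mul_zero] at h1
    refine h1.congr fun n => ?_
    rw [mul_one_div]
  refine rows_seq hf hD hM hG hc hg (fun i => ?_) hh (fun j p hp => ?_) hb
  · rw [tendsto_iff_norm_sub_tendsto_zero]
    exact squeeze_zero (fun n => norm_nonneg _) (fun n => (hgl n i).le) hlim
  · rw [tendsto_iff_norm_sub_tendsto_zero]
    exact squeeze_zero (fun n => norm_nonneg _) (fun n => (hhl n j p hp).le) hlim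

end Pool.Agent.H99.PI
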