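import Pool.Agent.H99.PI.DFine

/-!
# Degree matrices without entries `1`
-/

set_option linter.unusedSectionVars false

open MeasureTheory Matrix Filter Topology
open scoped ENNReal

namespace Pool.Agent.H99.PI

open Pool.Agent.H99.SYZ Pool.Agent.H55.CI Pool.Agent.H2.CI Pool.Agent.H99.ON
open Pool.Agent.H2.MA (IsConj contact CycMono)
open Pool.Agent.H61.OT (IsPlan IsOptimal)

variable {ι σ κ : Type} [Fintype ι] [Fintype σ] [Fintype κ] [DecidableEq ι] [DecidableEq σ]
  [DecidableEq κ] {f : ι → σ} {part : ι ⊕ σ → κ} {c : κ → ℝ}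

/-- **Degree matrices without entries `1`.** (Every pair of tuples is nonsingular, `c_nondeg`.) -/
theorem main_none (hf : Function.Surjective f) (hD : IsReg (cdeg f part))
    (h1 : ∀ i j, cdeg f part i j ≠ 1) (hp : ∀ j, ∃ i, cdeg f part i j ≠ 0)
    {P : κ → Set (ι → ℝ)} (hP : ∀ j, P j ⊆ cfull f part j) {g h : (ι → ℝ) → ℝ}
    (hg : ∀ k, 0 < g (pray f k)) (hh : IsStrong (cP f part) h)
    (H : IsHigher (cP f part) P h) : IsGoodAt f part P g h := by
  have hs : HasSec f part := by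
    refine exists_sec (M := (∅ : Finset σ)) (fun i => ⟨Sum.inr i, rfl⟩) fun j => ?_
    obtain ⟨i, hi⟩ := hp j
    have h2 : 1 < (Finset.univ.filter fun k => fac f k = i ∧ part k = j).card := by
      have h3 : cdeg f part i j ≠ 1 := h1 i j
      unfold cdeg at hi h3
      omega
    obtain ⟨k, hk, k', hk', hne⟩ := Finset.one_lt_card.mp h2
    rw [Finset.mem_filter] at hk hk'
    exact ⟨k, k', hne, hk.2.1.trans hk'.2.1.symm, Finset.notMem_empty _, hk.2.2, hk'.2.2⟩
  refine goodAt hf hs hg hh ?_ hP H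
  rintro ⟨γ, Γ, x, y, -, -, -, -, -, hy1, hy2, hdet, -, -⟩
  exact c_nondeg hD h1 hy1 hy2 hdet

end Pool.Agent.H99.PI
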