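import Pool.Agent.H99.PI.DBad
import Pool.Agent.H99.PI.CFlatS
import Pool.Agent.H99.PI.CFlatT
import Pool.Agent.H99.PI.AMacro

/-!
# No bad points in the adiabatic limit (rows)

Suppose that there are bad points for all `n` (`exists_badPt`). Pass to a subsequence on which `a`, `j`
and `y` are constant and the points `(smap f (g n) x.1, -thom f x.2)`, which are in a compact set,
converge to `(s₀, τ₀)`. Then `s₀ a = 0`, and `thom_limit` gives `-τ₀ ∈ Xs part (fac f) c`, `τ₀ a = 0`. Let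
`h₀ p = ∑ j, if p ∈ cP j then c j else 0`, which is `c j` on `cP j` (`cfull_disjoint`),
`μ n = (sk (cQ f part) (g n)).map (smap f (g n))`, flat with the sums `gsum f (g n) = lam n * G`,
`ν = (sk (cP f part) h₀).map (thom f)`, flat with the sums `c`, and
`ρ n = (skProb (cP f part) (h n)).map (fun x => -thom f x)`, which converges to `(nrm ν).map Neg.neg` by
`tendsto_skProb` (`Pool.Agent.H99.ON.Weak`; use `c_strongP`, `c_strongQ`, `isNef_of_strong`). The plan is the
image of the plan of the bad point, the carriers are the images of the carriers (`cycMono_smap`).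
Apply `macro_false` with `row = fac f`, `col = part`. `IsThick` follows from `H.micro` and `H.one` (a
nonzero entry outside of `M` is at least `2`), `ha` from `H.alone` and `cdeg_one`, `ha'` from `exists_two`.
-/

set_option linter.unusedSectionVars false

open MeasureTheory Matrix Filter Topology
open scoped ENNReal

namespace Pool.Agent.H99.PI

open Pool.Agent.H99.SYZ Pool.Agent.H55.CI Pool.Agent.H2.CI Pool.Agent.H99.ON
open Pool.Agent.H2.MA (IsConj contact CycMono)
open Pool.Agent.H61.OT (IsPlan IsOptimal)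

variable {ι σ κ : Type} [Fintype ι] [Fintype σ] [Fintype κ] [DecidableEq ι] [DecidableEq σ]
  [DecidableEq κ] {f : ι → σ} {part : ι ⊕ σ → κ} {c : κ → ℝ}

theorem isThick_of_scale {M : Finset σ} (H : IsScale (cdeg f part) M) :
    IsThick (fac f) part M := by
  intro j
  obtain ⟨i, hi, h0⟩ := H.micro j
  have h1 : cdeg f part i j ≠ 1 := fun h => hi (H.one i j h)
  have h2 : 1 < (Finset.univ.filter fun k => fac f k = i ∧ part k = j).card := by
    have h3 : (Finset.univ.filter fun k => fac f k = i ∧ part k = j).card = cdeg f part i j := rfl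
    omega
  obtain ⟨k, hk, k', hk', hne⟩ := Finset.one_lt_card.1 h2
  have e1 := (Finset.mem_filter.1 hk).2
  have e2 := (Finset.mem_filter.1 hk').2
  exact ⟨k, k', hne, e1.1.trans e2.1.symm, by rw [e1.1]; exact hi, e1.2, e2.2⟩

theorem isThick_of_scale' {M : Finset κ} (H : IsScale (fun j i => cdeg f part i j) M) :
    IsThick part (fac f) M := by
  intro i
  obtain ⟨j, hj, h0⟩ := H.micro i
  have h1 : cdeg f part i j ≠ 1 := fun h => hj (H.one j i h)
  have h2 : 1 < (Finset.univ.filter fun k => fac f k = i ∧ part k = j).card := by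
    have h3 : (Finset.univ.filter fun k => fac f k = i ∧ part k = j).card = cdeg f part i j := rfl
    have h4 : cdeg f part i j ≠ 0 := h0
    omega
  obtain ⟨k, hk, k', hk', hne⟩ := Finset.one_lt_card.1 h2
  have e1 := (Finset.mem_filter.1 hk).2
  have e2 := (Finset.mem_filter.1 hk').2
  exact ⟨k, k', hne, e1.2.trans e2.2.symm, by rw [e1.2]; exact hj, e1.1, e2.1⟩

/-- The weak convergence of the measures of the skeletons of the monomials. -/
theorem tendsto_rho (hf : Function.Surjective f) (hs : HasSec f part) (hc : ∀ j, 0 < c j)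
    {h₀ : (ι → ℝ) → ℝ} (hh₀ : ∀ j, ∀ p ∈ cP f part j, h₀ p = c j) {h : ℕ → (ι → ℝ) → ℝ}
    (hl : ∀ j, ∀ p ∈ cP f part j, Tendsto (fun n => h n p) atTop (𝓝 (c j)))
    {φ : (ι ⊕ σ → ℝ) → ℝ} (hφ : Continuous φ) (hb : ∃ B, ∀ x, |φ x| ≤ B) :
    Tendsto (fun n => ∫ x, φ x ∂((skProb (cP f part) (h n)).map fun x => -thom f x)) atTop
      (𝓝 (∫ x, φ x ∂((nrm ((sk (cP f part) h₀).map (thom f))).map Neg.neg))) := by
  obtain ⟨B, hB⟩ := hb
  have hcn : Continuous fun x : ι → ℝ => -thom f x := (continuous_thom f).neg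
  have h1 : (nrm ((sk (cP f part) h₀).map (thom f))).map Neg.neg =
      (skProb (cP f part) h₀).map fun x => -thom f x := by
    rw [← map_nrm (continuous_thom f).measurable,
      Measure.map_map measurable_neg (continuous_thom f).measurable]
    rfl
  have h2 : ∀ ρ : Measure (ι → ℝ), ∫ x, φ x ∂(ρ.map fun x => -thom f x) =
      ∫ x, φ (-thom f x) ∂ρ := fun ρ =>
    integral_map hcn.measurable.aemeasurable hφ.aestronglyMeasurable
  rw [h1, h2]
  simp only [h2]
  have hQ : IsStrong (cQ f part) fun _ => (1 : ℝ) :=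
    c_strongQ (g := fun _ => (1 : ℝ)) hf fun _ => one_pos
  have N : IsNef (cP f part) (cQ f part) (fun _ => (1 : ℝ)) h₀ :=
    isNef_of_strong (c_pair fun j => cP_subset j) hQ (c_strongP hc hh₀)
  have hne := c_ne hf hs (h := h₀) fun p hp => by
    obtain ⟨j, hj⟩ := hp
    rw [hh₀ j p hj]
    exact hc j
  refine tendsto_skProb N.swap (c_strongP hc hh₀) (sk_univ_ne_zero N.swap (skel_other N hne))
    (a := h) ?_ (fun x => φ (-thom f x)) (hφ.comp hcn) (C := B) fun x => hB _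
  rintro p ⟨j, hp⟩
  rw [hh₀ j p hp]
  exact hl j p hp

private theorem DRow_bdd {α : Type*} {S : Set α} (hS : S.Finite) {F : ℕ → α → ℝ} {l : α → ℝ}
    (h : ∀ p ∈ S, Tendsto (fun n => F n p) atTop (𝓝 (l p))) :
    ∃ B : ℝ, 0 ≤ B ∧ ∀ n, ∀ p ∈ S, F n p ≤ B := by
  have h1 : ∀ p ∈ S, ∃ B : ℝ, ∀ n, F n p ≤ B := fun p hp => by
    obtain ⟨B, hB⟩ := (h p hp).bddAbove_range
    exact ⟨B, fun n => hB ⟨n, rfl⟩⟩
  choose! B hB using h1
  refine ⟨∑ p ∈ hS.toFinset, |B p|, Finset.sum_nonneg fun _ _ => abs_nonneg _,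
    fun n p hp => (hB p hp n).trans ((le_abs_self _).trans ?_)⟩
  exact Finset.single_le_sum (f := fun p => |B p|) (fun _ _ => abs_nonneg _)
    (hS.mem_toFinset.2 hp)

private theorem DRow_smap_le (f : ι → σ) (g : (ι → ℝ) → ℝ) {m : ι → ℝ}
    (hm : ∀ k, 0 ≤ smap f g m k) (k : ι ⊕ σ) : smap f g m k ≤ gsum f g (fac f k) := by
  rw [← rsum_smap f g m (fac f k)]
  unfold rsum
  have h1 := Finset.single_le_sum
    (f := fun l => if fac f l = fac f k then smap f g m l else 0)
    (fun l _ => by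
      show (0 : ℝ) ≤ if fac f l = fac f k then smap f g m l else 0
      split_ifs
      · exact hm l
      · exact le_rfl) (Finset.mem_univ k)
  simpa using h1

private theorem DRow_inj (f : ι → σ) (g : (ι → ℝ) → ℝ) :
    Function.Injective fun w : (ι → ℝ) × (ι → ℝ) =>
      ((smap f g w.1, -thom f w.2) : (ι ⊕ σ → ℝ) × (ι ⊕ σ → ℝ)) := by
  rintro ⟨m, n⟩ ⟨m', n'⟩ h
  have h1 : smap f g m = smap f g m' := (Prod.mk.inj h).1
  have h2 : thom f n = thom f n' := neg_injective (Prod.mk.inj h).2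
  have e1 : m = m' := ext_pray fun k => by
    have h3 := congrFun h1 k
    unfold smap at h3
    linarith
  have e2 : n = n' := by
    rw [(isPHom_thom f n).eq, (isPHom_thom f n').eq, h2]
  rw [e1, e2]

private theorem DRow_cont (f : ι → σ) (g : (ι → ℝ) → ℝ) :
    Continuous fun w : (ι → ℝ) × (ι → ℝ) =>
      ((smap f g w.1, -thom f w.2) : (ι ⊕ σ → ℝ) × (ι ⊕ σ → ℝ)) :=
  ((continuous_smap f g).comp continuous_fst).prodMk
    ((continuous_thom f).comp continuous_snd).neg

theorem rows_seq (hf : Function.Surjective f) (hD : IsReg (cdeg f part)) {M : Finset σ}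
    (hM : IsScale (cdeg f part) M) {G : σ → ℝ} (hG : ∀ i, 0 < G i) (hc : ∀ j, 0 < c j)
    {g h : ℕ → (ι → ℝ) → ℝ} (hg : ∀ n k, 0 < g n (pray f k))
    (hgl : ∀ i, Tendsto (fun n => gsum f (g n) i) atTop (𝓝 (if i ∈ M then G i else 0)))
    (hh : ∀ n, ∀ p ∈ un (cP f part), 0 < h n p)
    (hhl : ∀ j, ∀ p ∈ cP f part j, Tendsto (fun n => h n p) atTop (𝓝 (c j)))
    (hb : ∀ n, IsBad (cP f part) (cQ f part) (g n) (h n)) : False := by
  choose γ Γ x a j y H using fun n => exists_badPt hD (hb n)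
  obtain ⟨⟨a₀, j₀, y₀⟩, φ₁, hφ₁, hconst⟩ :=
    exists_const_subseq fun n => ((a n, j n, y n) : (ι ⊕ σ) × κ × (κ → σ → ι ⊕ σ))
  -- the compact set
  obtain ⟨B₁, hB₁0, hB₁⟩ : ∃ B : ℝ, 0 ≤ B ∧ ∀ n, ∀ i ∈ (Set.univ : Set σ),
      gsum f (g n) i ≤ B := DRow_bdd Set.finite_univ (F := fun n i => gsum f (g n) i)
        fun i _ => hgl i
  obtain ⟨h₀, hh₀⟩ : ∃ h₀ : (ι → ℝ) → ℝ, ∀ j, ∀ p ∈ cP f part j, h₀ p = c j :=
    ⟨fun p => limUnder atTop fun n => h n p, fun j p hp => (hhl j p hp).limUnder_eq⟩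
  have hfinP : (un (cP f part)).Finite :=
    finite_un fun j => (finite_cfull j).subset (cP_subset j)
  obtain ⟨B₂, hB₂0, hB₂⟩ : ∃ B : ℝ, 0 ≤ B ∧ ∀ n, ∀ p ∈ un (cP f part), h n p ≤ B :=
    DRow_bdd hfinP (l := h₀) fun p hp => by
      obtain ⟨j, hj⟩ := hp
      rw [hh₀ j p hj]
      exact hhl j p hj
  obtain ⟨K, hKdef⟩ : ∃ K : Set ((ι ⊕ σ → ℝ) × (ι ⊕ σ → ℝ)),
      K = (Set.pi Set.univ fun _ => Set.Icc (0 : ℝ) B₁) ×ˢ
        (Set.pi Set.univ fun _ => Set.Icc (-B₂) (0 : ℝ)) := ⟨_, rfl⟩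
  have hK : IsCompact K := by
    rw [hKdef]
    exact (isCompact_univ_pi fun _ => isCompact_Icc).prod
      (isCompact_univ_pi fun _ => isCompact_Icc)
  have hpos : ∀ n, ∀ w ∈ Γ n, ∀ k, 0 ≤ smap f (g n) w.1 k := fun n w hw =>
    mem_polyQ.1 ((H n).sub hw).1
  have hΓK : ∀ n, (fun w => (smap f (g n) w.1, -thom f w.2)) '' Γ n ⊆ K := by
    rintro n _ ⟨w, hw, rfl⟩
    rw [hKdef]
    refine ⟨fun k _ => ⟨hpos n w hw k, ?_⟩, fun k _ => ⟨?_, ?_⟩⟩
    · exact (DRow_smap_le f (g n) (hpos n w hw) k).trans (hB₁ n _ (Set.mem_univ _))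
    · show -B₂ ≤ -thom f w.2 k
      exact neg_le_neg (thom_le ((H n).sub hw).2 hB₂0 (fun p hp => hB₂ n p hp) k)
    · show -thom f w.2 k ≤ 0
      exact neg_nonpos.2 ((isPHom_thom f w.2).nonneg k)
  obtain ⟨⟨s₀, τ₀⟩, -, φ₂, hφ₂, hlim⟩ := hK.tendsto_subseq
    (x := fun n => (smap f (g (φ₁ n)) (x (φ₁ n)).1, -thom f (x (φ₁ n)).2))
    fun n => hΓK (φ₁ n) ⟨x (φ₁ n), (H (φ₁ n)).mem, rfl⟩
  obtain ⟨ψ, hψdef⟩ : ∃ ψ : ℕ → ℕ, ψ = φ₁ ∘ φ₂ := ⟨_, rfl⟩
  have hψ : StrictMono ψ := by rw [hψdef]; exact hφ₁.comp hφ₂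
  have hψt : Tendsto ψ atTop atTop := hψ.tendsto_atTop
  have hx0 : Tendsto (fun n => (smap f (g (ψ n)) (x (ψ n)).1, -thom f (x (ψ n)).2)) atTop
      (𝓝 (s₀, τ₀)) := by rw [hψdef]; exact hlim
  have H' : ∀ n, IsBadPt f part (g (ψ n)) (h (ψ n)) (γ (ψ n)) (Γ (ψ n)) (x (ψ n)) a₀ j₀ y₀ := by
    intro n
    have h1 : (a (ψ n), j (ψ n), y (ψ n)) = (a₀, j₀, y₀) := by
      rw [hψdef]
      exact hconst (φ₂ n)
    have e1 : a (ψ n) = a₀ := congrArg Prod.fst h1
    have e2 : j (ψ n) = j₀ := congrArg (fun z => z.2.1) h1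
    have e3 : y (ψ n) = y₀ := congrArg (fun z => z.2.2) h1
    have h2 := H (ψ n)
    rw [e1, e2, e3] at h2
    exact h2
  have hl1 : Tendsto (fun n => smap f (g (ψ n)) (x (ψ n)).1) atTop (𝓝 s₀) :=
    (continuous_fst.tendsto _).comp hx0
  have hl2 : Tendsto (fun n => -thom f (x (ψ n)).2) atTop (𝓝 τ₀) :=
    (continuous_snd.tendsto _).comp hx0
  have hl3 : Tendsto (fun n => thom f (x (ψ n)).2) atTop (𝓝 (-τ₀)) := by
    have h1 := hl2.neg
    simpa only [neg_neg] using h1
  have hsa : s₀ a₀ = 0 := by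
    refine tendsto_nhds_unique (tendsto_pi_nhds.1 hl1 a₀) ?_
    have h1 : (fun n => smap f (g (ψ n)) (x (ψ n)).1 a₀) = fun _ => (0 : ℝ) :=
      funext fun n => (H' n).tightQ
    rw [h1]
    exact tendsto_const_nhds
  have hhl' : ∀ j, ∀ p ∈ cP f part j, Tendsto (fun n => h (ψ n) p) atTop (𝓝 (c j)) :=
    fun j p hp => (hhl j p hp).comp hψt
  obtain ⟨hτ₀, hτ₁⟩ := thom_limit (h := fun n => h (ψ n)) hc hhl'
    (x := fun n => (x (ψ n)).2) (fun n => ((H' n).sub (H' n).mem).2) (H' 0).sec (H' 0).tup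
    (fun n => (H' n).tightP) hl3
  have hta : τ₀ a₀ = 0 := by
    have h1 := hτ₁ j₀ (fac f a₀) (H' 0).ne
    rw [(H' 0).eq] at h1
    exact neg_eq_zero.1 h1
  have haM : fac f a₀ ∈ M := hM.one _ _ (H' 0).one
  have ha : ∀ k, part k = part a₀ → fac f k ∈ M → k = a₀ := by
    intro k hk hkM
    by_cases hfk : fac f k = fac f a₀
    · exact cdeg_one (H' 0).one hfk hk
    · exfalso
      have h1 := hM.alone _ haM _ (H' 0).one _ hkM hfk
      have h2 : k ∈ Finset.univ.filter fun l => fac f l = fac f k ∧ part l = part a₀ :=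
        Finset.mem_filter.2 ⟨Finset.mem_univ _, rfl, hk⟩
      have h3 := Finset.card_pos.2 ⟨k, h2⟩
      have h4 : (Finset.univ.filter fun l => fac f l = fac f k ∧ part l = part a₀).card = 0 := h1
      omega
  have hth := isThick_of_scale hM
  have hrow : ∀ i, ∃ k, fac f k = i := fun i => ⟨Sum.inr i, rfl⟩
  have hs : HasSec f part := exists_sec hrow hth
  obtain ⟨C, hC, hflatS⟩ := exists_flatS f hf part
  obtain ⟨C', hC', hflatT⟩ := exists_flatT f hf part
  have hgs : ∀ n i, 0 < gsum f (g n) i := fun n i => by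
    unfold gsum
    refine Finset.sum_pos' (fun k _ => ?_) ⟨Sum.inr i, Finset.mem_univ _, ?_⟩
    · split_ifs
      · exact (hg n k).le
      · exact le_rfl
    · rw [if_pos (show fac f (Sum.inr i) = i from rfl)]
      exact hg n _
  have hlamG : ∀ n, (fun i => gsum f (g (ψ n)) i / G i * G i) = gsum f (g (ψ n)) := fun n =>
    funext fun i => div_mul_cancel₀ _ (hG i).ne'
  have hprobS : ∀ n, IsProbabilityMeasure (nrm ((sk (cQ f part) (g n)).map (smap f (g n)))) :=
    fun n => mass_S hf hs (hg n)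
  have hmapS : ∀ n, (skProb (cQ f part) (g n)).map (smap f (g n)) =
      nrm ((sk (cQ f part) (g n)).map (smap f (g n))) := fun n =>
    map_nrm (continuous_smap f (g n)).measurable
  have hprobQ : ∀ n, IsProbabilityMeasure (skProb (cQ f part) (g n)) := fun n => by
    refine ⟨?_⟩
    have h1 := (hprobS n).measure_univ
    rw [← hmapS n, Measure.map_apply (continuous_smap f (g n)).measurable MeasurableSet.univ,
      Set.preimage_univ] at h1
    exact h1
  have hprobP : ∀ n, IsProbabilityMeasure (skProb (cP f part) (h (ψ n))) := fun n => by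
    haveI := hprobQ (ψ n)
    haveI := (H' n).plan.isProbabilityMeasure
    rw [← (H' n).plan.2]
    exact Measure.isProbabilityMeasure_map measurable_snd.aemeasurable
  have hcn : Measurable fun x : ι → ℝ => -thom f x := (continuous_thom f).neg.measurable
  refine macro_false (row := fac f) (col := part) hrow hth haM ha (exists_two hf a₀) hG hc hC hC'
    (lam := fun n i => gsum f (g (ψ n)) i / G i)
    (fun n i => div_pos (hgs _ i) (hG i)) ?_
    (μ := fun n => (sk (cQ f part) (g (ψ n))).map (smap f (g (ψ n)))) ?_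
    (fun n => hprobS (ψ n)) (ν := (sk (cP f part) h₀).map (thom f)) (hflatT c hc h₀ hh₀)
    (mass_T hf hs hc hh₀)
    (ρ := fun n => (skProb (cP f part) (h (ψ n))).map fun x => -thom f x) ?_ ?_
    (π := fun n => (γ (ψ n)).map fun w => (smap f (g (ψ n)) w.1, -thom f w.2)) ?_ hK
    (Γ := fun n => (fun w => (smap f (g (ψ n)) w.1, -thom f w.2)) '' Γ (ψ n))
    (fun n => hΓK (ψ n)) ?_ ?_ (fun n => cycMono_smap (H' n).cyc)
    (fun n => ⟨x (ψ n), (H' n).mem, rfl⟩) hx0 hτ₀ hsa hta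
  · intro i
    have h1 := ((hgl i).comp hψt).div_const (G i)
    have h2 : (if i ∈ M then G i else 0) / G i = lamM M i := by
      unfold lamM
      split_ifs
      · exact div_self (hG i).ne'
      · exact zero_div _
    rw [h2] at h1
    exact h1
  · intro n
    show IsFlat (fac f) part C (fun i => gsum f (g (ψ n)) i / G i * G i) _
    rw [hlamG n]
    exact hflatS (g (ψ n))
  · intro n
    haveI := hprobP n
    exact Measure.isProbabilityMeasure_map hcn.aemeasurable
  · intro φ hφ hb'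
    exact tendsto_rho hf hs hc hh₀ hhl' hφ hb'
  · intro n
    have hF := (DRow_cont f (g (ψ n))).measurable
    constructor
    · rw [Measure.map_map measurable_fst hF]
      have h1 : (Prod.fst ∘ fun w : (ι → ℝ) × (ι → ℝ) =>
          ((smap f (g (ψ n)) w.1, -thom f w.2) : (ι ⊕ σ → ℝ) × (ι ⊕ σ → ℝ))) =
            smap f (g (ψ n)) ∘ Prod.fst := rfl
      rw [h1, ← Measure.map_map (continuous_smap f (g (ψ n))).measurable measurable_fst,
        (H' n).plan.1, hmapS]
    · rw [Measure.map_map measurable_snd hF]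
      have h1 : (Prod.snd ∘ fun w : (ι → ℝ) × (ι → ℝ) =>
          ((smap f (g (ψ n)) w.1, -thom f w.2) : (ι ⊕ σ → ℝ) × (ι ⊕ σ → ℝ))) =
            (fun x => -thom f x) ∘ Prod.snd := rfl
      rw [h1, ← Measure.map_map hcn measurable_snd, (H' n).plan.2]
  · rintro n _ ⟨w, hw, rfl⟩
    refine ⟨hpos _ w hw, fun i => ?_⟩
    show rsum (fac f) i (smap f (g (ψ n)) w.1) = gsum f (g (ψ n)) i / G i * G i
    rw [rsum_smap, div_mul_cancel₀ _ (hG i).ne']
  · intro n
    have hemb := (DRow_cont f (g (ψ n))).measurableEmbedding (DRow_inj f (g (ψ n)))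
    rw [hemb.ae_map_iff]
    filter_upwards [(H' n).ae] with w hw
    exact ⟨w, hw, rfl⟩

end Pool.Agent.H99.PI
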