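import Pool.Agent.H99.PI.BDefs

/-!
# All degree matrices are realised
-/

set_option linter.unusedSectionVars false

open MeasureTheory Matrix
open scoped ENNReal

namespace Pool.Agent.H99.PI

open Pool.Agent.H99.ON

theorem exists_data {σ κ : Type} [Fintype σ] [DecidableEq σ] [Fintype κ] [DecidableEq κ]
    (D : σ → κ → ℕ) (hD : ∀ i, 2 ≤ ∑ j, D i j) :
    ∃ (ι : Type) (_ : Fintype ι) (_ : DecidableEq ι) (f : ι → σ) (part : ι ⊕ σ → κ),
      Function.Surjective f ∧ ∀ i j, cdeg f part i j = D i j := by
  classical
  have hcard : ∀ i, Fintype.card (Σ j, Fin (D i j)) = ∑ j, D i j := fun i => by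
    rw [Fintype.card_sigma]
    simp
  have hne : ∀ i, Nonempty (Σ j, Fin (D i j)) := fun i => by
    rw [← Fintype.card_pos_iff, hcard]
    have := hD i
    omega
  obtain ⟨w⟩ : Nonempty (∀ i, Σ j, Fin (D i j)) := ⟨fun i => (hne i).some⟩
  let ι := Σ i, {x : (Σ j, Fin (D i j)) // x ≠ w i}
  let f : ι → σ := fun x => x.1
  let part : ι ⊕ σ → κ := Sum.elim (fun x => x.2.1.1) fun i => (w i).1
  refine ⟨ι, inferInstance, inferInstance, f, part, ?_, ?_⟩
  · intro i
    have h1 : 1 < Fintype.card (Σ j, Fin (D i j)) := by
      rw [hcard]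
      have := hD i
      omega
    obtain ⟨x, hx⟩ := Fintype.exists_ne_of_one_lt_card h1 (w i)
    exact ⟨⟨i, x, hx⟩, rfl⟩
  · intro i j
    have h1 : (Finset.univ.filter fun x : (Σ j, Fin (D i j)) => x.1 = j).card = D i j := by
      have h2 : (Finset.univ.filter fun x : (Σ j, Fin (D i j)) => x.1 = j) =
          (Finset.univ : Finset (Fin (D i j))).map ⟨fun y => ⟨j, y⟩, fun a b hab => by
            simpa using hab⟩ := by
        ext x
        simp only [Finset.mem_filter, Finset.mem_univ, true_and, Finset.mem_map,
          Function.Embedding.coeFn_mk]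
        constructor
        · intro hx
          obtain ⟨a, b⟩ := x
          subst hx
          exact ⟨b, rfl⟩
        · rintro ⟨y, rfl⟩
          rfl
      rw [h2, Finset.card_map, Finset.card_univ, Fintype.card_fin]
    rw [← h1, cdeg]
    symm
    let F : (Σ j, Fin (D i j)) → ι ⊕ σ := fun x =>
      if h : x = w i then Sum.inr i else Sum.inl ⟨i, x, h⟩
    have hF1 : ∀ x, fac f (F x) = i := by
      intro x
      by_cases h : x = w i
      · simp only [F, dif_pos h]; rfl
      · simp only [F, dif_neg h]; rfl
    have hF2 : ∀ x, part (F x) = x.1 := by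
      intro x
      by_cases h : x = w i
      · simp only [F, dif_pos h]
        rw [h]; rfl
      · simp only [F, dif_neg h]; rfl
    refine Finset.card_bij (fun x _ => F x) ?_ ?_ ?_
    · intro x hx
      rw [Finset.mem_filter] at hx ⊢
      exact ⟨Finset.mem_univ _, hF1 x, (hF2 x).trans hx.2⟩
    · intro x _ y _ hxy
      by_cases hx : x = w i
      · by_cases hy : y = w i
        · rw [hx, hy]
        · simp only [F, dif_pos hx, dif_neg hy] at hxy
          exact absurd hxy (by simp)
      · by_cases hy : y = w i
        · simp only [F, dif_neg hx, dif_pos hy] at hxy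
          exact absurd hxy (by simp)
        · simp only [F, dif_neg hx, dif_neg hy, Sum.inl.injEq] at hxy
          have h3 := (Sigma.mk.inj_iff.1 hxy).2
          exact congrArg Subtype.val (eq_of_heq h3)
    · intro k hk
      rw [Finset.mem_filter] at hk
      obtain ⟨-, hk1, hk2⟩ := hk
      cases k with
      | inl x =>
        obtain ⟨i', x, hx⟩ := x
        change i' = i at hk1
        subst hk1
        refine ⟨x, ?_, ?_⟩
        · rw [Finset.mem_filter]
          exact ⟨Finset.mem_univ _, hk2⟩
        · simp only [F, dif_neg hx]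
      | inr i' =>
        change i' = i at hk1
        subst hk1
        refine ⟨w i', ?_, ?_⟩
        · rw [Finset.mem_filter]
          exact ⟨Finset.mem_univ _, hk2⟩
        · simp only [F, dif_pos]

end Pool.Agent.H99.PI
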