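import Pool.Agent.H99.PI.EForest

/-!
# Regular degree matrices

Two equations: for `a = z 0`, `b = z 1` the matrix is
`!![1 - D a 0 * e00, -(D b 0) * e01; -(D a 1) * e10, 1 - D b 1 * e11]`; for `a = b` every row of `e` has at
most one entry.
-/

set_option linter.unusedSectionVars false

open MeasureTheory Matrix
open scoped ENNReal

namespace Pool.Agent.H99.PI

/-- One equation: all matrices are regular. -/
theorem isReg_one {σ : Type} (D : σ → Fin 1 → ℕ) : IsReg D := by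
  intro z e he _
  rw [Matrix.det_fin_one]
  simp only [Matrix.of_apply, if_true]
  by_cases h : e 0 0 = true
  · rw [if_pos h]
    have h2 : (2 : ℝ) ≤ (D (z 0) 0 : ℝ) := by exact_mod_cast he 0 0 h
    intro h3
    linarith
  · rw [if_neg h]
    norm_num

/-- Two equations. -/
theorem isReg_two {σ : Type} (D : σ → Fin 2 → ℕ)
    (h1 : ∀ a b, a ≠ b → 2 ≤ D a 0 → 2 ≤ D b 1 → D b 0 * D a 1 ≠ 1)
    (h2 : ∀ a b, a ≠ b → 2 ≤ D a 0 → 2 ≤ D b 1 → (D a 0 - 1) * (D b 1 - 1) ≠ D b 0 * D a 1) :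
    IsReg D := by
  classical
  intro z e he hz
  rw [Matrix.det_fin_two]
  simp only [Matrix.of_apply, if_true]
  rw [if_neg (by decide : ¬ (0 : Fin 2) = 1), if_neg (by decide : ¬ (1 : Fin 2) = 0)]
  have hf : ∀ j : Fin 2, (1 - (if e j j = true then (D (z j) j : ℝ) else 0)) ≠ 0 := by
    intro j
    by_cases h : e j j = true
    · rw [if_pos h]
      have h2 : (2 : ℝ) ≤ (D (z j) j : ℝ) := by exact_mod_cast he j j h
      intro h3
      linarith
    · rw [if_neg h]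
      norm_num
  by_cases h01 : e 0 1 = true
  swap
  · rw [if_neg h01]
    have := mul_ne_zero (hf 0) (hf 1)
    simpa using this
  by_cases h10 : e 1 0 = true
  swap
  · rw [if_neg h10]
    have := mul_ne_zero (hf 0) (hf 1)
    simpa using this
  rw [if_pos h01, if_pos h10]
  have ha : 2 ≤ D (z 0) 0 := he 1 0 h10
  have hb : 2 ≤ D (z 1) 1 := he 0 1 h01
  have ha' : (2 : ℝ) ≤ (D (z 0) 0 : ℝ) := by exact_mod_cast ha
  have hb' : (2 : ℝ) ≤ (D (z 1) 1 : ℝ) := by exact_mod_cast hb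
  have hp : (0 : ℝ) ≤ (D (z 1) 0 : ℝ) * (D (z 0) 1 : ℝ) := by positivity
  by_cases hab : z 0 = z 1
  · have h00 : ¬ e 0 0 = true := fun h => by
      have := hz 0 0 1 h h01 hab
      exact absurd this (by decide)
    have h11 : ¬ e 1 1 = true := fun h => by
      have := hz 1 0 1 h10 h hab
      exact absurd this (by decide)
    rw [if_neg h00, if_neg h11]
    rw [hab] at ha' ⊢
    intro h3
    nlinarith [mul_le_mul ha' hb' (by norm_num) (by linarith)]
  · have k1 := h1 _ _ hab ha hb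
    have k2 := h2 _ _ hab ha hb
    by_cases h00 : e 0 0 = true
    · by_cases h11 : e 1 1 = true
      · rw [if_pos h00, if_pos h11]
        intro h3
        apply k2
        have h4 : (((D (z 0) 0 - 1) * (D (z 1) 1 - 1) : ℕ) : ℝ) =
            ((D (z 1) 0 * D (z 0) 1 : ℕ) : ℝ) := by
          push_cast [Nat.cast_sub (by omega : 1 ≤ D (z 0) 0),
            Nat.cast_sub (by omega : 1 ≤ D (z 1) 1)]
          linarith
        exact_mod_cast h4
      · rw [if_pos h00, if_neg h11]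
        intro h3
        nlinarith
    · by_cases h11 : e 1 1 = true
      · rw [if_neg h00, if_pos h11]
        intro h3
        nlinarith
      · rw [if_neg h00, if_neg h11]
        intro h3
        apply k1
        have h4 : ((D (z 1) 0 * D (z 0) 1 : ℕ) : ℝ) = ((1 : ℕ) : ℝ) := by
          push_cast
          linarith
        exact_mod_cast h4

/-- The matrix of Schoen. -/
theorem reg_schoen : IsReg (![![1, 1], ![3, 0], ![0, 3]] : Fin 3 → Fin 2 → ℕ) ∧
    IsScale (![![1, 1], ![3, 0], ![0, 3]] : Fin 3 → Fin 2 → ℕ) {0} := by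
  refine ⟨isReg_forest ⟨![0, 2, 2], fun _ => 1, ?_, ?_, ?_⟩, ⟨?_, ?_, ?_⟩⟩ <;> decide

/-- The matrix of Tian and Yau. -/
theorem reg_tianyau : IsReg (![![3, 0, 1], ![0, 3, 1]] : Fin 2 → Fin 3 → ℕ) ∧
    IsScale (fun j i => (![![3, 0, 1], ![0, 3, 1]] : Fin 2 → Fin 3 → ℕ) i j) {2} := by
  refine ⟨isReg_forest ⟨fun _ => 1, ![2, 2, 0], ?_, ?_, ?_⟩, ⟨?_, ?_, ?_⟩⟩ <;> decide

theorem reg_14 : IsReg (![![1, 1], ![3, 2]] : Fin 2 → Fin 2 → ℕ) ∧
    IsScale (![![1, 1], ![3, 2]] : Fin 2 → Fin 2 → ℕ) {0} := by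
  refine ⟨isReg_two _ ?_ ?_, ⟨?_, ?_, ?_⟩⟩ <;> decide

theorem reg_23 : IsReg (![![2, 1], ![2, 2]] : Fin 2 → Fin 2 → ℕ) ∧
    IsScale (![![2, 1], ![2, 2]] : Fin 2 → Fin 2 → ℕ) {0} := by
  refine ⟨isReg_two _ ?_ ?_, ⟨?_, ?_, ?_⟩⟩ <;> decide

end Pool.Agent.H99.PI
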